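import Pool.Agent.Lib.SE.S.Spec

/-!
# PROJECT SE-S: basic facts on `sp` (helper35)
-/

set_option autoImplicit false

open Module

noncomputable section

namespace SES

open HC HC.E HC.SE SEB SEQ SER

namespace Bs_aux

variable {V : Type} [AddCommGroup V] [Module ℂ V] {f : V →ₗ[ℂ] V →ₗ[ℂ] ℂ}

theorem mem_Sp {X : Module.End ℂ V} : X ∈ Sp f ↔ ∀ v w, f (X v) w + f v (X w) = 0 := Iff.rfl

theorem sy_mem (h : IsSf f) (v w : V) : sy f v w ∈ Sp f := by
  rw [mem_Sp]
  intro z z'
  rw [sy_apply, sy_apply]
  simp only [map_add, map_smul, LinearMap.add_apply, LinearMap.smul_apply, smul_eq_mul]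
  rw [h.alt z v, h.alt z w]
  ring

theorem br_sy {X : Module.End ℂ V} (hX : X ∈ Sp f) (v w : V) :
    X * sy f v w - sy f v w * X = sy f (X v) w + sy f v (X w) := by
  rw [mem_Sp] at hX
  refine LinearMap.ext fun z => ?_
  rw [LinearMap.sub_apply, LinearMap.add_apply, Module.End.mul_apply, Module.End.mul_apply,
    sy_apply, sy_apply, sy_apply, sy_apply, map_add, map_smul, map_smul,
    eq_neg_of_add_eq_zero_left (hX v z), eq_neg_of_add_eq_zero_left (hX w z)]
  module

theorem br_mem {X Y : Module.End ℂ V} (hX : X ∈ Sp f) (hY : Y ∈ Sp f) : X * Y - Y * X ∈ Sp f := by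
  rw [mem_Sp] at hX hY ⊢
  intro v w
  simp only [LinearMap.sub_apply, Module.End.mul_apply, map_sub]
  have h1 := hX (Y v) w
  have h2 := hY (X v) w
  have h3 := hX v (Y w)
  have h4 := hY v (X w)
  linear_combination h1 - h2 + h3 - h4

theorem sy_inj (h : IsSf f) {u v : V} (hv : v ≠ 0) (h0 : sy f u v = 0) : u = 0 := by
  have h1 : ∃ z, f v z ≠ 0 := by
    by_contra hc
    exact hv (h.nd v fun w => by
      by_contra hw
      exact hc ⟨w, hw⟩)
  obtain ⟨z, hz⟩ := h1
  have h2 : ∀ z, f v z • u + f u z • v = 0 := fun z => by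
    rw [← sy_apply, h0, LinearMap.zero_apply]
  have h3 : u = (-(f u z / f v z)) • v := by
    have h4 : f v z • u = f v z • ((-(f u z / f v z)) • v) := by
      rw [smul_smul, mul_neg, mul_div_cancel₀ _ hz, neg_smul]
      exact eq_neg_of_add_eq_zero_left (h2 z)
    exact smul_right_injective V hz h4
  have h5 : f u z = -f u z := by
    have h6 : f u z = (-(f u z / f v z)) * f v z := by
      conv_lhs => rw [h3]
      rw [map_smul, LinearMap.smul_apply, smul_eq_mul]
    rw [neg_mul, div_mul_cancel₀ _ hz] at h6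
    exact h6
  have h7 : f u z = 0 := by
    linear_combination h5 / 2
  rw [h3, h7, zero_div, neg_zero, zero_smul]

theorem nd_right (h : IsSf f) {v : V} (hv : ∀ w, f w v = 0) : v = 0 :=
  h.nd v fun w => by rw [h.alt v w, hv w, neg_zero]

theorem span_sy [FiniteDimensional ℂ V] (h : IsSf f) {X : Module.End ℂ V} (hX : X ∈ Sp f) :
    X ∈ Submodule.span ℂ (Set.range fun p : V × V => sy f p.1 p.2) := by
  classical
  rw [mem_Sp] at hX
  have hinj : Function.Injective f := by
    rw [injective_iff_map_eq_zero]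
    intro v hv
    exact h.nd v fun w => by rw [hv, LinearMap.zero_apply]
  have hsurj : Function.Surjective f :=
    (LinearMap.injective_iff_surjective_of_finrank_eq_finrank
      (Subspace.dual_finrank_eq (K := ℂ) (V := V)).symm).1 hinj
  let b := Module.finBasis ℂ V
  choose d hd using fun j => hsurj (b.coord j)
  have hsum : ∀ w, ∑ j, f (d j) w • b j = w := by
    intro w
    refine Eq.trans (Finset.sum_congr rfl fun j _ => ?_) (b.sum_repr w)
    rw [hd j, b.coord_apply]
  have h1 : ∀ z, ∑ j, f (d j) z • X (b j) = X z := by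
    intro z
    conv_rhs => rw [← hsum z]
    rw [map_sum]
    exact Finset.sum_congr rfl fun j _ => (map_smul X _ _).symm
  have h2 : ∀ z, ∑ j, f (X (b j)) z • d j = X z := by
    intro z
    refine sub_eq_zero.1 (nd_right h fun w => ?_)
    have h3 : f w (∑ j, f (X (b j)) z • d j) = -f (X w) z := by
      rw [map_sum]
      have h4 : f (X w) z = ∑ j, f (d j) w * f (X (b j)) z := by
        rw [← h1 w, map_sum, LinearMap.sum_apply]
        exact Finset.sum_congr rfl fun j _ => by
          rw [map_smul, LinearMap.smul_apply, smul_eq_mul]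
      rw [h4, ← Finset.sum_neg_distrib]
      refine Finset.sum_congr rfl fun j _ => ?_
      rw [map_smul, smul_eq_mul, h.alt w (d j)]
      ring
    rw [map_sub, h3]
    linear_combination -(hX w z)
  have h5 : X = (1 / 2 : ℂ) • ∑ j, sy f (X (b j)) (d j) := by
    refine LinearMap.ext fun z => ?_
    rw [LinearMap.smul_apply, LinearMap.sum_apply]
    have h6 : ∑ j, sy f (X (b j)) (d j) z = X z + X z := by
      conv_rhs => rw [← h1 z]
      rw [h1 z]
      conv_rhs =>
        congr
        · rw [← h1 z]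
        · rw [← h2 z]
      rw [← Finset.sum_add_distrib]
      exact Finset.sum_congr rfl fun j _ => sy_apply f _ _ _
    rw [h6]
    module
  rw [h5]
  exact Submodule.smul_mem _ _ (Submodule.sum_mem _ fun j _ =>
    Submodule.subset_span ⟨(X (b j), d j), rfl⟩)

end Bs_aux

open Bs_aux in
theorem tBs : S_Bs := by
  intro V _ _ _ f h
  exact ⟨sy_mem h, fun X hX v w => br_sy hX v w, fun X hX Y hY => br_mem hX hY,
    fun u v hv h0 => sy_inj h hv h0, fun X hX => span_sy h hX⟩

end SES
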