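import Pool.Agent.Lib.SE.S.Spec

/-!
# PROJECT SE-S, `ClX`: commutators, generic

Author: helper67 (statement and plan: helper59).
-/

set_option autoImplicit false

noncomputable section

namespace SES

namespace ClX_aux

variable {R C : Type} [Ring R] [Algebra ℝ R] [Ring C] [Algebra ℂ C] {π : R → C}

theorem map_sub' (ha : ∀ x y, π (x + y) = π x + π y) (x y : R) : π (x - y) = π x - π y := by
  have h := ha (x - y) y
  rw [sub_add_cancel] at h
  rw [h, add_sub_cancel_right]

theorem map_zero' (ha : ∀ x y, π (x + y) = π x + π y) : π 0 = 0 := by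
  have h := map_sub' ha 0 0
  rwa [sub_zero, sub_self] at h

/-- bilinear extension -/
theorem comm_span {S : Set C} {g : Submodule ℂ C} {B : C} (h : ∀ A ∈ S, A * B - B * A ∈ g) :
    ∀ A ∈ Submodule.span ℂ S, A * B - B * A ∈ g := by
  intro A hA
  induction hA using Submodule.span_induction with
  | mem x hx => exact h x hx
  | zero => simp
  | add x y _ _ hx hy =>
    have : (x + y) * B - B * (x + y) = (x * B - B * x) + (y * B - B * y) := by noncomm_ring
    rw [this]
    exact g.add_mem hx hy
  | smul c x _ hx =>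
    have : (c • x) * B - B * (c • x) = c • (x * B - B * x) := by
      rw [smul_mul_assoc, mul_smul_comm, smul_sub]
    rw [this]
    exact g.smul_mem c hx

end ClX_aux

open ClX_aux in
/-- COMMUTATORS, generic -/
theorem tClX : S_ClX := by
  intro R C _ _ _ _ π ha hs hm h j hh hj g hg
  have hz := map_zero' ha
  have hsub := map_sub' ha
  have hcom : ∀ x ∈ h, ∀ y ∈ h, π (x * y - y * x) ∈ g := by
    intro x hx y hy
    rw [hg]
    exact Submodule.subset_span ⟨_, ⟨x, hx, y, hy, rfl⟩, rfl⟩
  -- brackets of the images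
  have hbr : ∀ x ∈ h, ∀ y ∈ h, π x * π y - π y * π x ∈ g := by
    intro x hx y hy
    have h1 := hcom y hy x hx
    rwa [hsub, hm, hm] at h1
  have hneg : ∀ {A B : C}, A * B - B * A ∈ g → B * A - A * B ∈ g := by
    intro A B h1
    have h2 := g.neg_mem h1
    rwa [neg_sub] at h2
  have h2 : ∀ x ∈ h, ∀ A ∈ g, π x * A - A * π x ∈ g := by
    intro x hx A hA
    apply hneg
    rw [hg] at hA
    refine comm_span (S := π '' {z | ∃ x ∈ h, ∃ y ∈ h, z = x * y - y * x}) ?_ A hA
    rintro _ ⟨z, ⟨a, ha', b, hb', rfl⟩, rfl⟩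
    exact hbr _ (hh a ha' b hb') x hx
  have h1 : ∀ A ∈ g, ∀ B ∈ g, A * B - B * A ∈ g := by
    intro A hA B hB
    rw [hg] at hA
    refine comm_span (S := π '' {z | ∃ x ∈ h, ∃ y ∈ h, z = x * y - y * x}) ?_ A hA
    rintro _ ⟨z, ⟨a, ha', b, hb', rfl⟩, rfl⟩
    exact h2 _ (hh a ha' b hb') B hB
  have h3 : ∀ A ∈ g, π j * A - A * π j ∈ g := by
    intro A hA
    induction hj using Submodule.span_induction with
    | mem x hx => exact h2 x hx A hA
    | zero => rw [hz]; simp
    | add x y _ _ hx hy =>
      have : π (x + y) * A - A * π (x + y) = (π x * A - A * π x) + (π y * A - A * π y) := by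
        rw [ha]
        noncomm_ring
      rw [this]
      exact g.add_mem hx hy
    | smul r x _ hx =>
      have : π (r • x) * A - A * π (r • x) = (r : ℂ) • (π x * A - A * π x) := by
        rw [hs, smul_mul_assoc, mul_smul_comm, smul_sub]
      rw [this]
      exact g.smul_mem _ hx
  refine ⟨h1, h2, h3, ?_, ?_⟩
  · intro hJ A hA
    have h4 := h3 _ (h3 A hA)
    have h5 : π j * (π j * A - A * π j) - (π j * A - A * π j) * π j =
        (-2 : ℂ) • A - (2 : ℂ) • (π j * A * π j) := by
      have h6 : π j * (π j * A - A * π j) - (π j * A - A * π j) * π j =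
          (π j * π j) * A + A * (π j * π j) - (π j * A * π j + π j * A * π j) := by noncomm_ring
      rw [h6, hJ, neg_smul, two_smul, two_smul]
      noncomm_ring
    rw [h5] at h4
    have h7 : A - π j * A * π j = (2 : ℂ) • A + (1 / 2 : ℂ) • ((-2 : ℂ) • A -
        (2 : ℂ) • (π j * A * π j)) := by
      rw [smul_sub, smul_smul, smul_smul]
      norm_num
      rw [two_smul]
      abel
    rw [h7]
    exact g.add_mem (g.smul_mem _ hA) (g.smul_mem _ h4)
  · intro z hz'
    induction hz' using Submodule.span_induction with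
    | mem x hx =>
      rw [hg]
      exact Submodule.subset_span ⟨x, hx, rfl⟩
    | zero => rw [hz]; exact g.zero_mem
    | add x y _ _ hx hy => rw [ha]; exact g.add_mem hx hy
    | smul r x _ hx => rw [hs]; exact g.smul_mem _ hx

end SES
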