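import Pool.Agent.Lib.SE.S.ExS

/-!
# PROJECT SE-S, part 1: dimensions
-/

set_option autoImplicit false

open Module

noncomputable section

namespace SES

open HC HC.E HC.SE SEB SEQ SER

namespace DiS_aux

/-- Symmetric bilinear forms. -/
def Sy (W : Type) [AddCommGroup W] [Module ℂ W] : Submodule ℂ (W →ₗ[ℂ] W →ₗ[ℂ] ℂ) where
  carrier := {B | ∀ v w, B v w = B w v}
  add_mem' {B B'} h h' v w := by
    simp only [LinearMap.add_apply]
    rw [h v w, h' v w]
  zero_mem' v w := by simp
  smul_mem' c B h v w := by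
    simp only [LinearMap.smul_apply]
    rw [h v w]

theorem finrank_Sy (W : Type) [AddCommGroup W] [Module ℂ W] [FiniteDimensional ℂ W] :
    2 * finrank ℂ (Sy W) = finrank ℂ W * (finrank ℂ W + 1) := by
  classical
  set b := Module.finBasis ℂ W
  let F : Sy W →ₗ[ℂ] (Sym2 (Fin (finrank ℂ W)) → ℂ) :=
    { toFun := fun B s => Sym2.lift ⟨fun i j => (B : W →ₗ[ℂ] W →ₗ[ℂ] ℂ) (b i) (b j),
        fun i j => B.2 _ _⟩ s
      map_add' := fun B B' => by
        funext s
        induction s using Sym2.ind with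
        | _ i j => rfl
      map_smul' := fun c B => by
        funext s
        induction s using Sym2.ind with
        | _ i j => rfl }
  have hF : ∀ (B : Sy W) i j, F B s(i, j) = (B : W →ₗ[ℂ] W →ₗ[ℂ] ℂ) (b i) (b j) :=
    fun B i j => rfl
  have hbij : Function.Bijective F := by
    constructor
    · rw [injective_iff_map_eq_zero]
      intro B hB
      refine Subtype.ext (b.ext fun i => b.ext fun j => ?_)
      rw [← hF, hB]
      rfl
    · intro g
      set B : W →ₗ[ℂ] W →ₗ[ℂ] ℂ := b.constr ℂ fun i => b.constr ℂ fun j => g s(i, j) with hB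
      have h1 : ∀ i j, B (b i) (b j) = g s(i, j) := by
        intro i j
        rw [hB, Basis.constr_basis, Basis.constr_basis]
      have h2 : B.flip = B := by
        refine b.ext fun i => b.ext fun j => ?_
        rw [LinearMap.flip_apply, h1, h1, Sym2.eq_swap]
      refine ⟨⟨B, fun v w => ?_⟩, ?_⟩
      · conv_lhs => rw [← h2]
        rw [LinearMap.flip_apply]
      · funext s
        induction s using Sym2.ind with
        | _ i j =>
          rw [hF]
          exact h1 i j
  rw [(LinearEquiv.ofBijective F hbij).finrank_eq, Module.finrank_fintype_fun_eq_card, Sym2.card,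
    Fintype.card_fin, Nat.choose_two_right, Nat.add_sub_cancel]
  rw [Nat.mul_div_cancel' (by
    rw [mul_comm]
    exact (Nat.even_mul_succ_self _).two_dvd), mul_comm]

variable {V : Type} [AddCommGroup V] [Module ℂ V] [FiniteDimensional ℂ V]
  {f : V →ₗ[ℂ] V →ₗ[ℂ] ℂ}

theorem inj (hf : IsSf f) : Function.Injective f := by
  rw [injective_iff_map_eq_zero]
  intro v hv
  refine hf.nd v fun w => ?_
  rw [hv, LinearMap.zero_apply]

/-- The isomorphism of `V` with its dual. -/
def fe (hf : IsSf f) : V ≃ₗ[ℂ] (V →ₗ[ℂ] ℂ) :=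
  LinearMap.linearEquivOfInjective f (inj hf) (Subspace.dual_finrank_eq (K := ℂ) (V := V)).symm

theorem fe_apply (hf : IsSf f) (v : V) : fe hf v = f v := rfl

/-- The endomorphism with `f (X v) w = B v w`. -/
def en (hf : IsSf f) (B : V →ₗ[ℂ] V →ₗ[ℂ] ℂ) : Module.End ℂ V := (fe hf).symm.toLinearMap ∘ₗ B

theorem en_apply (hf : IsSf f) (B : V →ₗ[ℂ] V →ₗ[ℂ] ℂ) (v w : V) : f (en hf B v) w = B v w := by
  have h : fe hf (en hf B v) = B v := by
    rw [en, LinearMap.comp_apply, LinearEquiv.coe_coe, LinearEquiv.apply_symm_apply]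
  rw [← fe_apply hf, h]

theorem en_mem (hf : IsSf f) (B : V →ₗ[ℂ] V →ₗ[ℂ] ℂ) (hB : ∀ v w, B v w = B w v) :
    en hf B ∈ Sp f := by
  intro v w
  rw [en_apply, hf.alt v, en_apply, hB v w, add_neg_cancel]

theorem sym (hf : IsSf f) {X : Module.End ℂ V} (hX : X ∈ Sp f) (v w : V) :
    f (X v) w = f (X w) v := by
  have h1 := hX v w
  have h2 := hf.alt v (X w)
  linear_combination h1 - h2

theorem dim1 (hf : IsSf f) : finrank ℂ (Sp f) = finrank ℂ (Sy V) := by
  let F : Sp f →ₗ[ℂ] Sy V :=
    { toFun := fun X => ⟨f ∘ₗ (X : Module.End ℂ V), fun v w => sym hf X.2 v w⟩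
      map_add' := fun X Y => by
        refine Subtype.ext (LinearMap.ext fun v => LinearMap.ext fun w => ?_)
        simp
      map_smul' := fun c X => by
        refine Subtype.ext (LinearMap.ext fun v => LinearMap.ext fun w => ?_)
        simp }
  have hF : ∀ (X : Sp f) v w, (F X : V →ₗ[ℂ] V →ₗ[ℂ] ℂ) v w = f ((X : Module.End ℂ V) v) w :=
    fun X v w => rfl
  refine (LinearEquiv.ofBijective F ⟨?_, ?_⟩).finrank_eq
  · rw [injective_iff_map_eq_zero]
    intro X hX
    refine Subtype.ext (LinearMap.ext fun v => hf.nd _ fun w => ?_)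
    rw [← hF, hX]
    rfl
  · intro B
    refine ⟨⟨en hf B, en_mem hf _ B.2⟩, ?_⟩
    refine Subtype.ext (LinearMap.ext fun v => LinearMap.ext fun w => ?_)
    rw [hF]
    exact en_apply hf _ v w

theorem dim2 (hf : IsSf f) {J : Module.End ℂ V} (hJ : J ∈ Sp f) (hJJ : J * J = -1)
    {K : Submodule ℂ V} (hK : ∀ v, v ∈ K ↔ J v = -Complex.I • v)
    {U : Submodule ℂ (Module.End ℂ V)}
    (hU : ∀ X, X ∈ U ↔ X ∈ Sp f ∧ J * X - X * J = (2 * Complex.I) • X) :
    finrank ℂ U = finrank ℂ (Sy K) := by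
  have hI : Complex.I * Complex.I = -1 := Complex.I_mul_I
  have hJ2 : ∀ v, J (J v) = -v := by
    intro v
    have h := LinearMap.congr_fun hJJ v
    simpa using h
  have hp0 : ∀ v, ((1 / 2 : ℂ) • (1 + Complex.I • J) : Module.End ℂ V) v ∈ K := by
    intro v
    rw [hK]
    simp only [LinearMap.smul_apply, LinearMap.add_apply, Module.End.one_apply, map_smul, map_add,
      hJ2, smul_add, smul_neg, smul_smul]
    have h1 : -Complex.I * (1 / 2 * Complex.I) = 1 / 2 := by linear_combination (-1 / 2) * hI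
    rw [h1]
    module
  let p : V →ₗ[ℂ] K := LinearMap.codRestrict K ((1 / 2 : ℂ) • (1 + Complex.I • J)) hp0
  have hp : ∀ v, ((p v : K) : V) = (1 / 2 : ℂ) • (v + Complex.I • J v) := fun v => rfl
  have hpK : ∀ v : K, p v = v := by
    intro v
    apply Subtype.ext
    rw [hp, (hK _).1 v.2, smul_smul]
    have h1 : Complex.I * -Complex.I = 1 := by linear_combination -hI
    rw [h1, one_smul, ← two_smul ℂ (v : V), smul_smul]
    norm_num
  have hpJ : ∀ v, p (J v) = -Complex.I • p v := by
    intro v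
    apply Subtype.ext
    rw [hp, Submodule.coe_smul, hp, hJ2, smul_smul]
    simp only [smul_add, smul_neg, smul_smul]
    have h1 : -Complex.I * (1 / 2) * Complex.I = 1 / 2 := by linear_combination (-1 / 2) * hI
    rw [h1]
    module
  have hX : ∀ X ∈ U, ∀ v, X (p v : K) = X v := by
    intro X hXU v
    have h1 := ExS_aux.mulJ hJJ ((hU X).1 hXU).2
    have h2 : X (J v) = -Complex.I • X v := by
      have h := LinearMap.congr_fun h1 v
      simpa using h
    rw [hp, map_smul, map_add, map_smul, h2, smul_smul]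
    have h3 : Complex.I * -Complex.I = 1 := by linear_combination -hI
    rw [h3, one_smul, ← two_smul ℂ (X v), smul_smul]
    norm_num
  let F : U →ₗ[ℂ] Sy K :=
    { toFun := fun X => ⟨(f ∘ₗ (X : Module.End ℂ V)).compl₁₂ K.subtype K.subtype,
        fun v w => sym hf ((hU X).1 X.2).1 v w⟩
      map_add' := fun X Y => by
        refine Subtype.ext (LinearMap.ext fun v => LinearMap.ext fun w => ?_)
        simp
      map_smul' := fun c X => by
        refine Subtype.ext (LinearMap.ext fun v => LinearMap.ext fun w => ?_)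
        simp }
  have hF : ∀ (X : U) (v w : K), (F X : K →ₗ[ℂ] K →ₗ[ℂ] ℂ) v w = f ((X : Module.End ℂ V) v) w :=
    fun X v w => rfl
  refine (LinearEquiv.ofBijective F ⟨?_, ?_⟩).finrank_eq
  · rw [injective_iff_map_eq_zero]
    intro X hX0
    have hS := ((hU X).1 X.2).1
    have h0 : ∀ v w : K, f ((X : Module.End ℂ V) v) w = 0 := by
      intro v w
      rw [← hF, hX0]
      rfl
    refine Subtype.ext (LinearMap.ext fun v => hf.nd _ fun w => ?_)
    rw [← hX X X.2 v, sym hf hS, ← hX X X.2 w]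
    exact h0 _ _
  · intro B
    set B' : V →ₗ[ℂ] V →ₗ[ℂ] ℂ := (B : K →ₗ[ℂ] K →ₗ[ℂ] ℂ).compl₁₂ p p with hB'
    have h1 : ∀ v w, B' v w = (B : K →ₗ[ℂ] K →ₗ[ℂ] ℂ) (p v) (p w) := fun v w => rfl
    have h2 : en hf B' ∈ Sp f := en_mem hf _ fun v w => by
      rw [h1, h1]
      exact B.2 _ _
    have h3 : en hf B' ∈ U := by
      rw [hU]
      refine ⟨h2, LinearMap.ext fun v => inj hf (LinearMap.ext fun w => ?_)⟩
      have h4 := hJ (en hf B' v) w
      rw [LinearMap.sub_apply, Module.End.mul_apply, Module.End.mul_apply, map_sub,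
        LinearMap.sub_apply, en_apply, LinearMap.smul_apply, map_smul, LinearMap.smul_apply,
        en_apply, h1, h1, hpJ, map_smul, LinearMap.smul_apply]
      rw [en_apply, h1, hpJ, map_smul] at h4
      simp only [smul_eq_mul] at h4 ⊢
      linear_combination h4
    refine ⟨⟨en hf B', h3⟩, ?_⟩
    refine Subtype.ext (LinearMap.ext fun v => LinearMap.ext fun w => ?_)
    rw [hF]
    change f (en hf B' v) w = _
    rw [en_apply, h1, hpK, hpK]

end DiS_aux

theorem tDiS : S_DiS := by
  intro V _ _ _ f hf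
  refine ⟨?_, fun J hJ hJJ K hK U hU => ?_⟩
  · rw [DiS_aux.dim1 hf, DiS_aux.finrank_Sy]
  · rw [DiS_aux.dim2 hf hJ hJJ hK hU, DiS_aux.finrank_Sy]

end SES
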