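import Pool.Agent.Lib.SE.S.Spec3

/-!
# PROJECT SE-S, part 3, module DtK: a determinant block
-/

set_option autoImplicit false

open Module

noncomputable section

namespace SES

open HC HC.E HC.SE SEB SEQ SER SE

namespace DtK_aux

variable {q : ℕ} {G : Fin q → AV}

theorem eK_apply (k : Fin q) (x : VS G) : eK G k x = Pi.single k (x k) := rfl

theorem eK_self (k : Fin q) (x : VS G) : eK G k x k = x k := by
  rw [eK_apply, Pi.single_eq_same]

theorem eK_idem (k : Fin q) (x : VS G) : eK G k (eK G k x) = eK G k x := by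
  rw [eK_apply k (eK G k x), eK_self, eK_apply]

theorem eK_orth {k l : Fin q} (h : k ≠ l) (x : VS G) : eK G k (eK G l x) = 0 := by
  rw [eK_apply k (eK G l x), eK_apply l x, Pi.single_eq_of_ne h, Pi.single_zero]

/-- The component `k` of the elements of the range of the projection. -/
def crd (k : Fin q) : LinearMap.range (eK G k) →ₗ[ℂ] Frm (G k) :=
  (LinearMap.proj k : VS G →ₗ[ℂ] _) ∘ₗ Submodule.subtype _

theorem crd_apply (k : Fin q) (x : LinearMap.range (eK G k)) : crd k x = (x : VS G) k := rfl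

theorem crd_bij (k : Fin q) : Function.Bijective (crd (G := G) k) := by
  constructor
  · refine (injective_iff_map_eq_zero _).2 ?_
    rintro ⟨x, y, rfl⟩ h
    refine Subtype.ext ?_
    have h1 : y k = 0 := by
      have h2 : eK G k y k = 0 := h
      rwa [eK_self] at h2
    change eK G k y = 0
    rw [eK_apply, h1, Pi.single_zero]
  · intro z
    refine ⟨⟨eK G k (Pi.single k z), ⟨_, rfl⟩⟩, ?_⟩
    rw [crd_apply]
    change eK G k (Pi.single k z) k = z
    rw [eK_self, Pi.single_eq_same]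

/-- The basis of the range of a projection. -/
def bas (k : Fin q) {r : ℕ} (e : Module.Basis (Fin r) ℂ (Frm (G k))) :
    Module.Basis (Fin r) ℂ (LinearMap.range (eK G k)) :=
  e.map (LinearEquiv.ofBijective (crd k) (crd_bij k)).symm

theorem bas_repr (k : Fin q) {r : ℕ} (e : Module.Basis (Fin r) ℂ (Frm (G k)))
    (x : LinearMap.range (eK G k)) (i : Fin r) : (bas k e).repr x i = e.coord i ((x : VS G) k) := by
  rw [bas, Module.Basis.map_repr]
  rfl

/-- The determinant in the coordinates. -/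
def dF {T Y : AV} {r : ℕ} (y : Fin r → ((T.V →ₗ[ℝ] ℂ) →ₗ[ℂ] ℂ)) (κ : Fin r → (T.V →ₗ[ℂ] Y.V)) :
    ML Y (Fin r) :=
  (Matrix.detRowAlternating : (Fin r → ℂ) [⋀^Fin r]→ₗ[ℂ] ℂ).toMultilinearMap.compLinearMap
    fun i => LinearMap.pi fun l => y l ∘ₗ pull (κ i)

theorem dF_apply {T Y : AV} {r : ℕ} (y : Fin r → ((T.V →ₗ[ℝ] ℂ) →ₗ[ℂ] ℂ))
    (κ : Fin r → (T.V →ₗ[ℂ] Y.V)) (a : Fin r → (Y.V →ₗ[ℝ] ℂ)) :
    dF y κ a = Matrix.det (Matrix.of fun i l => y l (pull (κ i) (a i))) := rfl

theorem emS_mem {N : ℕ} {κ : Fin N → Fin q} (C : SE.Prd fun n => G (κ n)) (n : Fin N) (k : Fin q)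
    (v : (G k).V) (hv : v ∈ (G k).L) : emS C n k v ∈ C.Y.L := by
  rw [C.lat]
  intro n'
  have h1 : C.ψ (emS C n k v) = Pi.single n ((Pi.single k v : ∀ k, (G k).V) (κ n)) := by
    unfold emS
    simp only [LinearMap.comp_apply, LinearEquiv.coe_coe, LinearEquiv.apply_symm_apply]
    rw [LinearMap.coe_single, LinearMap.coe_single, LinearMap.proj_apply]
  rw [h1]
  by_cases h2 : n' = n
  · subst h2
    rw [Pi.single_eq_same]
    by_cases h3 : κ n' = k
    · subst h3
      rw [Pi.single_eq_same]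
      exact hv
    · rw [Pi.single_eq_of_ne h3]
      exact Submodule.zero_mem _
  · rw [Pi.single_eq_of_ne h2]
    exact Submodule.zero_mem _

end DtK_aux

open DtK_aux Fund

/-- **DtK**. -/
theorem tDtK : S_DtK := by
  classical
  intro hPol hQal Q hQ q N G κ C d W hW b p hp u F hF
  obtain ⟨q0, qadd, qsmul, -, -, qpull, -, -⟩ := hQal Q hQ
  obtain ⟨k, rfl⟩ := hW
  have hpi : ∀ i, ∃ γ : ℂ, ∀ x, ((p i x : LinearMap.range (eK G k)) : VS G) = γ • eK G k x := by
    intro i
    obtain ⟨c, hc⟩ := hp i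
    refine ⟨c k, fun x => ?_⟩
    have h1 : ((p i x : LinearMap.range (eK G k)) : VS G) = ∑ l', c l' • eK G l' x := by
      have h2 := LinearMap.congr_fun hc x
      rw [LinearMap.sum_apply] at h2
      exact h2
    have h3 : eK G k ((p i x : LinearMap.range (eK G k)) : VS G) =
        ((p i x : LinearMap.range (eK G k)) : VS G) := by
      obtain ⟨y, hy⟩ := (p i x).2
      rw [← hy]
      exact eK_idem k y
    rw [← h3, h1, map_sum, Finset.sum_eq_single k]
    · rw [map_smul, eK_idem]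
    · intro l' _ hl'
      rw [map_smul, eK_orth (Ne.symm hl'), smul_zero]
    · intro h
      exact absurd (Finset.mem_univ k) h
  choose γ hγ using hpi
  have hW := HC.E.Top.finrank_W (G k)
  let e : Module.Basis (Fin (2 * dm (G k))) ℂ ((G k).V →ₗ[ℝ] ℂ) :=
    Module.finBasisOfFinrankEq ℂ _ hW
  obtain rfl : d = 2 * dm (G k) := by
    have h := Fintype.card_congr (b.indexEquiv (bas k e))
    simpa using h
  set y : Fin (2 * dm (G k)) → (((G k).V →ₗ[ℝ] ℂ) →ₗ[ℂ] ℂ) := fun l => e.coord l with hy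
  set φ : Fin (2 * dm (G k)) → ((G k).V →ₗ[ℂ] C.Y.V) := fun i => emS C (u i) k with hφ
  have hG2 : F = (b.det (bas k e) * ∏ i, γ i) • dF y φ := by
    ext a
    rw [hF, _root_.smul_apply, dF_apply, smul_eq_mul]
    have h1 : b.det = b.det (bas k e) • (bas k e).det := AlternatingMap.eq_smul_basis_det _ _
    have h2 : b.det (fun i => p i (quS C (u i) (a i))) =
        b.det (bas k e) * (bas k e).det (fun i => p i (quS C (u i) (a i))) := by
      conv_lhs => rw [h1]
      rfl
    rw [h2, mul_assoc]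
    congr 1
    rw [Module.Basis.det_apply, ← Matrix.det_transpose,
      ← Matrix.det_mul_column γ (Matrix.of fun i l => y l (pull (φ i) (a i)))]
    congr 1
    ext i l'
    rw [Matrix.transpose_apply, Module.Basis.toMatrix_apply, bas_repr, hγ, Matrix.of_apply,
      Matrix.of_apply, Pi.smul_apply, map_smul, smul_eq_mul, eK_self]
    rfl
  rw [hG2]
  refine qsmul _ _ _ _ ?_
  have hP := hPol (G k) C.Y _ y φ (dF y φ) (fun a => dF_apply y φ a)
  have hS : QA Q C.Y (Fin (2 * dm (G k))) (∑ A : Finset (Fin (2 * dm (G k))),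
      ((-1 : ℂ) ^ (2 * dm (G k) - A.card)) • prodML fun l => y l ∘ₗ pull (∑ i ∈ A, φ i)) := by
    refine Finset.sum_induction _ (QA Q C.Y (Fin (2 * dm (G k)))) (fun F G => qadd _ _ F G)
      (q0 _ _) fun A _ => qsmul _ _ _ _ ?_
    have h1 : (prodML fun l => y l ∘ₗ pull (∑ i ∈ A, φ i) : ML C.Y (Fin (2 * dm (G k)))) =
        pullML (∑ i ∈ A, φ i) (prodML y) := rfl
    rw [h1]
    refine qpull _ _ _ _ (fun v hv => ?_) _ ?_
    · rw [LinearMap.sum_apply]
      exact Submodule.sum_mem _ fun i _ => emS_mem C _ _ v hv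
    · intro m e'
      have hm : 2 * dm (G k) = m := by
        have h := Fintype.card_congr e'
        simpa using h
      exact hQ.base (HC.E.tTop _ _ _ hm.le)
  intro m e'
  have h2 := hS m e'
  have hP' : MultilinearMap.alternatization (dF y φ) = MultilinearMap.alternatization
      (∑ A : Finset (Fin (2 * dm (G k))),
      ((-1 : ℂ) ^ (2 * dm (G k) - A.card)) • prodML fun l => y l ∘ₗ pull (∑ i ∈ A, φ i)) := hP
  rw [Subsingleton.elim (fun a b : Fin (2 * dm (G k)) => Classical.propDecidable (a = b))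
        (instDecidableEqFin (2 * dm (G k)))] at h2 ⊢
  rw [hP']
  exact h2

end SES
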