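import Pool.Agent.Lib.SE.S.Spec

/-!
# PROJECT SE-S, part 1: extremal elements
-/

set_option autoImplicit false

open Module

noncomputable section

namespace SES

open HC HC.E HC.SE SEB SEQ SER

namespace ExS_aux

variable {V : Type} [AddCommGroup V] [Module ℂ V]

/-- `[J, e] = 2 i e` and `J² = -1` imply `e J = -i e`. -/
theorem mulJ {J e : Module.End ℂ V} (hJ : J * J = -1) (h : J * e - e * J = (2 * Complex.I) • e) :
    e * J = -Complex.I • e := by
  have hI : Complex.I * Complex.I = -1 := Complex.I_mul_I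
  have h1 : J * e = e * J + (2 * Complex.I) • e := sub_eq_iff_eq_add'.1 h
  have h3 : J * (J * e) = -e := by rw [← mul_assoc, hJ, neg_one_mul]
  have h4 : J * (J * e) = e * (J * J) + (2 * Complex.I) • (e * J) +
      (2 * Complex.I) • (e * J + (2 * Complex.I) • e) := by
    conv_lhs => rw [h1]
    rw [mul_add, ← mul_assoc, mul_smul_comm, h1, add_mul, smul_mul_assoc, mul_assoc]
  rw [h3, hJ, mul_neg, mul_one, smul_add, smul_smul] at h4
  have h5 : (4 * Complex.I) • (e * J) = (4 : ℂ) • e := by
    have h6 : (2 * Complex.I * (2 * Complex.I)) = (-4 : ℂ) := by linear_combination 4 * hI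
    rw [h6] at h4
    have h7 : (4 * Complex.I) • (e * J) =
        (2 * Complex.I) • (e * J) + (2 * Complex.I) • (e * J) := by
      rw [← add_smul]
      congr 1
      ring
    have h8 : (2 * Complex.I) • (e * J) + (2 * Complex.I) • (e * J) + (-4 : ℂ) • e = 0 := by
      have h9 := h4
      rw [add_assoc (-e), ← sub_eq_iff_eq_add', sub_self, ← add_assoc] at h9
      exact h9.symm
    rw [h7, ← sub_eq_zero, ← h8, neg_smul, sub_eq_add_neg]
  have h6 : (-Complex.I / 4) • ((4 * Complex.I) • (e * J)) = (-Complex.I / 4) • ((4 : ℂ) • e) := by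
    rw [h5]
  rw [smul_smul, smul_smul] at h6
  have h7 : (-Complex.I / 4) * (4 * Complex.I) = 1 := by linear_combination -hI
  have h8 : (-Complex.I / 4) * 4 = -Complex.I := by ring
  rwa [h7, h8, one_smul] at h6

end ExS_aux

theorem tExS : S_ExS := by
  intro hBs V _ _ _ f hf J e hJ he he0 hJe hY
  obtain ⟨b1, -, -, b4, -⟩ := hBs V f hf
  have h1 : e * J = -Complex.I • e := ExS_aux.mulJ hJ hJe
  have h2 : J * e = Complex.I • e := by
    rw [sub_eq_iff_eq_add'.1 hJe, h1, ← add_smul]
    congr 1
    ring
  have h3 : e * e = 0 := by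
    have h4 : e * (J * e) = e * J * e := (mul_assoc _ _ _).symm
    rw [h2, h1, mul_smul_comm, smul_mul_assoc, ← sub_eq_zero, ← sub_smul] at h4
    have h5 : Complex.I - -Complex.I ≠ 0 := by
      rw [sub_neg_eq_add, ← two_mul]
      exact mul_ne_zero two_ne_zero Complex.I_ne_zero
    exact (smul_eq_zero.1 h4).resolve_left h5
  obtain ⟨u, hu⟩ : ∃ u, e u ≠ 0 := by
    by_contra hc
    push Not at hc
    exact he0 (LinearMap.ext hc)
  obtain ⟨c, hc⟩ := hY (sy f u u) (b1 u u)
  have h4 : e * (e * sy f u u - sy f u u * e) - (e * sy f u u - sy f u u * e) * e =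
      (2 : ℂ) • sy f (e u) (e u) := by
    refine LinearMap.ext fun z => ?_
    have h5 : e (e (sy f u u z)) = 0 := by
      have := LinearMap.congr_fun h3 (sy f u u z)
      simpa using this
    have h6 : e (e z) = 0 := by
      have := LinearMap.congr_fun h3 z
      simpa using this
    have h7 := he u z
    simp only [LinearMap.sub_apply, Module.End.mul_apply, map_sub, h5, h6, map_zero, zero_sub,
      sub_zero, LinearMap.smul_apply]
    simp only [sy_apply, map_add, map_smul]
    have h8 : f u (e z) = -f (e u) z := by linear_combination h7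
    rw [h8]
    module
  rw [h4] at hc
  have hsy : sy f (e u) (e u) ≠ 0 := fun h => hu (b4 _ _ hu h)
  have hc0 : c ≠ 0 := by
    rintro rfl
    rw [zero_smul, smul_eq_zero] at hc
    rcases hc with h | h
    · exact two_ne_zero h
    · exact hsy h
  obtain ⟨l, hl⟩ := IsAlgClosed.exists_pow_nat_eq (2 / c) (n := 2) (by norm_num)
  have hl0 : l ≠ 0 := by
    rintro rfl
    have h5 : (2 : ℂ) / c ≠ 0 := div_ne_zero two_ne_zero hc0
    apply h5
    rw [← hl]
    norm_num
  refine ⟨l • e u, smul_ne_zero hl0 hu, ?_, ?_⟩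
  · have h5 : sy f (l • e u) (l • e u) = (l ^ 2) • sy f (e u) (e u) := by
      refine LinearMap.ext fun z => ?_
      simp only [sy_apply, map_smul, LinearMap.smul_apply, smul_eq_mul]
      module
    rw [h5, hl]
    have h6 : (1 / c) • ((2 : ℂ) • sy f (e u) (e u)) = (1 / c) • (c • e) := by rw [hc]
    rw [smul_smul, smul_smul, one_div_mul_cancel hc0, one_smul] at h6
    have h7 : 1 / c * 2 = 2 / c := by ring
    rw [h7] at h6
    exact h6.symm
  · have h5 := LinearMap.congr_fun h2 u
    rw [Module.End.mul_apply, LinearMap.smul_apply] at h5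
    rw [map_smul, h5, smul_comm]

end SES
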