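import Pool.Agent.Lib.SE.S.Spec3
import Pool.Agent.Lib.MP_640417_ag.Fg.FftM
import Pool.Agent.Lib.MP_640417_ag.Fg.Eig

/-!
# PROJECT SE-S, part 3, module FfS: the first fundamental theorem for `Sp` factors
-/

set_option autoImplicit false

open Module
open Pool.Agent.Lib.MP_640417_ag.Fg (Mono InL RegC AdjCl Kd Gen fft_gen gen_mono)
open Pool.Agent.Lib.MP_640417_ag.Orth (Dm Dm_apply)

noncomputable section

namespace SES

open HC HC.E HC.SE SEB SEQ SER SE

namespace FfS_aux

variable {q : ℕ} {G : Fin q → AV} {f : ∀ k, Frm (G k) →ₗ[ℂ] Frm (G k) →ₗ[ℂ] ℂ}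

theorem form_apply (x y : VS G) : FRMs f x y = ∑ k, f k (x k) (y k) := by
  simp [FRMs, LinearMap.sum_apply, LinearMap.compl₁₂_apply]

theorem form_single (k : Fin q) (a : Frm (G k)) (y : VS G) :
    FRMs f (Pi.single k a) y = f k a (y k) := by
  rw [form_apply, Finset.sum_eq_single k]
  · rw [Pi.single_eq_same]
  · intro i _ hi
    rw [Pi.single_eq_of_ne hi, map_zero, LinearMap.zero_apply]
  · intro hj
    exact absurd (Finset.mem_univ k) hj

theorem form_single' (k : Fin q) (a : Frm (G k)) (x : VS G) :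
    FRMs f x (Pi.single k a) = f k (x k) a := by
  rw [form_apply, Finset.sum_eq_single k]
  · rw [Pi.single_eq_same]
  · intro i _ hi
    rw [Pi.single_eq_of_ne hi, map_zero]
  · intro hj
    exact absurd (Finset.mem_univ k) hj

theorem eK_apply (k : Fin q) (x : VS G) : eK G k x = Pi.single k (x k) := rfl

theorem nondeg (hf : ∀ k, IsSf (f k)) (x : VS G) (h : ∀ y, FRMs f x y = 0) : x = 0 := by
  funext k
  refine (hf k).nd _ fun b => ?_
  rw [← form_single']
  exact h _

theorem sym (hf : ∀ k, IsSf (f k)) (x y : VS G) : FRMs f x y = -1 * FRMs f y x := by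
  rw [form_apply, form_apply, Finset.mul_sum]
  refine Finset.sum_congr rfl fun k _ => ?_
  rw [(hf k).alt, neg_one_mul]

theorem adj (k : Fin q) (x y : VS G) : FRMs f (eK G k x) y = FRMs f x (eK G k y) := by
  rw [eK_apply, eK_apply, form_single, form_single']

theorem idem (k : Fin q) : eK G k * eK G k = eK G k := by
  refine LinearMap.ext fun x => ?_
  rw [Module.End.mul_apply, eK_apply, eK_apply, Pi.single_eq_same]

theorem orth (k l : Fin q) (h : k ≠ l) : eK G k * eK G l = 0 := by
  refine LinearMap.ext fun x => ?_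
  rw [Module.End.mul_apply, eK_apply, eK_apply, Pi.single_eq_of_ne h, Pi.single_zero,
    LinearMap.zero_apply]

theorem sum_one : ∑ k, eK G k = 1 := by
  refine LinearMap.ext fun x => ?_
  rw [LinearMap.sum_apply]
  exact Finset.univ_sum_single x

theorem mul_comb (c d : Fin q → ℂ) :
    (∑ l, c l • eK G l) * (∑ l, d l • eK G l) = ∑ l, (c l * d l) • eK G l := by
  rw [Finset.sum_mul]
  refine Finset.sum_congr rfl fun l _ => ?_
  rw [Finset.mul_sum, Finset.sum_eq_single l]
  · rw [smul_mul_smul_comm, idem]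
  · intro l' _ hl
    rw [smul_mul_smul_comm, orth l l' hl.symm, smul_zero]
  · intro hj
    exact absurd (Finset.mem_univ _) hj

/-- The subalgebra. -/
def CA (G : Fin q → AV) : Subalgebra ℂ (Module.End ℂ (VS G)) where
  carrier := CK G
  mul_mem' := by
    rintro _ _ ⟨c, rfl⟩ ⟨d, rfl⟩
    exact ⟨fun l => c l * d l, mul_comb c d⟩
  add_mem' := by
    rintro _ _ ⟨c, rfl⟩ ⟨d, rfl⟩
    refine ⟨fun l => c l + d l, ?_⟩
    rw [← Finset.sum_add_distrib]
    exact Finset.sum_congr rfl fun l _ => (add_smul _ _ _).symm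
  algebraMap_mem' := by
    intro x
    refine ⟨fun _ => x, ?_⟩
    rw [← Finset.smul_sum, sum_one, Algebra.algebraMap_eq_smul_one]

theorem mem_CA (Y : Module.End ℂ (VS G)) : Y ∈ CA G ↔ Y ∈ CK G := Iff.rfl

theorem eK_mem (k : Fin q) : eK G k ∈ CA G := by
  refine (mem_CA _).2 ⟨Pi.single k 1, ?_⟩
  rw [Finset.sum_eq_single k]
  · rw [Pi.single_eq_same, one_smul]
  · intro l' _ hl
    rw [Pi.single_eq_of_ne hl, zero_smul]
  · intro hj
    exact absurd (Finset.mem_univ _) hj

/-- The block number `k` of `X`. -/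
def bl (X : Module.End ℂ (VS G)) (k : Fin q) : Module.End ℂ (Frm (G k)) :=
  LinearMap.proj k ∘ₗ X ∘ₗ LinearMap.single ℂ (fun k => Frm (G k)) k

theorem bl_apply (X : Module.End ℂ (VS G)) (k : Fin q) (a : Frm (G k)) :
    bl X k a = X (Pi.single k a) k := rfl

theorem X_single {X : Module.End ℂ (VS G)} (hX : InL (FRMs f) (CA G) X) (k : Fin q)
    (a : Frm (G k)) : X (Pi.single k a) = Pi.single k (bl X k a) := by
  have h1 := LinearMap.congr_fun (hX.1 _ (eK_mem k)) (Pi.single k a)
  rw [Module.End.mul_apply, Module.End.mul_apply, eK_apply, eK_apply, Pi.single_eq_same] at h1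
  exact h1

theorem X_apply {X : Module.End ℂ (VS G)} (hX : InL (FRMs f) (CA G) X) (x : VS G) :
    X x = fun k => bl X k (x k) := by
  have h1 : X x = ∑ k, Pi.single k (bl X k (x k)) := by
    conv_lhs => rw [← Finset.univ_sum_single x]
    rw [map_sum]
    exact Finset.sum_congr rfl fun k _ => X_single hX k (x k)
  rw [h1]
  exact Finset.univ_sum_single (fun k => bl X k (x k))

theorem bl_Sp {X : Module.End ℂ (VS G)} (hX : InL (FRMs f) (CA G) X) (k : Fin q) :
    bl X k ∈ Sp (f k) := by
  intro v w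
  have h1 := hX.2 (Pi.single k v) (Pi.single k w)
  rw [X_single hX, X_single hX, form_single, form_single, Pi.single_eq_same,
    Pi.single_eq_same] at h1
  exact h1

theorem one_block {k : Fin q} {Y : Module.End ℂ (Frm (G k))} (hY : Y ∈ Sp (f k)) :
    InL (FRMs f) (CA G)
      (LinearMap.single ℂ (fun k => Frm (G k)) k ∘ₗ Y ∘ₗ LinearMap.proj k) := by
  have hap : ∀ x : VS G, (LinearMap.single ℂ (fun k => Frm (G k)) k ∘ₗ Y ∘ₗ
      LinearMap.proj k : Module.End ℂ (VS G)) x = Pi.single k (Y (x k)) := fun x => rfl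
  refine ⟨?_, fun x y => ?_⟩
  · intro c hc
    obtain ⟨d, rfl⟩ := (mem_CA c).1 hc
    rw [Finset.mul_sum, Finset.sum_mul]
    refine Finset.sum_congr rfl fun l _ => ?_
    rw [mul_smul_comm, smul_mul_assoc]
    congr 1
    refine LinearMap.ext fun x => ?_
    rw [Module.End.mul_apply, Module.End.mul_apply, hap, hap, eK_apply, eK_apply]
    by_cases h : l = k
    · subst h
      rw [Pi.single_eq_same, Pi.single_eq_same]
    · rw [Pi.single_eq_of_ne (Ne.symm h), Pi.single_eq_of_ne h, map_zero, Pi.single_zero,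
        Pi.single_zero]
  · rw [hap, hap, form_single, form_single']
    exact hY _ _

theorem comm {P Q : Module.End ℂ (VS G)} (hP : InL (FRMs f) (CA G) P)
    (hQ : InL (FRMs f) (CA G) Q) : InL (FRMs f) (CA G) (P * Q - Q * P) := by
  refine ⟨fun c hc => ?_, fun x y => ?_⟩
  · rw [sub_mul, mul_sub, mul_assoc, hQ.1 c hc, ← mul_assoc, hP.1 c hc, mul_assoc Q, hP.1 c hc,
      ← mul_assoc Q, hQ.1 c hc, mul_assoc, mul_assoc]
  · have h1 := hP.2 (Q x) y
    have h2 := hQ.2 x (P y)
    have h3 := hQ.2 (P x) y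
    have h4 := hP.2 x (Q y)
    simp only [LinearMap.sub_apply, Module.End.mul_apply, map_sub]
    linear_combination h1 - h2 - h3 + h4

theorem kill {d : ℕ} {E : ∀ k, (G k).V →ₗ[ℝ] (G k).V →ₗ[ℝ] ℝ} (hf : ∀ k, IsFs (E k) (f k))
    (F : MultilinearMap ℂ (fun _ : Fin d => VS G) ℂ) (hF : KdS E F)
    {X : Module.End ℂ (VS G)} (hX : InL (FRMs f) (CA G) X) (v : Fin d → VS G) :
    ∑ j, F (Function.update v j (X (v j))) = 0 := by
  choose A B hA hB hAB using fun k => (hf k).real (bl X k) (bl_Sp hX k)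
  have h1 : ∀ j, F (Function.update v j (X (v j))) =
      F (Function.update v j fun k => v j k ∘ₗ A k) +
        Complex.I * F (Function.update v j fun k => v j k ∘ₗ B k) := by
    intro j
    have h2 : X (v j) = (fun k => v j k ∘ₗ A k) + Complex.I • (fun k => v j k ∘ₗ B k) := by
      rw [X_apply hX]
      funext k
      rw [hAB]
      rfl
    rw [h2, F.map_update_add, F.map_update_smul, smul_eq_mul]
  rw [Finset.sum_congr rfl fun j _ => h1 j, Finset.sum_add_distrib, ← Finset.mul_sum,
    hF A hA v, hF B hB v, mul_zero, add_zero]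

end FfS_aux

open FfS_aux in
theorem tFfS : S_FfS := by
  intro hBs hTs hPc hJS q G E f hf d F hF
  have hfd : ∀ k, FiniteDimensional ℂ (Frm (G k)) := fun k => (hJS (G k)).1
  have hsf : ∀ k, IsSf (f k) := fun k => (hf k).sf
  have hreg : RegC (CA G) := by
    intro c hc
    obtain ⟨a, rfl⟩ := (mem_CA c).1 hc
    refine ⟨∑ l, (a l)⁻¹ • eK G l, (mem_CA _).2 ⟨_, rfl⟩, ?_⟩
    rw [mul_comb, mul_comb]
    refine Finset.sum_congr rfl fun l _ => ?_
    by_cases h : a l = 0
    · rw [h]; simp
    · rw [mul_inv_cancel₀ h, one_mul]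
  have hadj : AdjCl (FRMs f) (CA G) := by
    intro c hc
    obtain ⟨a, rfl⟩ := (mem_CA c).1 hc
    refine ⟨∑ l, a l • eK G l, hc, fun x y => ?_⟩
    rw [LinearMap.sum_apply, LinearMap.sum_apply, map_sum, map_sum, LinearMap.sum_apply]
    refine Finset.sum_congr rfl fun l _ => ?_
    rw [LinearMap.smul_apply, LinearMap.smul_apply, map_smul, map_smul, LinearMap.smul_apply,
      adj]
  have hZ : ∀ Z, InL (FRMs f) (CA G) Z → (∀ X, InL (FRMs f) (CA G) X → Z * X = X * Z) →
      Z ∈ CA G := by
    intro Z hZ hc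
    have h0 : ∀ k, bl Z k = 0 := by
      intro k
      refine (hPc hBs hTs (Frm (G k)) (f k) (hsf k)).2 _ (bl_Sp hZ k) fun Y hY => ?_
      refine LinearMap.ext fun a => ?_
      have h1 := congrFun (LinearMap.congr_fun (hc _ (one_block hY)) (Pi.single k a)) k
      have h2 : (LinearMap.single ℂ (fun k => Frm (G k)) k ∘ₗ Y ∘ₗ
          LinearMap.proj k : Module.End ℂ (VS G)) (Pi.single k a) = Pi.single k (Y a) := by
        change (Pi.single k (Y ((Pi.single k a : VS G) k)) : VS G) = _
        rw [Pi.single_eq_same]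
      have h3 : (LinearMap.single ℂ (fun k => Frm (G k)) k ∘ₗ Y ∘ₗ
          LinearMap.proj k : Module.End ℂ (VS G)) (Z (Pi.single k a)) k = Y (bl Z k a) := by
        change (Pi.single k (Y (Z (Pi.single k a) k)) : VS G) k = _
        rw [Pi.single_eq_same, bl_apply]
      rw [Module.End.mul_apply, Module.End.mul_apply, h2, h3] at h1
      rw [LinearMap.sub_apply, Module.End.mul_apply, Module.End.mul_apply, bl_apply Z k (Y a), h1,
        sub_self, LinearMap.zero_apply]
    have hZ0 : Z = 0 := by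
      refine LinearMap.ext fun x => ?_
      rw [X_apply hZ]
      funext k
      rw [h0 k]
      rfl
    rw [hZ0]
    exact Subalgebra.zero_mem _
  have hSt : ∀ p ∈ CA G, p ≠ 0 → p * p = p → (∀ c ∈ CA G, ∃ t : ℂ, p * c * p = t • p) →
      StK G (LinearMap.range p) := by
    intro p hp hp0 hpp hmin
    obtain ⟨a, rfl⟩ := (mem_CA p).1 hp
    obtain ⟨l, -, hl⟩ := Finset.exists_ne_zero_of_sum_ne_zero hp0
    have hal : a l ≠ 0 := fun h => hl (by rw [h, zero_smul])
    have hel : eK G l ≠ 0 := fun h => hl (by rw [h, smul_zero])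
    have hpe : (∑ l, a l • eK G l) * eK G l = a l • eK G l := by
      rw [Finset.sum_mul, Finset.sum_eq_single l]
      · rw [smul_mul_assoc, idem]
      · intro l' _ hl'
        rw [smul_mul_assoc, orth l' l hl', smul_zero]
      · intro hj
        exact absurd (Finset.mem_univ _) hj
    have hep : eK G l * (∑ l, a l • eK G l) = a l • eK G l := by
      rw [Finset.mul_sum, Finset.sum_eq_single l]
      · rw [mul_smul_comm, idem]
      · intro l' _ hl'
        rw [mul_smul_comm, orth l l' hl'.symm, smul_zero]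
      · intro hj
        exact absurd (Finset.mem_univ _) hj
    obtain ⟨t, ht⟩ := hmin (eK G l) (eK_mem l)
    rw [hpe, smul_mul_assoc, hep, smul_smul] at ht
    have haa : a l * a l ≠ 0 := mul_ne_zero hal hal
    have ht0 : t ≠ 0 := by
      intro h
      rw [h, zero_smul] at ht
      exact (smul_ne_zero haa hel) ht
    refine ⟨l, ?_⟩
    have h3 : (∑ l, a l • eK G l) = (t⁻¹ * (a l * a l)) • eK G l := by
      rw [mul_smul, ht, smul_smul, inv_mul_cancel₀ ht0, one_smul]
    rw [h3]
    exact LinearMap.range_smul _ _ (mul_ne_zero (inv_ne_zero ht0) haa)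
  have hKd : Kd (FRMs f) (CA G) F := by
    intro P Q hP hQ
    refine MultilinearMap.ext fun v => ?_
    rw [Dm_apply]
    exact kill hf F hF (comm hP hQ) v
  exact gen_mono (fft_gen (form := FRMs f) (-1) (by norm_num) (sym hsf) (nondeg hsf) hreg hadj
    hZ hSt d F hKd)

end SES
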