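import Pool.Agent.Lib.SE.S.Spec3

/-!
# PROJECT SE-S, part 3: classes killed by the skew tuples (helper96)

The argument of SE/W/M.lean: expansion over the copies, the first fundamental theorem, products of
blocks.
-/

set_option autoImplicit false

open Module
open Pool.Agent.Lib.MP_640417_ag.Fg (Mono InL)

noncomputable section

namespace SES

open HC HC.E HC.SE SEB SEQ SER SE

theorem tHcS : S_HcS := by
  intro hFf hEx hMo hBs hTs hPc hJS hIn hPr hDt hPol hQal Q hQ q N G κ E f C hE hf m c hK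
  obtain ⟨q0, qadd, qsmul, qeq, qmul, qpush, qto, qfrom⟩ := hQal Q hQ
  apply qfrom
  rw [(hEx q N G κ E C m c).1]
  refine Finset.sum_induction _ (QA Q C.Y (Fin m)) (fun a b => qadd _ _ a b) (q0 _ _) fun u _ => ?_
  obtain ⟨F, hFd⟩ : ∃ F : MultilinearMap ℂ (fun _ : Fin m => VS G) ℂ,
    F = c.toMultilinearMap.compLinearMap (fun p => inS C (u p)) := ⟨_, rfl⟩
  have hF : KdS E F := by
    rw [hFd]
    exact (hEx q N G κ E C m c).2 hK u
  have hspan := hFf hBs hTs hPc hJS q G E f hf m F hF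
  have key : ∀ g ∈ Submodule.span ℂ {M : (Fin m → VS G) → ℂ | Mono (FRMs f) (CK G) (StK G) m M},
      ∃ H : ML C.Y (Fin m), (∀ a, H a = g fun p => quS C (u p) (a p)) ∧ QA Q C.Y (Fin m) H := by
    intro g hg
    induction hg using Submodule.span_induction with
    | mem M hM =>
      exact hMo hIn hPr hDt hPol hQal Q hQ q N G κ E f C hE hf m M hM u
    | zero => exact ⟨0, fun a => rfl, q0 _ _⟩
    | add g g' _ _ h1 h2 =>
      obtain ⟨H, hH, hH2⟩ := h1
      obtain ⟨H', hH', hH2'⟩ := h2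
      refine ⟨H + H', fun a => ?_, qadd _ _ _ _ hH2 hH2'⟩
      show H a + H' a = _
      rw [hH, hH']
      rfl
    | smul x g _ h1 =>
      obtain ⟨H, hH, hH2⟩ := h1
      refine ⟨x • H, fun a => ?_, qsmul _ _ _ _ hH2⟩
      show x • H a = _
      rw [hH]
      rfl
  obtain ⟨H, hH, hH2⟩ := key _ hspan
  have hGc : (c.toMultilinearMap.compLinearMap fun p => inS C (u p) ∘ₗ quS C (u p)) = H := by
    ext a
    rw [hH, hFd]
    rfl
  rw [hGc]
  exact hH2

end SES
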