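import Pool.Agent.Lib.SE.S.Spec3
import Pool.Agent.Lib.SE.R.Hr

/-!
# PROJECT SE-S, module HrS: `i` is a real combination of rational skew elements (helper84)
-/

set_option autoImplicit false

open Module

noncomputable section

namespace SES

open HC HC.E HC.SE SEB SEQ SER SE

namespace HrS_aux

variable {T : AV}

/-- The rational endomorphisms. -/
def ratG (T : AV) : AddSubgroup (Module.End ℝ T.V) where
  carrier := {X | RatEnd T X}
  zero_mem' := by
    intro v _
    exact ⟨1, one_ne_zero, by simp⟩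
  add_mem' := by
    intro X Y hX hY v hv
    obtain ⟨N, hN, h1⟩ := hX v hv
    obtain ⟨M, hM, h2⟩ := hY v hv
    refine ⟨M * N, Nat.mul_ne_zero hM hN, ?_⟩
    have h3 : (M * N) • (X + Y) v = M • (N • X v) + N • (M • Y v) := by
      rw [LinearMap.add_apply, smul_add, mul_smul, mul_comm M N, mul_smul]
    rw [h3]
    exact T.L.add_mem (T.L.smul_of_tower_mem M h1) (T.L.smul_of_tower_mem N h2)
  neg_mem' := by
    intro X hX v hv
    obtain ⟨N, hN, h1⟩ := hX v hv
    refine ⟨N, hN, ?_⟩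
    rw [LinearMap.neg_apply, smul_neg]
    exact T.L.neg_mem h1

theorem mem_ratG {X : Module.End ℝ T.V} : X ∈ ratG T ↔ RatEnd T X := Iff.rfl

theorem smul_ratG (X : Module.End ℝ T.V) (hX : X ∈ ratG T) (q : ℚ) : (q : ℝ) • X ∈ ratG T := by
  intro v hv
  obtain ⟨N, hN, h1⟩ := hX v hv
  refine ⟨q.den * N, Nat.mul_ne_zero q.den_nz hN, ?_⟩
  have h3 : (q.den * N) • ((q : ℝ) • X) v = q.num • (N • X v) := by
    rw [LinearMap.smul_apply, ← Nat.cast_smul_eq_nsmul ℝ, ← Int.cast_smul_eq_zsmul ℝ,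
      ← Nat.cast_smul_eq_nsmul ℝ N, smul_smul, smul_smul]
    congr 1
    have hd : (q.den : ℝ) ≠ 0 := Nat.cast_ne_zero.2 q.den_nz
    have hq : (q : ℝ) = q.num / q.den := Rat.cast_def q
    rw [hq]
    push_cast
    field_simp
  rw [h3]
  exact T.L.smul_of_tower_mem q.num h1

variable {E : T.V →ₗ[ℝ] T.V →ₗ[ℝ] ℝ}

theorem e_rat (hE : IsRf T E) (w v : T.V) (N : ℕ) (hN : N ≠ 0) (hw : N • w ∈ T.L)
    (hv : v ∈ T.L) : ∃ q : ℚ, E w v = q := by
  obtain ⟨n, hn⟩ := hE.1 _ hw _ hv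
  refine ⟨n / N, ?_⟩
  have hN' : (N : ℝ) ≠ 0 := Nat.cast_ne_zero.2 hN
  rw [← Nat.cast_smul_eq_nsmul ℝ N, map_smul, LinearMap.smul_apply, smul_eq_mul] at hn
  push_cast
  rw [eq_div_iff hN', mul_comm, hn]

theorem e_rat' (hE : IsRf T E) (w v : T.V) (N : ℕ) (hN : N ≠ 0) (hw : N • w ∈ T.L)
    (hv : v ∈ T.L) : ∃ q : ℚ, E v w = q := by
  obtain ⟨q, hq⟩ := e_rat hE w v N hN hw hv
  refine ⟨-q, ?_⟩
  rw [hE.2.1, hq, Rat.cast_neg]

theorem mulI_app (v : T.V) : mulI T v = Complex.I • v := rfl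

theorem e_mulI (hE : IsRf T E) (u v : T.V) : E (mulI T u) v + E u (mulI T v) = 0 := by
  have h := hE.2.2.1 u (Complex.I • v)
  rw [smul_smul, Complex.I_mul_I, neg_smul, one_smul, map_neg] at h
  rw [mulI_app, mulI_app, ← h]
  ring

end HrS_aux

open HrS_aux in
theorem tHrS : S_HrS := by
  classical
  intro hLc T E hE
  obtain ⟨ι, _, b, hb1, hb2⟩ := exists_lat_basis' T
  have hJ1 : mulI T ∈ Submodule.span ℝ (ratG T : Set (Module.End ℝ T.V)) := hLc T
  obtain ⟨S, hS⟩ := HC.Flat.sum_phi (b.linearMap b) (mulI T)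
  have hmem : ∀ s, HC.Flat.phi (b.linearMap b) s (mulI T) ∈ ratG T := fun s =>
    HC.Flat.phi_mem (b.linearMap b) (ratG T) smul_ratG
      (fun X hX i => Hl_aux.entry b hb1 hb2 X hX i) _ hJ1 s
  set Y : Module.Basis.ofVectorSpaceIndex ℚ ℝ → Module.End ℝ T.V :=
    fun s => HC.Flat.phi (b.linearMap b) s (mulI T) with hYdef
  have hY : ∀ s, RatEnd T (Y s) := hmem
  have happ : ∀ v, mulI T v = ∑ s ∈ S, HC.Flat.H s • Y s v := by
    intro v
    conv_lhs => rw [hS]
    rw [LinearMap.sum_apply]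
    rfl
  have hU : ∀ s ∈ S, IsSk E (Y s) := by
    intro s hs
    have hbb : ∀ k l, E (Y s (b k)) (b l) + E (b k) (Y s (b l)) = 0 := by
      intro k l
      refine Hl_aux.num S (fun s => E (Y s (b k)) (b l) + E (b k) (Y s (b l))) ?_ ?_ s hs
      · intro s
        obtain ⟨N, hN, hNL⟩ := hY s (b k) (hb1 k)
        obtain ⟨q, hq⟩ := e_rat hE _ (b l) N hN hNL (hb1 l)
        obtain ⟨N', hN', hNL'⟩ := hY s (b l) (hb1 l)
        obtain ⟨q', hq'⟩ := e_rat' hE _ (b k) N' hN' hNL' (hb1 k)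
        exact ⟨q + q', by rw [hq, hq', Rat.cast_add]⟩
      · have h4 : E (mulI T (b k)) (b l) = ∑ s ∈ S, HC.Flat.H s * E (Y s (b k)) (b l) := by
          rw [happ, map_sum, LinearMap.sum_apply]
          refine Finset.sum_congr rfl fun s _ => ?_
          rw [map_smul, LinearMap.smul_apply, smul_eq_mul]
        have h5 : E (b k) (mulI T (b l)) = ∑ s ∈ S, HC.Flat.H s * E (b k) (Y s (b l)) := by
          rw [happ, map_sum]
          refine Finset.sum_congr rfl fun s _ => ?_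
          rw [map_smul, smul_eq_mul]
        simp only [mul_add]
        rw [Finset.sum_add_distrib, ← h4, ← h5, e_mulI hE]
    have h2 : ∀ k v, E (Y s (b k)) v + E (b k) (Y s v) = 0 := by
      intro k v
      have h : E (Y s (b k)) + (E (b k)) ∘ₗ (Y s) = 0 := by
        refine b.ext fun l => ?_
        exact hbb k l
      exact LinearMap.congr_fun h v
    intro u v
    have h : (E.flip v) ∘ₗ (Y s) + E.flip (Y s v) = 0 := by
      refine b.ext fun k => ?_
      exact h2 k v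
    exact LinearMap.congr_fun h u
  rw [hS]
  exact Submodule.sum_mem _ fun s hs => Submodule.smul_mem _ _
    (Submodule.subset_span ⟨hmem s, hU s hs⟩)

end SES
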