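import Pool.Agent.Lib.SE.S.Spec2
import Pool.Agent.Lib.SE.Q.RSH

/-!
# PROJECT SE-S, module IgS (helper30): an intertwiner gives an isogeny
-/

set_option autoImplicit false

open Module

noncomputable section

namespace SES

open HC HC.E HC.SE SEB SEQ SER

namespace IgS_aux

open SEB.RatSp_aux

instance fin_frm (T : AV) : FiniteDimensional ℂ (Frm T) := by
  obtain ⟨ι, _, b, -, -⟩ := lat_basis T
  classical
  refine ⟨⟨Finset.univ.image (fb b), ?_⟩⟩
  rw [eq_top_iff]
  intro a _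
  rw [frm_eq b a]
  refine Submodule.sum_mem _ fun i _ => Submodule.smul_mem _ _ (Submodule.subset_span ?_)
  rw [Finset.mem_coe, Finset.mem_image]
  exact ⟨i, Finset.mem_univ i, rfl⟩

theorem exists_dual {W : Type*} [AddCommGroup W] [Module ℂ W] {p : Submodule ℂ W} {x : W}
    (hx : x ∉ p) : ∃ f : Module.Dual ℂ W, f x ≠ 0 ∧ ∀ y ∈ p, f y = 0 := by
  obtain ⟨f, h1, h2⟩ := Submodule.exists_dual_map_eq_bot_of_notMem hx inferInstance
  refine ⟨f, h1, fun y hy => ?_⟩
  have h3 : f y ∈ p.map f := Submodule.mem_map_of_mem hy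
  rw [h2] at h3
  exact (Submodule.mem_bot ℂ).1 h3

/-- a subspace stable under `pre X`, `X ∈ h`, is stable under `gg h` -/
theorem stab {T : AV} {h : Set (Module.End ℝ T.V)} {K : Submodule ℂ (Frm T)}
    (hK : ∀ X ∈ h, ∀ a ∈ K, pre X a ∈ K) : ∀ C ∈ gg h, ∀ a ∈ K, C a ∈ K := by
  intro C hC
  induction hC using Submodule.span_induction with
  | mem C hC =>
    obtain ⟨Y, ⟨X, hX, X', hX', rfl⟩, rfl⟩ := hC
    intro a ha
    have h1 : pre (X * X' - X' * X) a = pre X' (pre X a) - pre X (pre X' a) := by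
      refine LinearMap.ext fun v => ?_
      change a ((X * X' - X' * X) v) = a (X (X' v)) - a (X' (X v))
      rw [LinearMap.sub_apply, Module.End.mul_apply, Module.End.mul_apply, map_sub]
    rw [h1]
    exact Submodule.sub_mem _ (hK X' hX' _ (hK X hX _ ha)) (hK X hX _ (hK X' hX' _ ha))
  | zero =>
    intro a _
    rw [LinearMap.zero_apply]
    exact Submodule.zero_mem _
  | add C C' _ _ h1 h2 =>
    intro a ha
    rw [LinearMap.add_apply]
    exact Submodule.add_mem _ (h1 a ha) (h2 a ha)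
  | smul c C _ h1 =>
    intro a ha
    rw [LinearMap.smul_apply]
    exact Submodule.smul_mem _ _ (h1 a ha)

/-- a stable subspace is zero or everything -/
theorem irr (hBs : S_Bs) (hTs : S_Ts) (hOn : S_OnS) {G : AV} {E : G.V →ₗ[ℝ] G.V →ₗ[ℝ] ℝ}
    {f : Frm G →ₗ[ℂ] Frm G →ₗ[ℂ] ℂ} (hf : IsFs E f) (hS : SpB E)
    {h : Set (Module.End ℝ G.V)} (hh : HLieS E h) {K : Submodule ℂ (Frm G)}
    (hK : ∀ X ∈ h, ∀ a ∈ K, pre X a ∈ K) {v : Frm G} (hv : v ∈ K) (hv0 : v ≠ 0) (w : Frm G) :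
    w ∈ K := by
  obtain ⟨Z, hZ, hZv⟩ := hTs hBs (Frm G) f hf.sf v w hv0
  rw [← hZv]
  exact stab hK Z ((hOn G E f hf hS h hh).2 Z hZ) v hv

end IgS_aux

open IgS_aux

theorem tIgS : S_IgS := by
  intro hBs hTs hOn hPj hIso G G' E E' f f' _ _ hf hf' hS hS' h hh θ hθ hX
  obtain ⟨p1, p2, -, -, -⟩ := hPj G G' E E' h hh
  obtain ⟨n, c, Y, hY, hYr, hYc⟩ := tRSH G G' θ
  obtain ⟨k, hk⟩ : ∃ k, preH (Y k) ≠ 0 := by
    by_contra hc
    push Not at hc
    apply hθ
    rw [hY]
    exact Finset.sum_eq_zero fun k _ => by rw [hc k, smul_zero]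
  obtain ⟨u, hu⟩ : ∃ u, u = Y k := ⟨_, rfl⟩
  rw [← hu] at hk
  have hur : RatHom G' G u := by rw [hu]; exact hYr k
  have huX : ∀ X ∈ h, X.1 ∘ₗ u = u ∘ₗ X.2 := by
    intro X hXh
    rw [hu]
    refine hYc X.1 X.2 (hh.rat X hXh).1 (hh.rat X hXh).2 ?_ k
    exact LinearMap.ext fun a => hX X hXh a
  -- u is complex linear
  have hJ : ∀ v, u (Complex.I • v) = Complex.I • u v := by
    let Q : Submodule ℝ (Pr2 G G') :=
      { carrier := {X | X.1 ∘ₗ u = u ∘ₗ X.2}
        add_mem' := by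
          intro a b ha hb
          change (a.1 + b.1) ∘ₗ u = u ∘ₗ (a.2 + b.2)
          have ha' : a.1 ∘ₗ u = u ∘ₗ a.2 := ha
          have hb' : b.1 ∘ₗ u = u ∘ₗ b.2 := hb
          rw [LinearMap.add_comp, LinearMap.comp_add, ha', hb']
        zero_mem' := by
          change (0 : Module.End ℝ G.V) ∘ₗ u = u ∘ₗ (0 : Module.End ℝ G'.V)
          rw [LinearMap.zero_comp, LinearMap.comp_zero]
        smul_mem' := by
          intro r a ha
          change (r • a.1) ∘ₗ u = u ∘ₗ (r • a.2)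
          have ha' : a.1 ∘ₗ u = u ∘ₗ a.2 := ha
          rw [LinearMap.smul_comp, LinearMap.comp_smul, ha'] }
    have h1 : Submodule.span ℝ h ≤ Q := Submodule.span_le.2 huX
    have h2 : mulI G ∘ₗ u = u ∘ₗ mulI G' := h1 hh.J
    intro v
    exact (LinearMap.congr_fun h2 v).symm
  let Θ : G'.V →ₗ[ℂ] G.V :=
    { toFun := u
      map_add' := u.map_add
      map_smul' := by
        intro z v
        have e1 : ∀ (x : ℝ) (w : G'.V), u ((x : ℂ) • w) = (x : ℂ) • u w := fun x w =>
          u.map_smul x w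
        simp only [RingHom.id_apply]
        conv_lhs => rw [← Complex.re_add_im z]
        conv_rhs => rw [← Complex.re_add_im z]
        rw [add_smul, mul_smul, map_add, e1, e1, hJ, add_smul, mul_smul] }
  have hΘ : ∀ v, Θ v = u v := fun v => rfl
  -- intertwining on the forms
  have hint : ∀ X ∈ h, ∀ a, preH u (pre X.1 a) = pre X.2 (preH u a) := by
    intro X hXh a
    refine LinearMap.ext fun v => ?_
    change a (X.1 (u v)) = a (u (X.2 v))
    have := LinearMap.congr_fun (huX X hXh) v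
    change X.1 (u v) = u (X.2 v) at this
    rw [this]
  -- injective on the forms
  have hinj : ∀ a, preH u a = 0 → a = 0 := by
    intro a ha
    by_contra ha0
    apply hk
    refine LinearMap.ext fun w => ?_
    have h1 := irr hBs hTs hOn hf hS p1 (K := LinearMap.ker (preH u)) (by
      rintro _ ⟨X, hXh, rfl⟩ b hb
      rw [LinearMap.mem_ker] at hb ⊢
      rw [hint X hXh, hb, map_zero]) (LinearMap.mem_ker.2 ha) ha0 w
    rw [LinearMap.zero_apply]
    exact LinearMap.mem_ker.1 h1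
  -- surjective on the forms
  have hsur : ∀ b, ∃ a, preH u a = b := by
    intro b
    obtain ⟨a, ha⟩ : ∃ a, preH u a ≠ 0 := by
      by_contra hc
      push Not at hc
      exact hk (LinearMap.ext hc)
    have h1 := irr hBs hTs hOn hf' hS' p2 (K := LinearMap.range (preH u)) (by
      rintro _ ⟨X, hXh, rfl⟩ b ⟨a, rfl⟩
      exact ⟨pre X.1 a, hint X hXh a⟩) (LinearMap.mem_range_self (preH u) a) ha b
    exact h1
  -- u is bijective
  have hi : Function.Injective Θ := by
    rw [injective_iff_map_eq_zero]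
    intro v hv
    by_contra hv0
    obtain ⟨φ, hφ1, -⟩ := exists_dual (p := (⊥ : Submodule ℂ G'.V)) (x := v) (by
      rw [Submodule.mem_bot]; exact hv0)
    obtain ⟨a, ha⟩ := hsur (φ.restrictScalars ℝ)
    have h1 := LinearMap.congr_fun ha v
    change a (u v) = φ v at h1
    rw [← hΘ, hv, map_zero] at h1
    exact hφ1 h1.symm
  have hs : Function.Surjective Θ := by
    rw [← LinearMap.range_eq_top]
    by_contra hc
    obtain ⟨w, -, hw⟩ := SetLike.exists_of_lt (lt_top_iff_ne_top.2 hc)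
    obtain ⟨φ, hφ1, hφ2⟩ := exists_dual hw
    have h1 : (φ.restrictScalars ℝ : Frm G) = 0 := by
      refine hinj _ (LinearMap.ext fun v => ?_)
      exact hφ2 (Θ v) (LinearMap.mem_range_self Θ v)
    exact hφ1 (LinearMap.congr_fun h1 w)
  let e : G'.V ≃ₗ[ℂ] G.V := LinearEquiv.ofBijective Θ ⟨hi, hs⟩
  exact ⟨e.symm, hIso G' G e hur⟩

end SES
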