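import Pool.Agent.Lib.SE.S.Spec3
import Pool.Agent.Lib.SE.W.Inv

/-!
# PROJECT SE-S, module InS: the class dual to the Riemann form is algebraic (helper13)

Copy of the second half of SE/W/Inv.lean (helper92); the algebra of creation and annihilation
operators is taken from there.
-/

set_option autoImplicit false

open Module

noncomputable section

namespace SES

open HC HC.E HC.SE SEB SEQ SER SE

namespace InS_aux

open SE.Inv_aux HC.W

section tp

variable {T : AV} (R : T.V →ₗ[ℝ] T.V →ₗ[ℝ] ℝ) {n : ℕ} (b : Module.Basis (Fin n) ℝ T.V)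

/-- The form `R(v, ·)`. -/
def rfS (v : T.V) : T.V →ₗ[ℝ] ℂ := Complex.ofRealCLM.toLinearMap ∘ₗ R v

/-- The matrix of the Riemann form. -/
def RmS (i k : Fin n) : ℂ := (R (b i) (b k) : ℂ)

theorem rfS_apply (u v : T.V) : rfS R u v = (R u v : ℂ) := rfl

theorem rfS_expand (i : Fin n) : rfS R (b i) = ∑ k, RmS R b i k • cfm b k :=
  expand_form b (rfS R (b i))

theorem sumS_R (u v : T.V) : ∑ j, cfm b j u * rfS R (b j) v = (R u v : ℂ) := by
  have h : R u v = ∑ j, b.repr u j * R (b j) v := by
    conv_lhs => rw [← b.sum_repr u]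
    rw [map_sum, LinearMap.sum_apply]
    refine Finset.sum_congr rfl fun j _ => ?_
    rw [map_smul, LinearMap.smul_apply, smul_eq_mul]
  rw [h]
  push_cast
  refine Finset.sum_congr rfl fun j _ => ?_
  rw [rfS_apply, cfm, LinearMap.smulRight_apply, Module.Basis.coord_apply, Complex.real_smul,
    mul_one]

theorem capS_eq {m : ℕ} (c : Hlg T (m + 2)) :
    HC.cap (fun j => cfm b j) (fun j => rfS R (b j)) c =
      ∑ j, ∑ k, RmS R b j k • cap1 (cfm b j) (cfm b k) c := by
  rw [cap_eq_sum]
  refine Finset.sum_congr rfl fun j _ => ?_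
  rw [rfS_expand, ← capL_apply, map_sum, LinearMap.sum_apply]
  refine Finset.sum_congr rfl fun k _ => ?_
  rw [map_smul, LinearMap.smul_apply, capL_apply]

variable (hR : IsRf T R)

include hR

theorem RmS_alt (i k : Fin n) : RmS R b i k = -RmS R b k i := by
  unfold RmS
  rw [hR.2.1]
  push_cast
  rfl

theorem sumS_R2 (u v : T.V) :
    ∑ j, (cfm b j u * rfS R (b j) v - cfm b j v * rfS R (b j) u) = 2 * (R u v : ℂ) := by
  rw [Finset.sum_sub_distrib, sumS_R, sumS_R, hR.2.1 v u]
  push_cast
  ring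

theorem isDivS : IsDiv T (fun j => cfm b j) (fun j => rfS R (b j)) := by
  constructor
  · intro u hu v hv
    obtain ⟨k, hk⟩ := hR.1 u hu v hv
    refine ⟨2 * k, ?_⟩
    rw [sumS_R2 R b hR, hk]
    push_cast
    ring
  · intro u v
    rw [sumS_R2 R b hR, sumS_R2 R b hR, hR.2.2.1]

theorem LamS_apply (c : Tot (T.V →ₗ[ℝ] ℂ)) (m : ℕ) :
    (Lam (aa T b) (RmS R b) c) m = (-(1 / 2) : ℂ) •
      HC.cap (fun j => cfm b j) (fun j => rfS R (b j)) (c (m + 2)) := by
  rw [capS_eq, Finset.sum_comm, Finset.smul_sum]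
  unfold Lam
  rw [LinearMap.sum_apply, Finset.sum_apply]
  refine Finset.sum_congr rfl fun i _ => ?_
  rw [LinearMap.sum_apply, Finset.sum_apply, Finset.smul_sum]
  refine Finset.sum_congr rfl fun k _ => ?_
  rw [smul_smul, RmS_alt R b hR k i]
  have h : (-(1 / 2) : ℂ) * -RmS R b i k = RmS R b i k / 2 := by ring
  rw [h]
  rfl

omit hR

variable (f : Frm T →ₗ[ℂ] Frm T →ₗ[ℂ] ℂ)

/-- The matrix of the dual form. -/
def FmS (i k : Fin n) : ℂ := f (cfm b i) (cfm b k)

theorem RmS_FmS (hf : IsFs R f) (i l : Fin n) :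
    ∑ k, RmS R b i k * FmS b f k l = if i = l then 1 else 0 := by
  have h : f (rfS R (b i)) (cfm b l) = cfm b l (b i) := hf.val (b i) (cfm b l)
  rw [rfS_expand R b, map_sum, LinearMap.sum_apply] at h
  rw [← cfm_apply_basis b l i, ← h]
  refine Finset.sum_congr rfl fun k _ => ?_
  rw [map_smul, LinearMap.smul_apply, smul_eq_mul]
  rfl

theorem FmS_RmS (hf : IsFs R f) (i l : Fin n) :
    ∑ k, FmS b f i k * RmS R b k l = if i = l then 1 else 0 := by
  have h1 : (Matrix.of (RmS R b)) * Matrix.of (FmS b f) = 1 := by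
    ext i l
    rw [Matrix.mul_apply, Matrix.one_apply]
    exact RmS_FmS R b f hf i l
  have h2 := mul_eq_one_comm.1 h1
  have h3 := congrFun (congrFun h2 i) l
  rw [Matrix.mul_apply, Matrix.one_apply] at h3
  exact h3

theorem fS_expand (a a' : T.V →ₗ[ℝ] ℂ) :
    f a a' = ∑ i, ∑ k, a (b i) * a' (b k) * FmS b f i k := by
  conv_lhs => rw [expand_form b a, expand_form b a']
  rw [map_sum f, LinearMap.sum_apply]
  refine Finset.sum_congr rfl fun i _ => ?_
  rw [map_smul, LinearMap.smul_apply, map_sum, Finset.smul_sum]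
  refine Finset.sum_congr rfl fun k _ => ?_
  rw [map_smul, smul_eq_mul, smul_eq_mul, mul_assoc]
  rfl

theorem LS_vac (hf : ∀ a b, f a b = -f b a) (a : Fin 2 → (T.V →ₗ[ℝ] ℂ)) :
    (Lam (cc T b) (FmS b f) (vac _)) 2 a = f (a 0) (a 1) := by
  have h1 : (Lam (cc T b) (FmS b f) (vac _)) 2 a = ∑ i, ∑ k, (FmS b f i k / 2) *
      (a 0 (b i) * a 1 (b k) - a 1 (b i) * a 0 (b k)) := by
    unfold Lam
    rw [LinearMap.sum_apply, Finset.sum_apply, alt_sum_apply]
    refine Finset.sum_congr rfl fun i _ => ?_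
    rw [LinearMap.sum_apply, Finset.sum_apply, alt_sum_apply]
    refine Finset.sum_congr rfl fun k _ => ?_
    rw [LinearMap.smul_apply, Pi.smul_apply, AlternatingMap.smul_apply, smul_eq_mul]
    congr 1
    exact cr_cr_const _ _ a
  have h3 : (Lam (cc T b) (FmS b f) (vac _)) 2 a = (1 / 2) * f (a 0) (a 1) -
      (1 / 2) * f (a 1) (a 0) := by
    rw [h1, fS_expand b f, fS_expand b f, Finset.mul_sum, Finset.mul_sum,
      ← Finset.sum_sub_distrib]
    refine Finset.sum_congr rfl fun i _ => ?_
    rw [Finset.mul_sum, Finset.mul_sum, ← Finset.sum_sub_distrib]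
    refine Finset.sum_congr rfl fun k _ => ?_
    ring
  rw [h3, hf (a 1) (a 0)]
  ring

end tp

end InS_aux

open InS_aux SE.Inv_aux HC.W in
theorem tInS : S_InS := by
  classical
  intro T R f hR hf F hF m e
  have hm : 2 = m := by simpa using Fintype.card_congr e
  subst hm
  rw [AlternatingMap.domDomCongr_perm]
  set G := @MultilinearMap.alternatization ℂ _ (T.V →ₗ[ℝ] ℂ) _ _ ℂ _ _ (Fin 2) _
    (fun a b => Classical.propDecidable (a = b)) F with hG
  have key : Alg T 2 G := by
    by_cases hg : Module.finrank ℂ T.V = 0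
    · exact HC.E.tTop T 2 _ (by rw [hg]; omega)
    · obtain ⟨g, hgg⟩ : ∃ g, g = Module.finrank ℂ T.V := ⟨_, rfl⟩
      rw [← hgg] at hg
      have hn : Module.finrank ℝ T.V = 2 * g := by
        rw [hgg]
        exact finrank_real_of_complex _
      let b : Module.Basis (Fin (2 * g)) ℝ T.V := Module.finBasisOfFinrankEq ℝ _ hn
      have hL := Lam_L (aa T b) (cc T b) (RmS R b) (FmS b f) (aa_cc T b) (RmS_alt R b hR)
        (fun i k => hf.sf.alt _ _) (FmS_RmS R b f hf)
      have hN := N_L (aa T b) (cc T b) (FmS b f) (aa_cc T b) (cc_cc T b)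
      have hv : ∀ i, aa T b i (vac _) = 0 := fun i => An_vac _
      have hd : ∀ d k : ℕ, k + d = g →
          Alg T (2 * k) (((Lam (cc T b) (FmS b f) ^ k) (vac _)) (2 * k)) := by
        intro d
        induction d with
        | zero =>
          intro k hk
          exact HC.E.tTop T (2 * k) _ (by rw [← hgg, ← hk]; omega)
        | succ d ih =>
          intro k hk
          have h1 := ih (k + 1) (by omega)
          have h2 := Lam_pow (aa T b) (cc T b) (RmS R b) (FmS b f) (vac _) hN hL hv k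
          have h3 := congrFun h2 (2 * k)
          rw [LamS_apply R b hR, Pi.smul_apply] at h3
          have h4 : Alg T (2 * k) ((((k + 1) * (g - k) : ℂ)) •
              ((Lam (cc T b) (FmS b f) ^ k) (vac _)) (2 * k)) := by
            rw [← h3]
            exact Alg.smul _ (Alg.cap _ _ (isDivS R b hR) h1)
          refine Alg.of_smul ?_ h4
          refine mul_ne_zero (by exact_mod_cast Nat.succ_ne_zero k) ?_
          rw [← hk]
          push_cast
          have h5 : (k : ℂ) + (d + 1) - k = ((d + 1 : ℕ) : ℂ) := by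
            push_cast
            ring
          rw [h5]
          exact_mod_cast Nat.succ_ne_zero d
      have h1 := hd (g - 1) 1 (by omega)
      rw [pow_one] at h1
      have h2 : G = (2 : ℂ) • ((Lam (cc T b) (FmS b f)) (vac _)) 2 := by
        ext a
        rw [hG, alt_two, AlternatingMap.smul_apply, LS_vac b f hf.sf.alt, hF, hF, smul_eq_mul]
        show f (a 0) (a 1) - f (a 1) (a 0) = _
        rw [hf.sf.alt (a 1) (a 0)]
        ring
      rw [h2]
      exact Alg.smul _ h1
  rcases Int.units_eq_one_or (Equiv.Perm.sign e) with h | h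
  · rw [h, one_smul]
    exact key
  · rw [h, Units.neg_smul, one_smul]
    exact key.neg

end SES
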