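import Pool.Agent.Lib.SE.S.Spec2
import Pool.Agent.Lib.SE.Big.Dim

/-!
# PROJECT SE-S, module JS: the multiplication by `i` on the forms
-/

set_option autoImplicit false

open Module

noncomputable section

namespace SES

open HC HC.E SEB

namespace JS_aux

variable {G : AV}

/-- The forms with `a (i v) = e a(v)`. -/
def Kx (G : AV) (e : ℂ) : Submodule ℂ (Frm G) where
  carrier := {a | ∀ v, a (Complex.I • v) = e * a v}
  add_mem' {a b} ha hb := by
    intro v
    rw [LinearMap.add_apply, ha v, hb v, LinearMap.add_apply, mul_add]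
  zero_mem' := fun v => by simp
  smul_mem' c a ha := by
    intro v
    rw [LinearMap.smul_apply, ha v, LinearMap.smul_apply, smul_eq_mul, smul_eq_mul]
    ring

theorem conj_eq (G : AV) : finrank ℂ (Kx G (-Complex.I)) = finrank ℂ (Kx G Complex.I) := by
  let cj : Frm G → Frm G := fun a => Complex.conjAe.toLinearMap ∘ₗ a
  have hcj : ∀ a v, cj a v = (starRingEnd ℂ) (a v) := fun a v => rfl
  have h1 : ∀ a ∈ Kx G (-Complex.I), cj a ∈ Kx G Complex.I := by
    intro a ha v
    rw [hcj, ha, map_mul, map_neg, Complex.conj_I, neg_neg, hcj]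
  have h2 : ∀ a ∈ Kx G Complex.I, cj a ∈ Kx G (-Complex.I) := by
    intro a ha v
    rw [hcj, ha, map_mul, Complex.conj_I, hcj]
  have hcc : ∀ a, cj (cj a) = a := fun a => LinearMap.ext fun v => by
    rw [hcj, hcj, Complex.conj_conj]
  let e : Kx G (-Complex.I) ≃ₗ[ℝ] Kx G Complex.I :=
    { toFun := fun a => ⟨cj a, h1 a a.2⟩
      invFun := fun a => ⟨cj a, h2 a a.2⟩
      left_inv := fun a => Subtype.ext (hcc a)
      right_inv := fun a => Subtype.ext (hcc a)
      map_add' := fun a b => Subtype.ext (LinearMap.ext fun v => by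
        change (starRingEnd ℂ) ((a : Frm G) v + (b : Frm G) v) = _
        rw [map_add]
        rfl)
      map_smul' := fun x a => Subtype.ext (LinearMap.ext fun v => by
        change (starRingEnd ℂ) (x • (a : Frm G) v) = x • (starRingEnd ℂ) ((a : Frm G) v)
        rw [Complex.real_smul, Complex.real_smul, map_mul, Complex.conj_ofReal]) }
  have h3 := e.finrank_eq
  rw [← Module.finrank_mul_finrank ℝ ℂ (Kx G (-Complex.I)),
    ← Module.finrank_mul_finrank ℝ ℂ (Kx G Complex.I), Complex.finrank_real_complex] at h3
  omega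

theorem sum_eq (G : AV) :
    finrank ℂ (Kx G Complex.I) + finrank ℂ (Kx G (-Complex.I)) = finrank ℂ (Frm G) := by
  have hsup : Kx G Complex.I ⊔ Kx G (-Complex.I) = ⊤ := by
    rw [eq_top_iff]
    intro a _
    let J : Frm G := pre (mulI G) a
    have hJ : ∀ v, J v = a (Complex.I • v) := fun v => rfl
    have hJJ : ∀ v, J (Complex.I • v) = -a v := fun v => by
      rw [hJ, smul_smul, Complex.I_mul_I, neg_one_smul, map_neg]
    have e1 : a = (1 / 2 : ℂ) • (a - Complex.I • J) + (1 / 2 : ℂ) • (a + Complex.I • J) := by
      refine LinearMap.ext fun v => ?_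
      simp only [LinearMap.add_apply, LinearMap.sub_apply, LinearMap.smul_apply, smul_eq_mul]
      ring
    rw [e1]
    refine Submodule.add_mem_sup (Submodule.smul_mem _ _ fun v => ?_)
      (Submodule.smul_mem _ _ fun v => ?_)
    · simp only [LinearMap.sub_apply, LinearMap.smul_apply, smul_eq_mul, hJJ]
      rw [← hJ]
      linear_combination (J v) * Complex.I_mul_I
    · simp only [LinearMap.add_apply, LinearMap.smul_apply, smul_eq_mul, hJJ]
      rw [← hJ]
      linear_combination (J v) * Complex.I_mul_I
  have hinf : Kx G Complex.I ⊓ Kx G (-Complex.I) = ⊥ := by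
    rw [eq_bot_iff]
    rintro a ⟨h1, h2⟩
    rw [Submodule.mem_bot]
    refine LinearMap.ext fun v => ?_
    have e1 := h1 v
    have e2 := h2 v
    rw [e1] at e2
    have e3 : Complex.I * a v = 0 := by linear_combination (1 / 2 : ℂ) * e2
    rw [LinearMap.zero_apply]
    exact (mul_eq_zero.1 e3).resolve_left Complex.I_ne_zero
  have h := Submodule.finrank_sup_add_finrank_inf_eq (Kx G Complex.I) (Kx G (-Complex.I))
  rw [hsup, hinf, finrank_bot, finrank_top] at h
  omega

end JS_aux

open JS_aux in
theorem tJS : S_JS := by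
  intro G
  have hf : finrank ℂ (Frm G) = 2 * finrank ℂ G.V := Dim_aux.finrank_frm G
  have h1 := conj_eq G
  have h2 := sum_eq G
  refine ⟨inferInstance, ?_, hf, ?_, ?_⟩
  · refine LinearMap.ext fun a => LinearMap.ext fun v => ?_
    change a (Complex.I • Complex.I • v) = -(a v)
    rw [smul_smul, Complex.I_mul_I, neg_one_smul, map_neg]
  · intro e he K hK
    have hKx : K = Kx G e := by
      ext a
      rw [hK]
      constructor
      · intro h v
        exact LinearMap.congr_fun h v
      · intro h
        exact LinearMap.ext fun v => h v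
    rcases he with rfl | rfl
    · rw [hKx]
      omega
    · rw [hKx]
      omega
  · intro E hE u v
    change E (Complex.I • u) v + E u (Complex.I • v) = 0
    have h3 := hE.2.2.1 (Complex.I • u) v
    rw [smul_smul, Complex.I_mul_I, neg_one_smul, map_neg, LinearMap.neg_apply] at h3
    linear_combination -h3

end SES
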