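import Pool.Agent.Lib.SE.S.Spec2

/-!
# PROJECT SE-S, `LkS`: a link gives an intertwiner

Author: helper92 (statement and plan: helper59).
-/

set_option autoImplicit false

open Module

noncomputable section

namespace SES

open HC HC.E HC.SE SEB SEQ SER

namespace LkS_aux

variable {G G' : AV}

theorem pre_add (X Y : Module.End ℝ G.V) : pre (X + Y) = pre X + pre Y := by
  refine LinearMap.ext fun a => LinearMap.ext fun v => ?_
  exact map_add a (X v) (Y v)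

theorem pre_smul (r : ℝ) (X : Module.End ℝ G.V) : pre (r • X) = (r : ℂ) • pre X := by
  refine LinearMap.ext fun a => LinearMap.ext fun v => ?_
  change a (r • X v) = (r : ℂ) * a (X v)
  rw [map_smul, Complex.real_smul]

theorem pre2_add (X Y : Pr2 G G') : pre2 (X + Y) = pre2 X + pre2 Y :=
  Prod.ext (pre_add X.1 Y.1) (pre_add X.2 Y.2)

theorem pre2_smul (r : ℝ) (X : Pr2 G G') : pre2 (r • X) = (r : ℂ) • pre2 X :=
  Prod.ext (pre_smul r X.1) (pre_smul r X.2)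

theorem pre2_mul (X Y : Pr2 G G') : pre2 (X * Y) = pre2 Y * pre2 X := rfl

/-- the eigenvector -/
theorem eig (hJS : S_JS) (hdim : 1 ≤ finrank ℂ G.V) :
    ∃ x : Frm G, x ≠ 0 ∧ pre (mulI G) x = Complex.I • x := by
  have fd : FiniteDimensional ℂ (Frm G) := (hJS G).1
  have h1 := (hJS G).2.2.2.1 Complex.I (Or.inl rfl)
    (Module.End.eigenspace (pre (mulI G)) Complex.I) (fun a => Module.End.mem_eigenspace_iff)
  have h2 : Module.End.eigenspace (pre (mulI G)) Complex.I ≠ ⊥ := by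
    intro h
    rw [h, finrank_bot] at h1
    omega
  obtain ⟨x, hx, hx0⟩ := (Submodule.ne_bot_iff _).1 h2
  exact ⟨x, hx0, Module.End.mem_eigenspace_iff.1 hx⟩

end LkS_aux

open LkS_aux in
/-- A LINK GIVES AN INTERTWINER. -/
theorem tLkS : S_LkS := by
  intro hBs hTs hPc hEx hThA hThB hGr hCl hJS hOn hPj G G' E E' f f' hdim hE hE' hf hf' hSp hSp' h
    hh hK1 hK2
  have fd : FiniteDimensional ℂ (Frm G) := (hJS G).1
  have fd' : FiniteDimensional ℂ (Frm G') := (hJS G').1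
  obtain ⟨hbr, hx, hj, -⟩ := hCl (Pr2 G G') (Module.End ℂ (Frm G) × Module.End ℂ (Frm G')) pre2
    pre2_add pre2_smul pre2_mul h (mulI G, mulI G') hh.br hh.J (gg2 h) rfl
  obtain ⟨hP1, hP2, hl1, hl2, hC⟩ := hPj G G' E E' h hh
  obtain ⟨hO1a, hO1b⟩ := hOn G E f hf hSp _ hP1
  obtain ⟨hO2a, hO2b⟩ := hOn G' E' f' hf' hSp' _ hP2
  have hCs : ∀ C ∈ gg2 h, C.1 ∈ Sp f ∧ C.2 ∈ Sp f' := fun C hC' =>
    ⟨hO1a _ (hC C hC').1, hO2a _ (hC C hC').2⟩
  have hbrf := (hBs (Frm G) f hf.sf).2.2.1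
  -- the map
  obtain ⟨φ, hφ1, hφ2⟩ := hGr (Module.End ℂ (Frm G)) (Module.End ℂ (Frm G')) (gg2 h) (Sp f)
    (fun X hX => by
      obtain ⟨C', hC', hC'1⟩ := hl1 X (hO1b X hX)
      refine ⟨C'.2, ?_⟩
      rw [← hC'1]
      exact hC') hK2
  have hon : ∀ C ∈ gg2 h, φ C.1 = C.2 := fun C hC' =>
    (hφ2 C.1 (hCs C hC').1 C.2 hC').symm
  have his : IsIs f f' (pre (mulI G)) (pre (mulI G')) φ := by
    refine ⟨fun X hX => (hCs _ (hφ1 X hX)).2, ?_, ?_, ?_, ?_⟩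
    · intro X hX Y hY
      exact hon _ (hbr _ (hφ1 X hX) _ (hφ1 Y hY))
    · intro X hX h0
      have h1 := hφ1 X hX
      rw [h0] at h1
      exact hK1 X h1
    · intro Y hY
      obtain ⟨C', hC', hC'2⟩ := hl2 Y (hO2b Y hY)
      exact ⟨C'.1, (hCs C' hC').1, by rw [hon C' hC', hC'2]⟩
    · intro X hX
      exact hon _ (hj _ (hφ1 X hX))
  -- the intertwiner
  obtain ⟨x, hx0, hxe⟩ := eig hJS hdim
  have hJm : pre (mulI G) ∈ Sp f := hf.skew _ ((hJS G).2.2.2.2 E hE)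
  have hJm' : pre (mulI G') ∈ Sp f' := hf'.skew _ ((hJS G').2.2.2.2 E' hE')
  obtain ⟨y, x', y', e1, e2, e3, e4, e5⟩ := hThA hBs hEx (Frm G) (Frm G') f f' hf.sf hf'.sf
    (pre (mulI G)) (pre (mulI G')) (hJS G).2.1 (hJS G').2.1 hJm hJm' φ his x hx0 hxe
  obtain ⟨θ, hθ0, hθ⟩ := hThB hBs (Frm G) (Frm G') f f' hf.sf hf'.sf (pre (mulI G))
    (pre (mulI G')) φ his x y x' y' e1 e2 e3 e4 e5
  refine ⟨θ, hθ0, ?_⟩
  intro X hX a
  have hX1 : pre X.1 ∈ Sp f := hf.skew _ (hh.sk X hX).1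
  have hX2 : pre X.2 ∈ Sp f' := hf'.skew _ (hh.sk X hX).2
  have key : φ (pre X.1) - pre X.2 = 0 := by
    refine (hPc hBs hTs (Frm G') f' hf'.sf).2 _
      ((Sp f').sub_mem (his.mem _ hX1) hX2) ?_
    intro Y hY
    obtain ⟨C', hC', hC'2⟩ := hl2 Y (hO2b Y hY)
    have h1 : φ C'.1 = Y := by rw [hon C' hC', hC'2]
    have h2 := hon _ (hx X hX C' hC')
    have h3 : φ (pre X.1 * C'.1 - C'.1 * pre X.1) = pre X.2 * C'.2 - C'.2 * pre X.2 := h2
    rw [his.br _ hX1 _ (hCs C' hC').1, h1, hC'2] at h3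
    rw [sub_mul, mul_sub, sub_sub_sub_comm, h3, sub_self]
  rw [hθ _ hX1, sub_eq_zero.1 key]

end SES
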