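import Pool.Agent.Lib.SE.S.Spec2
import Pool.Agent.Lib.SE.R.ClR

/-!
# PROJECT SE-S, part 2: elements with `B`-component `0`
-/

set_option autoImplicit false

open Module

noncomputable section

namespace SES

open HC HC.E HC.SE SEB SEQ SER

namespace M1_aux

variable {q q' : ℕ} {T : Fin q → AV} {B : AV} {G : Fin q' → AV}

theorem preM_add (X Y : TM T B G) : preM (X + Y) = preM X + preM Y :=
  Prod.ext (ClR_aux.pr_add X.1 Y.1) (funext fun k => Cl_aux.pre_add (X.2 k) (Y.2 k))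

theorem preM_smul (c : ℝ) (X : TM T B G) : preM (c • X) = (c : ℂ) • preM X :=
  Prod.ext (ClR_aux.pr_smul c X.1) (funext fun k => Cl_aux.pre_smul c (X.2 k))

theorem preM_mul (X Y : TM T B G) : preM (X * Y) = preM Y * preM X := rfl

theorem J_sq (hJS : S_JS) : preM (((JT T, mulI B), JT G) : TM T B G) *
    preM (((JT T, mulI B), JT G) : TM T B G) = -1 :=
  Prod.ext ClR_aux.J_sq (funext fun k => (hJS (G k)).2.1)

/-- Two independent vectors in a space of dimension at least 2. -/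
theorem two_li {V : Type} [AddCommGroup V] [Module ℂ V] [FiniteDimensional ℂ V]
    (K : Submodule ℂ V) (hK : 2 ≤ finrank ℂ K) :
    ∃ e : Fin 2 → V, LinearIndependent ℂ e ∧ ∀ a, e a ∈ K := by
  refine ⟨fun a => (Module.finBasis ℂ K (Fin.castLE hK a) : V), ?_, fun a => Subtype.prop _⟩
  have h1 : LinearIndependent ℂ fun a : Fin 2 => Module.finBasis ℂ K (Fin.castLE hK a) :=
    (Module.finBasis ℂ K).linearIndependent.comp _ (Fin.castLE_injective hK)
  exact h1.map' K.subtype (Submodule.ker_subtype K)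

theorem jzj {R : Type} [Ring R] [Algebra ℂ R] {J Z : R} (hJ : J * J = -1) (h : Z * J = J * Z) :
    Z - J * Z * J = (2 : ℂ) • Z := by
  rw [← h, mul_assoc, hJ, mul_neg_one, sub_neg_eq_add, two_smul]

theorem br2 {R : Type} [Ring R] [Algebra ℂ R] {X Y : R}
    (h : ((2 : ℂ) • X) * ((2 : ℂ) • Y) - ((2 : ℂ) • Y) * ((2 : ℂ) • X) = 0) : X * Y - Y * X = 0 := by
  rw [smul_mul_smul_comm, smul_mul_smul_comm, ← smul_sub] at h
  exact (smul_eq_zero.1 h).resolve_left (by norm_num)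

end M1_aux

open M1_aux in
theorem tM1 : S_M1 := by
  intro hBs hTs hSi hNa hCl hJS hCm hPj q q' T m D B ι S G E f h hT hh hH k
  classical
  obtain ⟨-, -, -, p4, p5, p6⟩ := hPj q q' T m D B ι S G E h hh
  obtain ⟨c1, -, -, c4, -⟩ := hCl (TM T B G) (CM' T B G) preM preM_add preM_smul preM_mul h
    (((JT T, mulI B), JT G) : TM T B G) hh.br hh.J (ggM h) rfl
  have c4' := c4 (J_sq hJS)
  obtain ⟨j1, j2, -, j4, j5⟩ := hJS (G k)
  have hsf := (hT.fs k).sf
  -- every element of `Sp (f k)` is a component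
  have hit : ∀ X ∈ Sp (f k), ∃ C ∈ ggM h, C.2 k = X := by
    intro X hX
    have h1 : (Pi.single k X : ∀ l, Module.End ℂ (Frm (G l))) ∈ ggT (Prod.snd '' h) := by
      refine hH.2 _ fun l => ?_
      by_cases hl : l = k
      · subst hl
        rw [Pi.single_eq_same]
        exact hX
      · rw [Pi.single_eq_of_ne hl]
        exact zero_mem _
    obtain ⟨C, hC, hC2⟩ := p4 _ h1
    exact ⟨C, hC, by rw [hC2, Pi.single_eq_same]⟩
  let N : Submodule ℂ (Module.End ℂ (Frm (G k))) :=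
    { carrier := {A | ∃ C ∈ ggM h, C.1.2 = 0 ∧ C.2 k = A}
      add_mem' := by
        rintro A A' ⟨C, hC, h1, rfl⟩ ⟨C', hC', h1', rfl⟩
        refine ⟨C + C', add_mem hC hC', ?_, rfl⟩
        rw [Prod.fst_add, Prod.snd_add, h1, h1', add_zero]
      zero_mem' := ⟨0, zero_mem _, rfl, rfl⟩
      smul_mem' := by
        rintro c A ⟨C, hC, h1, rfl⟩
        refine ⟨c • C, Submodule.smul_mem _ c hC, ?_, rfl⟩
        rw [Prod.smul_fst, Prod.smul_snd, h1, smul_zero] }
  refine fun A hA => hSi hBs hTs (Frm (G k)) (f k) hsf N ?_ ?_ ?_ A hA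
  · rintro n ⟨C, hC, -, rfl⟩
    exact hH.1 _ (p5 C hC).2 k
  · rintro n ⟨C, hC, h1, rfl⟩ X hX
    obtain ⟨C', hC', rfl⟩ := hit X hX
    refine ⟨C' * C - C * C', c1 C' hC' C hC, ?_, rfl⟩
    change C'.1.2 * C.1.2 - C.1.2 * C'.1.2 = 0
    rw [h1, mul_zero, zero_mul, sub_zero]
  · have hJk : pre (mulI (G k)) ∈ Sp (f k) := (hT.fs k).skew _ (j5 (E k) (hT.rf k))
    set K : Submodule ℂ (Frm (G k)) :=
      LinearMap.ker (pre (mulI (G k)) - Complex.I • (1 : Module.End ℂ (Frm (G k)))) with hKd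
    have hK : ∀ a, a ∈ K ↔ pre (mulI (G k)) a = Complex.I • a := by
      intro a
      rw [hKd, LinearMap.mem_ker, LinearMap.sub_apply, LinearMap.smul_apply,
        Module.End.one_apply, sub_eq_zero]
    have hK2 : 2 ≤ finrank ℂ K := by
      rw [j4 Complex.I (Or.inl rfl) K hK]
      exact hT.two k
    obtain ⟨e, he, heK⟩ := two_li K hK2
    obtain ⟨X, hX, Y, hY, hXJ, hYJ, hne⟩ := hNa hBs (Frm (G k)) (f k) hsf (pre (mulI (G k))) hJk j2
      e he fun a => (hK _).1 (heK a)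
    obtain ⟨C, hC, hCX⟩ := hit X hX
    obtain ⟨C', hC', hCY⟩ := hit Y hY
    have h1 := c4' C hC
    have h2 := c4' C' hC'
    have h5 : ∀ (C₀ : CM' T B G) (Z : Module.End ℂ (Frm (G k))), C₀.2 k = Z →
        Z * pre (mulI (G k)) = pre (mulI (G k)) * Z →
        (C₀ - preM (((JT T, mulI B), JT G) : TM T B G) * C₀ *
          preM (((JT T, mulI B), JT G) : TM T B G)).2 k = (2 : ℂ) • Z := by
      intro C₀ Z hZ hZJ
      subst hZ
      exact jzj j2 hZJ
    refine ⟨_, ⟨_, c1 _ h1 _ h2, ?_, rfl⟩, ?_⟩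
    · exact sub_eq_zero.2 (hCm B ι S C.1.2 (p6 C hC) C'.1.2 (p6 C' hC'))
    · have h6 := h5 C X hCX hXJ
      have h7 := h5 C' Y hCY hYJ
      intro h0
      refine hne (br2 ?_)
      rw [← h6, ← h7]
      exact h0

end SES
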