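import Pool.Agent.Lib.SE.S.Spec2

/-!
# PROJECT SE-S, `M3`: everything is hit with `(T, B)`-component `0`

Author: helper78 (statement and plan: helper59).
-/

set_option autoImplicit false

open Module

noncomputable section

namespace SES

open HC HC.E HC.SE SEB SEQ SER

namespace M3_aux

theorem pre_add {T : AV} (X Y : Module.End ℝ T.V) : pre (X + Y) = pre X + pre Y := by
  ext a v
  show a ((X + Y) v) = a (X v) + a (Y v)
  rw [LinearMap.add_apply, map_add]

theorem pre_smul {T : AV} (r : ℝ) (X : Module.End ℝ T.V) :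
    pre (r • X) = (r : ℂ) • pre X := by
  ext a v
  show a ((r • X) v) = (r : ℂ) • a (X v)
  rw [LinearMap.smul_apply, map_smul]
  simp

theorem fin_frm (T : AV) : FiniteDimensional ℂ (Frm T) := by
  have h2 : Module.Finite ℝ T.V := Module.Finite.trans ℂ T.V
  exact Module.Finite.linearMap ℝ ℂ T.V ℂ

variable {q q' : ℕ} {T : Fin q → AV} {B : AV} {G : Fin q' → AV}

theorem preM_add (X Y : TM T B G) : preM (X + Y) = preM X + preM Y := by
  refine Prod.ext (Prod.ext (funext fun i => ?_) ?_) (funext fun k => ?_)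
  · exact pre_add _ _
  · exact pre_add _ _
  · exact pre_add _ _

theorem preM_smul (r : ℝ) (X : TM T B G) : preM (r • X) = (r : ℂ) • preM X := by
  refine Prod.ext (Prod.ext (funext fun i => ?_) ?_) (funext fun k => ?_)
  · exact pre_smul _ _
  · exact pre_smul _ _
  · exact pre_smul _ _

theorem preM_mul (X Y : TM T B G) : preM (X * Y) = preM Y * preM X := rfl

/-- `ggM h` is closed under commutators. -/
theorem ggM_br (hCl : S_ClX) (h : Set (TM T B G))
    (hbr : ∀ X ∈ h, ∀ Y ∈ h, X * Y - Y * X ∈ h)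
    (hJ : (((JT T, mulI B), JT G) : TM T B G) ∈ Submodule.span ℝ h) :
    ∀ C ∈ ggM h, ∀ C' ∈ ggM h, C * C' - C' * C ∈ ggM h :=
  (hCl (TM T B G) (CM' T B G) preM preM_add preM_smul preM_mul h _ hbr hJ (ggM h) rfl).1

end M3_aux

open M3_aux in
/-- EVERYTHING IS HIT WITH `(T, B)`-COMPONENT `0`. -/
theorem tM3 : S_M3 := by
  classical
  intro hBs hTs hPc hCl hPj q q' T m D B ι S G E f h hT hh hH h2 A hA
  have hbr := ggM_br hCl h hh.br hh.J
  have hpr := (hPj q q' T m D B ι S G E h hh).2.2.2.1
  have key : ∀ k, ∀ X ∈ Sp (f k),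
      ((0, Pi.single k X) : CM' T B G) ∈ ggM h := by
    intro k X hX
    have hfd := fin_frm (G k)
    have hp := (hPc hBs hTs (Frm (G k)) (f k) (hT.fs k).sf).1 X hX
    refine Submodule.span_induction
      (p := fun X _ => ((0, Pi.single k X) : CM' T B G) ∈ ggM h) ?_ ?_ ?_ ?_ hp
    · rintro _ ⟨X, hX, Y, hY, rfl⟩
      obtain ⟨C, hC, hC1, hC2⟩ := h2 k X hX
      have h3 : (Pi.single k Y : ∀ k, Module.End ℂ (Frm (G k))) ∈ ggT (Prod.snd '' h) := by
        refine hH.2 _ fun l => ?_
        by_cases hl : l = k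
        · subst hl
          rw [Pi.single_eq_same]
          exact hY
        · rw [Pi.single_eq_of_ne hl]
          exact (Sp (f l)).zero_mem
      obtain ⟨C', hC', hC'2⟩ := hpr _ h3
      have h4 : ((0, Pi.single k (X * Y - Y * X)) : CM' T B G) = C * C' - C' * C := by
        refine Prod.ext ?_ (funext fun l => ?_)
        · rw [Prod.fst_sub, Prod.fst_mul, Prod.fst_mul, hC1, zero_mul, mul_zero, sub_zero]
        · show (Pi.single k (X * Y - Y * X) : ∀ k, Module.End ℂ (Frm (G k))) l =
            C.2 l * C'.2 l - C'.2 l * C.2 l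
          rw [hC'2]
          by_cases hl : l = k
          · subst hl
            rw [Pi.single_eq_same, Pi.single_eq_same, hC2]
          · rw [Pi.single_eq_of_ne hl, Pi.single_eq_of_ne hl, zero_mul, mul_zero, sub_zero]
      rw [h4]
      exact hbr C hC C' hC'
    · rw [Pi.single_zero]
      exact (ggM h).zero_mem
    · intro X Y _ _ hX hY
      have h4 : ((0, Pi.single k (X + Y)) : CM' T B G) =
          (0, Pi.single k X) + (0, Pi.single k Y) := by
        rw [Pi.single_add, Prod.mk_add_mk, add_zero]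
      rw [h4]
      exact (ggM h).add_mem hX hY
    · intro c X _ hX
      have h4 : ((0, Pi.single k (c • X)) : CM' T B G) = c • (0, Pi.single k X) := by
        rw [Pi.single_smul, Prod.smul_mk, smul_zero]
      rw [h4]
      exact (ggM h).smul_mem c hX
  have h5 : ((0, A) : CM' T B G) = ∑ k, ((0, Pi.single k (A k)) : CM' T B G) := by
    refine Prod.ext ?_ ?_
    · rw [Prod.fst_sum]
      exact (Finset.sum_const_zero).symm
    · rw [Prod.snd_sum]
      exact (Finset.univ_sum_single A).symm
  rw [h5]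
  exact (ggM h).sum_mem fun k _ => key k (A k) (hA k)

end SES
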