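import Pool.Agent.Lib.SE.S.Spec2

/-!
# PROJECT SE-S, module M4: real form of the mixed Lie algebra
-/

set_option autoImplicit false

open Module

noncomputable section

namespace SES

open HC HC.E HC.SE SEB SEQ SER

namespace M4_aux

/-- `C = pre P + i pre Q`. -/
def Re1 {A : AV} (C : Module.End ℂ (Frm A)) (P Q : Module.End ℝ A.V) : Prop :=
  ∀ a v, C a v = a (P v) + Complex.I * a (Q v)

theorem re1_pre {A : AV} (X : Module.End ℝ A.V) : Re1 (pre X) X 0 := by
  intro a v
  rw [LinearMap.zero_apply, map_zero, mul_zero, add_zero]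
  rfl

theorem re1_zero {A : AV} : Re1 (0 : Module.End ℂ (Frm A)) 0 0 := by
  intro a v
  simp

theorem re1_add {A : AV} {C C' : Module.End ℂ (Frm A)} {P P' Q Q' : Module.End ℝ A.V}
    (h : Re1 C P Q) (h' : Re1 C' P' Q') : Re1 (C + C') (P + P') (Q + Q') := by
  intro a v
  rw [LinearMap.add_apply, LinearMap.add_apply, h, h', LinearMap.add_apply, LinearMap.add_apply,
    map_add, map_add]
  ring

theorem re1_smul {A : AV} (c : ℂ) {C : Module.End ℂ (Frm A)} {P Q : Module.End ℝ A.V}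
    (h : Re1 C P Q) : Re1 (c • C) (c.re • P - c.im • Q) (c.re • Q + c.im • P) := by
  intro a v
  rw [LinearMap.smul_apply, LinearMap.smul_apply, h, LinearMap.sub_apply, LinearMap.add_apply,
    map_sub, map_add, LinearMap.smul_apply, LinearMap.smul_apply, LinearMap.smul_apply,
    LinearMap.smul_apply, map_smul, map_smul, map_smul, map_smul, smul_eq_mul, Complex.real_smul,
    Complex.real_smul, Complex.real_smul, Complex.real_smul]
  conv_lhs => rw [← Complex.re_add_im c]
  have hI := Complex.I_mul_I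
  linear_combination ((c.im : ℂ) * a (Q v)) * hI

/-- Real valued forms: the real part is determined. -/
theorem re1_eq {A : AV} {Y P Q : Module.End ℝ A.V} (h : Re1 (pre Y) P Q) : P = Y := by
  refine LinearMap.ext fun v => ?_
  rw [← sub_eq_zero, ← Module.forall_dual_apply_eq_zero_iff ℝ]
  intro φ
  have h1 := h (Complex.ofRealCLM.toLinearMap ∘ₗ φ) v
  have h2 : pre Y (Complex.ofRealCLM.toLinearMap ∘ₗ φ) v = ((φ (Y v) : ℝ) : ℂ) := rfl
  have h3 : ∀ w, (Complex.ofRealCLM.toLinearMap ∘ₗ φ) w = ((φ w : ℝ) : ℂ) := fun w => rfl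
  rw [h2, h3, h3] at h1
  have h4 := congrArg Complex.re h1
  simp at h4
  rw [map_sub, h4, sub_self]

variable {q q' : ℕ} {T : Fin q → AV} {B : AV} {G : Fin q' → AV}

/-- Complex combinations are `preM P + i preM Q`. -/
theorem comb (h : Set (TM T B G)) (C : CM' T B G) (hC : C ∈ ggM h) :
    ∃ P ∈ Submodule.span ℝ (ComM h), ∃ Q ∈ Submodule.span ℝ (ComM h),
      (∀ i, Re1 (C.1.1 i) (P.1.1 i) (Q.1.1 i)) ∧ Re1 C.1.2 P.1.2 Q.1.2 ∧
      ∀ k, Re1 (C.2 k) (P.2 k) (Q.2 k) := by
  unfold ggM at hC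
  induction hC using Submodule.span_induction with
  | mem C hC =>
    obtain ⟨Y, hY, rfl⟩ := hC
    exact ⟨Y, Submodule.subset_span hY, 0, Submodule.zero_mem _, fun i => re1_pre _, re1_pre _,
      fun k => re1_pre _⟩
  | zero =>
    exact ⟨0, Submodule.zero_mem _, 0, Submodule.zero_mem _, fun i => re1_zero, re1_zero,
      fun k => re1_zero⟩
  | add C C' _ _ h h' =>
    obtain ⟨P, hP, Q, hQ, h1, h2, h3⟩ := h
    obtain ⟨P', hP', Q', hQ', h1', h2', h3'⟩ := h'
    exact ⟨P + P', add_mem hP hP', Q + Q', add_mem hQ hQ', fun i => re1_add (h1 i) (h1' i),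
      re1_add h2 h2', fun k => re1_add (h3 k) (h3' k)⟩
  | smul c C _ h =>
    obtain ⟨P, hP, Q, hQ, h1, h2, h3⟩ := h
    exact ⟨c.re • P - c.im • Q, sub_mem (Submodule.smul_mem _ _ hP) (Submodule.smul_mem _ _ hQ),
      c.re • Q + c.im • P, add_mem (Submodule.smul_mem _ _ hQ) (Submodule.smul_mem _ _ hP),
      fun i => re1_smul c (h1 i), re1_smul c h2, fun k => re1_smul c (h3 k)⟩

theorem pre_zero {A : AV} : pre (0 : Module.End ℝ A.V) = 0 := by
  refine LinearMap.ext fun a => LinearMap.ext fun v => ?_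
  have h : pre (0 : Module.End ℝ A.V) a v = a ((0 : Module.End ℝ A.V) v) := rfl
  rw [h, LinearMap.zero_apply, map_zero]
  rfl

end M4_aux

open M4_aux in
theorem tM4 : S_M4 := by
  intro q q' T B G E f h hf hA Y hY
  obtain ⟨P, hP, Q, hQ, h1, h2, h3⟩ := comb h _
    (hA (fun k => pre (Y k)) fun k => (hf k).skew (Y k) (hY k))
  have e1 : ∀ i, P.1.1 i = 0 := fun i => by
    refine re1_eq (Y := 0) (Q := Q.1.1 i) ?_
    rw [pre_zero]
    exact h1 i
  have e2 : P.1.2 = 0 := by
    refine re1_eq (Y := 0) (Q := Q.1.2) ?_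
    rw [pre_zero]
    exact h2
  have e3 : ∀ k, P.2 k = Y k := fun k => re1_eq (h3 k)
  have h4 : ((0, Y) : TM T B G) = P := by
    refine Prod.ext (Prod.ext (funext fun i => ?_) ?_) (funext fun k => ?_)
    · exact (e1 i).symm
    · exact e2.symm
    · exact (e3 k).symm
  rw [h4]
  exact hP

end SES
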