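import Pool.Agent.Lib.SE.S.Spec

/-!
# PROJECT SE-S, module NaS: the centralizer of `J` in `sp` is not commutative
-/

set_option autoImplicit false

open Module

noncomputable section

namespace SES

open HC HC.E HC.SE SEB SEQ SER

namespace NaS_aux

variable {V : Type} [AddCommGroup V] [Module ℂ V]

theorem sy_smul_left (f : V →ₗ[ℂ] V →ₗ[ℂ] ℂ) (c : ℂ) (v w : V) : sy f (c • v) w = c • sy f v w := by
  ext z
  rw [LinearMap.smul_apply, sy_apply, sy_apply, map_smul, LinearMap.smul_apply, smul_add, smul_smul, smul_smul,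
    smul_smul, smul_eq_mul, mul_comm (f w z) c]

theorem sy_smul_right (f : V →ₗ[ℂ] V →ₗ[ℂ] ℂ) (c : ℂ) (v w : V) : sy f v (c • w) = c • sy f v w := by
  ext z
  rw [LinearMap.smul_apply, sy_apply, sy_apply, map_smul, LinearMap.smul_apply, smul_add, smul_smul, smul_smul,
    smul_smul, smul_eq_mul, mul_comm (f v z) c]

/-- dual vectors to two independent vectors -/
theorem dual [FiniteDimensional ℂ V] (f : V →ₗ[ℂ] V →ₗ[ℂ] ℂ) (hf : IsSf f) (e : Fin 2 → V)
    (he : LinearIndependent ℂ e) (b : Fin 2) : ∃ w, ∀ a, f (e a) w = if a = b then 1 else 0 := by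
  -- the functional
  have hinj : Function.Injective f.flip := by
    rw [injective_iff_map_eq_zero]
    intro v hv
    refine hf.nd v fun w => ?_
    have h1 : f w v = 0 := by
      have := LinearMap.congr_fun hv w
      simpa using this
    rw [hf.alt v w, h1, neg_zero]
  have hsurj : Function.Surjective f.flip := by
    have h1 : finrank ℂ V = finrank ℂ (V →ₗ[ℂ] ℂ) := (Subspace.dual_finrank_eq (K := ℂ) (V := V)).symm
    exact (LinearMap.injective_iff_surjective_of_finrank_eq_finrank h1).1 hinj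
  obtain ⟨φ, hφ⟩ : ∃ φ : V →ₗ[ℂ] ℂ, ∀ a, φ (e a) = if a = b then 1 else 0 := by
    obtain ⟨φ, hφ⟩ := (Basis.span he).constr ℂ (fun a : Fin 2 => if a = b then (1 : ℂ) else 0) |>.exists_extend
    refine ⟨φ, fun a => ?_⟩
    have h1 := LinearMap.congr_fun hφ ((Basis.span he) a)
    rw [Basis.constr_basis] at h1
    rw [← h1]
    simp [Basis.span_apply]
  obtain ⟨w, hw⟩ := hsurj φ
  refine ⟨w, fun a => ?_⟩
  rw [← hφ a, ← hw]
  simp

end NaS_aux

open NaS_aux

theorem tNaS : S_NaS := by
  intro hBs V _ _ _ f hf J hJ hJ2 e he heJ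
  obtain ⟨b1, b2, -, -, -⟩ := hBs V f hf
  have hJJ : ∀ v, J (J v) = -v := by
    intro v
    have := LinearMap.congr_fun hJ2 v
    simpa using this
  have hII : Complex.I * Complex.I = -1 := Complex.I_mul_I
  -- f(e_a, J w) = - i f(e_a, w)
  have hfJ : ∀ a w, f (e a) (J w) = -(Complex.I * f (e a) w) := by
    intro a w
    have h1 := hJ (e a) w
    rw [heJ a, map_smul, LinearMap.smul_apply, smul_eq_mul] at h1
    linear_combination h1
  -- the vectors in the other eigenspace
  have key : ∀ b : Fin 2, ∃ w, J w = -(Complex.I • w) ∧ ∀ a, f (e a) w = if a = b then 1 else 0 := by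
    intro b
    obtain ⟨w', hw'⟩ := dual f hf e he b
    refine ⟨(1 / 2 : ℂ) • (w' + Complex.I • J w'), ?_, fun a => ?_⟩
    · rw [map_smul, map_add, map_smul, hJJ, smul_comm Complex.I (1 / 2 : ℂ), ← smul_neg]
      congr 1
      rw [smul_add, smul_smul, hII]
      simp only [neg_smul, one_smul, smul_neg]
      abel
    · rw [map_smul, map_add, map_smul, hfJ a w', hw' a, smul_eq_mul, smul_eq_mul]
      split_ifs
      · linear_combination (-(1 / 2) : ℂ) * hII
      · ring
  obtain ⟨u0, hu0J, hu0⟩ := key 0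
  obtain ⟨u1, hu1J, hu1⟩ := key 1
  have e00 : f (e 0) u0 = 1 := by simpa using hu0 0
  have e10 : f (e 1) u0 = 0 := by simpa using hu0 1
  have e01 : f (e 0) u1 = 0 := by simpa using hu1 0
  have e11 : f (e 1) u1 = 1 := by simpa using hu1 1
  have hee : ∀ a b, f (e a) (e b) = 0 := by
    intro a b
    have h1 := hJ (e a) (e b)
    rw [heJ a, heJ b, map_smul, map_smul, LinearMap.smul_apply, smul_eq_mul] at h1
    have h2 : (2 * Complex.I) * f (e a) (e b) = 0 := by linear_combination h1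
    exact (mul_eq_zero.1 h2).resolve_left (mul_ne_zero two_ne_zero Complex.I_ne_zero)
  have hcm : ∀ a u, J u = -(Complex.I • u) → sy f (e a) u * J = J * sy f (e a) u := by
    intro a u hu
    have h1 := b2 J hJ (e a) u
    rw [heJ a, hu, ← neg_smul, sy_smul_left, sy_smul_right, neg_smul, add_neg_cancel] at h1
    exact (sub_eq_zero.1 h1).symm
  refine ⟨sy f (e 0) u1, b1 _ _, sy f (e 1) u0, b1 _ _, hcm 0 u1 hu1J, hcm 1 u0 hu0J, fun h0 => ?_⟩
  have h1 := LinearMap.congr_fun h0 (e 0)
  have a1 : f u0 (e 0) = -1 := by rw [hf.alt, e00]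
  have a2 : f u1 (e 0) = 0 := by rw [hf.alt, e01, neg_zero]
  have a3 : f u1 (e 1) = -1 := by rw [hf.alt, e11]
  have hne : e 0 ≠ 0 := he.ne_zero 0
  apply hne
  have h2 : sy f (e 1) u0 (e 0) = -e 1 := by
    rw [sy_apply, a1, hee 1 0]
    simp
  have h3 : sy f (e 0) u1 (e 0) = 0 := by
    rw [sy_apply, a2, hee 0 0]
    simp
  have h4 : sy f (e 0) u1 (e 1) = -e 0 := by
    rw [sy_apply, a3, hee 0 1]
    simp
  have h5 : (sy f (e 0) u1 * sy f (e 1) u0 - sy f (e 1) u0 * sy f (e 0) u1) (e 0) = e 0 := by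
    rw [LinearMap.sub_apply, Module.End.mul_apply, Module.End.mul_apply, h2, h3, map_neg, h4, map_zero]
    simp
  rw [h5] at h1
  simpa using h1

end SES
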