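import Pool.Agent.Lib.SE.S.Spec3
import Pool.Agent.Lib.SE.W.Lie

/-!
# PROJECT SE-S, module OgS: the diagonal operators on `∏ G (κ n)` (helper63)

`tOgS : S_OgS`: `dgS C`, the rational skew tuples and `JT G` satisfy the hypotheses of the Lie algebra
step.
-/

set_option autoImplicit false

open Module

noncomputable section

namespace SES

open HC HC.E HC.SE SEB SEQ SER SE

namespace OgS_aux

section

variable {q N : ℕ} {G : Fin q → AV} {κ : Fin N → Fin q} (C : SE.Prd fun n => G (κ n))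

theorem psi_dg (X : Tup G) (v : C.Y.V) (n : Fin N) :
    C.ψ (dgS C X v) n = X (κ n) (C.ψ v n) :=
  congrFun (C.ψ.apply_symm_apply (fun n => X (κ n) (C.ψ v n))) n

theorem ext_dg {Z Z' : Module.End ℝ C.Y.V} (h : ∀ v n, C.ψ (Z v) n = C.ψ (Z' v) n) : Z = Z' :=
  LinearMap.ext fun v => C.ψ.injective (funext fun n => h v n)

theorem dg_mul (X X' : Tup G) : dgS C (X * X') = dgS C X * dgS C X' :=
  ext_dg C fun v n => by
    rw [psi_dg, Module.End.mul_apply, psi_dg, psi_dg]
    rfl

theorem dg_lie (X X' : Tup G) :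
    dgS C (X * X' - X' * X) = dgS C X * dgS C X' - dgS C X' * dgS C X := by
  rw [map_sub, dg_mul, dg_mul]

theorem dg_mulI : dgS C (JT G) = mulI C.Y :=
  ext_dg C fun v n => by
    rw [psi_dg]
    exact (congrFun (map_smul C.ψ Complex.I v) n).symm

theorem dg_ker {X : Tup G} (h : dgS C X = 0) (n : Fin N) : X (κ n) = 0 := by
  refine LinearMap.ext fun u => ?_
  have h2 := psi_dg C X (C.ψ.symm (Pi.single n u : ∀ n, (G (κ n)).V)) n
  rw [h, LinearMap.zero_apply, map_zero, LinearEquiv.apply_symm_apply, Pi.single_eq_same] at h2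
  exact h2.symm

theorem dg_single {i : Fin q} (hi : ∀ n, κ n ≠ i) (X : Module.End ℝ (G i).V) :
    dgS C (Pi.single i X : Tup G) = 0 :=
  ext_dg C fun v n => by
    rw [psi_dg, Pi.single_eq_of_ne (hi n), LinearMap.zero_apply, LinearMap.zero_apply, map_zero]
    rfl

theorem rat_dg {X : Tup G} (hX : ∀ k, RatEnd (G k) (X k)) : RatEnd C.Y (dgS C X) := by
  intro v hv
  choose b hb h4 using fun n => hX (κ n) _ ((C.lat v).1 hv n)
  refine ⟨∏ n, b n, Finset.prod_ne_zero_iff.2 fun n _ => hb n, ?_⟩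
  rw [C.lat]
  intro n
  rw [map_nsmul, Pi.smul_apply, psi_dg]
  obtain ⟨d, hd⟩ : b n ∣ ∏ n, b n := Finset.dvd_prod_of_mem b (Finset.mem_univ n)
  rw [hd, mul_comm, mul_smul]
  exact (G (κ n)).L.smul_of_tower_mem _ (h4 n)

end

section

variable {T : AV} {E : T.V →ₗ[ℝ] T.V →ₗ[ℝ] ℝ}

theorem sk_zero : IsSk E 0 := fun u v => by
  rw [LinearMap.zero_apply, LinearMap.zero_apply, map_zero, map_zero, LinearMap.zero_apply,
    add_zero]

theorem sk_add {X Y : Module.End ℝ T.V} (hX : IsSk E X) (hY : IsSk E Y) : IsSk E (X + Y) := by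
  intro u v
  have h1 := hX u v
  have h2 := hY u v
  rw [LinearMap.add_apply, LinearMap.add_apply, map_add, map_add, LinearMap.add_apply]
  linear_combination h1 + h2

theorem sk_smul {X : Module.End ℝ T.V} (hX : IsSk E X) (r : ℝ) : IsSk E (r • X) := by
  intro u v
  have h1 := hX u v
  rw [LinearMap.smul_apply, LinearMap.smul_apply, map_smul, map_smul, LinearMap.smul_apply,
    smul_eq_mul, smul_eq_mul]
  linear_combination r * h1

theorem sk_br {X Y : Module.End ℝ T.V} (hX : IsSk E X) (hY : IsSk E Y) :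
    IsSk E (X * Y - Y * X) := by
  intro u v
  have h1 := hX (Y u) v
  have h2 := hY u (X v)
  have h3 := hY (X u) v
  have h4 := hX u (Y v)
  rw [LinearMap.sub_apply, LinearMap.sub_apply, map_sub, map_sub, LinearMap.sub_apply,
    Module.End.mul_apply, Module.End.mul_apply, Module.End.mul_apply, Module.End.mul_apply]
  linear_combination h1 - h2 - h3 + h4

end

end OgS_aux

open OgS_aux in
theorem tOgS : S_OgS := by
  intro hHr hLc1 q N G κ E C hE
  have z0 : ∀ k, RatEnd (G k) 0 ∧ IsSk (E k) 0 := fun k => ⟨SE.Lie_aux.rat_zero, sk_zero⟩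
  -- one component
  have m1 : ∀ k, ∀ X, RatEnd (G k) X ∧ IsSk (E k) X → (Pi.single k X : Tup G) ∈ MS E := by
    intro k X hX k'
    by_cases h : k' = k
    · subst h
      rw [Pi.single_eq_same]
      exact hX
    · rw [Pi.single_eq_of_ne h]
      exact z0 k'
  have dec : ∀ x : Tup G, x = ∑ k, LinearMap.single ℝ (fun k => Module.End ℝ (G k).V) k (x k) :=
    fun x => (Finset.univ_sum_single x).symm
  refine ⟨dg_lie C, ?_, z0, ?_, ?_, ?_, ?_, dg_mulI C, ?_⟩
  · exact fun x hx => rat_dg C fun k => (hx k).1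
  · exact fun x hx y hy k => ⟨SE.Lie_aux.rat_add (hx k).1 (hy k).1, sk_add (hx k).2 (hy k).2⟩
  · exact fun z x hx k => ⟨SE.Lie_aux.rat_qsmul (hx k).1 z, sk_smul (hx k).2 _⟩
  · exact fun x hx y hy k => ⟨HC.Lc3.rat_bracket (hx k).1 (hy k).1, sk_br (hx k).2 (hy k).2⟩
  · -- `i` is in the real span
    rw [dec (JT G)]
    refine Submodule.sum_mem _ fun k _ => ?_
    have e : Submodule.span ℝ {X | RatEnd (G k) X ∧ IsSk (E k) X} ≤
        (Submodule.span ℝ (MS E)).comap
          (LinearMap.single ℝ (fun k => Module.End ℝ (G k).V) k) :=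
      Submodule.span_le.2 fun X hX => Submodule.subset_span (m1 k X hX)
    exact e (hHr hLc1 (G k) (E k) (hE k))
  · -- the kernel
    intro x hx hx0
    have s1 : ∀ k, x k ∈ Submodule.span ℝ {X | RatEnd (G k) X ∧ IsSk (E k) X} := by
      intro k
      have e : Submodule.span ℝ (MS E) ≤
          (Submodule.span ℝ {X | RatEnd (G k) X ∧ IsSk (E k) X}).comap (LinearMap.proj k) :=
        Submodule.span_le.2 fun y hy => Submodule.subset_span (hy k)
      exact e hx
    rw [dec x]
    refine Submodule.sum_mem _ fun k _ => ?_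
    by_cases hk : ∃ n, κ n = k
    · obtain ⟨n, rfl⟩ := hk
      rw [dg_ker C hx0 n, map_zero]
      exact Submodule.zero_mem _
    · have hk' : ∀ n, κ n ≠ k := fun n hn => hk ⟨n, hn⟩
      have e : Submodule.span ℝ {X | RatEnd (G k) X ∧ IsSk (E k) X} ≤
          (Submodule.span ℝ {y | y ∈ MS E ∧ dgS C y = 0}).comap
            (LinearMap.single ℝ (fun k => Module.End ℝ (G k).V) k) :=
        Submodule.span_le.2 fun X hX => Submodule.subset_span ⟨m1 k X hX, dg_single C hk' X⟩
      exact e (s1 k)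

end SES
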