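import Pool.Agent.Lib.SE.S.Spec2

/-!
# SE-S, module OnS: one variety
-/

set_option autoImplicit false

open Module

noncomputable section

namespace SES

open HC HC.E HC.SE SEB SEQ SER

namespace OnS_aux

theorem pre_add {G : AV} (X Y : Module.End ℝ G.V) : pre (X + Y) = pre X + pre Y := by
  apply LinearMap.ext
  intro a
  apply LinearMap.ext
  intro v
  exact map_add a _ _

theorem pre_zero {G : AV} : pre (0 : Module.End ℝ G.V) = 0 := by
  apply LinearMap.ext
  intro a
  apply LinearMap.ext
  intro v
  exact map_zero a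

theorem pre_smul {G : AV} (r : ℝ) (X : Module.End ℝ G.V) : pre (r • X) = (r : ℂ) • pre X := by
  apply LinearMap.ext
  intro a
  apply LinearMap.ext
  intro v
  exact map_smul a r (X v)

theorem pre_span {G : AV} {h : Set (Module.End ℝ G.V)} (X : Module.End ℝ G.V)
    (hX : X ∈ Submodule.span ℝ (Com h)) : pre X ∈ gg h := by
  induction hX using Submodule.span_induction with
  | mem x hx => exact Submodule.subset_span ⟨x, hx, rfl⟩
  | zero =>
    rw [pre_zero]
    exact Submodule.zero_mem _
  | add x y _ _ hx hy =>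
    rw [pre_add]
    exact Submodule.add_mem _ hx hy
  | smul c x _ hx =>
    rw [pre_smul]
    exact Submodule.smul_mem _ _ hx

end OnS_aux

theorem tOnS : S_OnS := by
  intro G E f hf hS h hh
  refine ⟨fun C hC => ?_, fun A hA => ?_⟩
  · have hle : gg h ≤ Sp f := by
      refine Submodule.span_le.2 ?_
      rintro _ ⟨Y, ⟨X, hX, X', hX', rfl⟩, rfl⟩
      exact hf.skew _ (hh.sk _ (hh.lie.br X hX X' hX'))
    exact hle hC
  · obtain ⟨A₁, A₂, h1, h2, rfl⟩ := hf.real A hA
    exact Submodule.add_mem _ (OnS_aux.pre_span _ (hS h hh _ h1))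
      (Submodule.smul_mem _ _ (OnS_aux.pre_span _ (hS h hh _ h2)))

end SES

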