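import Pool.Agent.Lib.SE.S.Spec3

/-!
# PROJECT SE-S: products of operators

`tOpP : S_OpP`: the operators of a product.
-/

set_option autoImplicit false

open Module

noncomputable section

namespace SES

open HC HC.E HC.SE SEB SEQ SER SE

namespace OpP_aux

section

variable {T₁ T₂ : AV} (P : Pd T₁ T₂) {R₁ R₂ : Type} [Ring R₁] [Algebra ℝ R₁] [Ring R₂]
  [Algebra ℝ R₂] (Θ₁ : R₁ →ₗ[ℝ] Module.End ℝ T₁.V) (Θ₂ : R₂ →ₗ[ℝ] Module.End ℝ T₂.V)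

/-- The operator of `x`. -/
def OpPr : R₁ × R₂ →ₗ[ℝ] Module.End ℝ P.T.V where
  toFun x := (P.ψ.symm.toLinearMap.restrictScalars ℝ) ∘ₗ
    (LinearMap.prodMap (Θ₁ x.1) (Θ₂ x.2)) ∘ₗ P.ψ.toLinearMap.restrictScalars ℝ
  map_add' x y := by
    refine LinearMap.ext fun v => ?_
    change P.ψ.symm (Θ₁ (x.1 + y.1) (P.ψ v).1, Θ₂ (x.2 + y.2) (P.ψ v).2) =
      P.ψ.symm (Θ₁ x.1 (P.ψ v).1, Θ₂ x.2 (P.ψ v).2) +
        P.ψ.symm (Θ₁ y.1 (P.ψ v).1, Θ₂ y.2 (P.ψ v).2)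
    rw [← map_add, map_add, map_add]
    rfl
  map_smul' r x := by
    refine LinearMap.ext fun v => ?_
    change P.ψ.symm (Θ₁ (r • x.1) (P.ψ v).1, Θ₂ (r • x.2) (P.ψ v).2) =
      r • P.ψ.symm (Θ₁ x.1 (P.ψ v).1, Θ₂ x.2 (P.ψ v).2)
    rw [map_smul, map_smul]
    have h : ((r • Θ₁ x.1) (P.ψ v).1, (r • Θ₂ x.2) (P.ψ v).2) =
        (r : ℂ) • (Θ₁ x.1 (P.ψ v).1, Θ₂ x.2 (P.ψ v).2) :=
      Prod.ext (Complex.coe_smul r _).symm (Complex.coe_smul r _).symm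
    rw [h, map_smul, Complex.coe_smul]

theorem OpPr_app (x : R₁ × R₂) (v : P.T.V) :
    P.ψ (OpPr P Θ₁ Θ₂ x v) = (Θ₁ x.1 (P.ψ v).1, Θ₂ x.2 (P.ψ v).2) :=
  P.ψ.apply_symm_apply _

end

theorem OpPr_ext {T₁ T₂ : AV} (P : Pd T₁ T₂) {Z Z' : Module.End ℝ P.T.V}
    (h : ∀ v, P.ψ (Z v) = P.ψ (Z' v)) : Z = Z' :=
  LinearMap.ext fun v => P.ψ.injective (h v)

/-- The image of a span. -/
theorem OpPr_span {E F : Type} [AddCommGroup E] [Module ℝ E] [AddCommGroup F] [Module ℝ F]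
    (g : E →ₗ[ℝ] F) {S : Set E} {S' : Set F} (h : ∀ x ∈ S, g x ∈ S') {x : E}
    (hx : x ∈ Submodule.span ℝ S) : g x ∈ Submodule.span ℝ S' := by
  have h1 : Submodule.span ℝ S ≤ (Submodule.span ℝ S').comap g :=
    Submodule.span_le.mpr fun y hy => Submodule.subset_span (h y hy)
  exact h1 hx

theorem OpPr_split {R₁ R₂ : Type} [Ring R₁] [Algebra ℝ R₁] [Ring R₂] [Algebra ℝ R₂] (x : R₁ × R₂) :
    x = LinearMap.inl ℝ R₁ R₂ x.1 + LinearMap.inr ℝ R₁ R₂ x.2 := by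
  rw [LinearMap.inl_apply, LinearMap.inr_apply]
  exact Prod.ext (add_zero _).symm (zero_add _).symm

end OpP_aux

open OpP_aux in
theorem tOpP : S_OpP := by
  intro T₁ T₂ P R₁ R₂ _ _ _ _ Θ₁ Θ₂ M₁ M₂ i₁ i₂ h₁ h₂
  refine ⟨OpPr P Θ₁ Θ₂, OpPr_app P Θ₁ Θ₂, ?_⟩
  constructor
  case lie =>
    intro x y
    apply OpPr_ext P
    intro v
    have e1 : Θ₁ (x * y - y * x).1 = Θ₁ x.1 * Θ₁ y.1 - Θ₁ y.1 * Θ₁ x.1 := h₁.lie x.1 y.1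
    have e2 : Θ₂ (x * y - y * x).2 = Θ₂ x.2 * Θ₂ y.2 - Θ₂ y.2 * Θ₂ x.2 := h₂.lie x.2 y.2
    rw [OpPr_app, e1, e2]
    show _ = P.ψ (OpPr P Θ₁ Θ₂ x (OpPr P Θ₁ Θ₂ y v) - OpPr P Θ₁ Θ₂ y (OpPr P Θ₁ Θ₂ x v))
    rw [map_sub, OpPr_app, OpPr_app, OpPr_app, OpPr_app]
    rfl
  case rat =>
    intro x hx v hv
    obtain ⟨hv1, hv2⟩ := (P.lat v).mp hv
    obtain ⟨n1, z1, m1⟩ := h₁.rat x.1 hx.1 _ hv1
    obtain ⟨n2, z2, m2⟩ := h₂.rat x.2 hx.2 _ hv2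
    refine ⟨n1 * n2, mul_ne_zero z1 z2, (P.lat _).mpr ?_⟩
    rw [map_nsmul, OpPr_app]
    constructor
    · show (n1 * n2) • Θ₁ x.1 (P.ψ v).1 ∈ T₁.L
      rw [mul_comm, mul_smul]
      exact T₁.L.nsmul_mem m1 n2
    · show (n1 * n2) • Θ₂ x.2 (P.ψ v).2 ∈ T₂.L
      rw [mul_smul]
      exact T₂.L.nsmul_mem m2 n1
  case zero => exact ⟨h₁.zero, h₂.zero⟩
  case add => exact fun x hx y hy => ⟨h₁.add x.1 hx.1 y.1 hy.1, h₂.add x.2 hx.2 y.2 hy.2⟩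
  case smul => exact fun z x hx => ⟨h₁.smul z x.1 hx.1, h₂.smul z x.2 hx.2⟩
  case br => exact fun x hx y hy => ⟨h₁.br x.1 hx.1 y.1 hy.1, h₂.br x.2 hx.2 y.2 hy.2⟩
  case iM =>
    rw [OpPr_split (i₁, i₂)]
    refine Submodule.add_mem _ ?_ ?_
    · exact OpPr_span (S' := M₁ ×ˢ M₂) (LinearMap.inl ℝ R₁ R₂) (fun y hy => ⟨hy, h₂.zero⟩) h₁.iM
    · exact OpPr_span (S' := M₁ ×ˢ M₂) (LinearMap.inr ℝ R₁ R₂) (fun y hy => ⟨h₁.zero, hy⟩) h₂.iM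
  case iT =>
    apply OpPr_ext P
    intro v
    rw [OpPr_app, h₁.iT, h₂.iT]
    exact (map_smul P.ψ Complex.I v).symm
  case ker =>
    intro x hx h0
    have k0 : ∀ w : T₁.V × T₂.V, (Θ₁ x.1 w.1, Θ₂ x.2 w.2) = (0 : T₁.V × T₂.V) := by
      intro w
      have e := OpPr_app P Θ₁ Θ₂ x (P.ψ.symm w)
      rw [LinearEquiv.apply_symm_apply, h0, LinearMap.zero_apply, map_zero] at e
      exact e.symm
    have k1 : Θ₁ x.1 = 0 := LinearMap.ext fun u => congrArg Prod.fst (k0 (u, 0))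
    have k2 : Θ₂ x.2 = 0 := LinearMap.ext fun u => congrArg Prod.snd (k0 (0, u))
    have s1 : x.1 ∈ Submodule.span ℝ M₁ := OpPr_span (LinearMap.fst ℝ R₁ R₂) (fun y hy => hy.1) hx
    have s2 : x.2 ∈ Submodule.span ℝ M₂ := OpPr_span (LinearMap.snd ℝ R₁ R₂) (fun y hy => hy.2) hx
    rw [OpPr_split x]
    refine Submodule.add_mem _ ?_ ?_
    · refine OpPr_span (S' := {y | y ∈ M₁ ×ˢ M₂ ∧ OpPr P Θ₁ Θ₂ y = 0}) (LinearMap.inl ℝ R₁ R₂)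
        (fun y hy => ⟨⟨hy.1, h₂.zero⟩, ?_⟩) (h₁.ker x.1 s1 k1)
      apply OpPr_ext P
      intro v
      rw [OpPr_app]
      show (Θ₁ y (P.ψ v).1, Θ₂ 0 (P.ψ v).2) = P.ψ 0
      rw [hy.2, map_zero, map_zero]
      rfl
    · refine OpPr_span (S' := {y | y ∈ M₁ ×ˢ M₂ ∧ OpPr P Θ₁ Θ₂ y = 0}) (LinearMap.inr ℝ R₁ R₂)
        (fun y hy => ⟨⟨h₁.zero, hy.1⟩, ?_⟩) (h₂.ker x.2 s2 k2)
      apply OpPr_ext P
      intro v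
      rw [OpPr_app]
      show (Θ₁ 0 (P.ψ v).1, Θ₂ y (P.ψ v).2) = P.ψ 0
      rw [hy.2, map_zero, map_zero]
      rfl

end SES
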