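import Pool.Agent.Lib.SE.S.Spec2

/-!
# PROJECT SE-S, `PaA`: pairs, assembly

Author: helper89 (statement and plan: helper59).
-/

set_option autoImplicit false

open Module

noncomputable section

namespace SES

open HC HC.E HC.SE SEB SEQ SER

namespace PaA_aux

variable {G G' : AV}

theorem pre_add (X Y : Module.End ℝ G.V) : pre (X + Y) = pre X + pre Y := by
  refine LinearMap.ext fun a => LinearMap.ext fun v => ?_
  exact map_add a (X v) (Y v)

theorem pre_smul (r : ℝ) (X : Module.End ℝ G.V) : pre (r • X) = (r : ℂ) • pre X := by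
  refine LinearMap.ext fun a => LinearMap.ext fun v => ?_
  change a (r • X v) = (r : ℂ) * a (X v)
  rw [map_smul, Complex.real_smul]

theorem pre2_add (X Y : Pr2 G G') : pre2 (X + Y) = pre2 X + pre2 Y :=
  Prod.ext (pre_add X.1 Y.1) (pre_add X.2 Y.2)

theorem pre2_smul (r : ℝ) (X : Pr2 G G') : pre2 (r • X) = (r : ℂ) • pre2 X :=
  Prod.ext (pre_smul r X.1) (pre_smul r X.2)

theorem pre2_mul (X Y : Pr2 G G') : pre2 (X * Y) = pre2 Y * pre2 X := rfl

end PaA_aux

open PaA_aux in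
/-- PAIRS, assembly. -/
theorem tPaA : S_PaA := by
  intro hBs hTs hSi hPc hEx hThA hThB hGr hCl hJS hOn hPj hLk hIg hIso
  intro G G' E E' f f' hdim hE hE' hf hf' hSp hSp' hni h hh A hA B hB
  have fd : FiniteDimensional ℂ (Frm G) := (hJS G).1
  have fd' : FiniteDimensional ℂ (Frm G') := (hJS G').1
  obtain ⟨hbr, -⟩ := hCl (Pr2 G G') (Module.End ℂ (Frm G) × Module.End ℂ (Frm G')) pre2 pre2_add
    pre2_smul pre2_mul h (mulI G, mulI G') hh.br hh.J (gg2 h) rfl
  obtain ⟨hP1, hP2, hl1, hl2, hC⟩ := hPj G G' E E' h hh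
  obtain ⟨hO1a, hO1b⟩ := hOn G E f hf hSp _ hP1
  obtain ⟨hO2a, hO2b⟩ := hOn G' E' f' hf' hSp' _ hP2
  -- everything in gg2 h is in Sp f x Sp f'
  have hCs : ∀ C ∈ gg2 h, C.1 ∈ Sp f ∧ C.2 ∈ Sp f' := fun C hC' =>
    ⟨hO1a _ (hC C hC').1, hO2a _ (hC C hC').2⟩
  by_cases h1 : ∀ A, ((A, 0) : Module.End ℂ (Frm G) × Module.End ℂ (Frm G')) ∈ gg2 h → A = 0
  · by_cases h2 : ∀ B, ((0, B) : Module.End ℂ (Frm G) × Module.End ℂ (Frm G')) ∈ gg2 h → B = 0
    · obtain ⟨θ, hθ, hθ2⟩ := hLk hBs hTs hPc hEx hThA hThB hGr hCl hJS hOn hPj G G' E E' f f' hdim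
        hE hE' hf hf' hSp hSp' h hh h1 h2
      exact absurd (hIg hBs hTs hOn hPj hIso G G' E E' f f' hE hE' hf hf' hSp hSp' h hh θ hθ hθ2) hni
    · push Not at h2
      obtain ⟨B0, hB0, hB0n⟩ := h2
      have hN := hSi hBs hTs (Frm G') f' hf'.sf
        ((gg2 h).comap (LinearMap.inr ℂ (Module.End ℂ (Frm G)) (Module.End ℂ (Frm G'))))
        (fun b hb => (hCs _ (show ((0, b) : _ × _) ∈ gg2 h from hb)).2)
        (fun n hn X hX => by
          obtain ⟨C', hC', hC'2⟩ := hl2 X (hO2b X hX)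
          have h3 := hbr C' hC' (0, n) hn
          have h4 : C' * (0, n) - (0, n) * C' = ((0, X * n - n * X) : _ × _) := by
            ext1
            · simp
            · simp [hC'2]
          rw [h4] at h3
          exact h3) ⟨B0, hB0, hB0n⟩
      obtain ⟨C', hC', hC'1⟩ := hl1 A (hO1b A hA)
      have h3 : ((0, B - C'.2) : Module.End ℂ (Frm G) × Module.End ℂ (Frm G')) ∈ gg2 h :=
        hN _ ((Sp f').sub_mem hB (hCs C' hC').2)
      have h4 := (gg2 h).add_mem hC' h3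
      have h5 : C' + (0, B - C'.2) = ((A, B) : Module.End ℂ (Frm G) × Module.End ℂ (Frm G')) := by
        ext1
        · simp [hC'1]
        · simp
      rwa [h5] at h4
  · push Not at h1
    obtain ⟨A0, hA0, hA0n⟩ := h1
    have hN := hSi hBs hTs (Frm G) f hf.sf
      ((gg2 h).comap (LinearMap.inl ℂ (Module.End ℂ (Frm G)) (Module.End ℂ (Frm G'))))
      (fun b hb => (hCs _ (show ((b, 0) : _ × _) ∈ gg2 h from hb)).1)
      (fun n hn X hX => by
        obtain ⟨C', hC', hC'2⟩ := hl1 X (hO1b X hX)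
        have h3 := hbr C' hC' (n, 0) hn
        have h4 : C' * (n, 0) - (n, 0) * C' = ((X * n - n * X, 0) : _ × _) := by
          ext1
          · simp [hC'2]
          · simp
        rw [h4] at h3
        exact h3) ⟨A0, hA0, hA0n⟩
    obtain ⟨C', hC', hC'2⟩ := hl2 B (hO2b B hB)
    have h3 : ((A - C'.1, 0) : Module.End ℂ (Frm G) × Module.End ℂ (Frm G')) ∈ gg2 h :=
      hN _ ((Sp f).sub_mem hA (hCs C' hC').1)
    have h4 := (gg2 h).add_mem hC' h3
    have h5 : C' + (A - C'.1, 0) = ((A, B) : Module.End ℂ (Frm G) × Module.End ℂ (Frm G')) := by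
      ext1
      · simp
      · simp [hC'2]
    rwa [h5] at h4

end SES
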