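import Pool.Agent.Lib.SE.S.Spec

/-!
# PROJECT SE-S, module PcS: the symplectic Lie algebra is equal to its derived algebra and has no centre
-/

set_option autoImplicit false

open Module

noncomputable section

namespace SES

open HC HC.E HC.SE SEB SEQ SER

namespace PcS_aux

variable {V : Type} [AddCommGroup V] [Module ℂ V]

theorem sy_comm (f : V →ₗ[ℂ] V →ₗ[ℂ] ℂ) (v w : V) : sy f v w = sy f w v := by
  unfold sy
  exact add_comm _ _

theorem sy_zero (f : V →ₗ[ℂ] V →ₗ[ℂ] ℂ) (v : V) : sy f v 0 = 0 := by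
  ext z
  rw [sy_apply]
  simp

end PcS_aux

open PcS_aux

theorem tPcS : S_PcS := by
  intro hBs hTs V _ _ _ f hf
  obtain ⟨b1, b2, -, b4, b5⟩ := hBs V f hf
  refine ⟨fun X hX => ?_, fun y hy hc => ?_⟩
  · refine Submodule.span_induction (p := fun Y _ => Y ∈ Submodule.span ℂ
      {Y | ∃ A ∈ Sp f, ∃ B ∈ Sp f, Y = A * B - B * A}) ?_ (Submodule.zero_mem _)
      (fun a b _ _ ha hb => Submodule.add_mem _ ha hb) (fun c a _ ha => Submodule.smul_mem _ c ha) (b5 X hX)
    rintro _ ⟨⟨w, x⟩, rfl⟩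
    simp only
    rcases eq_or_ne x 0 with h0 | h0
    · rw [h0, sy_zero]
      exact Submodule.zero_mem _
    · obtain ⟨Z, hZ, hZx⟩ := hTs hBs V f hf x w h0
      have h1 := b2 Z hZ x x
      rw [hZx, sy_comm f x w] at h1
      have h2 : sy f w x = (1 / 2 : ℂ) • (Z * sy f x x - sy f x x * Z) := by
        rw [h1, ← two_smul ℂ (sy f w x), smul_smul]
        norm_num
      rw [h2]
      exact Submodule.smul_mem _ _ (Submodule.subset_span ⟨Z, hZ, sy f x x, b1 x x, rfl⟩)
  · ext v
    rw [LinearMap.zero_apply]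
    rcases eq_or_ne v 0 with h0 | h0
    · rw [h0, map_zero]
    · refine b4 (y v) v h0 ?_
      have h1 := b2 y hy v v
      rw [hc _ (b1 v v), sy_comm f v (y v), ← two_smul ℂ (sy f (y v) v)] at h1
      exact (smul_eq_zero.1 h1.symm).resolve_left two_ne_zero

end SES
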