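import Pool.Agent.Lib.SE.S.Spec2

/-!
# PROJECT SE-S, module PjM: projections of the mixed Lie algebra (helper35)

The same proof as in `SE/R/PjR.lean` (helper55).
-/

set_option autoImplicit false

open Module

noncomputable section

namespace SES

open HC HC.E HC.SE SEB SEQ SER

namespace PjM_aux

variable {q q' : ℕ} {T : Fin q → AV} {m : Fin q → ℕ} {B : AV} {ι : Type} {G : Fin q' → AV}

theorem com1 (h : Set (TM T B G)) : ComR (Prod.fst '' h) = Prod.fst '' ComM h := by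
  ext Y
  constructor
  · rintro ⟨_, ⟨X, hX, rfl⟩, _, ⟨X', hX', rfl⟩, rfl⟩
    exact ⟨X * X' - X' * X, ⟨X, hX, X', hX', rfl⟩, rfl⟩
  · rintro ⟨_, ⟨X, hX, X', hX', rfl⟩, rfl⟩
    exact ⟨X.1, ⟨X, hX, rfl⟩, X'.1, ⟨X', hX', rfl⟩, rfl⟩

theorem com2 (h : Set (TM T B G)) : ComT (Prod.snd '' h) = Prod.snd '' ComM h := by
  ext Y
  constructor
  · rintro ⟨_, ⟨X, hX, rfl⟩, _, ⟨X', hX', rfl⟩, rfl⟩
    exact ⟨X * X' - X' * X, ⟨X, hX, X', hX', rfl⟩, rfl⟩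
  · rintro ⟨_, ⟨X, hX, X', hX', rfl⟩, rfl⟩
    exact ⟨X.2, ⟨X, hX, rfl⟩, X'.2, ⟨X', hX', rfl⟩, rfl⟩

theorem gg1 (h : Set (TM T B G)) :
    ggR (Prod.fst '' h) = (ggM h).map
      (LinearMap.fst ℂ (CB T B) (∀ k, Module.End ℂ (Frm (G k)))) := by
  unfold ggR ggM
  rw [com1, Submodule.map_span, Set.image_image, Set.image_image]
  rfl

theorem gg2' (h : Set (TM T B G)) :
    ggT (Prod.snd '' h) = (ggM h).map
      (LinearMap.snd ℂ (CB T B) (∀ k, Module.End ℂ (Frm (G k)))) := by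
  unfold ggT ggM
  rw [com2, Submodule.map_span, Set.image_image, Set.image_image]
  rfl

theorem lie1 {D : ∀ i, Cyc (T i) (m i)} {S : GC B ι}
    {E : ∀ k, (G k).V →ₗ[ℝ] (G k).V →ₗ[ℝ] ℝ} {h : Set (TM T B G)} (hh : HLieM D S E h) :
    HLieR D S (Prod.fst '' h) where
  rat := by
    rintro _ ⟨X, hX, rfl⟩
    exact ⟨(hh.rat X hX).1, (hh.rat X hX).2.1⟩
  u := by
    rintro _ ⟨X, hX, rfl⟩
    exact hh.u X hX
  op := by
    rintro _ ⟨X, hX, rfl⟩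
    exact hh.op X hX
  zero := ⟨0, hh.zero, rfl⟩
  add := by
    rintro _ ⟨X, hX, rfl⟩ _ ⟨Y, hY, rfl⟩
    exact ⟨X + Y, hh.add X hX Y hY, rfl⟩
  smul := by
    rintro x _ ⟨X, hX, rfl⟩
    exact ⟨(x : ℝ) • X, hh.smul x X hX, rfl⟩
  br := by
    rintro _ ⟨X, hX, rfl⟩ _ ⟨Y, hY, rfl⟩
    exact ⟨X * Y - Y * X, hh.br X hX Y hY, rfl⟩
  J := by
    have h1 := Submodule.mem_map_of_mem
      (f := LinearMap.fst ℝ (TB T B) (Tup G)) hh.J
    rw [Submodule.map_span] at h1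
    exact h1

theorem lie2 {D : ∀ i, Cyc (T i) (m i)} {S : GC B ι}
    {E : ∀ k, (G k).V →ₗ[ℝ] (G k).V →ₗ[ℝ] ℝ} {h : Set (TM T B G)} (hh : HLieM D S E h) :
    HLieG E (Prod.snd '' h) where
  rat := by
    rintro _ ⟨X, hX, rfl⟩
    exact (hh.rat X hX).2.2
  sk := by
    rintro _ ⟨X, hX, rfl⟩
    exact hh.sk X hX
  zero := ⟨0, hh.zero, rfl⟩
  add := by
    rintro _ ⟨X, hX, rfl⟩ _ ⟨Y, hY, rfl⟩
    exact ⟨X + Y, hh.add X hX Y hY, rfl⟩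
  smul := by
    rintro x _ ⟨X, hX, rfl⟩
    exact ⟨(x : ℝ) • X, hh.smul x X hX, rfl⟩
  br := by
    rintro _ ⟨X, hX, rfl⟩ _ ⟨Y, hY, rfl⟩
    exact ⟨X * Y - Y * X, hh.br X hX Y hY, rfl⟩
  J := by
    have h1 := Submodule.mem_map_of_mem
      (f := LinearMap.snd ℝ (TB T B) (Tup G)) hh.J
    rw [Submodule.map_span] at h1
    exact h1

theorem opC {D : ∀ i, Cyc (T i) (m i)} {S : GC B ι}
    {E : ∀ k, (G k).V →ₗ[ℝ] (G k).V →ₗ[ℝ] ℝ} {h : Set (TM T B G)} (hh : HLieM D S E h)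
    (C : CM' T B G) (hC : C ∈ ggM h) : C.1.2 ∈ Submodule.span ℂ (pre '' S.s) := by
  unfold ggM at hC
  induction hC using Submodule.span_induction with
  | mem x hx =>
    obtain ⟨Y, ⟨X, hX, X', hX', rfl⟩, rfl⟩ := hx
    exact Submodule.subset_span ⟨(X * X' - X' * X).1.2, hh.op _ (hh.br X hX X' hX'), rfl⟩
  | zero => exact Submodule.zero_mem _
  | add x y _ _ hx hy => exact Submodule.add_mem _ hx hy
  | smul a x _ hx => exact Submodule.smul_mem _ a hx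

end PjM_aux

theorem tPjM : S_PjM := by
  intro q q' T m D B ι S G E h hh
  refine ⟨PjM_aux.lie1 hh, PjM_aux.lie2 hh, fun C hC => ?_, fun C hC => ?_, fun C hC => ⟨?_, ?_⟩,
    fun C hC => PjM_aux.opC hh C hC⟩
  · rw [PjM_aux.gg1] at hC
    obtain ⟨C', h1, h2⟩ := hC
    exact ⟨C', h1, h2⟩
  · rw [PjM_aux.gg2'] at hC
    obtain ⟨C', h1, h2⟩ := hC
    exact ⟨C', h1, h2⟩
  · rw [PjM_aux.gg1]
    exact ⟨C, hC, rfl⟩
  · rw [PjM_aux.gg2']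
    exact ⟨C, hC, rfl⟩

end SES
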