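import Pool.Agent.Lib.SE.S.Spec2

/-!
# PROJECT SE-S, module PrG: projections of a Lie algebra of tuples

The same proof as in `SE/Q/PrT.lean`.
-/

set_option autoImplicit false

open Module

noncomputable section

namespace SES

open HC HC.E HC.SE SEB SEQ SER

namespace PrG_aux

variable {q : ℕ} {G : Fin q → AV}

theorem com1 (h : Set (Tup G)) (i : Fin q) :
    Com ((fun X : Tup G => X i) '' h) = (fun X : Tup G => X i) '' ComT h := by
  ext Y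
  constructor
  · rintro ⟨_, ⟨X, hX, rfl⟩, _, ⟨X', hX', rfl⟩, rfl⟩
    exact ⟨X * X' - X' * X, ⟨X, hX, X', hX', rfl⟩, rfl⟩
  · rintro ⟨_, ⟨X, hX, X', hX', rfl⟩, rfl⟩
    exact ⟨X i, ⟨X, hX, rfl⟩, X' i, ⟨X', hX', rfl⟩, rfl⟩

theorem com2 (h : Set (Tup G)) (i j : Fin q) :
    Com2 ((fun X : Tup G => ((X i, X j) : Pr2 (G i) (G j))) '' h) =
      (fun X : Tup G => ((X i, X j) : Pr2 (G i) (G j))) '' ComT h := by
  ext Y
  constructor
  · rintro ⟨_, ⟨X, hX, rfl⟩, _, ⟨X', hX', rfl⟩, rfl⟩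
    exact ⟨X * X' - X' * X, ⟨X, hX, X', hX', rfl⟩, rfl⟩
  · rintro ⟨_, ⟨X, hX, X', hX', rfl⟩, rfl⟩
    exact ⟨(X i, X j), ⟨X, hX, rfl⟩, (X' i, X' j), ⟨X', hX', rfl⟩, rfl⟩

theorem gg1 (h : Set (Tup G)) (i : Fin q) :
    gg ((fun X : Tup G => X i) '' h) =
      (ggT h).map (LinearMap.proj i : (∀ i, Module.End ℂ (Frm (G i))) →ₗ[ℂ] _) := by
  unfold gg ggT
  rw [com1, Submodule.map_span, Set.image_image, Set.image_image]
  rfl

/-- The projection to two components. -/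
def pj (G : Fin q → AV) (i j : Fin q) : (∀ i, Module.End ℂ (Frm (G i))) →ₗ[ℂ]
    Module.End ℂ (Frm (G i)) × Module.End ℂ (Frm (G j)) :=
  (LinearMap.proj i).prod (LinearMap.proj j)

/-- The projection to two components. -/
def pjR (G : Fin q → AV) (i j : Fin q) : Tup G →ₗ[ℝ] Pr2 (G i) (G j) :=
  (LinearMap.proj i).prod (LinearMap.proj j)

theorem ggp (h : Set (Tup G)) (i j : Fin q) :
    gg2 ((fun X : Tup G => ((X i, X j) : Pr2 (G i) (G j))) '' h) = (ggT h).map (pj G i j) := by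
  unfold gg2 ggT
  rw [com2, Submodule.map_span, Set.image_image, Set.image_image]
  rfl

theorem lie1 {E : ∀ k, (G k).V →ₗ[ℝ] (G k).V →ₗ[ℝ] ℝ} {h : Set (Tup G)} (hh : HLieG E h)
    (i : Fin q) : HLieS (E i) ((fun X : Tup G => X i) '' h) where
  rat := by
    rintro _ ⟨X, hX, rfl⟩
    exact hh.rat X hX i
  sk := by
    rintro _ ⟨X, hX, rfl⟩
    exact hh.sk X hX i
  lie :=
    { zero := ⟨0, hh.zero, rfl⟩
      add := by
        rintro _ ⟨X, hX, rfl⟩ _ ⟨Y, hY, rfl⟩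
        exact ⟨X + Y, hh.add X hX Y hY, rfl⟩
      smul := by
        rintro x _ ⟨X, hX, rfl⟩
        exact ⟨(x : ℝ) • X, hh.smul x X hX, rfl⟩
      br := by
        rintro _ ⟨X, hX, rfl⟩ _ ⟨Y, hY, rfl⟩
        exact ⟨X * Y - Y * X, hh.br X hX Y hY, rfl⟩ }
  J := by
    have h1 := Submodule.mem_map_of_mem (f := (LinearMap.proj i : Tup G →ₗ[ℝ] _)) hh.J
    rw [Submodule.map_span] at h1
    exact h1

theorem lie2 {E : ∀ k, (G k).V →ₗ[ℝ] (G k).V →ₗ[ℝ] ℝ} {h : Set (Tup G)} (hh : HLieG E h)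
    (i j : Fin q) : HLieP (E i) (E j) ((fun X : Tup G => ((X i, X j) : Pr2 (G i) (G j))) '' h) where
  rat := by
    rintro _ ⟨X, hX, rfl⟩
    exact ⟨hh.rat X hX i, hh.rat X hX j⟩
  sk := by
    rintro _ ⟨X, hX, rfl⟩
    exact ⟨hh.sk X hX i, hh.sk X hX j⟩
  zero := ⟨0, hh.zero, rfl⟩
  add := by
    rintro _ ⟨X, hX, rfl⟩ _ ⟨Y, hY, rfl⟩
    exact ⟨X + Y, hh.add X hX Y hY, rfl⟩
  smul := by
    rintro x _ ⟨X, hX, rfl⟩
    exact ⟨(x : ℝ) • X, hh.smul x X hX, rfl⟩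
  br := by
    rintro _ ⟨X, hX, rfl⟩ _ ⟨Y, hY, rfl⟩
    exact ⟨X * Y - Y * X, hh.br X hX Y hY, rfl⟩
  J := by
    have h1 := Submodule.mem_map_of_mem (f := pjR G i j) hh.J
    rw [Submodule.map_span] at h1
    exact h1

end PrG_aux

theorem tPrG : S_PrG := by
  intro q G E h hh
  refine ⟨fun k => ⟨PrG_aux.lie1 hh k, fun C hC => ?_, fun C hC => ?_⟩, fun k l =>
    ⟨PrG_aux.lie2 hh k l, fun C hC => ?_⟩⟩
  · rw [PrG_aux.gg1]
    exact ⟨C, hC, rfl⟩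
  · rw [PrG_aux.gg1] at hC
    obtain ⟨C', h1, h2⟩ := hC
    exact ⟨C', h1, h2⟩
  · have hC' : C ∈ (ggT h).map (PrG_aux.pj G k l) := by
      rw [← PrG_aux.ggp]
      exact hC
    obtain ⟨C', h1, h2⟩ := hC'
    exact ⟨C', h1, h2⟩

end SES
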