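import Pool.Agent.Lib.SE.S.Spec3
import Pool.Agent.Lib.SE.W.Npr
import Pool.Agent.Lib.SE.W.Alm

/-!
# PROJECT SE-S, part 3, module PrS: a pair block
-/

set_option autoImplicit false

open Module
open Pool.Agent.Lib.MP_640417_ag.Fg (Mono InL)

noncomputable section

namespace SES

open HC HC.E HC.SE SEB SEQ SER SE

namespace PrS_aux

open SE.Npr_aux (bil bil_apply alt_swap WQ QA_alt pull_add)

variable {Q : (T : AV) → (m : ℕ) → Hlg T m → Prop}

theorem key (hIn : S_InS) (hq : SE.S_Qal) (hQ : SE.Cl Q) (G : AV)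
    (E : G.V →ₗ[ℝ] G.V →ₗ[ℝ] ℝ) (f : Frm G →ₗ[ℂ] Frm G →ₗ[ℂ] ℂ) (hE : IsRf G E)
    (hf : IsFs E f) (Y : AV) (α β : G.V →ₗ[ℂ] Y.V) (hα : ∀ v ∈ G.L, α v ∈ Y.L)
    (hβ : ∀ v ∈ G.L, β v ∈ Y.L) :
    bil (f.compl₁₂ (pull α) (pull β)) ∈ WQ hq hQ Y := by
  have h0 : QA Q G (Fin 2) (bil f) := by
    intro m e
    exact hQ.base (hIn G E f hE hf (bil f) (fun _ => rfl) m e)
  have hp : ∀ κ : G.V →ₗ[ℂ] Y.V, (∀ v ∈ G.L, κ v ∈ Y.L) →
      bil (f.compl₁₂ (pull κ) (pull κ)) ∈ WQ hq hQ Y := fun κ hκ =>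
    (hq Q hQ).2.2.2.2.2.1 G Y (Fin 2) κ hκ (bil f) h0
  have h1 := hp (α + β) fun v hv => Y.L.add_mem (hα v hv) (hβ v hv)
  have h2 := hp α hα
  have h3 := hp β hβ
  have e1 : bil (f.compl₁₂ (pull (α + β)) (pull (α + β))) -
      bil (f.compl₁₂ (pull α) (pull α)) - bil (f.compl₁₂ (pull β) (pull β)) =
      bil (f.compl₁₂ (pull α) (pull β)) + bil (f.compl₁₂ (pull β) (pull α)) := by
    ext a
    rw [MultilinearMap.sub_apply, MultilinearMap.sub_apply, MultilinearMap.add_apply]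
    simp only [bil_apply, LinearMap.compl₁₂_apply, pull_add, map_add, LinearMap.add_apply]
    ring
  have h4 := (WQ hq hQ Y).sub_mem ((WQ hq hQ Y).sub_mem h1 h2) h3
  rw [e1] at h4
  have h5 : QA Q Y (Fin 2) (bil (f.compl₁₂ (pull α) (pull β)) +
      bil (f.compl₁₂ (pull α) (pull β))) := by
    refine QA_alt _ _ ?_ h4
    intro _
    rw [map_add, map_add, alt_swap SE.tAlm (f.compl₁₂ (pull α) (pull β))
      (f.compl₁₂ (pull β) (pull α)) fun a b => hf.sf.alt _ _]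
  have h6 := (WQ hq hQ Y).smul_mem ((2 : ℂ)⁻¹) h5
  have e2 : (2 : ℂ)⁻¹ • (bil (f.compl₁₂ (pull α) (pull β)) + bil (f.compl₁₂ (pull α) (pull β))) =
      bil (f.compl₁₂ (pull α) (pull β)) := by
    rw [← two_smul ℂ, smul_smul, inv_mul_cancel₀ two_ne_zero, one_smul]
  rw [e2] at h6
  exact h6

variable {q N : ℕ} {G : Fin q → AV} {κ : Fin N → Fin q}

theorem em_mem (C : SE.Prd fun n => G (κ n)) (n : Fin N) (k : Fin q) (v : (G k).V)
    (hv : v ∈ (G k).L) : emS C n k v ∈ C.Y.L := by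
  rw [C.lat]
  intro n'
  have h1 : C.ψ (emS C n k v) = Pi.single n ((Pi.single k v : ∀ k, (G k).V) (κ n)) :=
    C.ψ.apply_symm_apply _
  rw [h1]
  by_cases hk : n' = n
  · subst hk
    rw [Pi.single_eq_same]
    by_cases hj : κ n' = k
    · subst hj
      rw [Pi.single_eq_same]
      exact hv
    · rw [Pi.single_eq_of_ne hj]
      exact Submodule.zero_mem _
  · rw [Pi.single_eq_of_ne hk]
    exact Submodule.zero_mem _

theorem form_apply (f : ∀ k, Frm (G k) →ₗ[ℂ] Frm (G k) →ₗ[ℂ] ℂ) (x y : VS G) :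
    FRMs f x y = ∑ k, f k (x k) (y k) := by
  simp [FRMs, LinearMap.sum_apply, LinearMap.compl₁₂_apply]

theorem comb_apply (d : Fin q → ℂ) (x : VS G) (k : Fin q) :
    (∑ l, d l • eK G l) x k = d k • x k := by
  rw [LinearMap.sum_apply, Finset.sum_apply, Finset.sum_eq_single k]
  · change d k • (Pi.single k (x k) : VS G) k = _
    rw [Pi.single_eq_same]
  · intro l _ hl
    change d l • (Pi.single l (x l) : VS G) k = 0
    rw [Pi.single_eq_of_ne hl.symm, smul_zero]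
  · intro h
    exact absurd (Finset.mem_univ _) h

end PrS_aux

open PrS_aux in
open SE.Npr_aux (bil bil_apply WQ) in
theorem tPrS : S_PrS := by
  intro hIn hq Q hQ q N G κ E f C hrf hfs c hc u F hF
  obtain ⟨d, rfl⟩ := hc
  have e : F = ∑ k, d k • bil ((f k).compl₁₂ (pull (emS C (u 0) k)) (pull (emS C (u 1) k))) := by
    ext a
    rw [hF, form_apply]
    simp only [comb_apply]
    rw [MultilinearMap.sum_apply]
    refine Finset.sum_congr rfl fun k _ => ?_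
    rw [map_smul, LinearMap.smul_apply, MultilinearMap.smul_apply, bil_apply,
      LinearMap.compl₁₂_apply]
    rfl
  rw [e]
  exact (WQ hq hQ C.Y).sum_mem fun k _ => (WQ hq hQ C.Y).smul_mem _
    (key hIn hq hQ (G k) (E k) (f k) (hrf k) (hfs k) C.Y _ _ (em_mem C _ _) (em_mem C _ _))

end SES
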