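import Pool.Agent.Lib.SE.S.Spec

/-! Ribet's lemma, abstractly. -/

set_option autoImplicit false

namespace SES

namespace RbS_aux

variable {q : ℕ} {W : Fin q → Type} [∀ k, AddCommGroup (W k)] [∀ k, Module ℂ (W k)]

lemma key (L : ∀ k, Submodule ℂ (Module.End ℂ (W k)))
    (g : Submodule ℂ (∀ k, Module.End ℂ (W k)))
    (h1 : ∀ k, ∀ X ∈ L k, X ∈ Submodule.span ℂ {Y | ∃ A ∈ L k, ∃ B ∈ L k, Y = A * B - B * A})
    (h2 : ∀ C ∈ g, ∀ C' ∈ g, C * C' - C' * C ∈ g)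
    (h4 : ∀ k, ∀ A ∈ L k, ∃ C ∈ g, C k = A)
    (h5 : ∀ k l, k ≠ l → ∀ A ∈ L k, ∃ C ∈ g, C k = A ∧ C l = 0) (k : Fin q)
    (S : Finset (Fin q)) (hk : k ∉ S) :
    ∀ A ∈ L k, ∃ C ∈ g, C k = A ∧ ∀ l ∈ S, C l = 0 := by
  classical
  induction S using Finset.induction_on with
  | empty =>
    intro A hA
    obtain ⟨C, hC, hCk⟩ := h4 k A hA
    exact ⟨C, hC, hCk, fun l hl => absurd hl (Finset.notMem_empty l)⟩
  | insert l S hl ih =>
    have hkl : k ≠ l := fun h => hk (h ▸ Finset.mem_insert_self l S)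
    have hkS : k ∉ S := fun h => hk (Finset.mem_insert_of_mem h)
    intro A hA
    refine Submodule.span_induction
      (p := fun X _ => ∃ C ∈ g, C k = X ∧ ∀ l' ∈ insert l S, C l' = 0) ?_ ?_ ?_ ?_ (h1 k A hA)
    · rintro Y ⟨B, hB, B', hB', rfl⟩
      obtain ⟨C, hC, hCk, hCS⟩ := ih hkS B hB
      obtain ⟨C', hC', hCk', hCl'⟩ := h5 k l hkl B' hB'
      refine ⟨C * C' - C' * C, h2 C hC C' hC', ?_, ?_⟩
      · rw [Pi.sub_apply, Pi.mul_apply, Pi.mul_apply, hCk, hCk']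
      · intro l' hl'
        rw [Pi.sub_apply, Pi.mul_apply, Pi.mul_apply]
        rcases Finset.mem_insert.1 hl' with h | h
        · subst h
          rw [hCl', mul_zero, zero_mul, sub_zero]
        · rw [hCS l' h, mul_zero, zero_mul, sub_zero]
    · exact ⟨0, g.zero_mem, rfl, fun _ _ => rfl⟩
    · rintro X Y _ _ ⟨C, hC, hCk, hCS⟩ ⟨C', hC', hCk', hCS'⟩
      refine ⟨C + C', g.add_mem hC hC', ?_, ?_⟩
      · rw [Pi.add_apply, hCk, hCk']
      · intro l' hl'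
        rw [Pi.add_apply, hCS l' hl', hCS' l' hl', add_zero]
    · rintro c X _ ⟨C, hC, hCk, hCS⟩
      refine ⟨c • C, g.smul_mem c hC, ?_, ?_⟩
      · rw [Pi.smul_apply, hCk]
      · intro l' hl'
        rw [Pi.smul_apply, hCS l' hl', smul_zero]

end RbS_aux

open RbS_aux in
theorem tRbS : S_RbS := by
  classical
  intro q W _ _ L g h1 h2 h3 h4 h5 A hA
  have h6 : ∀ k, (Pi.single k (A k) : ∀ k, Module.End ℂ (W k)) ∈ g := by
    intro k
    obtain ⟨C, hC, hCk, hCS⟩ := key L g h1 h2 h4 h5 k (Finset.univ.erase k)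
      (Finset.notMem_erase k _) (A k) (hA k)
    have h7 : C = Pi.single k (A k) := by
      funext l
      by_cases h : l = k
      · subst h
        rw [hCk, Pi.single_eq_same]
      · rw [Pi.single_eq_of_ne h, hCS l (Finset.mem_erase.2 ⟨h, Finset.mem_univ l⟩)]
    rw [← h7]
    exact hC
  have h8 : A = ∑ k, (Pi.single k (A k) : ∀ k, Module.End ℂ (W k)) :=
    (Finset.univ_sum_single A).symm
  rw [h8]
  exact g.sum_mem fun k _ => h6 k

end SES
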