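import Pool.Agent.Lib.SE.S.Spec2

/-!
# PROJECT SE-S, module ReG: real form for tuples with Hodge group Sp
-/

set_option autoImplicit false

open Module

noncomputable section

namespace SES

open HC HC.E HC.SE SEB SEQ SER

namespace ReG_aux

variable {q : ℕ} {G : Fin q → AV}

/-- Complex combinations are `pre P + i pre Q`. -/
theorem comb (Y₀ : Set (Tup G)) (C : ∀ i, Module.End ℂ (Frm (G i)))
    (hC : C ∈ Submodule.span ℂ ((fun (Y : Tup G) i => pre (Y i)) '' Y₀)) :
    ∃ P ∈ Submodule.span ℝ Y₀, ∃ Q ∈ Submodule.span ℝ Y₀,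
      ∀ i a v, C i a v = a (P i v) + Complex.I * a (Q i v) := by
  induction hC using Submodule.span_induction with
  | mem C hC =>
    obtain ⟨Y, hY, rfl⟩ := hC
    refine ⟨Y, Submodule.subset_span hY, 0, Submodule.zero_mem _, fun i a v => ?_⟩
    rw [Pi.zero_apply, LinearMap.zero_apply, map_zero, mul_zero, add_zero]
    rfl
  | zero =>
    refine ⟨0, Submodule.zero_mem _, 0, Submodule.zero_mem _, fun i a v => ?_⟩
    simp
  | add C C' _ _ h h' =>
    obtain ⟨P, hP, Q, hQ, h⟩ := h
    obtain ⟨P', hP', Q', hQ', h'⟩ := h'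
    refine ⟨P + P', add_mem hP hP', Q + Q', add_mem hQ hQ', fun i a v => ?_⟩
    rw [Pi.add_apply, Pi.add_apply, Pi.add_apply, LinearMap.add_apply, LinearMap.add_apply, h, h',
      LinearMap.add_apply, LinearMap.add_apply, map_add, map_add]
    ring
  | smul c C _ h =>
    obtain ⟨P, hP, Q, hQ, h⟩ := h
    refine ⟨c.re • P - c.im • Q, sub_mem (Submodule.smul_mem _ _ hP) (Submodule.smul_mem _ _ hQ),
      c.re • Q + c.im • P, add_mem (Submodule.smul_mem _ _ hQ) (Submodule.smul_mem _ _ hP),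
      fun i a v => ?_⟩
    rw [Pi.smul_apply, Pi.sub_apply, Pi.add_apply, Pi.smul_apply, Pi.smul_apply, Pi.smul_apply,
      Pi.smul_apply, LinearMap.smul_apply, LinearMap.smul_apply, h, LinearMap.sub_apply,
      LinearMap.add_apply, map_sub, map_add, LinearMap.smul_apply, LinearMap.smul_apply,
      LinearMap.smul_apply, LinearMap.smul_apply, map_smul, map_smul, map_smul, map_smul,
      smul_eq_mul, Complex.real_smul, Complex.real_smul, Complex.real_smul, Complex.real_smul]
    conv_lhs => rw [← Complex.re_add_im c]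
    have hI := Complex.I_mul_I
    linear_combination ((c.im : ℂ) * a (Q i v)) * hI

end ReG_aux

open ReG_aux in
theorem tReG : S_ReG := by
  intro q G E f hf h hG Y hY
  have h1 : (fun k => pre (Y k)) ∈ ggT h := hG.2 _ fun k => (hf k).skew (Y k) (hY k)
  obtain ⟨P, hP, Q, _, hPQ⟩ := comb (ComT h) _ h1
  have h2 : Y = P := by
    funext k
    refine LinearMap.ext fun v => ?_
    refine sub_eq_zero.1 ((Module.forall_dual_apply_eq_zero_iff ℝ (Y k v - P k v)).1 fun φ => ?_)
    have h3 := hPQ k (Complex.ofRealCLM.toLinearMap ∘ₗ φ) v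
    have h4 : pre (Y k) (Complex.ofRealCLM.toLinearMap ∘ₗ φ) v = ((φ (Y k v) : ℝ) : ℂ) := rfl
    have h5 : (Complex.ofRealCLM.toLinearMap ∘ₗ φ) (P k v) = ((φ (P k v) : ℝ) : ℂ) := rfl
    have h6 : (Complex.ofRealCLM.toLinearMap ∘ₗ φ) (Q k v) = ((φ (Q k v) : ℝ) : ℂ) := rfl
    rw [h4, h5, h6] at h3
    have h7 := congrArg Complex.re h3
    simp only [Complex.ofReal_re, Complex.add_re, Complex.mul_re, Complex.I_re, Complex.I_im,
      Complex.ofReal_im, zero_mul, mul_zero, sub_self, add_zero] at h7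
    rw [map_sub, h7, sub_self]
  rw [h2]
  exact hP

end SES
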