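import Pool.Agent.Lib.SE.S.Spec

/-!
# PROJECT SE-S, module ThA: images of extremal elements under an isomorphism
-/

set_option autoImplicit false

open Module

noncomputable section

namespace SES

open HC HC.E HC.SE SEB SEQ SER

namespace ThA_aux

section basic

variable {V : Type} [AddCommGroup V] [Module ℂ V]

theorem sy_comm (f : V →ₗ[ℂ] V →ₗ[ℂ] ℂ) (v w : V) : sy f v w = sy f w v := by
  unfold sy
  exact add_comm _ _

theorem sy_smul_left (f : V →ₗ[ℂ] V →ₗ[ℂ] ℂ) (c : ℂ) (v w : V) : sy f (c • v) w = c • sy f v w := by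
  ext z
  rw [LinearMap.smul_apply, sy_apply, sy_apply, map_smul, LinearMap.smul_apply, smul_add, smul_smul, smul_smul,
    smul_smul, smul_eq_mul, mul_comm (f w z) c]

theorem sy_smul_right (f : V →ₗ[ℂ] V →ₗ[ℂ] ℂ) (c : ℂ) (v w : V) : sy f v (c • w) = c • sy f v w := by
  rw [sy_comm, sy_smul_left, sy_comm]

theorem self_zero {f : V →ₗ[ℂ] V →ₗ[ℂ] ℂ} (hf : IsSf f) (x : V) : f x x = 0 := by
  have h1 := hf.alt x x
  have h2 : (2 : ℂ) * f x x = 0 := by linear_combination h1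
  exact (mul_eq_zero.1 h2).resolve_left two_ne_zero

theorem sq_apply (f : V →ₗ[ℂ] V →ₗ[ℂ] ℂ) (x z : V) : sy f x x z = (2 * f x z) • x := by
  rw [sy_apply, ← add_smul, two_mul]

/-- the commutators of `sy f x x` and `sy f v w` -/
theorem br_sq {f : V →ₗ[ℂ] V →ₗ[ℂ] ℂ} (b2 : ∀ X ∈ Sp f, ∀ v w, X * sy f v w - sy f v w * X =
    sy f (X v) w + sy f v (X w)) (b1 : ∀ v w, sy f v w ∈ Sp f) (x v w : V) :
    sy f x x * sy f v w - sy f v w * sy f x x = (2 * f x v) • sy f x w + (2 * f x w) • sy f v x := by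
  rw [b2 _ (b1 x x), sq_apply, sq_apply, sy_smul_left, sy_smul_right]

end basic

variable {V V' : Type} [AddCommGroup V] [Module ℂ V] [FiniteDimensional ℂ V]
    [AddCommGroup V'] [Module ℂ V'] [FiniteDimensional ℂ V']

/-- the image of a square -/
theorem img (hBs : S_Bs) (hEx : S_ExS) (f : V →ₗ[ℂ] V →ₗ[ℂ] ℂ) (f' : V' →ₗ[ℂ] V' →ₗ[ℂ] ℂ) (hf : IsSf f)
    (hf' : IsSf f') (J : Module.End ℂ V) (J' : Module.End ℂ V') (hJ2 : J' * J' = -1) (hJ : J ∈ Sp f)
    (φ : Module.End ℂ V →ₗ[ℂ] Module.End ℂ V') (hφ : IsIs f f' J J' φ) (x : V) (hx : x ≠ 0)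
    (hJx : J x = Complex.I • x) : ∃ x', x' ≠ 0 ∧ φ (sy f x x) = sy f' x' x' ∧ J' x' = Complex.I • x' := by
  obtain ⟨b1, b2, b3, b4, -⟩ := hBs V f hf
  have hs := b1 x x
  refine hEx hBs V' f' hf' J' (φ (sy f x x)) hJ2 (hφ.mem _ hs) ?_ ?_ ?_
  · intro h0
    exact hx (b4 x x hx (hφ.inj _ hs h0))
  · rw [← hφ.J _ hs, b2 J hJ, hJx, sy_smul_left, sy_smul_right, ← two_smul ℂ (Complex.I • sy f x x), smul_smul,
      map_smul]
  · intro Y' hY'
    obtain ⟨Y, hY, rfl⟩ := hφ.surj Y' hY'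
    have hA : sy f x x * Y - Y * sy f x x ∈ Sp f := b3 _ hs _ hY
    refine ⟨-(4 * f x (Y x)), ?_⟩
    rw [← hφ.br _ hs _ hY, ← hφ.br _ hs _ hA, ← map_smul]
    congr 1
    have h1 : sy f x x * Y - Y * sy f x x = (-2 : ℂ) • sy f (Y x) x := by
      have h2 := b2 Y hY x x
      rw [sy_comm f x (Y x), ← two_smul ℂ (sy f (Y x) x)] at h2
      rw [neg_smul, ← h2, neg_sub]
    rw [h1, mul_smul_comm, smul_mul_assoc, ← smul_sub, br_sq b2 b1, self_zero hf, mul_zero, zero_smul, add_zero,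
      smul_smul]
    congr 1
    ring

end ThA_aux

open ThA_aux

theorem tThA : S_ThA := by
  intro hBs hEx V V' _ _ _ _ _ _ f f' hf hf' J J' hJ2 hJ2' hJ hJ' φ hφ x hx hJx
  obtain ⟨b1, b2, b3, b4, -⟩ := hBs V f hf
  obtain ⟨b1', b2', b3', b4', -⟩ := hBs V' f' hf'
  have hJJ : ∀ v, J (J v) = -v := by
    intro v
    have := LinearMap.congr_fun hJ2 v
    simpa using this
  -- the vector y
  obtain ⟨y, hxy, hJy⟩ : ∃ y, f x y = 1 ∧ J y = -(Complex.I • y) := by
    obtain ⟨w, hw⟩ : ∃ w, f x w ≠ 0 := by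
      by_contra h
      push Not at h
      exact hx (hf.nd x h)
    have h1 : f x (J w) = -(Complex.I * f x w) := by
      have h2 := hJ x w
      rw [hJx, map_smul, LinearMap.smul_apply, smul_eq_mul] at h2
      linear_combination h2
    refine ⟨(1 / (2 * f x w)) • (w + Complex.I • J w), ?_, ?_⟩
    · rw [map_smul, map_add, map_smul, h1, smul_eq_mul, smul_eq_mul]
      have h3 : f x w + Complex.I * -(Complex.I * f x w) = 2 * f x w := by
        linear_combination (-(f x w)) * Complex.I_mul_I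
      rw [h3, one_div, inv_mul_cancel₀ (mul_ne_zero two_ne_zero hw)]
    · rw [map_smul, map_add, map_smul, hJJ, smul_comm Complex.I (1 / (2 * f x w)), ← smul_neg]
      congr 1
      rw [smul_add, smul_smul, Complex.I_mul_I]
      simp only [neg_smul, one_smul, smul_neg]
      abel
  have hy : y ≠ 0 := by
    intro h0
    rw [h0, map_zero] at hxy
    exact zero_ne_one hxy
  obtain ⟨x', hx', hxx, -⟩ := img hBs hEx f f' hf hf' J J' hJ2' hJ φ hφ x hx hJx
  have hφn : IsIs f f' (-J) (-J') φ := by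
    refine ⟨hφ.mem, hφ.br, hφ.inj, hφ.surj, fun X hX => ?_⟩
    have h1 := hφ.J X hX
    rw [neg_mul, mul_neg, neg_mul, mul_neg, neg_sub_neg, neg_sub_neg, ← neg_sub, map_neg, h1, neg_sub]
  obtain ⟨y', hy', hyy, -⟩ := img hBs hEx f f' hf hf' (-J) (-J') (by rw [neg_mul_neg]; exact hJ2')
    (Submodule.neg_mem _ hJ) φ hφn y hy (by rw [LinearMap.neg_apply, hJy, neg_neg])
  obtain ⟨τ, hτ⟩ : ∃ τ, f' x' y' = τ := ⟨_, rfl⟩
  -- the image of sy f x y
  have hxyφ : φ (sy f x y) = τ • sy f' x' y' := by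
    have h1 := hφ.br _ (b1 x x) _ (b1 y y)
    rw [br_sq b2 b1, hxy, hxx, hyy, br_sq b2' b1', hτ, sy_comm f y x, sy_comm f' y' x', ← two_smul ℂ, ← two_smul ℂ,
      map_smul, map_smul] at h1
    rw [smul_smul, smul_smul] at h1
    have h2 : (4 : ℂ) • φ (sy f x y) = (4 : ℂ) • (τ • sy f' x' y') := by
      rw [smul_smul]
      convert h1 using 2 <;> ring
    exact smul_right_injective _ (by norm_num : (4 : ℂ) ≠ 0) h2
  have hyx : f y x = -1 := by rw [hf.alt, hxy]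
  have hyx' : f' y' x' = -τ := by rw [hf'.alt, hτ]
  have hτ2 : τ * τ = 1 := by
    have h1 := hφ.br _ (b1 x x) _ (b1 x y)
    rw [br_sq b2 b1, hxx, hxyφ, mul_smul_comm, smul_mul_assoc, ← smul_sub, br_sq b2' b1', self_zero hf,
      self_zero hf', hxy, hτ, mul_zero, zero_smul, zero_smul, zero_add, zero_add, map_smul, hxx,
      smul_smul] at h1
    have h2 : (2 * (τ * τ) - 2) • sy f' x' x' = 0 := by
      rw [sub_smul, sub_eq_zero]
      convert h1.symm using 2 <;> ring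
    rcases smul_eq_zero.1 h2 with h3 | h3
    · linear_combination h3 / 2
    · exact absurd (b4' x' x' hx' h3) hx'
  refine ⟨y, x', τ • y', hxy, ?_, hxx, ?_, ?_⟩
  · rw [map_smul, hτ, smul_eq_mul, hτ2]
  · rw [hxyφ, sy_smul_right]
  · rw [hyy, sy_smul_left, sy_smul_right, smul_smul, hτ2, one_smul]

end SES
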