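import Pool.Agent.Lib.SE.S.Spec

/-!
# PROJECT SE-S, module ThB: the intertwiner
-/

set_option autoImplicit false

open Module

noncomputable section

namespace SES

namespace ThB_aux

variable {V : Type} [AddCommGroup V] [Module ℂ V]

theorem sy_comm (f : V →ₗ[ℂ] V →ₗ[ℂ] ℂ) (v w : V) : sy f v w = sy f w v := by
  unfold sy
  rw [add_comm]

theorem sy_add (f : V →ₗ[ℂ] V →ₗ[ℂ] ℂ) (v w w' : V) : sy f v (w + w') = sy f v w + sy f v w' := by
  refine LinearMap.ext fun z => ?_
  simp only [LinearMap.add_apply, sy_apply, map_add, add_smul, smul_add]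
  abel

theorem sy_smul (f : V →ₗ[ℂ] V →ₗ[ℂ] ℂ) (c : ℂ) (v w : V) : sy f v (c • w) = c • sy f v w := by
  refine LinearMap.ext fun z => ?_
  simp only [LinearMap.smul_apply, sy_apply, map_smul, smul_eq_mul, smul_add, smul_smul]
  rw [mul_comm c (f v z)]

theorem add_sy (f : V →ₗ[ℂ] V →ₗ[ℂ] ℂ) (v w w' : V) : sy f (w + w') v = sy f w v + sy f w' v := by
  rw [sy_comm, sy_add, sy_comm f v w, sy_comm f v w']

theorem smul_sy (f : V →ₗ[ℂ] V →ₗ[ℂ] ℂ) (c : ℂ) (v w : V) : sy f (c • w) v = c • sy f w v := by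
  rw [sy_comm, sy_smul, sy_comm f v w]

theorem zero_sy (f : V →ₗ[ℂ] V →ₗ[ℂ] ℂ) (v : V) : sy f 0 v = 0 := by
  have := smul_sy f 0 v 0
  simpa using this

theorem alt_self (f : V →ₗ[ℂ] V →ₗ[ℂ] ℂ) (hf : IsSf f) (v : V) : f v v = 0 := by
  have h := hf.alt v v
  have h2 : (2 : ℂ) * f v v = 0 := by linear_combination h
  rcases mul_eq_zero.1 h2 with h3 | h3
  · norm_num at h3
  · exact h3

/-- `Z w`. -/
def Z (f : V →ₗ[ℂ] V →ₗ[ℂ] ℂ) (x y : V) : V →ₗ[ℂ] Module.End ℂ V where
  toFun w := -sy f w y - (f w x / 2) • sy f y y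
  map_add' u w := by
    refine LinearMap.ext fun z => ?_
    simp only [LinearMap.add_apply, LinearMap.sub_apply, LinearMap.neg_apply, LinearMap.smul_apply,
      sy_apply, map_add, add_smul, smul_add, add_div]
    abel
  map_smul' c w := by
    refine LinearMap.ext fun z => ?_
    simp only [LinearMap.sub_apply, LinearMap.neg_apply, LinearMap.smul_apply, sy_apply, map_smul,
      smul_eq_mul, RingHom.id_apply]
    module

theorem Z_apply (f : V →ₗ[ℂ] V →ₗ[ℂ] ℂ) (x y w : V) :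
    Z f x y w = -sy f w y - (f w x / 2) • sy f y y := rfl

theorem Z_mem (f : V →ₗ[ℂ] V →ₗ[ℂ] ℂ) (h1 : ∀ v w, sy f v w ∈ Sp f) (x y w : V) :
    Z f x y w ∈ Sp f := by
  rw [Z_apply]
  exact (Sp f).sub_mem ((Sp f).neg_mem (h1 _ _)) ((Sp f).smul_mem _ (h1 _ _))

theorem Z_x (f : V →ₗ[ℂ] V →ₗ[ℂ] ℂ) (hf : IsSf f) (x y w : V) (hxy : f x y = 1) :
    Z f x y w x = w := by
  have h1 : f y x = -1 := by rw [hf.alt, hxy]
  rw [Z_apply]
  simp only [LinearMap.sub_apply, LinearMap.neg_apply, LinearMap.smul_apply, sy_apply, h1]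
  module

end ThB_aux

open ThB_aux

theorem tThB : S_ThB := by
  intro hBs V V' _ _ _ _ _ _ f f' hf hf' J J' φ hφ x y x' y' hxy hxy' hxx hxyφ hyy
  obtain ⟨b1, b2, b3, b4, b5⟩ := hBs V f hf
  obtain ⟨c1, c2, c3, c4, c5⟩ := hBs V' f' hf'
  have hx' : x' ≠ 0 := by
    intro h
    rw [h] at hxy'
    simp at hxy'
  -- commutators are mapped to commutators
  have hyx : f y x = -1 := by rw [hf.alt, hxy]
  have hyx' : f' y' x' = -1 := by rw [hf'.alt, hxy']
  set θ : V →ₗ[ℂ] V' := (LinearMap.applyₗ x') ∘ₗ φ ∘ₗ (Z f x y) with hθ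
  have hθ1 : ∀ w, θ w = φ (Z f x y w) x' := fun w => rfl
  -- (A)
  have hA : ∀ X ∈ Sp f, φ X x' = θ (X x) := by
    intro X hX
    have h1 : X - Z f x y (X x) ∈ Sp f := (Sp f).sub_mem hX (Z_mem f b1 _ _ _)
    have h2 : (X - Z f x y (X x)) x = 0 := by
      rw [LinearMap.sub_apply, Z_x f hf x y _ hxy, sub_self]
    have h3 := b2 _ h1 x x
    rw [h2, sy_comm f x 0] at h3
    rw [zero_sy, add_zero] at h3
    have h5 := hφ.br _ h1 _ (b1 x x)
    rw [h3, map_zero, hxx, c2 _ (hφ.mem _ h1)] at h5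
    rw [sy_comm f' x' _] at h5
    have h6 : sy f' (φ (X - Z f x y (X x)) x') x' = 0 := by
      have h7 : (2 : ℂ) • sy f' (φ (X - Z f x y (X x)) x') x' = 0 := by
        rw [two_smul]
        exact h5.symm
      rcases smul_eq_zero.1 h7 with h8 | h8
      · norm_num at h8
      · exact h8
    have h9 := c4 _ _ hx' h6
    rw [map_sub, LinearMap.sub_apply, sub_eq_zero] at h9
    rw [h9, hθ1]
  -- (B)
  have hB : ∀ w, φ (sy f x w) = sy f' x' (θ w) := by
    intro w
    have h1 := b2 _ (Z_mem f b1 x y w) x x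
    rw [Z_x f hf x y w hxy, sy_comm f w x] at h1
    have h2 := hφ.br _ (Z_mem f b1 x y w) _ (b1 x x)
    rw [h1, hxx, c2 _ (hφ.mem _ (Z_mem f b1 x y w)), ← hθ1, sy_comm f' (θ w) x', map_add] at h2
    have h3 : (2 : ℂ) • φ (sy f x w) = (2 : ℂ) • sy f' x' (θ w) := by
      rw [two_smul, two_smul]
      exact h2
    exact smul_right_injective _ (two_ne_zero) h3
  -- (C)
  have hC : θ x = x' := by
    have h1 : -sy f x y ∈ Sp f := (Sp f).neg_mem (b1 _ _)
    have h2 : (-sy f x y) x = x := by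
      rw [LinearMap.neg_apply, sy_apply, hyx, alt_self f hf]
      module
    have h3 := hA _ h1
    rw [h2, map_neg, hxyφ, LinearMap.neg_apply, sy_apply, hyx', alt_self f' hf'] at h3
    rw [← h3]
    module
  have hne : sy f' x' x' ≠ 0 := fun h => hx' (c4 _ _ hx' h)
  -- (D)
  have hD : ∀ w, f' x' (θ w) = f x w := by
    intro w
    have h1 := hφ.br _ (b1 x x) _ (b1 x w)
    rw [b2 _ (b1 x x), hxx, hB, c2 _ (c1 x' x')] at h1
    simp only [sy_apply, alt_self f hf, alt_self f' hf', sy_add, sy_smul, map_add, map_smul, hxx,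
      zero_sy, zero_smul, add_zero, zero_add] at h1
    have h2 : (2 * (f' x' (θ w) - f x w)) • sy f' x' x' = 0 := by
      linear_combination (norm := module) -h1
    rcases smul_eq_zero.1 h2 with h3 | h3
    · rcases mul_eq_zero.1 h3 with h4 | h4
      · norm_num at h4
      · exact sub_eq_zero.1 h4
    · exact absurd h3 hne
  have hD2 : ∀ w, f' (θ w) x' = f w x := by
    intro w
    rw [hf'.alt, hD, ← hf.alt]
  -- (E)
  have hE : ∀ w z, f' (θ w) (θ z) = f w z := by
    intro w z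
    have h1 := hφ.br _ (b1 x w) _ (b1 x z)
    rw [b2 _ (b1 x w), hB, hB, c2 _ (c1 x' _)] at h1
    simp only [sy_apply, alt_self f hf, alt_self f' hf', sy_add, smul_sy, sy_smul, map_add,
      map_smul, hxx, hB, hD, hD2, zero_smul, add_zero] at h1
    have h2 : (f' (θ w) (θ z) - f w z) • sy f' x' x' = 0 := by
      linear_combination (norm := module) -h1
    rcases smul_eq_zero.1 h2 with h3 | h3
    · exact sub_eq_zero.1 h3
    · exact absurd h3 hne
  -- (F)
  have hF : θ y = y' := by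
    have h1 := hB y
    rw [hxyφ] at h1
    have h2 : sy f' (y' - θ y) x' = 0 := by
      rw [sub_eq_add_neg, ← neg_one_smul ℂ (θ y), add_sy, smul_sy, sy_comm f' y' x', h1,
        sy_comm f' (θ y) x']
      module
    exact (sub_eq_zero.1 (c4 _ _ hx' h2)).symm
  -- (G)
  have hG : ∀ w, φ (sy f y w) = sy f' y' (θ w) := by
    intro w
    have h1 := hφ.br _ (b1 y y) _ (b1 x w)
    have h3 : f' y' (θ w) = f y w := by rw [← hF, hE]
    rw [b2 _ (b1 y y), hyy, hB, c2 _ (c1 y' y')] at h1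
    simp only [sy_apply, hyx, hyx', h3, add_sy, sy_add, smul_sy, sy_smul, map_add,
      map_smul, hxyφ] at h1
    have h2 : (2 : ℂ) • φ (sy f y w) = (2 : ℂ) • sy f' y' (θ w) := by
      linear_combination (norm := module) -h1
    exact smul_right_injective _ (two_ne_zero) h2
  -- (H)
  have hH : ∀ u w, φ (Z f x y u) (θ w) = θ (Z f x y u w) := by
    intro u w
    have h3 : f' y' (θ w) = f y w := by rw [← hF, hE]
    rw [Z_apply, map_sub, map_neg, map_smul, sy_comm f u y, hG, hyy]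
    simp only [LinearMap.sub_apply, LinearMap.neg_apply, LinearMap.smul_apply, sy_apply, h3, hE,
      map_sub, map_neg, map_smul, map_add, hF]
  have hI : ∀ u w, φ (sy f u w) = sy f' (θ u) (θ w) := by
    intro u w
    have h1 := hφ.br _ (Z_mem f b1 x y u) _ (b1 x w)
    rw [b2 _ (Z_mem f b1 x y u), Z_x f hf x y u hxy, hB, c2 _ (hφ.mem _ (Z_mem f b1 x y u)), hH,
      ← hθ1, map_add, hB] at h1
    exact add_right_cancel h1
  refine ⟨θ, ?_, ?_⟩
  · intro h
    rw [h, LinearMap.zero_apply] at hC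
    exact hx' hC.symm
  · intro X hX
    refine Submodule.span_induction (p := fun X _ => ∀ v, θ (X v) = φ X (θ v)) ?_ ?_ ?_ ?_ (b5 X hX)
    · rintro _ ⟨⟨u, w⟩, rfl⟩ v
      simp only [hI, sy_apply, map_add, map_smul, hE]
    · intro v
      simp
    · intro A B _ _ hA hB v
      rw [LinearMap.add_apply, map_add, map_add, hA, hB, LinearMap.add_apply]
    · intro c A _ hA v
      rw [LinearMap.smul_apply, map_smul, map_smul, hA, LinearMap.smul_apply]

end SES
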