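import Pool.Agent.Lib.SE.S.Spec2

/-!
# PROJECT SE-S, part 2, module TuS: tuples (helper69)
-/

set_option autoImplicit false

open Module

noncomputable section

namespace SES

open HC HC.E HC.SE SEB SEQ SER

theorem tTuS : S_TuS := by
  intro hBs hTs hPcS hRbS hClX hJS hOnS hPrG hPaS q G E f D h hh
  have hPr := (hPrG q G E h hh).1
  have hPr2 := (hPrG q G E h hh).2
  have hmem : ∀ C ∈ ggT h, ∀ k, C k ∈ Sp (f k) := by
    intro C hC k
    obtain ⟨h1, h2, -⟩ := hPr k
    exact (hOnS (G k) (E k) (f k) (D.fs k) (D.sp k) _ h1).1 _ (h2 C hC)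
  refine ⟨hmem, hRbS q (fun k => Frm (G k)) (fun k => Sp (f k)) (ggT h) ?_ ?_ hmem ?_ ?_⟩
  · intro k X hX
    have := (hJS (G k)).1
    exact (hPcS hBs hTs (Frm (G k)) (f k) (D.fs k).sf).1 X hX
  · exact (hClX (Tup G) (∀ k, Module.End ℂ (Frm (G k))) (fun Y k => pre (Y k))
      (fun x y => by
        funext k
        refine LinearMap.ext fun a => ?_
        exact LinearMap.comp_add _ _ _)
      (fun r x => by
        funext k
        refine LinearMap.ext fun a => LinearMap.ext fun v => ?_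
        show a ((r • x k) v) = (r : ℂ) • a (x k v)
        rw [LinearMap.smul_apply, map_smul, Complex.coe_smul])
      (fun x y => by
        funext k
        rfl)
      h (JT G) hh.br hh.J (ggT h) rfl).1
  · intro k A hA
    obtain ⟨h1, -, h3⟩ := hPr k
    exact h3 A ((hOnS (G k) (E k) (f k) (D.fs k) (D.sp k) _ h1).2 A hA)
  · intro k l hkl A hA
    obtain ⟨h1, h2⟩ := hPr2 k l
    have h3 := hPaS (G k) (G l) (E k) (E l) (f k) (f l) (by have := D.two k; omega) (D.rf k)
      (D.rf l) (D.fs k) (D.fs l) (D.sp k) (D.sp l) (D.ni k l hkl) _ h1 A hA 0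
      (Submodule.zero_mem _)
    obtain ⟨C, hC, hC2⟩ := h2 _ h3
    exact ⟨C, hC, congrArg Prod.fst hC2, congrArg Prod.snd hC2⟩

end SES
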