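import Pool.Agent.Lib.SE.S.Fn
import Pool.Agent.Lib.SE.S.Bs
import Pool.Agent.Lib.SE.S.ClX
import Pool.Agent.Lib.SE.S.DiS
import Pool.Agent.Lib.SE.S.DtK
import Pool.Agent.Lib.SE.S.ExS
import Pool.Agent.Lib.SE.S.FfS
import Pool.Agent.Lib.SE.S.HcS
import Pool.Agent.Lib.SE.S.HrS
import Pool.Agent.Lib.SE.S.IgS
import Pool.Agent.Lib.SE.S.InS
import Pool.Agent.Lib.SE.S.JS
import Pool.Agent.Lib.SE.S.LkS
import Pool.Agent.Lib.SE.S.M1
import Pool.Agent.Lib.SE.S.M2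
import Pool.Agent.Lib.SE.S.M3
import Pool.Agent.Lib.SE.S.M4
import Pool.Agent.Lib.SE.S.NaS
import Pool.Agent.Lib.SE.S.OgS
import Pool.Agent.Lib.SE.S.OnS
import Pool.Agent.Lib.SE.S.OpP
import Pool.Agent.Lib.SE.S.PaA
import Pool.Agent.Lib.SE.S.PcS
import Pool.Agent.Lib.SE.S.PjM
import Pool.Agent.Lib.SE.S.PjP
import Pool.Agent.Lib.SE.S.PrG
import Pool.Agent.Lib.SE.S.PrS
import Pool.Agent.Lib.SE.S.RbS
import Pool.Agent.Lib.SE.S.ReG
import Pool.Agent.Lib.SE.S.SiS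
import Pool.Agent.Lib.SE.S.ThA
import Pool.Agent.Lib.SE.S.ThB
import Pool.Agent.Lib.SE.S.TuS

/-!
# PROJECT SE-S, module Asm: the ingredients (helper59)
-/

set_option autoImplicit false

open Module

noncomputable section

namespace SES

open HC HC.E HC.SE SEB SEQ SE SER SEE

/-- The ingredients of the final theorem. -/
theorem ing_of (tTs : S_Ts) (tGrS : S_GrS) (tFmS : S_FmS) (tNoI : S_NoI) (tExK : S_ExK)
    (tMoS : S_MoS) (tKiS : S_KiS) (tLiM : S_LiM) (tRepS : S_RepS) (tThS : S_ThS) : Ing := by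
  have hPaS : PaS := tPaA tBs tTs tSiS tPcS tExS tThA tThB tGrS tClX tJS tOnS tPjP tLkS tIgS
    HC.E.tIsoInv
  have hG : ∀ (q : ℕ) (G : Fin q → AV) (E : ∀ k, (G k).V →ₗ[ℝ] (G k).V →ₗ[ℝ] ℝ)
      (f : ∀ k, Frm (G k) →ₗ[ℂ] Frm (G k) →ₗ[ℂ] ℂ), TuD G E f → ∀ h, HLieG E h → HiG f h :=
    tTuS tBs tTs tPcS tRbS tClX tJS tOnS tPrG hPaS
  refine ⟨tFmS, tRepS, ?_, ?_, ?_⟩
  · intro q q' T m r D B G E f hT hm hd hH
    exact lm_of tBs tTs tSiS tPcS tNaS tDiS tClX tJS tCmt tPjM tNoI dim_all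
      (SEB.tAdJ (SEB.tBas SEB.tPj)) tSim
      tM1 tM2 tM3 tM4 q q' T m r D B G E f hT hm hd hH (fun h hh => hG q' G E f hT h hh)
  · intro q N G κ E f C hT m c hc
    have hk : KlS C E c := tKiS tOgS tHrS L.tLc1 tLX L.pLa L.pLa' tLb tReG q N G κ E f C hT
      (fun h hh => hG q G E f hT h hh) m c hc
    exact tHcS tFfS tExK tMoS tBs tTs tPcS tJS tInS tPrS tDtK SE.tPol SE.tQal
      (fun T m c => Alg2 T m c) cl_alg2 q N G κ E f C hT.rf hT.fs m c hk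
  · exact tThS tLiM tOgS tHrS L.tLc1 tOpP tJS tLX tOp4 tHr tKuR tTrR tRg HC.E.tIsoInv

end SES
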