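import Pool.Agent.Lib.SE.S.Spec

/-!
# PROJECT SE-S, module `GrS`: from a relation to a map (helper1)
-/

set_option autoImplicit false

open Module

noncomputable section

namespace SES

namespace GrS_aux

theorem uniq {E E' : Type} [AddCommGroup E] [Module ℂ E] [AddCommGroup E'] [Module ℂ E']
    {P : Submodule ℂ (E × E')} (h0 : ∀ Y, ((0 : E), Y) ∈ P → Y = 0) {X : E} {Y Y' : E'}
    (h : (X, Y) ∈ P) (h' : (X, Y') ∈ P) : Y = Y' := by
  have h1 := P.sub_mem h h'
  have h2 : ((X, Y) : E × E') - (X, Y') = (0, Y - Y') := by simp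
  rw [h2] at h1
  exact sub_eq_zero.mp (h0 _ h1)

end GrS_aux

open GrS_aux in
/-- **GrS** -/
theorem tGrS : S_GrS := by
  intro E E' _ _ _ _ P L hL h0
  have hs : ∀ X : L, ((X : E), Classical.choose (hL X X.2)) ∈ P :=
    fun X => Classical.choose_spec (hL X X.2)
  let g : L →ₗ[ℂ] E' :=
    { toFun := fun X => Classical.choose (hL X X.2)
      map_add' := fun X Y => by
        have h1 := P.add_mem (hs X) (hs Y)
        exact uniq h0 (hs (X + Y)) h1
      map_smul' := fun c X => by
        have h1 := P.smul_mem c (hs X)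
        exact uniq h0 (hs (c • X)) h1 }
  obtain ⟨φ, hφ⟩ := LinearMap.exists_extend g
  have hg : ∀ X (hX : X ∈ L), φ X = Classical.choose (hL X hX) := by
    intro X hX
    have h1 := LinearMap.congr_fun hφ ⟨X, hX⟩
    exact h1
  refine ⟨φ, fun X hX => ?_, fun X hX Y hY => ?_⟩
  · rw [hg X hX]
    exact hs ⟨X, hX⟩
  · rw [hg X hX]
    exact uniq h0 hY (hs ⟨X, hX⟩)

end SES
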