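import Pool.Agent.Lib.SE.S.Spec2
import Pool.Agent.Lib.SE.Big.Two

/-!
# PROJECT SE-S, part 2: module `NoI` (helper38)

No isomorphism of `sl(W)` and `sp` compatible with `i`.
-/

set_option autoImplicit false

open Module

noncomputable section

namespace SES

open HC HC.E HC.SE SEB SEQ SER

namespace NoI_aux

/-- The eigenvalue `2 i` of `ad J` on `sp`. -/
def UJ {V : Type} [AddCommGroup V] [Module ℂ V] (f : V →ₗ[ℂ] V →ₗ[ℂ] ℂ) (J : Module.End ℂ V) :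
    Submodule ℂ (Module.End ℂ V) where
  carrier := {X | X ∈ Sp f ∧ J * X - X * J = (2 * Complex.I) • X}
  add_mem' {X Y} hX hY := by
    refine ⟨(Sp f).add_mem hX.1 hY.1, ?_⟩
    rw [smul_add, ← hX.2, ← hY.2, mul_add, add_mul]
    abel
  zero_mem' := ⟨(Sp f).zero_mem, by simp⟩
  smul_mem' c X hX := by
    refine ⟨(Sp f).smul_mem c hX.1, ?_⟩
    rw [mul_smul_comm, smul_mul_assoc, ← smul_sub, hX.2, smul_comm]

/-- The eigenspace `-i`. -/
def KJ {V : Type} [AddCommGroup V] [Module ℂ V] (J : Module.End ℂ V) : Submodule ℂ V where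
  carrier := {v | J v = -Complex.I • v}
  add_mem' {v w} hv hw := by
    have h1 : J v = -Complex.I • v := hv
    have h2 : J w = -Complex.I • w := hw
    show J (v + w) = -Complex.I • (v + w)
    rw [map_add, h1, h2, smul_add]
  zero_mem' := by
    show J 0 = -Complex.I • (0 : V)
    rw [map_zero, smul_zero]
  smul_mem' c v hv := by
    have h1 : J v = -Complex.I • v := hv
    show J (c • v) = -Complex.I • (c • v)
    rw [map_smul, h1, smul_comm]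

theorem Jst {T : AV} {m : ℕ} (D : Cyc T m) (s : (ZMod m)ˣ) (a : Frm T) (ha : a ∈ Ws D s) :
    pre (mulI T) a ∈ Ws D s := by
  intro v
  have h1 : a (D.Z (Complex.I • v)) = zet m s * a (Complex.I • v) := ha (Complex.I • v)
  have h2 : D.Z (Complex.I • v) = Complex.I • D.Z v := map_smul _ _ _
  show a (Complex.I • D.Z v) = zet m s * a (Complex.I • v)
  rw [← h2, h1]

/-- the comparison argument for a graph -/
theorem graph_fin {E₁ E₂ : Type} [AddCommMonoid E₁] [Module ℂ E₁] [AddCommMonoid E₂]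
    [Module ℂ E₂] (P : Submodule ℂ (E₁ × E₂)) (S₁ : Submodule ℂ E₁) (S₂ : Submodule ℂ E₂)
    (h4 : ∀ X Y Y', (X, Y) ∈ P → (X, Y') ∈ P → Y = Y')
    (h5 : ∀ X X' Y, (X, Y) ∈ P → (X', Y) ∈ P → X = X')
    (hS : ∀ X Y, (X, Y) ∈ P → (X ∈ S₁ ↔ Y ∈ S₂)) (hs1 : ∀ X ∈ S₁, ∃ Y, (X, Y) ∈ P)
    (hs2 : ∀ Y ∈ S₂, ∃ X, (X, Y) ∈ P) : finrank ℂ S₁ = finrank ℂ S₂ := by
  choose F hF using hs1
  let φ : S₁ →ₗ[ℂ] S₂ :=
    { toFun := fun X => ⟨F X.1 X.2, (hS X.1 _ (hF X.1 X.2)).1 X.2⟩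
      map_add' := fun X X' => Subtype.ext
        (h4 _ _ _ (hF _ (X + X').2) (P.add_mem (hF X.1 X.2) (hF X'.1 X'.2)))
      map_smul' := fun c X => Subtype.ext
        (h4 _ _ _ (hF _ (c • X).2) (P.smul_mem c (hF X.1 X.2))) }
  have hφ : ∀ X : S₁, ((X : E₁), ((φ X : S₂) : E₂)) ∈ P := fun X => hF X.1 X.2
  have h1 : Function.Injective φ := by
    intro X X' hX
    have h2 := hφ X
    rw [hX] at h2
    exact Subtype.ext (h5 _ _ _ h2 (hφ X'))
  have h2 : Function.Surjective φ := by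
    intro Y
    obtain ⟨X, hX⟩ := hs2 Y.1 Y.2
    refine ⟨⟨X, (hS X Y.1 hX).2 Y.2⟩, Subtype.ext ?_⟩
    exact h4 _ _ _ (hφ ⟨X, (hS X Y.1 hX).2 Y.2⟩) hX
  exact LinearEquiv.finrank_eq (LinearEquiv.ofBijective φ ⟨h1, h2⟩)

theorem neg_aux {V : Type} [AddCommGroup V] [Module ℂ V] (X : Module.End ℂ V) :
    X + (-1 : ℂ) • X = 0 := by
  refine LinearMap.ext fun v => ?_
  rw [LinearMap.add_apply, LinearMap.smul_apply, neg_one_smul, add_neg_cancel]
  rfl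

theorem eq_aux {V : Type} [AddCommGroup V] [Module ℂ V] (X Y : Module.End ℂ V)
    (h : X + (-1 : ℂ) • Y = 0) : X = Y := by
  refine LinearMap.ext fun v => ?_
  have h1 : X v + (-1 : ℂ) • Y v = 0 := LinearMap.congr_fun h v
  rw [neg_one_smul] at h1
  exact add_neg_eq_zero.1 h1

/-- uniqueness -/
theorem uniqY {V W : Type} [AddCommGroup V] [Module ℂ V] [AddCommGroup W] [Module ℂ W]
    (P : Submodule ℂ (Module.End ℂ W × Module.End ℂ V))
    (hP4 : ∀ Y, ((0 : Module.End ℂ W), Y) ∈ P → Y = 0) (X : Module.End ℂ W)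
    (Y Y' : Module.End ℂ V) (h : (X, Y) ∈ P) (h' : (X, Y') ∈ P) : Y = Y' := by
  have h1 : (X + (-1 : ℂ) • X, Y + (-1 : ℂ) • Y') ∈ P := P.add_mem h (P.smul_mem (-1 : ℂ) h')
  rw [neg_aux] at h1
  exact eq_aux Y Y' (hP4 _ h1)

theorem uniqX {V W : Type} [AddCommGroup V] [Module ℂ V] [AddCommGroup W] [Module ℂ W]
    (P : Submodule ℂ (Module.End ℂ W × Module.End ℂ V))
    (hP5 : ∀ X, (X, (0 : Module.End ℂ V)) ∈ P → X = 0) (X X' : Module.End ℂ W)
    (Y : Module.End ℂ V) (h : (X, Y) ∈ P) (h' : (X', Y) ∈ P) : X = X' := by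
  have h1 : (X + (-1 : ℂ) • X', Y + (-1 : ℂ) • Y) ∈ P := P.add_mem h (P.smul_mem (-1 : ℂ) h')
  rw [neg_aux] at h1
  exact eq_aux X X' (hP5 _ h1)

/-- the arithmetic -/
theorem arith (g d a b : ℕ) (hg : 2 ≤ g) (h1 : 2 * d = 2 * g * (2 * g + 1))
    (h2 : d + 1 = (a + b) * (a + b)) (h3 : 2 * (a * b) = g * (g + 1)) : False := by
  have h4 : d = g * (2 * g + 1) := by nlinarith
  subst h4
  zify at h2 h3 hg
  nlinarith [sq_nonneg ((a : ℤ) - b)]

end NoI_aux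

open NoI_aux SEB.Two_aux

/-- the case `X ∈ SJ` -/
private theorem dir1 {T : AV} {m : ℕ} (D : Cyc T m) (s : (ZMod m)ˣ) {V : Type} [AddCommGroup V]
    [Module ℂ V] (J : Module.End ℂ V) (P : Submodule ℂ (Module.End ℂ (Ws D s) × Module.End ℂ V))
    (hu : ∀ X Y Y', (X, Y) ∈ P → (X, Y') ∈ P → Y = Y')
    (hP6 : ∀ x ∈ P, ∀ X' : Module.End ℂ (Ws D s), (∀ a b : Ws D s,
      (b : Frm T) = pre (mulI T) (a : Frm T) →
      (X' a : Frm T) = pre (mulI T) (x.1 a : Frm T) - (x.1 b : Frm T)) →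
      (X', J * x.2 - x.2 * J) ∈ P) (X : Module.End ℂ (Ws D s)) (Y : Module.End ℂ V)
    (hA : (X, Y) ∈ P) (hX : X ∈ SJ D s) : J * Y - Y * J = (2 * Complex.I) • Y :=
  hu ((2 * Complex.I) • X) _ _
    (hP6 (X, Y) hA ((2 * Complex.I) • X) (fun a b hab => (hX a b hab).symm))
    (P.smul_mem (2 * Complex.I) hA)

/-- the case `Y ∈ UJ` -/
private theorem dir2 {T : AV} {m : ℕ} (D : Cyc T m) (s : (ZMod m)ˣ) {V : Type} [AddCommGroup V]
    [Module ℂ V] (J : Module.End ℂ V) (P : Submodule ℂ (Module.End ℂ (Ws D s) × Module.End ℂ V))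
    (hu : ∀ X X' Y, (X, Y) ∈ P → (X', Y) ∈ P → X = X')
    (hP6 : ∀ x ∈ P, ∀ X' : Module.End ℂ (Ws D s), (∀ a b : Ws D s,
      (b : Frm T) = pre (mulI T) (a : Frm T) →
      (X' a : Frm T) = pre (mulI T) (x.1 a : Frm T) - (x.1 b : Frm T)) →
      (X', J * x.2 - x.2 * J) ∈ P) (X : Module.End ℂ (Ws D s)) (Y : Module.End ℂ V)
    (hA : (X, Y) ∈ P) (hY : J * Y - Y * J = (2 * Complex.I) • Y) : X ∈ SJ D s := by
  obtain ⟨JW, hJW⟩ : ∃ JW : Module.End ℂ (Ws D s),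
      ∀ a : Ws D s, ((JW a : Ws D s) : Frm T) = pre (mulI T) (a : Frm T) :=
    ⟨(pre (mulI T)).restrict (fun a ha => Jst D s a ha), fun a => rfl⟩
  have h1 : (JW * X - X * JW, J * Y - Y * J) ∈ P := hP6 (X, Y) hA (JW * X - X * JW) (by
    intro a b hab
    have hb : JW a = b := Subtype.ext ((hJW a).trans hab.symm)
    have h2 : (JW * X - X * JW) a = JW (X a) - X (JW a) := rfl
    rw [h2, hb, Submodule.coe_sub, hJW])
  rw [hY] at h1
  have h5 : JW * X - X * JW = (2 * Complex.I) • X :=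
    hu _ _ ((2 * Complex.I) • Y) h1 (P.smul_mem (2 * Complex.I) hA)
  intro a b hab
  have hb : JW a = b := Subtype.ext ((hJW a).trans hab.symm)
  have h7 : JW (X a) - X (JW a) = (2 * Complex.I) • X a := LinearMap.congr_fun h5 a
  rw [hb] at h7
  have h8 := congrArg Subtype.val h7
  rw [Submodule.coe_sub, hJW] at h8
  exact h8

theorem tNoI : S_NoI := by
  intro hDi hJS hDim hAd T m r D hm hdim s G E f hR hF hg P hP1 hP2 hP3 hP4 hP5 hP6
  obtain ⟨hfT, -, -, -, -⟩ := hJS T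
  obtain ⟨hfG, hJJ, hn, hK, hsk⟩ := hJS G
  obtain ⟨hW, hpp⟩ := hDim T m r D hm hdim s
  have hJSp : pre (mulI G) ∈ Sp f := hF.skew _ (hsk E hR)
  obtain ⟨hd1, hd2⟩ := hDi (Frm G) f hF.sf
  have hK1 := hK (-Complex.I) (Or.inr rfl) (KJ (pre (mulI G))) (fun a => Iff.rfl)
  have hU := hd2 (pre (mulI G)) hJSp hJJ (KJ (pre (mulI G))) (fun a => Iff.rfl)
    (UJ f (pre (mulI G))) (fun X => Iff.rfl)
  have hS := hAd T m D hm s (SJ D s) (mem_SJ D s)
  have u1 := uniqY P hP4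
  have u2 := uniqX P hP5
  have c1 : finrank ℂ (LinearMap.ker (LinearMap.trace ℂ (Ws D s))) = finrank ℂ (Sp f) :=
    graph_fin P (LinearMap.ker (LinearMap.trace ℂ (Ws D s))) (Sp f) u1 u2
      (fun X Y hA => ⟨fun _ => (hP1 _ hA).2, fun _ => (hP1 _ hA).1⟩) hP2 hP3
  have c2 : finrank ℂ (SJ D s) = finrank ℂ (UJ f (pre (mulI G))) :=
    graph_fin P (SJ D s) (UJ f (pre (mulI G))) u1 u2
      (fun X Y hA => ⟨fun hX => ⟨(hP1 _ hA).2, dir1 D s (pre (mulI G)) P u1 hP6 X Y hA hX⟩,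
        fun hY => dir2 D s (pre (mulI G)) P u2 hP6 X Y hA hY.2⟩)
      (fun X hX => hP2 X (hS.2 X hX)) (fun Y hY => hP3 Y hY.1)
  rw [hS.1] at c2
  rw [hK1] at hU
  rw [hn] at hd1
  have hr : 0 < finrank ℂ (Ws D s) := by
    rw [hW]
    rcases Nat.eq_zero_or_pos r with h0 | h0
    · exfalso
      have hp : D.p s = 0 := by omega
      rw [hp, zero_mul] at c2
      rw [← c2, mul_zero] at hU
      have h1 : 0 < finrank ℂ G.V * (finrank ℂ G.V + 1) := by positivity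
      omega
    · exact h0
  have hfW : FiniteDimensional ℂ (Ws D s) := Module.finite_of_finrank_pos hr
  have hk := finrank_ker_trace hr
  rw [c1, hW, ← hpp] at hk
  rw [← c2] at hU
  exact arith (finrank ℂ G.V) (finrank ℂ (Sp f)) (D.p s) (D.p (-s)) hg hd1 hk hU

end SES
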