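import Pool.Agent.Lib.SE.S.Spec

/-!
# PROJECT SE-S, part 1, module Ts: transitivity of `sp`
-/

set_option autoImplicit false

open Module

noncomputable section

namespace SES

theorem tTs : S_Ts := by
  intro hBs V _ _ _ f hf v w hv
  obtain ⟨hsy, -⟩ := hBs V f hf
  have h0 : ∃ z, f v z ≠ 0 := by
    by_contra h
    push Not at h
    exact hv (hf.nd v h)
  obtain ⟨z, hz⟩ := h0
  set y : V := -((f v z)⁻¹ • z) with hy
  have h1 : f y v = 1 := by
    rw [hf.alt, hy, map_neg, map_smul, smul_eq_mul, inv_mul_cancel₀ hz, neg_neg]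
  refine ⟨sy f w y - (f w v / 2) • sy f y y, ?_, ?_⟩
  · exact Submodule.sub_mem _ (hsy w y) (Submodule.smul_mem _ _ (hsy y y))
  · rw [LinearMap.sub_apply, LinearMap.smul_apply, sy_apply, sy_apply, h1, one_smul, one_smul]
    module

end SES
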