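import Pool.Agent.Lib.SE.Big.Spec

/-!
# PROJECT SE-S: abelian varieties with Hodge group `Sp` (helper59)
-/

set_option autoImplicit false

open Module

noncomputable section

namespace SES

open HC HC.E SEB

/-- `X` is skew for `E`. -/
def IsSk {G : AV} (E : G.V →ₗ[ℝ] G.V →ₗ[ℝ] ℝ) (X : Module.End ℝ G.V) : Prop :=
  ∀ u v, E (X u) v + E u (X v) = 0

/-- `E` is a Riemann form. -/
def IsRf (G : AV) (E : G.V →ₗ[ℝ] G.V →ₗ[ℝ] ℝ) : Prop :=
  (∀ u ∈ G.L, ∀ v ∈ G.L, ∃ n : ℤ, E u v = n) ∧ (∀ u v, E u v = -E v u) ∧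
    (∀ u v, E (Complex.I • u) (Complex.I • v) = E u v) ∧ ∀ v, v ≠ 0 → 0 < E (Complex.I • v) v

/-- A `ℚ`-Lie algebra of rational skew endomorphisms whose real span contains `i`. -/
structure HLieS {G : AV} (E : G.V →ₗ[ℝ] G.V →ₗ[ℝ] ℝ) (h : Set (Module.End ℝ G.V)) : Prop where
  rat : ∀ X ∈ h, RatEnd G X
  sk : ∀ X ∈ h, IsSk E X
  lie : IsQLie h
  J : mulI G ∈ Submodule.span ℝ h

/-- The Hodge Lie algebra is `sp(E)`: every skew real endomorphism is a real combination of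
commutators. -/
def SpB {G : AV} (E : G.V →ₗ[ℝ] G.V →ₗ[ℝ] ℝ) : Prop :=
  ∀ h, HLieS E h → ∀ X, IsSk E X → X ∈ Submodule.span ℝ (Com h)

end SES
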