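import Pool.Agent.Lib.SE.S.Spec2
import Pool.Agent.Lib.SE.R.LAll

/-!
# PROJECT SE-S: all half systems are hit with `B`-component `0` (helper59)
-/

set_option autoImplicit false

open Module

noncomputable section

namespace SES

open HC HC.E HC.SE SEB SEQ SER

theorem h0 {q : ℕ} {T : Fin q → AV} {m : Fin q → ℕ} (D : ∀ i, Cyc (T i) (m i))
    (hm : ∀ i, 3 ≤ m i) (hT : HT D) (hp : ∀ i, ∃ s, 2 ≤ (D i).p s) (B : AV) : H0 D B := by
  intro ι S h hh F hF
  have a1 : ∀ i, Only h i := fun i =>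
    tRt q T m D B ι S h hh i (tNon tNab tPjR tClR tCmt q T m D hm hT B ι S h hh i (hp i))
  exact tIdA tSim tPjR tClR q T m D hm hT B ι S h hh F hF
    (tIdn tNsc tPjR tClR q T m D hm hT B ι S h hh a1 F hF)

end SES
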