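import Pool.Agent.Lib.SE.S.Fin
import Pool.Agent.Lib.SE.S.H0
import Pool.Agent.Lib.SE.E.All
import Pool.Agent.Lib.SE.Hyp.Fin

/-!
# PROJECT SE-S, module Fn: assembly of the final theorem (helper59)
-/

set_option autoImplicit false

open Module

noncomputable section

namespace SES

open HC HC.E HC.SE SEB SEQ SE SER SEE

/-- The meagre sets. -/
def MMs (m r : ℕ) : Set (Fin (r + 1) → ℂ) :=
  MMe m r ∪ {s | m = 2 ∧ 2 ≤ r ∧ Even r ∧ s ∈ SEH.MMh r}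

theorem mms_meagre (m r : ℕ) : IsMeagre (MMs m r) := by
  refine (tMMe m r).union ?_
  by_cases h : m = 2 ∧ 2 ≤ r ∧ Even r
  · refine (SEH.thMMh r h.2.1 h.2.2).mono ?_
    rintro s ⟨-, -, -, hs⟩
    exact hs
  · have h1 : {s : Fin (r + 1) → ℂ | m = 2 ∧ 2 ≤ r ∧ Even r ∧ s ∈ SEH.MMh r} = ∅ := by
      refine Set.eq_empty_iff_forall_notMem.2 fun s hs => h ⟨hs.1, hs.2.1, hs.2.2.1⟩
    rw [h1]
    exact IsMeagre.empty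

theorem gde_mono {G : AV} (h : Gde MMs G) : Gde MMe G := by
  rcases h with h | ⟨m, r, s, D, h1, h2, h3⟩
  · exact Or.inl h
  · refine Or.inr ⟨m, r, s, D, h1, h2, ?_⟩
    rcases h3 with h3 | h3 | h3
    · exact Or.inl h3
    · exact Or.inr (Or.inl h3)
    · exact Or.inr (Or.inr fun h => h3 (Or.inl h))

theorem isSy_of_hy {G : AV} (h : IsHy (MMs 2) G) : IsSy G := by
  obtain ⟨r, s, N, hr, hev, hs, hM⟩ := h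
  obtain ⟨E, hE⟩ := G.pol
  have hE' : IsRf G E := hE
  refine ⟨?_, E, hE', ?_⟩
  · have h1 := N.dim
    rw [Nat.totient_two, mul_one] at h1
    omega
  · refine SEH.spB_of_notMem hs (fun h => hM (Or.inr ⟨rfl, by omega, hev, h⟩)) N hE'

/-- All ingredients about the symplectic factors. -/
structure Ing : Prop where
  fm : S_FmS
  rep : S_RepS
  lm : ∀ (q q' : ℕ) (T : Fin q → AV) (m r : Fin q → ℕ) (D : ∀ i, Cyc (T i) (m i)) (B : AV)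
    (G : Fin q' → AV) (E : ∀ k, (G k).V →ₗ[ℝ] (G k).V →ₗ[ℝ] ℝ)
    (f : ∀ k, Frm (G k) →ₗ[ℂ] Frm (G k) →ₗ[ℂ] ℂ), TuD G E f → (∀ i, 3 ≤ m i) →
    (∀ i, 2 * finrank ℂ (T i).V = r i * Nat.totient (m i)) → H0 D B → LM D B G E
  hc : ∀ (q N : ℕ) (G : Fin q → AV) (κ : Fin N → Fin q)
    (E : ∀ k, (G k).V →ₗ[ℝ] (G k).V →ₗ[ℝ] ℝ) (f : ∀ k, Frm (G k) →ₗ[ℂ] Frm (G k) →ₗ[ℂ] ℂ)
    (C : SE.Prd fun n => G (κ n)), TuD G E f → ∀ (m : ℕ) (c : Hlg C.Y m), IsHodge C.Y m c →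
    Alg2 C.Y m c
  th : ∀ (A Y B₁ B T : AV) (q₁ N₁ N₂ q N : ℕ) (R : Fin q₁ → AV) (k : Fin N₁ → Fin q₁)
    (m₁ : Fin q₁ → ℕ) (D₁ : ∀ i, Cyc (R i) (m₁ i)) (E₂ : Fin N₂ → AV) (J : Fin q → AV)
    (j : Fin N → Fin q) (m : Fin q → ℕ) (D : ∀ i, Cyc (J i) (m i)) (q' N' : ℕ)
    (G : Fin q' → AV) (κ : Fin N' → Fin q') (E : ∀ k, (G k).V →ₗ[ℝ] (G k).V →ₗ[ℝ] ℝ)
    (ψ : T.V ≃ₗ[ℂ] B.V × (∀ n, (J (j n)).V)),
    IsCM A → (∀ k, IsRf (G k) (E k)) → (∀ B₂ : AV, LM D₁ B₂ G E) → (∀ n, IsRM (E₂ n)) →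
    IsProdE Y A (fun n => R (k n)) → IsProdE B₁ Y E₂ → IsProdE B B₁ (fun n => G (κ n)) →
    (∀ v ∈ T.L, ∃ k : ℕ, k ≠ 0 ∧ k • (ψ v).1 ∈ B.L ∧ ∀ n, k • (ψ v).2 n ∈ (J (j n)).L) →
    (∀ (T₁ : AV) (ψ₁ : T₁.V ≃ₗ[ℂ] B₁.V × (∀ n, (J (j n)).V)),
      (∀ v ∈ T₁.L, ∃ k : ℕ, k ≠ 0 ∧ k • (ψ₁ v).1 ∈ B₁.L ∧ ∀ n, k • (ψ₁ v).2 n ∈ (J (j n)).L) →
      ∀ (d : ℕ) (c : Hlg T₁ d), IsHodge T₁ d c →
      HC.SE.SUK (fun i => (D i).Z) (fun i => (D i).ψ) ψ₁ c → HC.SE.Alg2 T₁ d c) →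
    (∀ (C : SE.Prd fun n => G (κ n)) (d : ℕ) (c : Hlg C.Y d), IsHodge C.Y d c →
      HC.SE.Alg2 C.Y d c) →
    ∀ (d : ℕ) (c : Hlg T d), IsHodge T d c →
    HC.SE.SUK (fun i => (D i).Z) (fun i => (D i).ψ) ψ c → HC.SE.Alg2 T d c

open SEQ.Fn_aux in
/-- **THE FINAL THEOREM**, assembly. -/
theorem finS_of (hI : Ing) : FinS := by
  refine ⟨MMs, mms_meagre, ?_⟩
  intro A B T N' G hA hG hB q N J j m Z E ψ hF hE hψ d c hc hS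
  have hG' : ∀ n, (Gde MMe (G n) ∨ IsRM (G n)) ∨ IsSy (G n) := fun n => by
    rcases hG n with h | h | h | h
    · exact Or.inl (Or.inl (gde_mono h))
    · exact Or.inl (Or.inr h)
    · exact Or.inr h
    · exact Or.inr (isSy_of_hy h)
  obtain ⟨B₁, N₀, N₃, G₀, G₃, hG0, hG3, hB1, hBB⟩ :=
    tSpl (fun G => Gde MMe G ∨ IsRM G) IsSy A B N' G hG' hB
  obtain ⟨Y, N₁', N₂, G₁, G₂, hG1, hG2, hY, hBY⟩ := tSpl (Gde MMe) IsRM A B₁ N₀ G₀ hG0 hB1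
  obtain ⟨A', q₁, N₁, R, k, hA', hR, hne, hYR⟩ := SEQ.tRep HC.E.tIsoInv
    (fun G => ∃ (m r : ℕ) (D : Cyc G m), GFg D r ∧ Kde D r ∧
      (IsPic G m D.Z ∨ ∃ (s : Fin (r + 1) → ℂ) (N : New G m s fun _ => 1),
        N.Z = D.Z ∧ IsCov m s fun _ => 1)) A Y N₁' G₁ hA (fun n => tGge (G₁ n) (hG1 n)) hY
  obtain ⟨q', S, κ, hSy, hne', hBS⟩ := hI.rep HC.E.tIsoInv IsSy B₁ B N₃ G₃ hG3 hBB
  choose m₁ r₁ D₁ h1 h2 h3 using hR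
  have hFR : ∀ i, Fct (R i) (m₁ i) (D₁ i).Z := fun i => by
    rcases h3 i with h | ⟨s, N, hN, hc⟩
    · exact Or.inr h
    · exact Or.inl ⟨r₁ i, s, fun _ => 1, N, hc, hN⟩
  choose D hDZ hDψ using fun i => cyc_fct (hF i) (hE i)
  obtain rfl : (fun i => (D i).Z) = Z := funext hDZ
  obtain rfl : (fun i => (D i).ψ) = E := funext hDψ
  have hC : ∀ i i', i ≠ i' → Cpg (D₁ i) (D₁ i') (r₁ i) (r₁ i') := fun i i' _ =>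
    tCpe _ _ _ _ _ _ _ _ (h1 i) (h1 i') (h2 i) (h2 i')
  have hm1 : ∀ i, 3 ≤ m₁ i := fun i => (h1 i).hm
  have hDA : ∀ (J : AV) (m : ℕ) (Z : Module.End ℂ J.V) (R : J.V →ₗ[ℝ] J.V →ₗ[ℝ] ℝ),
      Fct J m Z → IsPol J Z R → HasDA (fun T m c => HC.SE.Alg2 T m c) m J Z R :=
    fun _ _ _ _ hF hP => SEP.hasDA s_da SEP.s_DAB hF hP
  have hHT : HT D₁ := fun h hh F hF' => hit_all D₁ h1 hC hne h hh F hF'
  have hp2 : ∀ i, ∃ s, 2 ≤ (D₁ i).p s := fun i => tP2e _ _ _ _ (h1 i) (h2 i)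
  -- the symplectic factors
  choose h2S E' hRf hSp using hSy
  choose f hf using fun i => hI.fm (S i) (E' i) (hRf i)
  have hTu : TuD S E' f := ⟨h2S, hRf, hf, hSp, hne'⟩
  have hLM : ∀ B₂ : AV, LM D₁ B₂ S E' := fun B₂ =>
    hI.lm q₁ q' R m₁ r₁ D₁ B₂ S E' f hTu hm1 (fun i => (h1 i).dim) (h0 D₁ hm1 hHT hp2 B₂)
  refine hI.th A' Y B₁ B T q₁ N₁ N₂ q N R k m₁ D₁ G₂ J j m D q' N₃ S κ E' ψ hA' hRf hLM hG2 hYR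
    hBY hBS hψ ?_ (fun C d c hc => hI.hc q' N₃ S κ E' f C hTu d c hc) d c hc hS
  intro T₁ ψ₁ hψ₁ d₁ c₁ hc₁ hS₁
  exact tThR tHlT tLiR tThQ tLX tOp4 tHr tLiS tKuR tTrR tRg A' Y B₁ T₁ q₁ N₁ N₂ q N R k m₁ D₁ G₂
    J j m D ψ₁ hA' hm1 (fun i => fct_three (hF i))
    (fun i => hDA _ _ _ _ (hFR i) (isPol_cyc (D₁ i)))
    (fun i => hDA _ _ _ _ (hF i) (hE i))
    (fun h hh X hX => su_all D₁ h1 hC hne h hh X hX)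
    (fun B₂ hB₂ => lrf q₁ R m₁ D₁ hm1 hHT hp2 B₂ hB₂)
    hG2 hYR hBY hψ₁ d₁ c₁ hc₁ hS₁

end SES
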