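import Pool.Agent.Lib.SE.S.Spec3
import Pool.Agent.Lib.SE.E.Spec

/-!
# PROJECT SE-S: the final statement (helper59)
-/

set_option autoImplicit false

open Module

noncomputable section

namespace SES

open HC HC.E HC.SE SEB SEQ SER SE SEE

/-- `G` is an abelian variety of dimension at least 2 whose Hodge group is the symplectic group. -/
def IsSy (G : AV) : Prop := 2 ≤ finrank ℂ G.V ∧ ∃ E, IsRf G E ∧ SpB E

/-- `G` is the Jacobian of `y ^ 2 = f(x)`, `f` of odd degree `r + 1 ≥ 5` with distinct roots `s`, `s` not in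
`M r`. -/
def IsHy (M : (r : ℕ) → Set (Fin (r + 1) → ℂ)) (G : AV) : Prop :=
  ∃ (r : ℕ) (s : Fin (r + 1) → ℂ) (_ : New G 2 s fun _ => 1), 4 ≤ r ∧ Even r ∧
    Function.Injective s ∧ s ∉ M r

/-- **THE FINAL THEOREM.** -/
def FinS : Prop :=
  ∃ M : ℕ → (r : ℕ) → Set (Fin (r + 1) → ℂ), (∀ m r, IsMeagre (M m r)) ∧
  ∀ (A B T : AV) (N' : ℕ) (G : Fin N' → AV), IsCM A →
  (∀ n, Gde M (G n) ∨ IsRM (G n) ∨ IsSy (G n) ∨ IsHy (M 2) (G n)) → IsProdE B A G →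
  ∀ (q N : ℕ) (J : Fin q → AV) (j : Fin N → Fin q) (m : Fin q → ℕ)
    (Z : ∀ i, Module.End ℂ (J i).V) (E : ∀ i, (J i).V →ₗ[ℝ] (J i).V →ₗ[ℝ] ℝ)
    (ψ : T.V ≃ₗ[ℂ] B.V × (∀ n, (J (j n)).V)),
    (∀ i, Fct (J i) (m i) (Z i)) → (∀ i, IsPol (J i) (Z i) (E i)) →
    (∀ v ∈ T.L, ∃ k : ℕ, k ≠ 0 ∧ k • (ψ v).1 ∈ B.L ∧ ∀ n, k • (ψ v).2 n ∈ (J (j n)).L) →
    ∀ (d : ℕ) (c : Hlg T d), IsHodge T d c → SUK Z E ψ c → Alg2 T d c

end SES
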