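import Pool.Agent.Lib.SE.R.Spec2

/-!
# PROJECT SE-S: regrouping of factors (helper59)

Every module: file `SE/S/Xyz.lean`, `theorem tXyz : S_Xyz`, namespace `SES`, import
`Pool.Agent.Lib.SE.S.SpecR` (and proved modules which you want to use).
-/

set_option autoImplicit false

open Module

noncomputable section

namespace SES

open HC HC.E HC.SE SEB SEQ SER SE

/-- `B` is isogenous to `A × ∏ G n`, `A` of CM type, the `G n` with the property `P`. -/
def Dc (P : AV → Prop) (B : AV) : Prop :=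
  ∃ (A : AV) (N : ℕ) (G : Fin N → AV), IsCM A ∧ (∀ n, P (G n)) ∧ IsProdE B A G

/-- **DcA**: PROOF. (1) `N = 0` (`Fin 0`-products have one element). (2) `A` = the abelian variety `Z` of dimension
`0` (`HC.E.tNul`, HC/L/E/Reg.lean or where it is proved; it is of CM type: `n = 0` in the definition of
`IsCM`, `finrank = 0`), `N = 1`. (3) `A` = a copy of `A₁ × A₂` (`pL0`; CM type by `HC.E.tCMP`, HC/L/E/Cm.lean), the
family `fun n => Sum.elim G₁ G₂ (finSumFinEquiv.symm n)` on `Fin (N₁ + N₂)`;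
`B.V ≅ B₁.V × B₂.V ≅ (A₁.V × ∏ G₁) × (A₂.V × ∏ G₂) ≅ (A₁.V × A₂.V) × ∏ G`; multiply the denominators. (4) as
(3) with `B₁ = B`: `B.V ≅ B'.V`. (Compare SE/R/Spl.lean: `sumPiEquivProdPi`, `piCongrLeft`.) -/
def S_DcA : Prop :=
  ∀ P : AV → Prop, (∀ A : AV, IsCM A → Dc P A) ∧ (∀ G : AV, P G → Dc P G) ∧
    (∀ B B₁ B₂ : AV, Dc P B₁ → Dc P B₂ → IsProd B B₁ B₂ → Dc P B) ∧
    ∀ B B' : AV, Isg B B' → Dc P B' → Dc P B

/-- **DcB**: PROOF. Induction on `N`. `N = 0`: `B` is isogenous to `A`, `S_DcA` (4). `N + 1`: `Y` a copy of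
`A × ∏_(n < N) G n` (`prodE` in SE/W/Lie.lean), `Dc P Y` by induction, `B` is isogenous to `Y × G (last)`
(`Fin.snocEquiv`-like splitting of the product: `fun n => v n.castSucc`, `v (Fin.last N)`), `S_DcA` (3). -/
def S_DcB : Prop :=
  S_DcA → ∀ (P : AV → Prop) (A B : AV) (N : ℕ) (G : Fin N → AV), Dc P A → (∀ n, Dc P (G n)) →
    IsProdE B A G → Dc P B

end SES
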