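import Pool.Agent.Lib.SE.S.Spec3

/-!
# PROJECT SE-S, part 3, module ExK: expansion over the copies; from the diagonal operators to the skew tuples
-/

set_option autoImplicit false

open Module

noncomputable section

namespace SES

open HC HC.E HC.SE SEB SEQ SER SE

namespace ExK_aux

variable {q N : ℕ} {G : Fin q → AV} {κ : Fin N → Fin q} (C : SE.Prd fun n => G (κ n))

lemma emS_self (n : Fin N) (w : (G (κ n)).V) :
    emS C n (κ n) w = C.ψ.symm (Pi.single n w) := by
  classical
  simp only [emS, LinearMap.comp_apply, LinearMap.single_apply, LinearMap.proj_apply,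
    Pi.single_eq_same]
  rfl

lemma inS_apply (n : Fin N) (b : VS G) (v : C.Y.V) : inS C n b v = b (κ n) (C.ψ v n) := rfl

lemma sum_apply' (a : Frm C.Y) (v : C.Y.V) : (∑ n : Fin N, inS C n (quS C n a)) v = a v := by
  classical
  rw [LinearMap.sum_apply]
  have h3 : ∀ n : Fin N, (inS C n (quS C n a)) v = a (C.ψ.symm (Pi.single n (C.ψ v n))) := by
    intro n
    rw [← emS_self C n (C.ψ v n)]
    rfl
  rw [Finset.sum_congr rfl fun n _ => h3 n, ← map_sum, ← map_sum]
  congr 1
  rw [Finset.univ_sum_single, LinearEquiv.symm_apply_apply]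

lemma dgS_apply (X : Tup G) (v : C.Y.V) (n : Fin N) : C.ψ (dgS C X v) n = X (κ n) (C.ψ v n) := by
  have h : dgS C X v = C.ψ.symm (fun n => X (κ n) (C.ψ v n)) := rfl
  rw [h, LinearEquiv.apply_symm_apply]

lemma key (X : Tup G) (m : ℕ) (c : Hlg C.Y m) (u : Fin m → Fin N) (a : Fin m → VS G) :
    ∑ p, (c.toMultilinearMap.compLinearMap fun p => inS C (u p))
      (Function.update a p fun k => a p k ∘ₗ X k) =
      lieAct (dgS C X) c (fun p => inS C (u p) (a p)) := by
  unfold lieAct
  refine Finset.sum_congr rfl fun p _ => ?_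
  rw [MultilinearMap.compLinearMap_apply]
  change c _ = c _
  congr 1
  funext p'
  by_cases hp : p' = p
  · subst hp
    rw [Function.update_self, Function.update_self]
    refine LinearMap.ext fun v => ?_
    rw [inS_apply, LinearMap.comp_apply, LinearMap.comp_apply, inS_apply, dgS_apply]
  · rw [Function.update_of_ne hp, Function.update_of_ne hp]

end ExK_aux

open ExK_aux in
theorem tExK : S_ExK := by
  intro q N G κ E C m c
  refine ⟨?_, ?_⟩
  · ext a
    rw [sum_apply]
    simp only [MultilinearMap.compLinearMap_apply, LinearMap.comp_apply]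
    have h2 : a = fun p => ∑ n : Fin N, inS C n (quS C n (a p)) := by
      funext p
      refine LinearMap.ext fun v => ?_
      exact (sum_apply' C (a p) v).symm
    conv_lhs => rw [h2]
    exact MultilinearMap.map_sum c.toMultilinearMap (fun p n => inS C n (quS C n (a p)))
  · intro hc u X hX a
    rw [key C X m c u a]
    exact hc X hX _

end SES
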