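import Pool.Agent.Lib.SE.S.Spec2

/-!
# PROJECT SE-S, module FmS: the dual form of a Riemann form (helper53)
-/

set_option autoImplicit false

open Module

noncomputable section

namespace SES

open HC HC.E HC.SE SEB SEQ SER

namespace FmS_aux

variable {G : AV} {E : G.V →ₗ[ℝ] G.V →ₗ[ℝ] ℝ} (hE : IsRf G E)

/-- The real form `E(v, ·)` as a complex valued form. -/
def rf (E : G.V →ₗ[ℝ] G.V →ₗ[ℝ] ℝ) (v : G.V) : Frm G := Complex.ofRealCLM.toLinearMap ∘ₗ E v

theorem rf_apply (v w : G.V) : rf E v w = ((E v w : ℝ) : ℂ) := rfl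

include hE in
theorem E_inj : Function.Injective E := by
  rw [injective_iff_map_eq_zero]
  intro v hv
  by_contra h
  have h1 := hE.2.2.2 v h
  rw [hE.2.1, hv] at h1
  simp at h1

/-- `v ↦ E(v, ·)` -/
def eR : G.V ≃ₗ[ℝ] (G.V →ₗ[ℝ] ℝ) :=
  LinearMap.linearEquivOfInjective E (E_inj hE) (Subspace.dual_finrank_eq (K := ℝ)).symm

theorem eR_apply (v : G.V) : eR hE v = E v := rfl

/-- the vector of the real part -/
def xa (a : Frm G) : G.V := (eR hE).symm (Complex.reLm ∘ₗ a)

/-- the vector of the imaginary part -/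
def ya (a : Frm G) : G.V := (eR hE).symm (Complex.imLm ∘ₗ a)

theorem R_xa (a : Frm G) (w : G.V) : E (xa hE a) w = (a w).re := by
  rw [← eR_apply hE, xa, LinearEquiv.apply_symm_apply]
  rfl

theorem R_ya (a : Frm G) (w : G.V) : E (ya hE a) w = (a w).im := by
  rw [← eR_apply hE, ya, LinearEquiv.apply_symm_apply]
  rfl

include hE in
theorem R_ext {u v : G.V} (h : ∀ w, E u w = E v w) : u = v :=
  E_inj hE (LinearMap.ext h)

theorem xa_add (a a' : Frm G) : xa hE (a + a') = xa hE a + xa hE a' := by
  refine R_ext hE fun w => ?_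
  simp only [R_xa, map_add, LinearMap.add_apply, Complex.add_re]

theorem ya_add (a a' : Frm G) : ya hE (a + a') = ya hE a + ya hE a' := by
  refine R_ext hE fun w => ?_
  simp only [R_ya, map_add, LinearMap.add_apply, Complex.add_im]

theorem xa_smul (c : ℂ) (a : Frm G) :
    xa hE (c • a) = c.re • xa hE a - c.im • ya hE a := by
  refine R_ext hE fun w => ?_
  simp only [R_xa, R_ya, map_sub, map_smul, LinearMap.sub_apply, LinearMap.smul_apply,
    smul_eq_mul, Complex.mul_re]

theorem ya_smul (c : ℂ) (a : Frm G) :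
    ya hE (c • a) = c.re • ya hE a + c.im • xa hE a := by
  refine R_ext hE fun w => ?_
  simp only [R_xa, R_ya, map_add, map_smul, LinearMap.add_apply, LinearMap.smul_apply,
    smul_eq_mul, Complex.mul_im]

theorem map_rsmul (b : Frm G) (r : ℝ) (v : G.V) : b (r • v) = (r : ℂ) * b v := by
  rw [map_smul, Complex.real_smul]

/-- the form -/
def fR : Frm G →ₗ[ℂ] Frm G →ₗ[ℂ] ℂ :=
  LinearMap.mk₂ ℂ (fun a b => b (xa hE a) + Complex.I * b (ya hE a))
    (fun a a' b => by rw [xa_add, ya_add, map_add, map_add]; ring)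
    (fun c a b => by
      rw [xa_smul, ya_smul, map_sub, map_add, map_rsmul, map_rsmul, map_rsmul, map_rsmul,
        smul_eq_mul]
      have hc : c = (c.re : ℂ) + (c.im : ℂ) * Complex.I := (Complex.re_add_im c).symm
      have h2 : Complex.I * Complex.I = -1 := Complex.I_mul_I
      conv_rhs => rw [hc]
      linear_combination (-(c.im : ℂ) * b (ya hE a)) * h2)
    (fun a b b' => by rw [LinearMap.add_apply, LinearMap.add_apply]; ring)
    (fun c a b => by
      rw [LinearMap.smul_apply, LinearMap.smul_apply, smul_eq_mul, smul_eq_mul, smul_eq_mul]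
      ring)

theorem fR_apply (a b : Frm G) :
    fR hE a b = b (xa hE a) + Complex.I * b (ya hE a) := rfl

theorem xa_rf (v : G.V) : xa hE (rf E v) = v := by
  refine R_ext hE fun w => ?_
  rw [R_xa, rf_apply, Complex.ofReal_re]

theorem ya_rf (v : G.V) : ya hE (rf E v) = 0 := by
  refine R_ext hE fun w => ?_
  rw [R_ya, rf_apply, Complex.ofReal_im, map_zero, LinearMap.zero_apply]

theorem dec (a : Frm G) : a = rf E (xa hE a) + Complex.I • rf E (ya hE a) := by
  refine LinearMap.ext fun w => ?_
  rw [LinearMap.add_apply, LinearMap.smul_apply, rf_apply, rf_apply, R_xa, R_ya, smul_eq_mul,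
    mul_comm, Complex.re_add_im]

theorem val (v : G.V) (b : Frm G) : fR hE (rf E v) b = b v := by
  rw [fR_apply, xa_rf, ya_rf, map_zero, mul_zero, add_zero]

include hE in
/-- a linear property holds for all forms if it holds for the `rf E v` -/
theorem ind (Φ : Frm G →ₗ[ℂ] ℂ) (h : ∀ v, Φ (rf E v) = 0) (a : Frm G) :
    Φ a = 0 := by
  rw [dec hE a, map_add, map_smul, h, h, smul_zero, add_zero]

theorem alt (a b : Frm G) : fR hE a b = -fR hE b a := by
  have h1 : ∀ v, fR hE (rf E v) b = -fR hE b (rf E v) := by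
    intro v
    rw [val, fR_apply, rf_apply, rf_apply, hE.2.1 v, hE.2.1 v, R_xa, R_ya]
    rw [Complex.ofReal_neg, Complex.ofReal_neg]
    have h2 := Complex.re_add_im (b v)
    linear_combination -h2
  have h2 := ind hE (LinearMap.flip (fR hE) b + fR hE b) (fun v => by
    rw [LinearMap.add_apply, LinearMap.flip_apply, h1, neg_add_cancel]) a
  rw [LinearMap.add_apply, LinearMap.flip_apply] at h2
  exact eq_neg_of_add_eq_zero_left h2

theorem nd (a : Frm G) (h : ∀ b, fR hE a b = 0) : a = 0 := by
  have key : ∀ w, ((E w (xa hE a) : ℝ) : ℂ) + Complex.I * ((E w (ya hE a) : ℝ) : ℂ) = 0 :=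
    fun w => h (rf E w)
  have hx : xa hE a = 0 := by
    by_contra hx
    have h1 := congrArg Complex.re (key (Complex.I • xa hE a))
    simp at h1
    exact absurd h1 (hE.2.2.2 _ hx).ne'
  have hy : ya hE a = 0 := by
    by_contra hy
    have h1 := congrArg Complex.im (key (Complex.I • ya hE a))
    simp at h1
    exact absurd h1 (hE.2.2.2 _ hy).ne'
  rw [dec hE a, hx, hy]
  have h0 : rf E 0 = 0 := by
    refine LinearMap.ext fun w => ?_
    rw [rf_apply, map_zero, LinearMap.zero_apply, Complex.ofReal_zero, LinearMap.zero_apply]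
  rw [h0, smul_zero, add_zero]

/-- adjoints -/
theorem adj (U U' : Module.End ℝ G.V) (h : ∀ v w, E v (U w) = E (U' v) w)
    (a b : Frm G) : fR hE (pre U a) b = fR hE a (pre U' b) := by
  have h1 : ∀ v, fR hE (pre U (rf E v)) b = fR hE (rf E v) (pre U' b) := by
    intro v
    have h2 : pre U (rf E v) = rf E (U' v) := by
      refine LinearMap.ext fun w => ?_
      change rf E v (U w) = rf E (U' v) w
      rw [rf_apply, rf_apply, h]
    rw [h2, val, val]
    rfl
  have h2 := ind hE (LinearMap.flip (fR hE) b ∘ₗ pre U - LinearMap.flip (fR hE) (pre U' b))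
    (fun v => by
      rw [LinearMap.sub_apply, LinearMap.comp_apply, LinearMap.flip_apply,
        LinearMap.flip_apply, h1, sub_self]) a
  rw [LinearMap.sub_apply, LinearMap.comp_apply, LinearMap.flip_apply,
    LinearMap.flip_apply] at h2
  exact sub_eq_zero.1 h2

theorem skew (U : Module.End ℝ G.V) (h : IsSk E U) : pre U ∈ Sp (fR hE) := by
  intro a b
  rw [adj hE U (-U) (fun v w => by
    rw [LinearMap.neg_apply, map_neg, LinearMap.neg_apply]
    linarith [h v w]) a b]
  have h1 : pre (-U) b = -(pre U b) := by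
    refine LinearMap.ext fun w => ?_
    change b (-U w) = -(b (U w))
    rw [map_neg]
  rw [h1, map_neg, neg_add_cancel]

theorem rf_add (v w : G.V) : rf E (v + w) = rf E v + rf E w := by
  refine LinearMap.ext fun u => ?_
  rw [LinearMap.add_apply, rf_apply, rf_apply, rf_apply, map_add, LinearMap.add_apply,
    Complex.ofReal_add]

theorem rf_smul (r : ℝ) (v : G.V) : rf E (r • v) = (r : ℂ) • rf E v := by
  refine LinearMap.ext fun u => ?_
  rw [LinearMap.smul_apply, rf_apply, rf_apply, map_smul, LinearMap.smul_apply, smul_eq_mul,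
    smul_eq_mul, Complex.ofReal_mul]

/-- real part of an operator -/
def Aop (C : Module.End ℂ (Frm G)) : Module.End ℝ G.V where
  toFun v := xa hE (C (rf E v))
  map_add' v w := by rw [rf_add, map_add, xa_add]
  map_smul' r v := by
    rw [rf_smul, map_smul, xa_smul, Complex.ofReal_re, Complex.ofReal_im, zero_smul, sub_zero]
    rfl

/-- imaginary part of an operator -/
def Bop (C : Module.End ℂ (Frm G)) : Module.End ℝ G.V where
  toFun v := ya hE (C (rf E v))
  map_add' v w := by rw [rf_add, map_add, ya_add]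
  map_smul' r v := by
    rw [rf_smul, map_smul, ya_smul, Complex.ofReal_re, Complex.ofReal_im, zero_smul, add_zero]
    rfl

theorem C_rf (C : Module.End ℂ (Frm G)) (v : G.V) :
    C (rf E v) = rf E (Aop hE C v) + Complex.I • rf E (Bop hE C v) :=
  dec hE (C (rf E v))

theorem real (C : Module.End ℂ (Frm G)) (hC : C ∈ Sp (fR hE)) :
    ∃ A B, IsSk E A ∧ IsSk E B ∧ C = pre A + Complex.I • pre B := by
  have key : ∀ v w, ((E w (Aop hE C v) : ℝ) : ℂ) + Complex.I * ((E w (Bop hE C v) : ℝ) : ℂ) +
      (((E (Aop hE C w) v : ℝ) : ℂ) + Complex.I * ((E (Bop hE C w) v : ℝ) : ℂ)) = 0 := by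
    intro v w
    have h1 := hC (rf E v) (rf E w)
    rw [val, C_rf hE C v, C_rf hE C w, map_add, map_smul, LinearMap.add_apply,
      LinearMap.smul_apply, val, val, LinearMap.add_apply, LinearMap.smul_apply] at h1
    exact h1
  have hA : IsSk E (Aop hE C) := by
    intro u v
    have h1 := congrArg Complex.re (key v u)
    simp at h1
    linarith
  have hB : IsSk E (Bop hE C) := by
    intro u v
    have h1 := congrArg Complex.im (key v u)
    simp at h1
    linarith
  refine ⟨-Aop hE C, -Bop hE C, ?_, ?_, ?_⟩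
  · intro u v
    have h1 := hA u v
    rw [LinearMap.neg_apply, LinearMap.neg_apply, map_neg, map_neg, LinearMap.neg_apply]
    linarith
  · intro u v
    have h1 := hB u v
    rw [LinearMap.neg_apply, LinearMap.neg_apply, map_neg, map_neg, LinearMap.neg_apply]
    linarith
  · have h1 : ∀ v, C (rf E v) = (pre (-Aop hE C) + Complex.I • pre (-Bop hE C)) (rf E v) := by
      intro v
      rw [C_rf hE C v]
      refine LinearMap.ext fun w => ?_
      have h2 := hA v w
      have h3 := hB v w
      have h4 : E (Aop hE C v) w = -E v (Aop hE C w) := by linarith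
      have h5 : E (Bop hE C v) w = -E v (Bop hE C w) := by linarith
      have e1 : pre (-Aop hE C) (rf E v) w = ((-E v (Aop hE C w) : ℝ) : ℂ) := by
        change ((E v (-(Aop hE C w)) : ℝ) : ℂ) = _
        rw [map_neg]
      have e2 : pre (-Bop hE C) (rf E v) w = ((-E v (Bop hE C w) : ℝ) : ℂ) := by
        change ((E v (-(Bop hE C w)) : ℝ) : ℂ) = _
        rw [map_neg]
      rw [LinearMap.add_apply, LinearMap.add_apply, LinearMap.add_apply, LinearMap.smul_apply,
        LinearMap.smul_apply, LinearMap.smul_apply, e1, e2, rf_apply, rf_apply, h4, h5]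
    refine LinearMap.ext fun a => ?_
    rw [dec hE a, map_add, map_smul, map_add, map_smul, h1, h1]

end FmS_aux

theorem tFmS : S_FmS := fun _ _ hE =>
  ⟨FmS_aux.fR hE, ⟨FmS_aux.alt hE, FmS_aux.nd hE⟩, FmS_aux.val hE, FmS_aux.skew hE,
    FmS_aux.real hE⟩

end SES
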