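import Pool.Agent.Lib.SE.S.Spec3

/-!
# PROJECT SE-S, module KiS: Hodge classes on the product of the `G (κ n)` are killed
-/

set_option autoImplicit false

open Module

noncomputable section

namespace SES

open HC HC.E HC.SE SEB SEQ SER SE

theorem tKiS : S_KiS := by
  intro hOg hHr hLc hLX hLa hLa' hLb hRe q N G κ E f C hT hG m c hc
  have hO : OpX (dgS C) (MS E) (JT G) := hOg hHr hLc q N G κ E C hT.rf
  obtain ⟨h, hM, h0, hadd, hsm, hbr, hJ, hk⟩ := hLX hLa hLa' hLb C.Y (Tup G) (dgS C) (MS E) (JT G)
    hO.lie hO.rat hO.zero hO.add hO.smul hO.br hO.iM hO.iT hO.ker m c hc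
  have hh : HLieG E h :=
    { rat := fun X hX k => (hM hX k).1
      sk := fun X hX k => (hM hX k).2
      zero := h0
      add := hadd
      smul := hsm
      br := hbr
      J := hJ }
  have h1 := hRe q G E f hT.fs h (hG h hh)
  intro X hX a
  refine hk X ?_ a
  exact h1 X hX

end SES
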