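import Pool.Agent.Lib.SE.S.Spec3
import Pool.Agent.Lib.SE.Q.LiR
import Pool.Agent.Lib.HC.L.Lc3

/-!
# PROJECT SE-S: module LiM, the Lie algebra step
-/

set_option autoImplicit false

open Module

noncomputable section

namespace SES

open HC HC.E HC.SE SEB SEQ SER SE

namespace LiM_aux

open HC.Lc3 (kill)

section E5s

variable {q₁ q q' : ℕ} {A : AV} {R : Fin q₁ → AV} {J : Fin q → AV} {B : AV} {G : Fin q' → AV}

/-- The commutators. -/
def ComE (h : Set (E4 A R J B × Tup G)) : Set (E4 A R J B × Tup G) :=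
  {z | ∃ x ∈ h, ∃ y ∈ h, z = x * y - y * x}

/-- The components at the `R i`, at `B` and at the `G k`. -/
def pr (A : AV) (R : Fin q₁ → AV) (J : Fin q → AV) (B : AV) (G : Fin q' → AV) :
    E4 A R J B × Tup G →ₗ[ℝ] TM R B G where
  toFun x := ((x.1.2.1, x.1.2.2.2), x.2)
  map_add' _ _ := rfl
  map_smul' _ _ := rfl

theorem pr_comm (x y : E4 A R J B × Tup G) :
    pr A R J B G (x * y - y * x) =
      pr A R J B G x * pr A R J B G y - pr A R J B G y * pr A R J B G x := rfl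

/-- The component at `A`. -/
def p1 (A : AV) (R : Fin q₁ → AV) (J : Fin q → AV) (B : AV) (G : Fin q' → AV) :
    E4 A R J B × Tup G →ₗ[ℝ] Module.End ℝ A.V where
  toFun x := x.1.1
  map_add' _ _ := rfl
  map_smul' _ _ := rfl

/-- The component at `J i`. -/
def p3 (A : AV) (R : Fin q₁ → AV) (J : Fin q → AV) (B : AV) (G : Fin q' → AV) (i : Fin q) :
    E4 A R J B × Tup G →ₗ[ℝ] Module.End ℝ (J i).V where
  toFun x := x.1.2.2.1 i
  map_add' _ _ := rfl
  map_smul' _ _ := rfl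

/-- The inclusion of the tuples. -/
def in3 (A : AV) (R : Fin q₁ → AV) (J : Fin q → AV) (B : AV) (G : Fin q' → AV) :
    Tup J →ₗ[ℝ] E4 A R J B × Tup G where
  toFun x := ((0, 0, x, 0), 0)
  map_add' x y := by
    refine Prod.ext (Prod.ext (add_zero _).symm (Prod.ext (add_zero _).symm
      (Prod.ext rfl (add_zero _).symm))) (add_zero _).symm
  map_smul' r x := by
    refine Prod.ext (Prod.ext (smul_zero _).symm (Prod.ext (smul_zero _).symm
      (Prod.ext rfl (smul_zero _).symm))) (smul_zero _).symm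

end E5s

end LiM_aux

open LiM_aux in
theorem tLiM : S_LiM := by
  intro hOg hHrS hLc1 hOpP hJS hLX hOp4 hHr hLa hLa' hLb hLc2 hIso A T₁ B q₁ N₁ q N R k m₁ D₁ J j
    m D ι S ψ q' N' G κ E C P hA hRf hLM hψ d c hc hS X hX
  obtain ⟨Θ₁, M₁, hM⟩ := hOp4 hHr hLc2 hIso A T₁ B q₁ N₁ q N R k m₁ D₁ J j m D ι S ψ hA hψ
  have hO₁ : OpX Θ₁ M₁ (mulI A, JT R, JT J, mulI B) :=
    ⟨hM.lie, hM.rat, hM.zero, hM.add, hM.smul, hM.br, hM.iM, hM.iT, hM.ker⟩
  have hO₂ : OpX (dgS C) (MS E) (JT G) := hOg hHrS hLc1 q' N' G κ E C hRf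
  obtain ⟨Θ, happ, hO⟩ := hOpP T₁ C.Y P (E4 A R J B) (Tup G) Θ₁ (dgS C) M₁ (MS E) _ _ hO₁ hO₂
  obtain ⟨h, hhM, h0, hadd, hsmul, hbr, hJ, hkill⟩ :=
    hLX hLa hLa' hLb P.T (E4 A R J B × Tup G) Θ (M₁ ×ˢ MS E) _ hO.lie hO.rat hO.zero
      hO.add hO.smul hO.br hO.iM hO.iT hO.ker d c hc
  -- the image
  have hh : HLieM D₁ S E (pr A R J B G '' h) := by
    refine ⟨?_, ?_, ?_, ?_, ?_, ?_, ?_, ?_, ?_⟩
    · rintro _ ⟨x, hx, rfl⟩
      exact ⟨fun i => (hM.cR x.1 (hhM hx).1 i).1, (hM.cB x.1 (hhM hx).1).1,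
        fun k => ((hhM hx).2 k).1⟩
    · rintro _ ⟨x, hx, rfl⟩ i
      exact (hM.cR x.1 (hhM hx).1 i).2
    · rintro _ ⟨x, hx, rfl⟩
      exact (hM.cB x.1 (hhM hx).1).2
    · rintro _ ⟨x, hx, rfl⟩ k
      exact ((hhM hx).2 k).2
    · exact ⟨0, h0, rfl⟩
    · rintro _ ⟨x, hx, rfl⟩ _ ⟨y, hy, rfl⟩
      exact ⟨x + y, hadd x hx y hy, rfl⟩
    · rintro z _ ⟨x, hx, rfl⟩
      exact ⟨(z : ℝ) • x, hsmul z x hx, rfl⟩
    · rintro _ ⟨x, hx, rfl⟩ _ ⟨y, hy, rfl⟩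
      exact ⟨x * y - y * x, hbr x hx y hy, pr_comm x y⟩
    · rw [Submodule.span_image]
      exact ⟨_, hJ, rfl⟩
  have h1 := hLM ι S (pr A R J B G '' h) hh (JT G) fun k => (hJS (G k)).2.2.2.2 (E k) (hRf k)
  have h2 : Submodule.span ℝ (ComM (pr A R J B G '' h)) ≤
      (Submodule.span ℝ (ComE h)).map (pr A R J B G) := by
    rw [← Submodule.span_image]
    refine Submodule.span_mono ?_
    rintro _ ⟨_, ⟨x, hx, rfl⟩, _, ⟨y, hy, rfl⟩, rfl⟩
    exact ⟨x * y - y * x, ⟨x, hx, y, hy, rfl⟩, pr_comm x y⟩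
  obtain ⟨W, hW, hWe⟩ := h2 h1
  have hWR : W.1.2.1 = 0 := congrArg (fun z => z.1.1) hWe
  have hWB : W.1.2.2.2 = 0 := congrArg (fun z => z.1.2) hWe
  have hWG : W.2 = JT G := congrArg Prod.snd hWe
  have hWA : W.1.1 = 0 := by
    have h3 : Submodule.span ℝ (ComE h) ≤ LinearMap.ker (p1 A R J B G) := by
      refine Submodule.span_le.2 ?_
      rintro _ ⟨x, hx, y, hy, rfl⟩
      change x.1.1 * y.1.1 - y.1.1 * x.1.1 = 0
      rw [hM.com x.1 (hhM hx).1 y.1 (hhM hy).1, sub_self]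
    exact h3 hW
  have hWJ : ∀ i, W.1.2.2.1 i ∈ LiR_aux.CL (D i) := by
    intro i
    have h3 : Submodule.span ℝ (ComE h) ≤ (LiR_aux.CL (D i)).comap (p3 A R J B G i) := by
      refine Submodule.span_le.2 ?_
      rintro _ ⟨x, hx, y, hy, rfl⟩
      exact Submodule.subset_span ⟨x.1.2.2.1 i, (hM.cJ x.1 (hhM hx).1 i).2, y.1.2.2.1 i,
        (hM.cJ y.1 (hhM hy).1 i).2, rfl⟩
    exact h3 hW
  have k1 : Θ W ∈ HC.Lc3.kill c := hkill W hW
  have k2 : ∀ i, LiR_aux.CL (D i) ≤ ((HC.Lc3.kill c).comap (Θ ∘ₗ in3 A R J B G)).comap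
      (LinearMap.single ℝ (fun i => Module.End ℝ (J i).V) i) := by
    intro i
    refine Submodule.span_le.2 ?_
    rintro _ ⟨P', hP', Q', hQ', rfl⟩
    have h10 : ∀ P' ∈ Lef (J i) (D i).Z (D i).ψ, ∀ k,
        (Pi.single i P' : Tup J) k ∈ Lef (J k) (D k).Z (D k).ψ := by
      intro P' hP' k
      by_cases hk : k = i
      · subst hk
        rw [Pi.single_eq_same]
        exact hP'
      · rw [Pi.single_eq_of_ne hk]
        exact LiR_aux.zero_lef (D k)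
    have h11 := hS (Pi.single i P') (Pi.single i Q') (h10 P' hP') (h10 Q' hQ')
      (Θ ((0, 0, Pi.single i P' * Pi.single i Q' - Pi.single i Q' * Pi.single i P', 0), 0))
      (fun v => by
        rw [happ]
        refine ⟨?_, ?_⟩
        · rw [hM.app]
          rfl
        · change dgS C 0 _ = 0
          rw [map_zero]
          rfl)
    change Θ ((0, 0, Pi.single i (P' * Q' - Q' * P'), 0), 0) ∈ HC.Lc3.kill c
    rw [LiR_aux.single_mul]
    exact h11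
  have k3 : Θ ((0, 0, W.1.2.2.1, 0), 0) ∈ HC.Lc3.kill c := by
    have h3 : W.1.2.2.1 ∈ (HC.Lc3.kill c).comap (Θ ∘ₗ in3 A R J B G) := by
      rw [← Finset.univ_sum_single W.1.2.2.1]
      exact Submodule.sum_mem _ fun i _ => k2 i (hWJ i)
    exact h3
  have hW2 : W - ((0, 0, W.1.2.2.1, 0), 0) = (0, JT G) := by
    refine Prod.ext (Prod.ext ?_ (Prod.ext ?_ (Prod.ext ?_ ?_))) ?_
    · change W.1.1 - 0 = 0
      rw [hWA, sub_zero]
    · change W.1.2.1 - 0 = 0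
      rw [hWR, sub_zero]
    · change W.1.2.2.1 - W.1.2.2.1 = 0
      rw [sub_self]
    · change W.1.2.2.2 - 0 = 0
      rw [hWB, sub_zero]
    · change W.2 - 0 = JT G
      rw [hWG, sub_zero]
  have k4 : X = Θ W - Θ ((0, 0, W.1.2.2.1, 0), 0) := by
    rw [← map_sub, hW2]
    refine LinearMap.ext fun v => P.ψ.injective ?_
    rw [happ, hX v]
    refine Prod.ext ?_ ?_
    · change 0 = Θ₁ 0 _
      rw [map_zero]
      rfl
    · change _ = dgS C (JT G) _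
      rw [hO₂.iT]
      rfl
  have k5 : X ∈ HC.Lc3.kill c := by
    rw [k4]
    exact Submodule.sub_mem _ k1 k3
  exact k5

end SES
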