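import Pool.Agent.Lib.SE.S.Spec3
import Pool.Agent.Lib.HC.B.Pt

/-!
# PROJECT SE-S, part 3, module MoS: products of blocks (helper17)
-/

set_option autoImplicit false

open Module
open Pool.Agent.Lib.MP_640417_ag.Fg (Mono InL)

noncomputable section

namespace SES

open HC HC.E HC.SE SEB SEQ SER SE

namespace MoS_aux

/-- a bilinear form as a multilinear function of two variables -/
def bil {V : Type} [AddCommGroup V] [Module ℂ V] {W : Type} [AddCommGroup W] [Module ℂ W]
    (B : LinearMap.BilinForm ℂ V) (p q : W →ₗ[ℂ] V) :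
    MultilinearMap ℂ (fun _ : Fin 2 => W) ℂ where
  toFun a := B (p (a 0)) (q (a 1))
  map_update_add' := by
    intro inst m i x y
    rw [Subsingleton.elim inst (fun a b => instDecidableEqFin 2 a b)]
    fin_cases i
    · simp
    · simp
  map_update_smul' := by
    intro inst m i x y
    rw [Subsingleton.elim inst (fun a b => instDecidableEqFin 2 a b)]
    fin_cases i
    · simp
    · simp

end MoS_aux

theorem tMoS : S_MoS := by
  intro hInS hPrS hDtK hPol hQal Q hQ q N G κ E f C hE hf d M hM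
  induction hM with
  | const a =>
    intro u
    refine ⟨(AlternatingMap.constOfIsEmpty ℂ (C.Y.V →ₗ[ℝ] ℂ) (Fin 0) a).toMultilinearMap,
      fun _ => rfl, ?_⟩
    exact (hQal Q hQ).2.2.2.2.2.2.1 C.Y 0 _ (hQ.base (alg_zero_deg C.Y _))
  | pair c hc =>
    intro u
    refine ⟨MoS_aux.bil (FRMs f) (c ∘ₗ quS C (u 0)) (quS C (u 1)), fun _ => rfl, ?_⟩
    exact hPrS hInS hQal Q hQ q N G κ E f C hE hf c hc u _ fun _ => rfl
  | det d W hW b p hp =>
    intro u
    refine ⟨b.det.toMultilinearMap.compLinearMap fun i => p i ∘ₗ quS C (u i), fun _ => rfl, ?_⟩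
    exact hDtK hPol hQal Q hQ q N G κ C d W hW b p hp u _ fun _ => rfl
  | mul a b k e g h _ _ ihg ihh =>
    intro u
    obtain ⟨G₁, hG₁, n₁⟩ := ihg fun i => u (e (Sum.inl i))
    obtain ⟨G₂, hG₂, n₂⟩ := ihh fun i => u (e (Sum.inr i))
    refine ⟨(mulML G₁ G₂).domDomCongr e, fun x => ?_, ?_⟩
    · have h1 : (mulML G₁ G₂).domDomCongr e x =
          G₁ (fun i => x (e (Sum.inl i))) * G₂ (fun i => x (e (Sum.inr i))) := rfl
      rw [h1, hG₁, hG₂]
    · exact (hQal Q hQ).2.2.2.1 C.Y _ _ e _ ((hQal Q hQ).2.2.2.2.1 C.Y _ _ G₁ G₂ n₁ n₂)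

end SES
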