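import Pool.Agent.Lib.SE.S.Spec3

/-!
# PROJECT SE-S, module RepS: representatives of the isogeny classes
-/

set_option autoImplicit false

open Module

noncomputable section

namespace SES

open HC HC.E HC.SE SEB SEQ SER SE

namespace RepS_aux

theorem isg_refl (T : AV) : Isg T T :=
  ⟨LinearEquiv.refl ℂ T.V, fun v hv => ⟨1, one_ne_zero, by rw [one_smul]; exact hv⟩⟩

theorem isg_symm (hI : E.S_IsoInv) {T T' : AV} (h : Isg T T') : Isg T' T := by
  obtain ⟨ψ, hψ⟩ := h
  exact ⟨ψ.symm, hI T T' ψ hψ⟩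

theorem isg_trans {T T' T'' : AV} (h : Isg T T') (h' : Isg T' T'') : Isg T T'' := by
  obtain ⟨ψ, hψ⟩ := h
  obtain ⟨ψ', hψ'⟩ := h'
  refine ⟨ψ ≪≫ₗ ψ', fun v hv => ?_⟩
  obtain ⟨N, hN, h1⟩ := hψ v hv
  obtain ⟨N', hN', h2⟩ := hψ' _ h1
  refine ⟨N' * N, mul_ne_zero hN' hN, ?_⟩
  rw [mul_smul, LinearEquiv.trans_apply, ← map_nsmul]
  exact h2

end RepS_aux

open RepS_aux

theorem tRepS : S_RepS := by
  classical
  intro hI 𝒞 Y B N G hG hB
  obtain ⟨ψ, hψ⟩ := hB
  let st : Setoid (Fin N) :=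
    { r := fun n n' => Isg (G n) (G n')
      iseqv := ⟨fun n => isg_refl _, fun h => isg_symm hI h, fun h h' => isg_trans h h'⟩ }
  let Q : Type := Quotient st
  let e : Q ≃ Fin (Fintype.card Q) := Fintype.equivFin Q
  let R : Fin (Fintype.card Q) → AV := fun i => G (Quotient.out (e.symm i))
  let k : Fin N → Fin (Fintype.card Q) := fun n => e (Quotient.mk st n)
  have hθ : ∀ n, Isg (G n) (R (k n)) := by
    intro n
    have h1 : Quotient.mk st (Quotient.out (Quotient.mk st n)) = Quotient.mk st n :=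
      Quotient.out_eq _
    have h2 : Isg (G (Quotient.out (Quotient.mk st n))) (G n) := Quotient.exact h1
    have h3 : R (k n) = G (Quotient.out (Quotient.mk st n)) := by
      change G (Quotient.out (e.symm (e (Quotient.mk st n)))) = _
      rw [Equiv.symm_apply_apply]
    rw [h3]
    exact isg_symm hI h2
  choose θ hθ' using hθ
  refine ⟨Fintype.card Q, R, k, fun i => hG _, ?_, ?_⟩
  · intro i i' hii h
    apply hii
    have h1 : Quotient.mk st (Quotient.out (e.symm i)) = Quotient.mk st (Quotient.out (e.symm i')) :=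
      Quotient.sound h
    rw [Quotient.out_eq, Quotient.out_eq] at h1
    exact e.symm.injective h1
  · let Ψ : B.V ≃ₗ[ℂ] Y.V × (∀ n, (R (k n)).V) :=
      ψ ≪≫ₗ LinearEquiv.prodCongr (LinearEquiv.refl ℂ Y.V) (LinearEquiv.piCongrRight θ)
    have hΨ1 : ∀ v, (Ψ v).1 = (ψ v).1 := fun v => rfl
    have hΨ2 : ∀ v n, (Ψ v).2 n = θ n ((ψ v).2 n) := fun v n => rfl
    refine ⟨Ψ, fun v hv => ?_⟩
    obtain ⟨M, hM, h1, h2⟩ := hψ v hv
    choose K hK hK' using fun n => hθ' n _ (h2 n)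
    refine ⟨(∏ n, K n) * M, mul_ne_zero (Finset.prod_ne_zero_iff.2 fun n _ => hK n) hM, ?_, ?_⟩
    · rw [hΨ1, mul_smul]
      exact Y.L.nsmul_mem h1 _
    · intro n
      rw [hΨ2, mul_comm, ← Finset.prod_erase_mul Finset.univ K (Finset.mem_univ n)]
      have h3 := (R (k n)).L.nsmul_mem (hK' n) (∏ n ∈ Finset.univ.erase n, K n)
      rw [map_nsmul, ← mul_smul, ← mul_smul] at h3
      have h4 : M * ((∏ x ∈ Finset.univ.erase n, K x) * K n) =
          (∏ n ∈ Finset.univ.erase n, K n) * (K n * M) := by ring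
      rw [h4]
      rw [mul_assoc] at h3
      exact h3

end SES
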