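import Pool.Agent.Lib.SE.S.Asm
import Pool.Agent.Lib.SE.S.Ts
import Pool.Agent.Lib.SE.S.GrS
import Pool.Agent.Lib.SE.S.FmS
import Pool.Agent.Lib.SE.S.NoI
import Pool.Agent.Lib.SE.S.ExK
import Pool.Agent.Lib.SE.S.MoS
import Pool.Agent.Lib.SE.S.KiS
import Pool.Agent.Lib.SE.S.LiM
import Pool.Agent.Lib.SE.S.RepS
import Pool.Agent.Lib.SE.S.ThS

/-!
# PROJECT SE-S: the final theorem with symplectic factors, without hypotheses (helper59)
-/

set_option autoImplicit false

noncomputable section

namespace SES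

/-- The ingredients. -/
theorem ing : Ing := ing_of tTs tGrS tFmS tNoI tExK tMoS tKiS tLiM tRepS tThS

/-- **THE FINAL THEOREM with symplectic factors.** -/
theorem finS : FinS := finS_of ing

end SES
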