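import Pool.Agent.Lib.SE.S.SpecR
import Pool.Agent.Lib.HC.L.E.Reg
import Pool.Agent.Lib.HC.L.E.CMK
import Pool.Agent.Lib.HC.L.L0

/-!
# PROJECT SE-S, module DcA: products of decomposed abelian varieties
-/

set_option autoImplicit false

open Module

noncomputable section

namespace SES

open HC HC.E HC.SE SEB SEQ SER SE

namespace DcA_aux

/-- The abelian variety of dimension `0` is of CM type. -/
theorem nul_cm : IsCM nul := by
  refine ⟨0, fun i => i.elim0, fun i => i.elim0, fun i => i.elim0, fun i => i.elim0,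
    fun i => i.elim0, fun i => i.elim0, ?_⟩
  refine ⟨{ toFun := fun _ _ => 0
            invFun := fun _ => 0
            map_add' := fun _ _ => funext fun s => s.1.elim0
            map_smul' := fun _ _ => funext fun s => s.1.elim0
            left_inv := fun _ => Subsingleton.elim _ _
            right_inv := fun _ => funext fun s => s.1.elim0 }, fun v _ => ⟨fun i => i.elim0,
              fun i => i.elim0⟩⟩

theorem nsmul_mem_of {T : AV} {v : T.V} {M : ℕ} (K : ℕ) (h : M • v ∈ T.L) : (K * M) • v ∈ T.L := by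
  rw [mul_smul]
  exact T.L.smul_of_tower_mem K h

end DcA_aux

open DcA_aux in
theorem tDcA : S_DcA := by
  intro P
  refine ⟨?_, ?_, ?_, ?_⟩
  · -- an abelian variety of CM type
    intro A hA
    refine ⟨A, 0, fun i => i.elim0, hA, fun i => i.elim0,
      (LinearEquiv.prodUnique : (A.V × (∀ i : Fin 0, ((fun i => i.elim0 : Fin 0 → AV) i).V)) ≃ₗ[ℂ]
        A.V).symm, fun v hv => ⟨1, one_ne_zero, ?_, fun i => i.elim0⟩⟩
    rw [one_smul]
    exact hv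
  · -- an abelian variety with the property
    intro G hG
    refine ⟨nul, 1, fun _ => G, nul_cm, fun _ => hG,
      (LinearEquiv.funUnique (Fin 1) ℂ G.V).symm ≪≫ₗ
        (LinearEquiv.uniqueProd : (nul.V × (∀ _ : Fin 1, G.V)) ≃ₗ[ℂ] (∀ _ : Fin 1, G.V)).symm,
      fun v hv => ⟨1, one_ne_zero, trivial, fun i => ?_⟩⟩
    rw [one_smul]
    exact hv
  · -- products
    intro B B₁ B₂ hB₁ hB₂ hB
    obtain ⟨A₁, N₁, G₁, hA₁, hG₁, ψ₁, h₁⟩ := hB₁
    obtain ⟨A₂, N₂, G₂, hA₂, hG₂, ψ₂, h₂⟩ := hB₂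
    obtain ⟨ψ, hψ⟩ := hB
    obtain ⟨Q⟩ := pL0 A₁ A₂
    let e : Fin N₁ ⊕ Fin N₂ ≃ Fin (N₁ + N₂) := finSumFinEquiv
    let W : Fin N₁ ⊕ Fin N₂ → AV := Sum.elim G₁ G₂
    let σ : ((∀ i, (G₁ i).V) × (∀ i, (G₂ i).V)) ≃ₗ[ℂ] (∀ s, (W s).V) :=
      (LinearEquiv.sumPiEquivProdPi ℂ (Fin N₁) (Fin N₂) (fun s => (W s).V)).symm
    let τ : (∀ s, (W s).V) ≃ₗ[ℂ] (∀ n, (W (e.symm n)).V) :=
      LinearEquiv.piCongrLeft' ℂ (fun s => (W s).V) e
    let Φ : B.V ≃ₗ[ℂ] Q.T.V × (∀ n, (W (e.symm n)).V) :=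
      ψ ≪≫ₗ (LinearEquiv.prodCongr ψ₁ ψ₂) ≪≫ₗ
        (LinearEquiv.prodProdProdComm ℂ A₁.V (∀ i, (G₁ i).V) A₂.V (∀ i, (G₂ i).V)) ≪≫ₗ
        (LinearEquiv.prodCongr Q.ψ.symm (σ ≪≫ₗ τ))
    have hΦ1 : ∀ v, (Φ v).1 = Q.ψ.symm ((ψ₁ (ψ v).1).1, (ψ₂ (ψ v).2).1) := fun v => rfl
    have hΦ2 : ∀ v n, (Φ v).2 n = σ ((ψ₁ (ψ v).1).2, (ψ₂ (ψ v).2).2) (e.symm n) := fun v n => rfl
    have hσ1 : ∀ x i, σ x (Sum.inl i) = x.1 i := fun x i => rfl
    have hσ2 : ∀ x i, σ x (Sum.inr i) = x.2 i := fun x i => rfl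
    refine ⟨Q.T, N₁ + N₂, fun n => W (e.symm n), tCMP A₁ A₂ Q.T hA₁ hA₂ (Pd.isProd Q), ?_, Φ, ?_⟩
    · have : ∀ s, P (W s) := by
        rintro (i | i)
        · exact hG₁ i
        · exact hG₂ i
      exact fun n => this _
    · intro v hv
      obtain ⟨N, hN, h3, h4⟩ := hψ v hv
      obtain ⟨M₁, hM₁, h5, h6⟩ := h₁ _ h3
      obtain ⟨M₂, hM₂, h7, h8⟩ := h₂ _ h4
      rw [map_nsmul] at h5 h7
      rw [Prod.smul_fst, ← mul_smul] at h5 h7
      have h6' : ∀ i, (M₁ * N) • (ψ₁ (ψ v).1).2 i ∈ (G₁ i).L := by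
        intro i
        have := h6 i
        rw [map_nsmul, Prod.smul_snd, Pi.smul_apply, ← mul_smul] at this
        exact this
      have h8' : ∀ i, (M₂ * N) • (ψ₂ (ψ v).2).2 i ∈ (G₂ i).L := by
        intro i
        have := h8 i
        rw [map_nsmul, Prod.smul_snd, Pi.smul_apply, ← mul_smul] at this
        exact this
      have e1 : M₁ * M₂ * N = M₂ * (M₁ * N) := by ring
      have e2 : M₁ * M₂ * N = M₁ * (M₂ * N) := by ring
      refine ⟨M₁ * M₂ * N, mul_ne_zero (mul_ne_zero hM₁ hM₂) hN, ?_, ?_⟩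
      · rw [hΦ1, Q.lat, map_nsmul, LinearEquiv.apply_symm_apply]
        constructor
        · rw [Prod.smul_fst, e1]
          exact nsmul_mem_of M₂ h5
        · rw [Prod.smul_snd, e2]
          exact nsmul_mem_of M₁ h7
      · have h9 : ∀ s, (M₁ * M₂ * N) • σ ((ψ₁ (ψ v).1).2, (ψ₂ (ψ v).2).2) s ∈ (W s).L := by
          rintro (i | i)
          · rw [hσ1, e1]
            exact nsmul_mem_of M₂ (h6' i)
          · rw [hσ2, e2]
            exact nsmul_mem_of M₁ (h8' i)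
        intro n
        rw [hΦ2]
        exact h9 _
  · -- isogenies
    intro B B' hB hD
    obtain ⟨ψ, hψ⟩ := hB
    obtain ⟨A, N, G, hA, hG, ψ', h'⟩ := hD
    refine ⟨A, N, G, hA, hG, ψ ≪≫ₗ ψ', fun v hv => ?_⟩
    obtain ⟨M, hM, h1⟩ := hψ v hv
    obtain ⟨K, hK, h2, h3⟩ := h' _ h1
    rw [map_nsmul, Prod.smul_fst, ← mul_smul] at h2
    refine ⟨K * M, mul_ne_zero hK hM, h2, fun i => ?_⟩
    have := h3 i
    rw [map_nsmul, Prod.smul_snd, Pi.smul_apply, ← mul_smul] at this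
    exact this

end SES
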