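import Pool.Agent.Lib.SE.S.SpecR
import Pool.Agent.Lib.SE.W.Lie

/-!
# Module SE/S/DcB: induction over the factors
-/

set_option autoImplicit false

open Module

noncomputable section

namespace SES

open HC HC.E HC.SE SEB SEQ SER SE

theorem tDcB : S_DcB := by
  intro hDc P A B N
  obtain ⟨-, -, h3, h4⟩ := hDc P
  induction N generalizing A with
  | zero =>
    intro G hA _ hE
    obtain ⟨ψ, hψ⟩ := hE
    refine h4 B A ⟨ψ ≪≫ₗ LinearEquiv.prodUnique, fun v hv => ?_⟩ hA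
    obtain ⟨k, hk, h1, _⟩ := hψ v hv
    exact ⟨k, hk, h1⟩
  | succ N ih =>
    intro G hA hG hE
    obtain ⟨ψ, hψ⟩ := hE
    obtain ⟨P0⟩ := pL0 A (G 0)
    let c : ((G 0).V × (∀ i : Fin N, (G i.succ).V)) ≃ₗ[ℂ] (∀ i : Fin (N + 1), (G i).V) :=
      Fin.consLinearEquiv ℂ fun i => (G i).V
    have hP0 : Dc P P0.T := by
      refine h3 P0.T A (G 0) hA (hG 0) ⟨P0.ψ, fun v hv => ⟨1, one_ne_zero, ?_⟩⟩
      rw [one_nsmul, one_nsmul]
      exact (P0.lat v).1 hv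
    refine ih P0.T (fun i => G i.succ) hP0 (fun i => hG i.succ)
      ⟨ψ ≪≫ₗ (LinearEquiv.prodCongr (LinearEquiv.refl ℂ _) c.symm) ≪≫ₗ
        (LinearEquiv.prodAssoc ℂ _ _ _).symm ≪≫ₗ
          (LinearEquiv.prodCongr P0.ψ.symm (LinearEquiv.refl ℂ _)), fun v hv => ?_⟩
    obtain ⟨k, hk, h1, h2⟩ := hψ v hv
    refine ⟨k, hk, ?_, fun i => h2 i.succ⟩
    rw [P0.lat]
    show (P0.ψ (k • P0.ψ.symm ((ψ v).1, (ψ v).2 0))).1 ∈ A.L ∧
      (P0.ψ (k • P0.ψ.symm ((ψ v).1, (ψ v).2 0))).2 ∈ (G 0).L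
    rw [map_nsmul, LinearEquiv.apply_symm_apply]
    exact ⟨h1, h2 0⟩

end SES
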