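import Pool.Agent.Lib.SE.S.Spec2
import Pool.Agent.Lib.SE.S.M1
import Pool.Agent.Lib.SE.Q.ClT
import Pool.Agent.Lib.SE.Q.PrT
import Pool.Agent.Lib.SE.Q.Ln
import Pool.Agent.Lib.SE.R.PjR
import Pool.Agent.Lib.SE.R.SuR

/-!
# PROJECT SE-S, part 2: elements with `(T, B)`-component `0` (helper87)
-/

set_option autoImplicit false

open Module

noncomputable section

namespace SES

open HC HC.E HC.SE SEB SEQ SER

namespace M2_aux

variable {q q' : ℕ} {T : Fin q → AV} {m : Fin q → ℕ} {B : AV} {ι : Type} {G : Fin q' → AV}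

/-- The elements with `B`-component `0` which vanish at the characters of `F` different from `x`. -/
def MM (D : ∀ i, Cyc (T i) (m i)) (h : Set (TM T B G)) (F : Set (Ch m)) (x : Ch m) :
    Submodule ℂ (CM' T B G) where
  carrier := {C | C ∈ ggM h ∧ C.1.2 = 0 ∧ ∀ z ∈ F, z ≠ x → ∀ a ∈ WT D z, C.1.1 z.1 a = 0}
  add_mem' := by
    rintro C C' ⟨h1, h2, h3⟩ ⟨h1', h2', h3'⟩
    refine ⟨add_mem h1 h1', ?_, fun z hz hzx a ha => ?_⟩
    · rw [Prod.fst_add, Prod.snd_add, h2, h2', add_zero]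
    · rw [Prod.fst_add, Prod.fst_add, Pi.add_apply, LinearMap.add_apply, h3 z hz hzx a ha,
        h3' z hz hzx a ha, add_zero]
  zero_mem' := ⟨zero_mem _, rfl, fun _ _ _ _ _ => rfl⟩
  smul_mem' := by
    rintro c C ⟨h1, h2, h3⟩
    refine ⟨Submodule.smul_mem _ c h1, ?_, fun z hz hzx a ha => ?_⟩
    · rw [Prod.smul_fst, Prod.smul_snd, h2, smul_zero]
    · rw [Prod.smul_fst, Prod.smul_fst, Pi.smul_apply, LinearMap.smul_apply, h3 z hz hzx a ha,
        smul_zero]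

/-- The components at the eigenspaces are traceless operators. -/
theorem tr_of (hPj : S_PjM) (D : ∀ i, Cyc (T i) (m i)) (hm : ∀ i, 3 ≤ m i) (S : GC B ι)
    (E : ∀ k, (G k).V →ₗ[ℝ] (G k).V →ₗ[ℝ] ℝ) (h : Set (TM T B G)) (hh : HLieM D S E h)
    {C : CM' T B G} (hC : C ∈ ggM h) (x : Ch m) :
    ∃ A' : Module.End ℂ (WT D x), LinearMap.trace ℂ (WT D x) A' = 0 ∧
      ∀ a : WT D x, C.1.1 x.1 (a : Frm (T x.1)) = (A' a : Frm (T x.1)) := by
  obtain ⟨p1, -, -, -, p5, -⟩ := hPj q q' T m D B ι S G E h hh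
  obtain ⟨r1, -, r3⟩ := tPjR q T m D B ι S (Prod.fst '' h) p1
  exact (tClT q T m D hm (Prod.fst '' (Prod.fst '' h)) r1).2 C.1.1 (r3 C.1 (p5 C hC).1) x

/-- An element with `B`-component `0` which vanishes at a half system is `0` on `T`. -/
theorem van (hPj : S_PjM) (D : ∀ i, Cyc (T i) (m i)) (hm : ∀ i, 3 ≤ m i) (S : GC B ι)
    (E : ∀ k, (G k).V →ₗ[ℝ] (G k).V →ₗ[ℝ] ℝ) (h : Set (TM T B G)) (hh : HLieM D S E h)
    {F : Set (Ch m)} (hF : ∀ x, x ∈ F ∨ neg x ∈ F)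
    {C : CM' T B G} (hC : C ∈ ggM h) (hB : C.1.2 = 0)
    (h0 : ∀ z ∈ F, ∀ a ∈ WT D z, C.1.1 z.1 a = 0) : C.1 = 0 := by
  obtain ⟨p1, -, -, -, p5, -⟩ := hPj q q' T m D B ι S G E h hh
  obtain ⟨r1, -, r3⟩ := tPjR q T m D B ι S (Prod.fst '' h) p1
  have hg0 : C.1.1 ∈ ggT (Prod.fst '' (Prod.fst '' h)) := r3 C.1 (p5 C hC).1
  refine Prod.ext (funext fun k => ?_) hB
  have hg : C.1.1 k ∈ gg ((fun X : Tup T => X k) '' (Prod.fst '' (Prod.fst '' h))) := by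
    rw [PrT_aux.gg1]
    exact ⟨C.1.1, hg0, rfl⟩
  have h2 : ∀ t : (ZMod (m k))ˣ, ∀ a ∈ Ws (D k) t, C.1.1 k a = 0 := by
    intro t
    rcases hF ⟨k, t⟩ with ht | ht
    · exact h0 ⟨k, t⟩ ht
    · have h3 := tLn (T k) (m k) (D k) (hm k) _ (PrT_aux.lie1 r1 k) (C.1.1 k) hg (-t)
        (h0 ⟨k, -t⟩ ht)
      rw [neg_neg] at h3
      exact h3
  obtain ⟨htop, -⟩ := tBas tPj (T k) (m k) (D k) (hm k)
  have h4 : (⊤ : Submodule ℂ (Frm (T k))) ≤ LinearMap.ker (C.1.1 k) := by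
    rw [← htop]
    exact iSup_le fun t a ha => h2 t a ha
  exact LinearMap.ext fun a => h4 (Submodule.mem_top : a ∈ ⊤)

/-- Traceless operators at one character. -/
theorem hits (hPj : S_PjM) (D : ∀ i, Cyc (T i) (m i)) (S : GC B ι)
    (E : ∀ k, (G k).V →ₗ[ℝ] (G k).V →ₗ[ℝ] ℝ) (h : Set (TM T B G)) (hh : HLieM D S E h)
    (hH : H0 D B) {F : Set (Ch m)} (hF : ∀ x ∈ F, neg x ∉ F) {x : Ch m} (hx : x ∈ F)
    (X : Module.End ℂ (WT D x)) (hX : LinearMap.trace ℂ (WT D x) X = 0) :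
    ∃ C ∈ MM D h F x, ∀ a : WT D x, C.1.1 x.1 (a : Frm (T x.1)) = (X a : Frm (T x.1)) := by
  classical
  obtain ⟨p1, -, p3, -, -, -⟩ := hPj q q' T m D B ι S G E h hh
  obtain ⟨C, hC, hC2, hC1⟩ := hH ι S (Prod.fst '' h) p1 F hF
    (fun s => if hs : s = x then hs ▸ X else 0) (by
      intro s
      by_cases hs : s = x
      · subst hs
        simpa using hX
      · simp [hs])
  obtain ⟨C', hC', rfl⟩ := p3 C hC
  refine ⟨C', ⟨hC', hC2, fun z hz hzx a ha => ?_⟩, fun a => ?_⟩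
  · have h5 := hC1 z hz ⟨a, ha⟩
    simpa [hzx] using h5
  · have h5 := hC1 x hx a
    simpa using h5

end M2_aux

open M2_aux M1_aux in
theorem tM2 : S_M2 := by
  intro hBs hTs hSi hCl hJS hPj hNo hDi hDim hAd hSim hM1 hNa hCm q q' T m r D B ι S G E f h hT hm
    hd hH hh hG k
  classical
  have : ∀ i, NeZero (m i) := fun i => ⟨by have := hm i; omega⟩
  obtain ⟨-, -, -, p4, p5, -⟩ := hPj q q' T m D B ι S G E h hh
  obtain ⟨c1, -, c3, -, -⟩ := hCl (TM T B G) (CM' T B G) preM preM_add preM_smul preM_mul h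
    (((JT T, mulI B), JT G) : TM T B G) hh.br hh.J (ggM h) rfl
  obtain ⟨j1, j2, j3, j4, j5⟩ := hJS (G k)
  have hsf := (hT.fs k).sf
  have hm1 := hM1 hBs hTs hSi hNa hCl hJS hCm hPj q q' T m D B ι S G E f h hT hh hG k
  -- every element of `Sp (f k)` is a component
  have hit : ∀ X ∈ Sp (f k), ∃ C ∈ ggM h, C.2 k = X := fun X hX => by
    obtain ⟨C, hC, -, h2⟩ := hm1 X hX
    exact ⟨C, hC, h2⟩
  have hSp : ∀ C ∈ ggM h, C.2 k ∈ Sp (f k) := fun C hC => hG.1 _ (p5 C hC).2 k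
  let N : Submodule ℂ (Module.End ℂ (Frm (G k))) :=
    { carrier := {A | ∃ C ∈ ggM h, C.1 = 0 ∧ C.2 k = A}
      add_mem' := by
        rintro A A' ⟨C, hC, h1, rfl⟩ ⟨C', hC', h1', rfl⟩
        refine ⟨C + C', add_mem hC hC', ?_, rfl⟩
        rw [Prod.fst_add, h1, h1', add_zero]
      zero_mem' := ⟨0, zero_mem _, rfl, rfl⟩
      smul_mem' := by
        rintro c A ⟨C, hC, h1, rfl⟩
        refine ⟨c • C, Submodule.smul_mem _ c hC, ?_, rfl⟩
        rw [Prod.smul_fst, h1, smul_zero] }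
  by_cases hN : ∃ n ∈ N, n ≠ 0
  · refine fun A hA => hSi hBs hTs (Frm (G k)) (f k) hsf N ?_ ?_ hN A hA
    · rintro n ⟨C, hC, -, rfl⟩
      exact hSp C hC
    · rintro n ⟨C, hC, h1, rfl⟩ X hX
      obtain ⟨C', hC', rfl⟩ := hit X hX
      refine ⟨C' * C - C * C', c1 C' hC' C hC, ?_, rfl⟩
      change C'.1 * C.1 - C.1 * C'.1 = 0
      rw [h1, mul_zero, zero_mul, sub_zero]
  exfalso
  have hN0 : ∀ C ∈ ggM h, C.1 = 0 → C.2 k = 0 := by
    intro C hC h1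
    by_contra h2
    exact hN ⟨C.2 k, ⟨C, hC, h1, rfl⟩, h2⟩
  -- a half system
  choose F' hF1 hF2 using fun i => SuR_aux.half (hm i)
  set F : Set (Ch m) := {x : Ch m | x.2 ∈ F' x.1} with hFdef
  have hFn : ∀ x ∈ F, neg x ∉ F := fun x hx => hF2 x.1 x.2 hx
  have hFo : ∀ x, x ∈ F ∨ neg x ∈ F := fun x => hF1 x.1 x.2
  have htr := fun (C : CM' T B G) (hC : C ∈ ggM h) (x : Ch m) => tr_of hPj D hm S E h hh hC x
  have hpr : ∀ C ∈ ggM h, ∀ (x : Ch m), ∀ a ∈ WT D x, C.1.1 x.1 a ∈ WT D x := by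
    intro C hC x a ha
    obtain ⟨A', -, hA'⟩ := htr C hC x
    rw [hA' ⟨a, ha⟩]
    exact (A' ⟨a, ha⟩).2
  -- a nonzero element of `Sp (f k)`
  have hY0 : ∃ Y ∈ Sp (f k), Y ≠ 0 := by
    refine ⟨pre (mulI (G k)), (hT.fs k).skew _ (j5 (E k) (hT.rf k)), fun h0 => ?_⟩
    have h1 : 0 < finrank ℂ (Frm (G k)) := by
      have := hT.two k
      omega
    have : Nontrivial (Frm (G k)) := Module.nontrivial_of_finrank_pos h1
    rw [h0, mul_zero] at j2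
    have h2 : (1 : Module.End ℂ (Frm (G k))) = 0 := by
      rw [← neg_eq_zero]
      exact j2.symm
    exact one_ne_zero h2
  obtain ⟨Y₀, hY₀, hY₀0⟩ := hY0
  -- some `x` with nonzero image
  have hx : ∃ x ∈ F, ∃ C ∈ MM D h F x, C.2 k ≠ 0 := by
    by_contra hcon
    push Not at hcon
    obtain ⟨C, hC, hC2, hCY⟩ := hm1 Y₀ hY₀
    have hex : ∀ x : Ch m, ∃ N ∈ ggM h, N.1.2 = 0 ∧ N.2 k = 0 ∧ (x ∈ F →
        (∀ a ∈ WT D x, N.1.1 x.1 a = C.1.1 x.1 a) ∧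
          ∀ z ∈ F, z ≠ x → ∀ a ∈ WT D z, N.1.1 z.1 a = 0) := by
      intro x
      by_cases hx : x ∈ F
      · obtain ⟨A', hA'0, hA'⟩ := htr C hC x
        obtain ⟨C', hC', hCA⟩ := hits hPj D S E h hh hH hFn hx A' hA'0
        refine ⟨C', hC'.1, hC'.2.1, hcon x hx C' hC', fun _ => ⟨fun a ha => ?_, hC'.2.2⟩⟩
        rw [hA' ⟨a, ha⟩]
        exact hCA ⟨a, ha⟩
      · exact ⟨0, Submodule.zero_mem _, rfl, rfl, fun h => absurd h hx⟩
    choose N' n1 n2 n3 n4 using hex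
    set Sg : CM' T B G := ∑ x ∈ Finset.univ.filter (fun x => x ∈ F), N' x with hSg
    have s1 : Sg ∈ ggM h := Submodule.sum_mem _ fun x _ => n1 x
    have s2 : Sg.1.2 = 0 := by
      rw [hSg, Prod.fst_sum, Prod.snd_sum]
      exact Finset.sum_eq_zero fun x _ => n2 x
    have s3 : Sg.2 k = 0 := by
      rw [hSg, Prod.snd_sum, Finset.sum_apply]
      exact Finset.sum_eq_zero fun x _ => n3 x
    have s4 : ∀ z ∈ F, ∀ a ∈ WT D z, Sg.1.1 z.1 a = C.1.1 z.1 a := by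
      intro y hy a ha
      rw [hSg, Prod.fst_sum, Prod.fst_sum, Finset.sum_apply, LinearMap.sum_apply,
        Finset.sum_eq_single y]
      · exact (n4 y hy).1 a ha
      · intro z hz hzy
        rw [Finset.mem_filter] at hz
        exact (n4 z hz.2).2 y hy (Ne.symm hzy) a ha
      · intro h5
        exact absurd (Finset.mem_filter.2 ⟨Finset.mem_univ _, hy⟩) h5
    have h6 : (C - Sg).1 = 0 := by
      refine van hPj D hm S E h hh hFo (sub_mem hC s1) ?_ fun z hz a ha => ?_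
      · rw [Prod.fst_sub, Prod.snd_sub, hC2, s2, sub_zero]
      · rw [Prod.fst_sub, Prod.fst_sub, Pi.sub_apply, LinearMap.sub_apply, s4 z hz a ha, sub_self]
    have h7 := hN0 _ (sub_mem hC s1) h6
    rw [Prod.snd_sub, Pi.sub_apply, s3, sub_zero, hCY] at h7
    exact hY₀0 h7
  obtain ⟨x, hxF, C₀, hC₀, hC₀0⟩ := hx
  -- commutators with elements of `ggM h`
  have hbr : ∀ C' ∈ ggM h, ∀ C ∈ MM D h F x, C' * C - C * C' ∈ MM D h F x := by
    rintro C' hC' C ⟨m1, m2, m3⟩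
    refine ⟨c1 C' hC' C m1, ?_, fun z hz hzx a ha => ?_⟩
    · change C'.1.2 * C.1.2 - C.1.2 * C'.1.2 = 0
      rw [m2, mul_zero, zero_mul, sub_zero]
    · change C'.1.1 z.1 (C.1.1 z.1 a) - C.1.1 z.1 (C'.1.1 z.1 a) = 0
      rw [m3 z hz hzx a ha, m3 z hz hzx _ (hpr C' hC' z a ha), map_zero, sub_zero]
  -- the image of `MM` is everything
  have himg : ∀ Y ∈ Sp (f k), ∃ C ∈ MM D h F x, C.2 k = Y := by
    let I : Submodule ℂ (Module.End ℂ (Frm (G k))) :=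
      { carrier := {A | ∃ C ∈ MM D h F x, C.2 k = A}
        add_mem' := by
          rintro A A' ⟨C, hC, rfl⟩ ⟨C', hC', rfl⟩
          exact ⟨C + C', add_mem hC hC', rfl⟩
        zero_mem' := ⟨0, zero_mem _, rfl⟩
        smul_mem' := by
          rintro c A ⟨C, hC, rfl⟩
          exact ⟨c • C, Submodule.smul_mem _ c hC, rfl⟩ }
    refine fun A hA => hSi hBs hTs (Frm (G k)) (f k) hsf I ?_ ?_ ⟨C₀.2 k, ⟨C₀, hC₀, rfl⟩, hC₀0⟩ A hA
    · rintro n ⟨C, hC, rfl⟩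
      exact hSp C hC.1
    · rintro n ⟨C, hC, rfl⟩ X hX
      obtain ⟨C', hC', rfl⟩ := hit X hX
      exact ⟨C' * C - C * C', hbr C' hC' C hC, rfl⟩
  -- the relation
  let P : Submodule ℂ (Module.End ℂ (WT D x) × Module.End ℂ (Frm (G k))) :=
    { carrier := {y | ∃ C ∈ MM D h F x, (∀ a : WT D x,
        C.1.1 x.1 (a : Frm (T x.1)) = (y.1 a : Frm (T x.1))) ∧ C.2 k = y.2}
      add_mem' := by
        rintro y y' ⟨C, hC, h1, h2⟩ ⟨C', hC', h1', h2'⟩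
        refine ⟨C + C', add_mem hC hC', fun a => ?_, ?_⟩
        · rw [Prod.fst_add, Prod.fst_add, Pi.add_apply, LinearMap.add_apply, h1, h1']
          rfl
        · rw [Prod.snd_add, Pi.add_apply, h2, h2']
          rfl
      zero_mem' := ⟨0, zero_mem _, fun _ => rfl, rfl⟩
      smul_mem' := by
        rintro c y ⟨C, hC, h1, h2⟩
        refine ⟨c • C, Submodule.smul_mem _ c hC, fun a => ?_, ?_⟩
        · rw [Prod.smul_fst, Prod.smul_fst, Pi.smul_apply, LinearMap.smul_apply, h1]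
          rfl
        · rw [Prod.smul_snd, Pi.smul_apply, h2]
          rfl }
  have P1 : ∀ y ∈ P, LinearMap.trace ℂ (WT D x) y.1 = 0 ∧ y.2 ∈ Sp (f k) := by
    rintro y ⟨C, hC, h1, h2⟩
    obtain ⟨A', hA'0, hA'⟩ := htr C hC.1 x
    refine ⟨?_, h2 ▸ hSp C hC.1⟩
    have h5 : y.1 = A' := by
      refine LinearMap.ext fun a => Subtype.ext ?_
      rw [← h1 a, ← hA' a]
    rw [h5]
    exact hA'0
  have P2 : ∀ X : Module.End ℂ (WT D x), LinearMap.trace ℂ (WT D x) X = 0 → ∃ Y, (X, Y) ∈ P := by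
    intro X hX
    obtain ⟨C, hC, h1⟩ := hits hPj D S E h hh hH hFn hxF X hX
    exact ⟨C.2 k, C, hC, h1, rfl⟩
  have P3 : ∀ Y ∈ Sp (f k), ∃ X, (X, Y) ∈ P := by
    intro Y hY
    obtain ⟨C, hC, h2⟩ := himg Y hY
    obtain ⟨A', -, hA'⟩ := htr C hC.1 x
    exact ⟨A', C, hC, hA', h2⟩
  have P4 : ∀ Y, ((0 : Module.End ℂ (WT D x)), Y) ∈ P → Y = 0 := by
    rintro Y ⟨C, ⟨m1, m2, m3⟩, h1, h2⟩
    rw [← show C.2 k = Y from h2]
    refine hN0 C m1 (van hPj D hm S E h hh hFo m1 m2 fun z hz a ha => ?_)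
    by_cases hzx : z = x
    · subst hzx
      exact h1 ⟨a, ha⟩
    · exact m3 z hz hzx a ha
  have hfd : FiniteDimensional ℂ (WT D x) := inferInstance
  have P5 : ∀ X, (X, (0 : Module.End ℂ (Frm (G k)))) ∈ P → X = 0 := by
    let N' : Submodule ℂ (Module.End ℂ (WT D x)) :=
      { carrier := {X | (X, (0 : Module.End ℂ (Frm (G k)))) ∈ P}
        add_mem' := by
          intro X X' (h1 : (X, (0 : Module.End ℂ (Frm (G k)))) ∈ P)
            (h2 : (X', (0 : Module.End ℂ (Frm (G k)))) ∈ P)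
          have h3 := P.add_mem h1 h2
          rw [Prod.mk_add_mk, add_zero] at h3
          exact h3
        zero_mem' := P.zero_mem
        smul_mem' := by
          intro c X (h1 : (X, (0 : Module.End ℂ (Frm (G k)))) ∈ P)
          have h3 := P.smul_mem c h1
          rw [Prod.smul_mk, smul_zero] at h3
          exact h3 }
    intro X hX
    by_contra hX0
    have h1 := hSim (WT D x) N' (fun y hy => (P1 _ hy).1) ?_ ⟨X, hX, hX0⟩
    · obtain ⟨X₁, hX₁⟩ := P3 Y₀ hY₀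
      have h2 : (X₁, (0 : Module.End ℂ (Frm (G k)))) ∈ P := h1 X₁ (P1 _ hX₁).1
      obtain ⟨C, hC, e1, e2⟩ := hX₁
      obtain ⟨C', hC', e1', e2'⟩ := h2
      refine hY₀0 (P4 Y₀ ⟨C - C', sub_mem hC hC', fun a => ?_, ?_⟩)
      · rw [Prod.fst_sub, Prod.fst_sub, Pi.sub_apply, LinearMap.sub_apply, e1, e1', sub_self]
        rfl
      · rw [Prod.snd_sub, Pi.sub_apply, e2, e2']
        exact sub_zero Y₀
    · rintro y ⟨C, hC, a1, a2⟩ A hA
      obtain ⟨C', hC', hCA⟩ := hits hPj D S E h hh hH hFn hxF A hA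
      refine ⟨C' * C - C * C', hbr C' hC'.1 C hC, fun a => ?_, ?_⟩
      · change C'.1.1 x.1 (C.1.1 x.1 a) - C.1.1 x.1 (C'.1.1 x.1 a) = _
        rw [a1, hCA, hCA, a1]
        rfl
      · change C'.2 k * C.2 k - C.2 k * C'.2 k = 0
        rw [show C.2 k = 0 from a2, mul_zero, zero_mul, sub_zero]
  refine hNo hDi hJS hDim hAd (T x.1) (m x.1) (r x.1) (D x.1) (hm x.1) (hd x.1) x.2 (G k) (E k)
    (f k) (hT.rf k) (hT.fs k) (hT.two k) P P1 P2 P3 P4 P5 ?_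
  rintro y ⟨C, ⟨m1, m2, m3⟩, a1, a2⟩ X' hX'
  have hJW : ∀ (z : Ch m), ∀ a ∈ WT D z, pre (mulI (T z.1)) a ∈ WT D z := by
    intro z a ha v
    change a (Complex.I • (D z.1).Z v) = zet (m z.1) z.2 * a (Complex.I • v)
    rw [← map_smul]
    exact ha _
  refine ⟨preM (((JT T, mulI B), JT G) : TM T B G) * C -
    C * preM (((JT T, mulI B), JT G) : TM T B G), ⟨c3 C m1, ?_, fun z hz hzx a ha => ?_⟩,
    fun a => ?_, ?_⟩
  · change pre (mulI B) * C.1.2 - C.1.2 * pre (mulI B) = 0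
    rw [m2, mul_zero, zero_mul, sub_zero]
  · change pre (mulI (T z.1)) (C.1.1 z.1 a) - C.1.1 z.1 (pre (mulI (T z.1)) a) = 0
    rw [m3 z hz hzx a ha, m3 z hz hzx _ (hJW z a ha), map_zero, sub_zero]
  · change pre (mulI (T x.1)) (C.1.1 x.1 a) - C.1.1 x.1 (pre (mulI (T x.1)) a) = _
    have e1 := a1 ⟨_, hJW x a a.2⟩
    rw [a1 a, e1]
    exact (hX' a ⟨_, hJW x a a.2⟩ rfl).symm
  · change pre (mulI (G k)) * C.2 k - C.2 k * pre (mulI (G k)) = _
    rw [show C.2 k = y.2 from a2]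

end SES
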