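import Pool.Agent.Lib.SE.S.Spec

/-!
# PROJECT SE-S, module SiS: `sp` is simple
-/

set_option autoImplicit false

open Module

noncomputable section

namespace SES

open HC HC.E HC.SE SEB SEQ SER

namespace SiS_aux

variable {V : Type} [AddCommGroup V] [Module ℂ V]

lemma sy_symm (f : V →ₗ[ℂ] V →ₗ[ℂ] ℂ) (v w : V) : sy f v w = sy f w v := by
  ext z
  rw [sy_apply, sy_apply, add_comm]

lemma sy_smul (f : V →ₗ[ℂ] V →ₗ[ℂ] ℂ) (c : ℂ) (v w : V) : sy f v (c • w) = c • sy f v w := by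
  ext z
  rw [sy_apply, LinearMap.smul_apply, sy_apply, map_smul, LinearMap.smul_apply, smul_add,
    smul_comm c (f v z) w, smul_eq_mul, mul_smul]

lemma sy_zero (f : V →ₗ[ℂ] V →ₗ[ℂ] ℂ) (v : V) : sy f 0 v = 0 := by
  ext z
  rw [sy_apply, map_zero]
  simp

lemma self {f : V →ₗ[ℂ] V →ₗ[ℂ] ℂ} (hf : IsSf f) (v : V) : f v v = 0 := by
  have h := hf.alt v v
  linear_combination (1 / 2) * h

lemma nd' {f : V →ₗ[ℂ] V →ₗ[ℂ] ℂ} (hf : IsSf f) (v : V) (h : ∀ y, f y v = 0) : v = 0 :=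
  hf.nd v fun w => by rw [hf.alt, h, neg_zero]

/-- two functionals -/
lemma sep {f : V →ₗ[ℂ] V →ₗ[ℂ] ℂ} (hf : IsSf f) (u v : V) (hu : u ≠ 0)
    (h : ∀ c : ℂ, v ≠ c • u) : ∃ y, f y u = 0 ∧ f y v ≠ 0 := by
  by_contra hcon
  push Not at hcon
  obtain ⟨y₀, hy₀⟩ : ∃ y, f y u ≠ 0 := by
    by_contra h1
    push Not at h1
    exact hu (nd' hf u h1)
  refine h (f y₀ v / f y₀ u) (sub_eq_zero.1 (nd' hf _ fun y => ?_))
  have h1 := hcon (y - (f y u / f y₀ u) • y₀) (by
    rw [map_sub, map_smul, LinearMap.sub_apply, LinearMap.smul_apply, smul_eq_mul,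
      div_mul_cancel₀ _ hy₀, sub_self])
  rw [map_sub, map_smul, LinearMap.sub_apply, LinearMap.smul_apply, smul_eq_mul] at h1
  rw [map_sub, map_smul, smul_eq_mul]
  have h2 : f y₀ v / f y₀ u * f y u = f y u / f y₀ u * f y₀ v := by ring
  rw [h2]
  exact h1

end SiS_aux

open SiS_aux in
theorem tSiS : S_SiS := by
  intro hBs hTs V _ _ _ f hf N hN hNX hne X hX
  obtain ⟨h1, h2, -, -, h5⟩ := hBs V f hf
  have hsc : ∀ (c : ℂ) (n : Module.End ℂ V), c ≠ 0 → c • n ∈ N → n ∈ N := by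
    intro c n hc hn
    have := N.smul_mem c⁻¹ hn
    rwa [smul_smul, inv_mul_cancel₀ hc, one_smul] at this
  have hbr : ∀ Z ∈ Sp f, ∀ v w, sy f v w ∈ N → sy f (Z v) w + sy f v (Z w) ∈ N := by
    intro Z hZ v w hvw
    rw [← h2 Z hZ v w]
    exact hNX _ hvw Z hZ
  -- (a)
  obtain ⟨x, hx, hxN⟩ : ∃ x, x ≠ 0 ∧ sy f x x ∈ N := by
    obtain ⟨n, hn, hn0⟩ := hne
    obtain ⟨v, hv⟩ : ∃ v, n v ≠ 0 := by
      by_contra h
      push Not at h
      exact hn0 (LinearMap.ext fun v => by rw [h v, LinearMap.zero_apply])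
    refine ⟨n v, hv, ?_⟩
    have hv0 : v ≠ 0 := by
      rintro rfl
      exact hv (map_zero n)
    have h6 : sy f (n v) v ∈ N := by
      have h7 := hNX n hn (sy f v v) (h1 v v)
      have h8 := h2 n (hN hn) v v
      rw [sy_symm f v (n v)] at h8
      refine hsc (-2) _ (by norm_num) ?_
      have h9 : (-2 : ℂ) • sy f (n v) v = sy f v v * n - n * sy f v v := by
        rw [← neg_sub, h8, ← two_smul ℂ, neg_smul]
      rw [h9]
      exact h7
    set u := n v with hu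
    by_cases hfuv : f u v = 0
    · by_cases hc : ∃ c : ℂ, v = c • u
      · obtain ⟨c, hc⟩ := hc
        have hc0 : c ≠ 0 := by
          rintro rfl
          rw [zero_smul] at hc
          exact hv0 hc
        rw [hc, sy_smul] at h6
        exact hsc c _ hc0 h6
      · push Not at hc
        obtain ⟨y, hy1, hy2⟩ := sep hf u v hv hc
        have h7 := hbr (sy f u y) (h1 u y) u v h6
        rw [sy_apply, sy_apply, hy1, self hf u, hfuv, zero_smul, zero_smul, zero_add,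
          add_zero, sy_zero, zero_add, sy_smul] at h7
        exact hsc _ _ hy2 h7
    · have h7 := hbr (sy f u u) (h1 u u) u v h6
      rw [sy_apply, sy_apply, self hf u, zero_smul, zero_add, sy_zero, zero_add, ← add_smul,
        sy_smul] at h7
      refine hsc _ _ ?_ h7
      rw [← two_mul]
      exact mul_ne_zero two_ne_zero hfuv
  -- (b)
  have h6 : ∀ w, sy f w x ∈ N := by
    intro w
    obtain ⟨Z, hZ, hZx⟩ := hTs hBs V f hf x w hx
    have h7 := hbr Z hZ x x hxN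
    rw [hZx, sy_symm f x w, ← two_smul ℂ] at h7
    exact hsc 2 _ two_ne_zero h7
  have h7 : ∀ w w', sy f w w' ∈ N := by
    intro w w'
    obtain ⟨Z, hZ, hZx⟩ := hTs hBs V f hf x w' hx
    have h8 := hbr Z hZ w x (h6 w)
    rw [hZx] at h8
    exact (N.add_mem_iff_right (h6 (Z w))).1 h8
  refine Submodule.span_le.2 ?_ (h5 X hX)
  rintro _ ⟨p, rfl⟩
  exact h7 p.1 p.2

end SES
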