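import Pool.Agent.Lib.SE.S.Defs
import Pool.Agent.Lib.SE.R.Spec

/-!
# PROJECT SE-S, part 1: linear algebra of `sp` (helper59)

`f` a symplectic form on the complex vector space `V`, `Sp f` its Lie algebra, spanned by the
`sy f v w = v ⊗ f(w,·) + w ⊗ f(v,·)`. `[X, Y] = X * Y - Y * X`.

Every module: file `SE/S/Xyz.lean`, `theorem tXyz : S_Xyz`, namespace `SES`, import only
`Pool.Agent.Lib.SE.S.Spec` (and proved modules which you want to use). The hypotheses `S_A → S_B →` are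
part of the statement.
-/

set_option autoImplicit false

open Module

noncomputable section

namespace SES

open HC HC.E HC.SE SEB SEQ SER

section LA

variable {V : Type} [AddCommGroup V] [Module ℂ V]

/-- `f` is a symplectic form. -/
structure IsSf (f : V →ₗ[ℂ] V →ₗ[ℂ] ℂ) : Prop where
  alt : ∀ v w, f v w = -f w v
  nd : ∀ v, (∀ w, f v w = 0) → v = 0

/-- The Lie algebra `sp(f)`. -/
def Sp (f : V →ₗ[ℂ] V →ₗ[ℂ] ℂ) : Submodule ℂ (Module.End ℂ V) where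
  carrier := {X | ∀ v w, f (X v) w + f v (X w) = 0}
  add_mem' {X Y} hX hY v w := by
    have h1 := hX v w
    have h2 := hY v w
    simp only [LinearMap.add_apply, map_add]
    linear_combination h1 + h2
  zero_mem' v w := by simp
  smul_mem' c X hX v w := by
    have h1 := hX v w
    simp only [LinearMap.smul_apply, map_smul, smul_eq_mul]
    linear_combination c * h1

/-- `v ⊗ f(w,·) + w ⊗ f(v,·)`. -/
def sy (f : V →ₗ[ℂ] V →ₗ[ℂ] ℂ) (v w : V) : Module.End ℂ V :=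
  (f w).smulRight v + (f v).smulRight w

theorem sy_apply (f : V →ₗ[ℂ] V →ₗ[ℂ] ℂ) (v w z : V) :
    sy f v w z = f w z • v + f v z • w := rfl

end LA

/-- **Bs**: BASIC FACTS. PROOF. (1) `f (f(w,z) v + f(v,z) w) z' + f z (f(w,z') v + f(v,z') w) = 0` by `alt`.
(2) apply to `z`: `X (f(w,z) v + f(v,z) w) - f(w,X z) v - f(v,X z) w`, and `-f(w,X z) = f(X w,z)`.
(3) directly. (4) if `u ≠ 0`, `sy f u v = 0`: `f(v,z) u + f(u,z) v = 0` for all `z`; if `u = c v` then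
`2 c f(v,z) v = 0`, so `c = 0`; otherwise `f(v,z) = 0` for all `z`, `v = 0`. (5) `e_i` a basis, `e'_i` with
`f(e_i,e'_j) = δ_ij` (`nd`; `LinearMap.BilinForm.dualBasis`, or a left inverse): `z = ∑_i f(e_i,z) e'_i`, so
`X z = ∑_i f(e_i,z) X e'_i`; and `∑_i f(X e'_i,z) e_i = X z` (pair with `w`:
`∑_i f(X e'_i,z) f(e_i,w) = f(X w,z) = -f(w,X z) = f(X z,w)`). So `X = (1/2) ∑_i sy f (X e'_i) e_i`. -/
def S_Bs : Prop :=
  ∀ (V : Type) [AddCommGroup V] [Module ℂ V] [FiniteDimensional ℂ V] (f : V →ₗ[ℂ] V →ₗ[ℂ] ℂ),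
    IsSf f → (∀ v w, sy f v w ∈ Sp f) ∧
    (∀ X ∈ Sp f, ∀ v w, X * sy f v w - sy f v w * X = sy f (X v) w + sy f v (X w)) ∧
    (∀ X ∈ Sp f, ∀ Y ∈ Sp f, X * Y - Y * X ∈ Sp f) ∧
    (∀ u v, v ≠ 0 → sy f u v = 0 → u = 0) ∧
    ∀ X ∈ Sp f, X ∈ Submodule.span ℂ (Set.range fun p : V × V => sy f p.1 p.2)

/-- **Ts**: TRANSITIVITY. PROOF. `y` with `f y v = 1` (`nd`, `alt`), `Z = sy f w y - (f(w,v)/2) • sy f y y`:
`sy f w y v = f(y,v) w + f(w,v) y`, `sy f y y v = 2 f(y,v) y`. -/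
def S_Ts : Prop :=
  S_Bs → ∀ (V : Type) [AddCommGroup V] [Module ℂ V] [FiniteDimensional ℂ V]
    (f : V →ₗ[ℂ] V →ₗ[ℂ] ℂ), IsSf f → ∀ v w, v ≠ 0 → ∃ Z ∈ Sp f, Z v = w

/-- **SiS**: `sp` IS SIMPLE. PROOF. (a) Some `sy f x x ∈ N`, `x ≠ 0`: `0 ≠ n ∈ N`, `n v = u ≠ 0`;
`[sy f v v, n] ∈ N`, so (`S_Bs`) `sy f u v ∈ N` (`[n, sy f v v] = 2 sy f (n v) v`). `[sy f u u, sy f u v] =
2 f(u,v) sy f u u` (`sy f u u z = 2 f(u,z) u`): done if `f(u,v) ≠ 0`. If `f(u,v) = 0` and `v = c u` (`c ≠ 0`):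
`sy f u v = c sy f u u`. If `u`, `v` are independent, `f(u,v) = 0`: `y` with `f(y,v) = 1`, `f(y,u) = 0` (`f(·,v)`
and `f(·,u)` are independent functions), `X = sy f u y`: `X v = u`, `X u = 0`,
`[X, sy f u v] = sy f u u`. (b) `[Z, sy f x x] = 2 sy f (Z x) x`, `S_Ts`: `sy f w x ∈ N` for all `w`;
`[Z, sy f w x] = sy f (Z w) x + sy f w (Z x)`, so `sy f w w' ∈ N` for all `w`, `w'`; `S_Bs` (5). -/
def S_SiS : Prop :=
  S_Bs → S_Ts → ∀ (V : Type) [AddCommGroup V] [Module ℂ V] [FiniteDimensional ℂ V]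
    (f : V →ₗ[ℂ] V →ₗ[ℂ] ℂ), IsSf f → ∀ N : Submodule ℂ (Module.End ℂ V), N ≤ Sp f →
    (∀ n ∈ N, ∀ X ∈ Sp f, X * n - n * X ∈ N) → (∃ n ∈ N, n ≠ 0) → ∀ X ∈ Sp f, X ∈ N

/-- **PcS**: `sp` is perfect and has no centre. PROOF. (1) for `x ≠ 0`: `sy f w x = [Z, sy f x x]/2`,
`Z x = w` (`S_Ts`); `sy f w 0 = 0`; `S_Bs` (5). (2) `[y, sy f v v] = 2 sy f (y v) v = 0`, so `y v = 0`. -/
def S_PcS : Prop :=
  S_Bs → S_Ts → ∀ (V : Type) [AddCommGroup V] [Module ℂ V] [FiniteDimensional ℂ V]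
    (f : V →ₗ[ℂ] V →ₗ[ℂ] ℂ), IsSf f →
    (∀ X ∈ Sp f, X ∈ Submodule.span ℂ {Y | ∃ A ∈ Sp f, ∃ B ∈ Sp f, Y = A * B - B * A}) ∧
    ∀ y ∈ Sp f, (∀ X ∈ Sp f, y * X - X * y = 0) → y = 0

/-- **NaS**: the centralizer of `J` is not commutative. PROOF. The eigenspaces `V^±` of `J` are
isotropic. `w'_b` with `f(e_a, w'_b) = δ_ab` (`nd`), `w_b = (w'_b + i J w'_b)/2`: `J w_b = -i w_b`,
`f(e_a, w_b) = δ_ab`. `X = sy f (e 0) (w 1)`, `Y = sy f (e 1) (w 0)`; `[J, sy f v w] = sy f (J v) w + sy f v (J w)`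
is `0` for `v ∈ V^+`, `w ∈ V^-`. `X (e 1) = -e 0`, `X (w 0) = w 1`, so
`[X, Y] = -sy f (e 0) (w 0) + sy f (e 1) (w 1)`, which maps `e 0` to `e 0`. -/
def S_NaS : Prop :=
  S_Bs → ∀ (V : Type) [AddCommGroup V] [Module ℂ V] [FiniteDimensional ℂ V]
    (f : V →ₗ[ℂ] V →ₗ[ℂ] ℂ), IsSf f → ∀ J ∈ Sp f, J * J = -1 → ∀ e : Fin 2 → V,
    LinearIndependent ℂ e → (∀ a, J (e a) = Complex.I • e a) →
    ∃ X ∈ Sp f, ∃ Y ∈ Sp f, X * J = J * X ∧ Y * J = J * Y ∧ X * Y - Y * X ≠ 0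

/-- **DiS**: DIMENSIONS. PROOF. `X ↦ b_X(v,w) = f(X v, w)` is a bijection of `Sp f` with the symmetric
bilinear forms on `V` (`nd`, `alt`), of dimension `n(n+1)/2` (values on pairs of basis vectors: functions on
`Sym2 (Fin n)`, `Sym2.card`; or matrices). `J X - X J = 2 i X` means
`b_X(J v,w) + b_X(v,J w) = -2 i b_X(v,w)`; on `V = V^+ ⊕ V^-` (eigenvalues `i`, `-i` of `J`): `b_X` is zero
except on `V^- × V^-`, so these `X` correspond to the symmetric forms on `V^-`. -/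
def S_DiS : Prop :=
  ∀ (V : Type) [AddCommGroup V] [Module ℂ V] [FiniteDimensional ℂ V] (f : V →ₗ[ℂ] V →ₗ[ℂ] ℂ),
    IsSf f → 2 * finrank ℂ (Sp f) = finrank ℂ V * (finrank ℂ V + 1) ∧
    ∀ J ∈ Sp f, J * J = -1 → ∀ (K : Submodule ℂ V), (∀ v, v ∈ K ↔ J v = -Complex.I • v) →
    ∀ U : Submodule ℂ (Module.End ℂ V),
      (∀ X, X ∈ U ↔ X ∈ Sp f ∧ J * X - X * J = (2 * Complex.I) • X) →
      2 * finrank ℂ U = finrank ℂ K * (finrank ℂ K + 1)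

/-- **ExS**: EXTREMAL ELEMENTS. PROOF. From `J e = e J + 2 i e` and `J² = -1`:
`-e = J (J e) = (e J + 2 i e) J + 2 i (e J + 2 i e) = -e + 4 i e J - 4 e`, so `e J = -i e`, `J e = i e`, and
`e (J e) = i e²`, `(e J) e = -i e²`: `e² = 0`. So the double commutator is `-2 e Y e`. For `Y = sy f u u`:
`e Y e z = 2 f(u, e z) e u = -2 f(e u, z) e u`, so `-2 e Y e = 2 sy f (e u) (e u)`. With `e u ≠ 0` it is not `0`,
so `c ≠ 0`, `e = (2/c) sy f (e u) (e u) = sy f x x`, `x = λ e u`, `λ² = 2/c`. `J (e u) = i e u`. -/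
def S_ExS : Prop :=
  S_Bs → ∀ (V : Type) [AddCommGroup V] [Module ℂ V] [FiniteDimensional ℂ V]
    (f : V →ₗ[ℂ] V →ₗ[ℂ] ℂ), IsSf f → ∀ (J e : Module.End ℂ V), J * J = -1 → e ∈ Sp f → e ≠ 0 →
    J * e - e * J = (2 * Complex.I) • e →
    (∀ Y ∈ Sp f, ∃ c : ℂ, e * (e * Y - Y * e) - (e * Y - Y * e) * e = c • e) →
    ∃ x, x ≠ 0 ∧ e = sy f x x ∧ J x = Complex.I • x

/-- `φ` is an isomorphism of the Lie algebras `sp(f)`, `sp(f')` compatible with `J`, `J'`. -/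
structure IsIs {V V' : Type} [AddCommGroup V] [Module ℂ V] [AddCommGroup V'] [Module ℂ V']
    (f : V →ₗ[ℂ] V →ₗ[ℂ] ℂ) (f' : V' →ₗ[ℂ] V' →ₗ[ℂ] ℂ) (J : Module.End ℂ V)
    (J' : Module.End ℂ V') (φ : Module.End ℂ V →ₗ[ℂ] Module.End ℂ V') : Prop where
  mem : ∀ X ∈ Sp f, φ X ∈ Sp f'
  br : ∀ X ∈ Sp f, ∀ Y ∈ Sp f, φ (X * Y - Y * X) = φ X * φ Y - φ Y * φ X
  inj : ∀ X ∈ Sp f, φ X = 0 → X = 0
  surj : ∀ Y ∈ Sp f', ∃ X ∈ Sp f, φ X = Y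
  J : ∀ X ∈ Sp f, φ (J * X - X * J) = J' * φ X - φ X * J'

/-- **ThA**: PROOF. `y₀` with `f(x,y₀) ≠ 0`; `y₀ + i J y₀` is in the eigenspace of `-i` and
`f(x, y₀ + i J y₀) = 2 f(x,y₀)` (`J ∈ Sp f`); scaled: `y`, `f(x,y) = 1`, `J y = -i y`. `s = sy f x x`:
`[J,s] = 2 i s`, `[s,Y] = -2 sy f (Y x) x`, `[s,[s,Y]] = -4 f(x, Y x) s`. So `e = φ s` satisfies the hypotheses
of `S_ExS` for `J'` (`IsIs.surj`, `br`, `J`): `φ s = sy f' x' x'`. In the same way, with `-J`, `-J'`: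
`φ (sy f y y) = sy f' y' y'`. `τ = f'(x',y')`. `[sy f x x, sy f y y] = 4 sy f x y` and
`[sy f' x' x', sy f' y' y'] = 4 τ sy f' x' y'`: `φ (sy f x y) = τ sy f' x' y'`. `[sy f x y, sy f x x] = -2 sy f x x`,
`[τ sy f' x' y', sy f' x' x'] = -2 τ² sy f' x' x'`: `τ² = 1`. Replace `y'` by `τ y'`. -/
def S_ThA : Prop :=
  S_Bs → S_ExS → ∀ (V V' : Type) [AddCommGroup V] [Module ℂ V] [FiniteDimensional ℂ V]
    [AddCommGroup V'] [Module ℂ V'] [FiniteDimensional ℂ V'] (f : V →ₗ[ℂ] V →ₗ[ℂ] ℂ)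
    (f' : V' →ₗ[ℂ] V' →ₗ[ℂ] ℂ), IsSf f → IsSf f' → ∀ (J : Module.End ℂ V) (J' : Module.End ℂ V'),
    J * J = -1 → J' * J' = -1 → J ∈ Sp f → J' ∈ Sp f' →
    ∀ φ : Module.End ℂ V →ₗ[ℂ] Module.End ℂ V', IsIs f f' J J' φ →
    ∀ x, x ≠ 0 → J x = Complex.I • x → ∃ y x' y', f x y = 1 ∧ f' x' y' = 1 ∧
      φ (sy f x x) = sy f' x' x' ∧ φ (sy f x y) = sy f' x' y' ∧ φ (sy f y y) = sy f' y' y'

/-- **ThB**: THE INTERTWINER. PROOF. `y₀ = -y` (`f(y₀,x) = 1`), `Z_w = sy f w y₀ - (f(w,x)/2) sy f y₀ y₀` is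
linear in `w`, in `Sp f`, `Z_w x = w`. `θ w = (φ Z_w) x'`. (A) `(φ Z) x' = θ (Z x)` for `Z ∈ Sp f`: `Z - Z_(Z x)`
kills `x`, so commutes with `sy f x x`; so `sy f' (φ(..) x') x' = 0`, `φ(..) x' = 0` (`x' ≠ 0`).
(B) `φ (sy f x w) = sy f' x' (θ w)`: `[Z_w, sy f x x] = 2 sy f w x`. (C) `θ x = x'`: `Z = -sy f x y`, `Z x = x`
(`f(y,x) = -1`), `-sy f' x' y' x' = x'`. (D) `f'(x',θ w) = f(x,w)`: `[sy f x x, sy f x w] = 2 f(x,w) sy f x x`.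
(E) `f'(θ w,θ z) = f(w,z)`: `[sy f x w, sy f x z] = f(w,x) sy f x z + f(w,z) sy f x x + f(x,z) sy f x w`; apply
`φ` and compare, with (D). (F) `θ y = y'`: `φ (sy f x y) = sy f' x' y'` and (B), `S_Bs` (4).
(G) `φ (sy f y w) = sy f' y' (θ w)`: `[sy f y y, sy f x w] = -2 sy f y w + 2 f(y,w) sy f x y`; apply `φ`, with
`f'(y',θ w) = f(y,w)` ((E), (F)). So `φ Z_u = sy f' (θ u) (-y') - (f(u,x)/2) sy f' y' y'`, and by (E)
`(φ Z_u)(θ w) = θ (Z_u w)`. (H) `[Z_u, sy f x w] = sy f u w + sy f x (Z_u w)`; apply `φ`: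
`φ (sy f u w) = sy f' (θ u) (θ w)`; so by (E) `φ X θ = θ X` for `X = sy f u w`, and for all `X` (`S_Bs` (5)).
`θ x = x' ≠ 0`. -/
def S_ThB : Prop :=
  S_Bs → ∀ (V V' : Type) [AddCommGroup V] [Module ℂ V] [FiniteDimensional ℂ V]
    [AddCommGroup V'] [Module ℂ V'] [FiniteDimensional ℂ V'] (f : V →ₗ[ℂ] V →ₗ[ℂ] ℂ)
    (f' : V' →ₗ[ℂ] V' →ₗ[ℂ] ℂ), IsSf f → IsSf f' → ∀ (J : Module.End ℂ V) (J' : Module.End ℂ V'),
    ∀ φ : Module.End ℂ V →ₗ[ℂ] Module.End ℂ V', IsIs f f' J J' φ →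
    ∀ x y x' y', f x y = 1 → f' x' y' = 1 → φ (sy f x x) = sy f' x' x' →
      φ (sy f x y) = sy f' x' y' → φ (sy f y y) = sy f' y' y' →
    ∃ θ : V →ₗ[ℂ] V', θ ≠ 0 ∧ ∀ X ∈ Sp f, ∀ v, θ (X v) = φ X (θ v)

/-- **GrS**: from a relation to a map. PROOF. `P₀ = P ∩ (L × E')`; the projection `P₀ → E` is injective with
image `L`; inverse map on `L`, second component, extended linearly to `E` (`LinearMap.exists_extend`). -/
def S_GrS : Prop :=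
  ∀ (E E' : Type) [AddCommGroup E] [Module ℂ E] [AddCommGroup E'] [Module ℂ E']
    (P : Submodule ℂ (E × E')) (L : Submodule ℂ E), (∀ X ∈ L, ∃ Y, (X, Y) ∈ P) →
    (∀ Y, ((0 : E), Y) ∈ P → Y = 0) →
    ∃ φ : E →ₗ[ℂ] E', (∀ X ∈ L, (X, φ X) ∈ P) ∧ ∀ X ∈ L, ∀ Y, (X, Y) ∈ P → Y = φ X

/-- **RbS**: RIBET'S LEMMA, abstractly. PROOF. For `k` fixed and every finite set `S` of indices `≠ k`: for all
`A ∈ L k` there is `C ∈ g` with `C k = A`, `C l = 0` for `l ∈ S`. Induction: for `S ∪ {l}` it is enough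
(perfect, linear) to treat `A = [B, B']`, `B, B' ∈ L k`: `C` for `S` and `B`, `C'` for `l` and `B'` (hypothesis on
pairs), `[C, C']`. For `S` = all indices `≠ k`, `A k` (`C = Pi.single k (A k)`), and sum over `k`. (`S = ∅`: for the
start the hypothesis gives some `C` with `C k = A` if there is an index `≠ k`, otherwise the first
hypothesis.) -/
def S_RbS : Prop :=
  ∀ (q : ℕ) (W : Fin q → Type) [∀ k, AddCommGroup (W k)] [∀ k, Module ℂ (W k)]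
    (L : ∀ k, Submodule ℂ (Module.End ℂ (W k))) (g : Submodule ℂ (∀ k, Module.End ℂ (W k))),
    (∀ k, ∀ X ∈ L k, X ∈ Submodule.span ℂ {Y | ∃ A ∈ L k, ∃ B ∈ L k, Y = A * B - B * A}) →
    (∀ C ∈ g, ∀ C' ∈ g, C * C' - C' * C ∈ g) → (∀ C ∈ g, ∀ k, C k ∈ L k) →
    (∀ k, ∀ A ∈ L k, ∃ C ∈ g, C k = A) →
    (∀ k l, k ≠ l → ∀ A ∈ L k, ∃ C ∈ g, C k = A ∧ C l = 0) →
    ∀ A : ∀ k, Module.End ℂ (W k), (∀ k, A k ∈ L k) → A ∈ g

/-- **ClX**: COMMUTATORS, generic. `π` is an antihomomorphism of a real algebra to a complex one, `h` a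
`ℚ`-Lie algebra with `j` in its real span. PROOF. (1) `Com h ⊆ h` and `[x,[y,z]]` is a commutator; (2) `j` is a
real combination of elements of `h`; (3) as (2); (4) `J² = -1`: `[J,[J,C]] = -2 C - 2 J C J`, so
`C - J C J = 2 C + [J,[J,C]]/2`; (5) `π` is real linear. (As `S_Cl`, SE/Big/Cl.lean, and `S_ClR`,
SE/R/ClR.lean.) -/
def S_ClX : Prop :=
  ∀ (R C : Type) [Ring R] [Algebra ℝ R] [Ring C] [Algebra ℂ C] (π : R → C),
    (∀ x y, π (x + y) = π x + π y) → (∀ (r : ℝ) x, π (r • x) = (r : ℂ) • π x) →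
    (∀ x y, π (x * y) = π y * π x) → ∀ (h : Set R) (j : R),
    (∀ x ∈ h, ∀ y ∈ h, x * y - y * x ∈ h) → j ∈ Submodule.span ℝ h →
    ∀ g : Submodule ℂ C, g = Submodule.span ℂ (π '' {z | ∃ x ∈ h, ∃ y ∈ h, z = x * y - y * x}) →
    (∀ A ∈ g, ∀ B ∈ g, A * B - B * A ∈ g) ∧ (∀ x ∈ h, ∀ A ∈ g, π x * A - A * π x ∈ g) ∧
    (∀ A ∈ g, π j * A - A * π j ∈ g) ∧
    (π j * π j = -1 → ∀ A ∈ g, A - π j * A * π j ∈ g) ∧
    ∀ z ∈ Submodule.span ℝ {z | ∃ x ∈ h, ∃ y ∈ h, z = x * y - y * x}, π z ∈ g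

end SES
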