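import Pool.Agent.Lib.SE.S.Spec
import Pool.Agent.Lib.SE.Q.SpecC

/-!
# PROJECT SE-S, part 2: Lie algebras (helper59)

`G k`, `k < q'`: abelian varieties with Riemann forms `E k` and Hodge Lie algebra `sp(E k)` (`SpB`),
pairwise not isogenous, `dim ≥ 2`. (1) they are independent; (2) they are independent of `∏ T i × B`,
`T i` the good factors of SE-Q, `B` with real multiplication (SE-R).

Every module: file `SE/S/Xyz.lean`, `theorem tXyz : S_Xyz`, namespace `SES`, import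
`Pool.Agent.Lib.SE.S.Spec2` (and proved modules which you want to use). The hypotheses `S_A → S_B →`
are part of the statement.
-/

set_option autoImplicit false

open Module

noncomputable section

namespace SES

open HC HC.E HC.SE SEB SEQ SER

/-! ## One variety -/

/-- The dual of `E` on `H¹(G, ℂ)`. -/
structure IsFs {G : AV} (E : G.V →ₗ[ℝ] G.V →ₗ[ℝ] ℝ) (f : Frm G →ₗ[ℂ] Frm G →ₗ[ℂ] ℂ) :
    Prop where
  sf : IsSf f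
  val : ∀ (v : G.V) (b : Frm G), f (Complex.ofRealCLM.toLinearMap ∘ₗ E v) b = b v
  skew : ∀ U, IsSk E U → pre U ∈ Sp f
  real : ∀ C ∈ Sp f, ∃ A B, IsSk E A ∧ IsSk E B ∧ C = pre A + Complex.I • pre B

/-- **FmS**: the dual form. PROOF. As `tFrm` (SE/W/Frm.lean; `val`, `alt`, `nd`, `skew` there do not use the
action of a field): `E` is nondegenerate (`pos`), `v ↦ E(v,·)` is an isomorphism `e` to the real forms,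
`f a b = b (e⁻¹ (re a)) + i b (e⁻¹ (im a))`. `real`: `C a = a ∘ A + i a ∘ B` for real `a` defines real
endomorphisms `A`, `B` (real and imaginary part of `C` on real forms, transposed); `f (C a) b + f a (C b) = 0` for
`a = E(v,·)`, `b = E(w,·)` gives `IsSk E A`, `IsSk E B` (real and imaginary part). -/
def S_FmS : Prop := ∀ (G : AV) (E : G.V →ₗ[ℝ] G.V →ₗ[ℝ] ℝ), IsRf G E → ∃ f, IsFs E f

/-- **JS**: the multiplication by `i` on the forms. PROOF. `mulI * mulI = -1`. The real linear forms with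
complex values are `a = a' + a''`, `a'` complex linear, `a''` antilinear; both spaces have dimension
`finrank ℂ G.V` (coordinates of a basis and their conjugates); `pre (mulI G) a = i a` on the complex
linear, `-i a` on the antilinear forms. `E(i u,v) + E(u,i v) = 0` from `E(i u,i v) = E(u,v)`. (Compare
SE/Big/Dim.lean.) -/
def S_JS : Prop :=
  ∀ G : AV, FiniteDimensional ℂ (Frm G) ∧ pre (mulI G) * pre (mulI G) = -1 ∧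
    finrank ℂ (Frm G) = 2 * finrank ℂ G.V ∧
    (∀ e : ℂ, (e = Complex.I ∨ e = -Complex.I) → ∀ K : Submodule ℂ (Frm G),
      (∀ a, a ∈ K ↔ pre (mulI G) a = e • a) → finrank ℂ K = finrank ℂ G.V) ∧
    ∀ E : G.V →ₗ[ℝ] G.V →ₗ[ℝ] ℝ, IsRf G E → IsSk E (mulI G)

/-- **OnS**: one variety: `gg h = sp`. PROOF. `Com h ⊆ h` consists of skew elements: `IsFs.skew`. For
`A ∈ Sp f`: `A = pre A₁ + i pre A₂` (`IsFs.real`), `A₁`, `A₂` are real combinations of elements of `Com h`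
(`SpB`), `pre` is real linear. -/
def S_OnS : Prop :=
  ∀ (G : AV) (E : G.V →ₗ[ℝ] G.V →ₗ[ℝ] ℝ) (f : Frm G →ₗ[ℂ] Frm G →ₗ[ℂ] ℂ), IsFs E f → SpB E →
    ∀ h, HLieS E h → (∀ C ∈ gg h, C ∈ Sp f) ∧ ∀ A ∈ Sp f, A ∈ gg h

/-! ## Pairs -/

/-- A `ℚ`-Lie algebra of rational skew pairs whose real span contains `i`. -/
structure HLieP {G G' : AV} (E : G.V →ₗ[ℝ] G.V →ₗ[ℝ] ℝ) (E' : G'.V →ₗ[ℝ] G'.V →ₗ[ℝ] ℝ)
    (h : Set (Pr2 G G')) : Prop where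
  rat : ∀ X ∈ h, RatEnd G X.1 ∧ RatEnd G' X.2
  sk : ∀ X ∈ h, IsSk E X.1 ∧ IsSk E' X.2
  zero : (0 : Pr2 G G') ∈ h
  add : ∀ X ∈ h, ∀ Y ∈ h, X + Y ∈ h
  smul : ∀ x : ℚ, ∀ X ∈ h, (x : ℝ) • X ∈ h
  br : ∀ X ∈ h, ∀ Y ∈ h, X * Y - Y * X ∈ h
  J : ((mulI G, mulI G') : Pr2 G G') ∈ Submodule.span ℝ h

/-- **PjP**: projections of a pair. PROOF. Directly (images of spans). -/
def S_PjP : Prop :=
  ∀ (G G' : AV) (E : G.V →ₗ[ℝ] G.V →ₗ[ℝ] ℝ) (E' : G'.V →ₗ[ℝ] G'.V →ₗ[ℝ] ℝ)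
    (h : Set (Pr2 G G')), HLieP E E' h → HLieS E (Prod.fst '' h) ∧ HLieS E' (Prod.snd '' h) ∧
    (∀ C ∈ gg (Prod.fst '' h), ∃ C' ∈ gg2 h, C'.1 = C) ∧
    (∀ C ∈ gg (Prod.snd '' h), ∃ C' ∈ gg2 h, C'.2 = C) ∧
    ∀ C ∈ gg2 h, C.1 ∈ gg (Prod.fst '' h) ∧ C.2 ∈ gg (Prod.snd '' h)

/-- **LkS**: A LINK GIVES AN INTERTWINER. PROOF. `g = gg2 h` is closed under commutators, under `[J,·]` and
`[pre X, ·]`, `X ∈ h` (`S_ClX` with `π = pre2`, `J = pre2 (mulI, mulI)`); its projections are `Sp f`, `Sp f'`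
(`S_PjP`, `S_OnS`). `S_GrS` for `P = g`, `L = Sp f`: `φ`, `IsIs f f' J J' φ` (`mem`, `br`, `J`: uniqueness `Y = φ X`;
`inj`: `(X,0) ∈ g`; `surj`). An eigenvector `x ≠ 0` of `J`, eigenvalue `i` (`S_JS`, `dim ≥ 1`). `S_ThA`, `S_ThB`: `θ`
with `θ (X v) = φ X (θ v)`, `X ∈ Sp f`. For `X ∈ h` and `C ∈ g`: `[pre X.1, C.1]` corresponds to
`[pre X.2, C.2]`, so `[φ (pre X.1) - pre X.2, C.2] = 0` for all `C.2 ∈ Sp f'`, and `S_PcS` (2):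
`φ (pre X.1) = pre X.2` (both in `Sp f'`: `IsFs.skew`). -/
def S_LkS : Prop :=
  S_Bs → S_Ts → S_PcS → S_ExS → S_ThA → S_ThB → S_GrS → S_ClX → S_JS → S_OnS → S_PjP →
  ∀ (G G' : AV) (E : G.V →ₗ[ℝ] G.V →ₗ[ℝ] ℝ) (E' : G'.V →ₗ[ℝ] G'.V →ₗ[ℝ] ℝ)
    (f : Frm G →ₗ[ℂ] Frm G →ₗ[ℂ] ℂ) (f' : Frm G' →ₗ[ℂ] Frm G' →ₗ[ℂ] ℂ),
    1 ≤ finrank ℂ G.V → IsRf G E → IsRf G' E' → IsFs E f → IsFs E' f' → SpB E → SpB E' →
    ∀ h, HLieP E E' h → (∀ A, ((A, 0) : Module.End ℂ (Frm G) × Module.End ℂ (Frm G')) ∈ gg2 h →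
      A = 0) → (∀ B, ((0, B) : Module.End ℂ (Frm G) × Module.End ℂ (Frm G')) ∈ gg2 h → B = 0) →
    ∃ θ : Frm G →ₗ[ℂ] Frm G', θ ≠ 0 ∧ ∀ X ∈ h, ∀ a, θ (pre X.1 a) = pre X.2 (θ a)

/-- **IgS**: AN INTERTWINER GIVES AN ISOGENY. PROOF. Lattice bases of `G`, `G'` and the dual bases of `Frm G`,
`Frm G'` (rational forms): `θ` has a matrix `(θ_ij)`; basis `λ_t` of the `ℚ`-span of the `θ_ij`,
`θ = ∑_t λ_t Θ_t`, `Θ_t` with rational matrices; `pre X.1`, `pre X.2` have rational matrices (`X ∈ h`), so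
`Θ_t (pre X.1 a) = pre X.2 (Θ_t a)` for all `t`; some `Θ_t ≠ 0`. `Θ_t a = a ∘ u` for a real linear
`u : G'.V → G.V` which maps lattice vectors to rational vectors, and `X.1 ∘ u = u ∘ X.2` for `X ∈ h`, so (linear,
`HLieP.J`) `u` commutes with `i`: `u` is complex linear. The kernel of `a ↦ a ∘ u` is stable under `pre X.1`,
`X ∈ h`, so under `gg (fst '' h) = Sp f` (`S_PjP`, `S_OnS`), and it is not everything, so it is `0` (`S_Ts`);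
the range is stable under `Sp f'` and not `0`, so it is everything. So `u` is bijective, and it is an isogeny;
its inverse by `S_IsoInv`. (Compare SE/Big/RatSp.lean, SE/Q/Iso.lean.) -/
def S_IgS : Prop :=
  S_Bs → S_Ts → S_OnS → S_PjP → E.S_IsoInv →
  ∀ (G G' : AV) (E : G.V →ₗ[ℝ] G.V →ₗ[ℝ] ℝ) (E' : G'.V →ₗ[ℝ] G'.V →ₗ[ℝ] ℝ)
    (f : Frm G →ₗ[ℂ] Frm G →ₗ[ℂ] ℂ) (f' : Frm G' →ₗ[ℂ] Frm G' →ₗ[ℂ] ℂ),
    IsRf G E → IsRf G' E' → IsFs E f → IsFs E' f' → SpB E → SpB E' →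
    ∀ h, HLieP E E' h → ∀ θ : Frm G →ₗ[ℂ] Frm G', θ ≠ 0 →
    (∀ X ∈ h, ∀ a, θ (pre X.1 a) = pre X.2 (θ a)) → Isg G G'

/-- Pairs: isogenous or independent. -/
def PaS : Prop :=
  ∀ (G G' : AV) (E : G.V →ₗ[ℝ] G.V →ₗ[ℝ] ℝ) (E' : G'.V →ₗ[ℝ] G'.V →ₗ[ℝ] ℝ)
    (f : Frm G →ₗ[ℂ] Frm G →ₗ[ℂ] ℂ) (f' : Frm G' →ₗ[ℂ] Frm G' →ₗ[ℂ] ℂ),
    1 ≤ finrank ℂ G.V → IsRf G E → IsRf G' E' → IsFs E f → IsFs E' f' → SpB E → SpB E' →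
    ¬ Isg G G' → ∀ h, HLieP E E' h → ∀ A ∈ Sp f, ∀ B ∈ Sp f',
    ((A, B) : Module.End ℂ (Frm G) × Module.End ℂ (Frm G')) ∈ gg2 h

/-- **PaA**: assembly. PROOF. `N = {A | (A,0) ∈ gg2 h}` is an ideal of `Sp f` (`S_ClX` (1), the projection is onto,
`S_PjP`, `S_OnS`): `0` or `Sp f` (`S_SiS`). If it is `Sp f`: `(A,0) ∈ gg2 h`, `(A',B) ∈ gg2 h` for some `A' ∈ Sp f`,
so `(A,B)` is. The same for `N' = {B | (0,B) ∈ gg2 h}`. If both are `0`: `S_LkS`, `S_IgS`, against `¬ Isg`. -/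
def S_PaA : Prop :=
  S_Bs → S_Ts → S_SiS → S_PcS → S_ExS → S_ThA → S_ThB → S_GrS → S_ClX → S_JS → S_OnS → S_PjP →
  S_LkS → S_IgS → E.S_IsoInv → PaS

/-! ## Tuples -/

/-- A `ℚ`-Lie algebra of rational skew tuples whose real span contains `i`. -/
structure HLieG {q : ℕ} {G : Fin q → AV} (E : ∀ k, (G k).V →ₗ[ℝ] (G k).V →ₗ[ℝ] ℝ)
    (h : Set (Tup G)) : Prop where
  rat : ∀ X ∈ h, ∀ k, RatEnd (G k) (X k)
  sk : ∀ X ∈ h, ∀ k, IsSk (E k) (X k)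
  zero : (0 : Tup G) ∈ h
  add : ∀ X ∈ h, ∀ Y ∈ h, X + Y ∈ h
  smul : ∀ x : ℚ, ∀ X ∈ h, (x : ℝ) • X ∈ h
  br : ∀ X ∈ h, ∀ Y ∈ h, X * Y - Y * X ∈ h
  J : JT G ∈ Submodule.span ℝ h

/-- **PrG**: projections. PROOF. Directly. (Compare SE/Q/PrT.lean.) -/
def S_PrG : Prop :=
  ∀ (q : ℕ) (G : Fin q → AV) (E : ∀ k, (G k).V →ₗ[ℝ] (G k).V →ₗ[ℝ] ℝ) (h : Set (Tup G)),
    HLieG E h → (∀ k, HLieS (E k) ((fun X => X k) '' h) ∧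
      (∀ C ∈ ggT h, C k ∈ gg ((fun X : Tup G => X k) '' h)) ∧
      ∀ C ∈ gg ((fun X : Tup G => X k) '' h), ∃ C' ∈ ggT h, C' k = C) ∧
    ∀ k l, HLieP (E k) (E l) ((fun X => (X k, X l)) '' h) ∧
      ∀ C ∈ gg2 ((fun X : Tup G => (X k, X l)) '' h), ∃ C' ∈ ggT h, (C' k, C' l) = C

/-- The data of a tuple of factors with Hodge group `Sp`. -/
structure TuD {q : ℕ} (G : Fin q → AV) (E : ∀ k, (G k).V →ₗ[ℝ] (G k).V →ₗ[ℝ] ℝ)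
    (f : ∀ k, Frm (G k) →ₗ[ℂ] Frm (G k) →ₗ[ℂ] ℂ) : Prop where
  two : ∀ k, 2 ≤ finrank ℂ (G k).V
  rf : ∀ k, IsRf (G k) (E k)
  fs : ∀ k, IsFs (E k) (f k)
  sp : ∀ k, SpB (E k)
  ni : ∀ k l, k ≠ l → ¬ Isg (G k) (G l)

/-- The commutators realise all families. -/
def HiG {q : ℕ} {G : Fin q → AV} (f : ∀ k, Frm (G k) →ₗ[ℂ] Frm (G k) →ₗ[ℂ] ℂ)
    (h : Set (Tup G)) : Prop :=
  (∀ C ∈ ggT h, ∀ k, C k ∈ Sp (f k)) ∧ ∀ A : ∀ k, Module.End ℂ (Frm (G k)),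
    (∀ k, A k ∈ Sp (f k)) → A ∈ ggT h

/-- **TuS**: TUPLES. PROOF. `S_RbS` with `L k = Sp (f k)` (perfect: `S_PcS`), `g = ggT h` (`S_ClX` (1) with
`π X = (pre (X k))_k`); one component: `S_PrG`, `S_OnS`; two: `PaS` with `B = 0`. -/
def S_TuS : Prop :=
  S_Bs → S_Ts → S_PcS → S_RbS → S_ClX → S_JS → S_OnS → S_PrG → PaS →
  ∀ (q : ℕ) (G : Fin q → AV) (E : ∀ k, (G k).V →ₗ[ℝ] (G k).V →ₗ[ℝ] ℝ)
    (f : ∀ k, Frm (G k) →ₗ[ℂ] Frm (G k) →ₗ[ℂ] ℂ), TuD G E f → ∀ h, HLieG E h → HiG f h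

/-- **ReG**: REAL FORM. PROOF. `A k = pre (Y k)`: `A ∈ ggT h`, `A = ∑_j c_j (pre (Y_j k))_k`, `Y_j ∈ ComT h`; so
`A = (pre (P k) + i pre (Q k))_k`, `P = ∑ Re (c_j) Y_j`, `Q = ∑ Im (c_j) Y_j`; real valued forms:
`Y k = P k`. (Compare SE/Q/ReT.lean.) -/
def S_ReG : Prop :=
  ∀ (q : ℕ) (G : Fin q → AV) (E : ∀ k, (G k).V →ₗ[ℝ] (G k).V →ₗ[ℝ] ℝ)
    (f : ∀ k, Frm (G k) →ₗ[ℂ] Frm (G k) →ₗ[ℂ] ℂ), (∀ k, IsFs (E k) (f k)) → ∀ h, HiG f h →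
    ∀ Y : Tup G, (∀ k, IsSk (E k) (Y k)) → Y ∈ Submodule.span ℝ (ComT h)

/-! ## The mixed Lie algebra -/

section Mix

variable {q q' : ℕ} {T : Fin q → AV} {m : Fin q → ℕ} {B : AV} {ι : Type} {G : Fin q' → AV}

/-- A tuple, an endomorphism of `B`, a tuple. -/
abbrev TM (T : Fin q → AV) (B : AV) (G : Fin q' → AV) : Type := TB T B × Tup G

/-- The commutators. -/
def ComM (h : Set (TM T B G)) : Set (TM T B G) := {Y | ∃ X ∈ h, ∃ X' ∈ h, Y = X * X' - X' * X}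

/-- A `ℚ`-Lie algebra of rational elements of `∏ u_i × S.s × ∏ sp_k` whose real span contains `i`. -/
structure HLieM (D : ∀ i, Cyc (T i) (m i)) (S : GC B ι)
    (E : ∀ k, (G k).V →ₗ[ℝ] (G k).V →ₗ[ℝ] ℝ) (h : Set (TM T B G)) : Prop where
  rat : ∀ X ∈ h, (∀ i, RatEnd (T i) (X.1.1 i)) ∧ RatEnd B X.1.2 ∧ ∀ k, RatEnd (G k) (X.2 k)
  u : ∀ X ∈ h, ∀ i, IsU (D i) (X.1.1 i)
  op : ∀ X ∈ h, X.1.2 ∈ S.s
  sk : ∀ X ∈ h, ∀ k, IsSk (E k) (X.2 k)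
  zero : (0 : TM T B G) ∈ h
  add : ∀ X ∈ h, ∀ Y ∈ h, X + Y ∈ h
  smul : ∀ x : ℚ, ∀ X ∈ h, (x : ℝ) • X ∈ h
  br : ∀ X ∈ h, ∀ Y ∈ h, X * Y - Y * X ∈ h
  J : (((JT T, mulI B), JT G) : TM T B G) ∈ Submodule.span ℝ h

/-- Operators on the forms. -/
abbrev CM' (T : Fin q → AV) (B : AV) (G : Fin q' → AV) : Type :=
  CB T B × (∀ k, Module.End ℂ (Frm (G k)))

/-- The action on the forms. -/
def preM (X : TM T B G) : CM' T B G := (preR X.1, fun k => pre (X.2 k))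

/-- Complex combinations of commutators. -/
def ggM (h : Set (TM T B G)) : Submodule ℂ (CM' T B G) := Submodule.span ℂ (preM '' ComM h)

end Mix

/-- **PjM**: projections. PROOF. Directly (images of spans); the last statement: `ComM h ⊆ h`, `op`. -/
def S_PjM : Prop :=
  ∀ (q q' : ℕ) (T : Fin q → AV) (m : Fin q → ℕ) (D : ∀ i, Cyc (T i) (m i)) (B : AV) (ι : Type)
    (S : GC B ι) (G : Fin q' → AV) (E : ∀ k, (G k).V →ₗ[ℝ] (G k).V →ₗ[ℝ] ℝ)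
    (h : Set (TM T B G)), HLieM D S E h →
    HLieR D S (Prod.fst '' h) ∧ HLieG E (Prod.snd '' h) ∧
    (∀ C ∈ ggR (Prod.fst '' h), ∃ C' ∈ ggM h, C'.1 = C) ∧
    (∀ C ∈ ggT (Prod.snd '' h), ∃ C' ∈ ggM h, C'.2 = C) ∧
    (∀ C ∈ ggM h, C.1 ∈ ggR (Prod.fst '' h) ∧ C.2 ∈ ggT (Prod.snd '' h)) ∧
    ∀ C ∈ ggM h, C.1.2 ∈ Submodule.span ℂ (pre '' S.s)

/-- **M1**: elements with `B`-component `0`. PROOF. `N` = the set of the `C.2 k`, `C ∈ ggM h`, `C.1.2 = 0`: an ideal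
of `Sp (f k)` (`S_ClX` with `π = preM`; `HiG` and `S_PjM`: all of `Sp (f k)` is hit). Nonzero: `J_k = pre (mulI)` is
in `Sp (f k)` (`S_JS`, `IsFs.skew`), two independent eigenvectors for `i` (`S_JS`, `TuD.two`), `S_NaS`: `X, Y ∈ Sp (f k)`
commuting with `J_k`, `[X,Y] ≠ 0`; `C, C' ∈ ggM h` with `C.2 k = X`, `C'.2 k = Y`. `Φ C = C - J C J ∈ ggM h`
(`S_ClX` (4) with `J = preM ((JT T, mulI B), JT G)`, `J² = -1` by `S_JS`), `(Φ C).2 k = 2 X`. `[Φ C, Φ C']` has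
`B`-component `0` (`S_Cmt`, `S_PjM`) and `k`-component `4 [X,Y] ≠ 0`. `S_SiS`: `N = Sp (f k)`. -/
def S_M1 : Prop :=
  S_Bs → S_Ts → S_SiS → S_NaS → S_ClX → S_JS → S_Cmt → S_PjM →
  ∀ (q q' : ℕ) (T : Fin q → AV) (m : Fin q → ℕ) (D : ∀ i, Cyc (T i) (m i)) (B : AV) (ι : Type)
    (S : GC B ι) (G : Fin q' → AV) (E : ∀ k, (G k).V →ₗ[ℝ] (G k).V →ₗ[ℝ] ℝ)
    (f : ∀ k, Frm (G k) →ₗ[ℂ] Frm (G k) →ₗ[ℂ] ℂ) (h : Set (TM T B G)), TuD G E f →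
    HLieM D S E h → HiG f (Prod.snd '' h) →
    ∀ k, ∀ A ∈ Sp (f k), ∃ C ∈ ggM h, C.1.2 = 0 ∧ C.2 k = A

/-- **NoI**: NO ISOMORPHISM of `sl(W)` and `sp` compatible with `i`. PROOF. `P` is the graph of a linear
bijection of the traceless operators of `W = Ws D s` and `Sp f`: `r² - 1 = dim Sp f`, `2 dim Sp f = n (n + 1)`,
`n = 2 g`, `g = finrank ℂ G.V` (`S_DiS`, `S_JS`; `Two_aux.finrank_ker_trace`, SE/Big/Two.lean; `S_Dim`). `S₁` = the `A`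
with `[J,A] = 2 i A` (`Two_aux.SJ`, `S_AdJ`: dimension `p q`, `p = p s`, `q = p (-s)`, traceless), `U` = the `X ∈ Sp f` with
`[J,X] = 2 i X` (`S_DiS`, `S_JS`: `2 dim U = g (g + 1)`). For `(A,Y) ∈ P`, `A ∈ S₁`: `(2 i A, [J,Y]) ∈ P` and
`(2 i A, 2 i Y) ∈ P`, so `Y ∈ U`; conversely the same; so `p q = dim U`. With `p + q = r` (`S_Dim`):
`4 p q ≤ r²`, `2 g (g + 1) ≤ g (2 g + 1) + 1`, `g ≤ 1`. -/
def S_NoI : Prop :=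
  S_DiS → S_JS → S_Dim → S_AdJ →
  ∀ (T : AV) (m r : ℕ) (D : Cyc T m), 3 ≤ m → 2 * finrank ℂ T.V = r * Nat.totient m →
    ∀ (s : (ZMod m)ˣ) (G : AV) (E : G.V →ₗ[ℝ] G.V →ₗ[ℝ] ℝ) (f : Frm G →ₗ[ℂ] Frm G →ₗ[ℂ] ℂ),
    IsRf G E → IsFs E f → 2 ≤ finrank ℂ G.V →
    ∀ P : Submodule ℂ (Module.End ℂ (Ws D s) × Module.End ℂ (Frm G)),
    (∀ x ∈ P, LinearMap.trace ℂ (Ws D s) x.1 = 0 ∧ x.2 ∈ Sp f) →
    (∀ X, LinearMap.trace ℂ (Ws D s) X = 0 → ∃ Y, (X, Y) ∈ P) →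
    (∀ Y ∈ Sp f, ∃ X, (X, Y) ∈ P) → (∀ Y, ((0 : Module.End ℂ (Ws D s)), Y) ∈ P → Y = 0) →
    (∀ X, (X, (0 : Module.End ℂ (Frm G))) ∈ P → X = 0) →
    (∀ x ∈ P, ∀ X' : Module.End ℂ (Ws D s), (∀ a b : Ws D s,
      (b : Frm T) = pre (mulI T) (a : Frm T) →
      (X' a : Frm T) = pre (mulI T) (x.1 a : Frm T) - (x.1 b : Frm T)) →
      (X', pre (mulI G) * x.2 - x.2 * pre (mulI G)) ∈ P) → False

/-- All half systems are hit with `B`-component `0` (SE-R). -/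
def H0 {q : ℕ} {T : Fin q → AV} {m : Fin q → ℕ} (D : ∀ i, Cyc (T i) (m i)) (B : AV) : Prop :=
  ∀ (ι : Type) (S : GC B ι) (h : Set (TB T B)), HLieR D S h →
    ∀ F : Set (Ch m), (∀ x ∈ F, neg x ∉ F) → Hits0 D h F

/-- **M2**: elements with `(T, B)`-component `0`. PROOF. `N` = the set of the `C.2 k`, `C ∈ ggM h`, `C.1 = 0`: an ideal
of `Sp (f k)` (as in `S_M1`), so `N = Sp (f k)` or `N = 0` (`S_SiS`). Suppose `N = 0`. `F` a half system of characters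
with `x ∈ F` or `neg x ∈ F` for all `x` (`3 ≤ m i`; as in SE/R/SuR.lean). For `x ∈ F`: `𝔪 x` = the `C ∈ ggM h` with
`C.1.2 = 0` and `C.1.1 z.1 = 0` on `WT D z` for `z ∈ F`, `z ≠ x`. `H0`, `S_PjM`: every traceless operator of `WT D x` is
the restriction of some `C.1.1 x.1`, `C ∈ 𝔪 x`. If `C ∈ ggM h`, `C.1.2 = 0` and `C.1.1 z.1 = 0` on `WT D z` for all
`z ∈ F` then `C.1 = 0` (`S_Ln` for the components, `SEB.S_Bas`), so `C.2 k = 0`. So (`S_M1`) `Sp (f k)` is the sum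
over `x ∈ F` of the images of the `𝔪 x`: for `C ∈ ggM h`, `C.1.2 = 0`, subtract `C^x ∈ 𝔪 x` with the same (traceless,
`S_Cl` for the components) restriction to `WT D x`. These images are ideals, so for some `x` it is `Sp (f k)`
(`S_SiS`; `Sp (f k) ≠ 0`). `P` = the set of the (restriction of `C.1.1 x.1` to `WT D x`, `C.2 k`), `C ∈ 𝔪 x`. If
`(0,Y) ∈ P` then `Y = 0` (above). `{X | (X,0) ∈ P}` is stable under `[A,·]`, `A` traceless: if it is not `0` it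
contains all traceless operators (`SER.S_Sim`), so for `(X,Y) ∈ P` also `(0,Y) ∈ P`, `Y = 0`, `Sp (f k) = 0`:
contradiction. `𝔪 x` is stable under `[J,·]` (`S_ClX` (3)). `S_NoI`. -/
def S_M2 : Prop :=
  S_Bs → S_Ts → S_SiS → S_ClX → S_JS → S_PjM → S_NoI → S_DiS → S_Dim → S_AdJ → S_Sim → S_M1 →
  S_NaS → S_Cmt →
  ∀ (q q' : ℕ) (T : Fin q → AV) (m r : Fin q → ℕ) (D : ∀ i, Cyc (T i) (m i)) (B : AV) (ι : Type)
    (S : GC B ι) (G : Fin q' → AV) (E : ∀ k, (G k).V →ₗ[ℝ] (G k).V →ₗ[ℝ] ℝ)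
    (f : ∀ k, Frm (G k) →ₗ[ℂ] Frm (G k) →ₗ[ℂ] ℂ) (h : Set (TM T B G)), TuD G E f →
    (∀ i, 3 ≤ m i) → (∀ i, 2 * finrank ℂ (T i).V = r i * Nat.totient (m i)) → H0 D B →
    HLieM D S E h → HiG f (Prod.snd '' h) →
    ∀ k, ∀ A ∈ Sp (f k), ∃ C ∈ ggM h, C.1 = 0 ∧ C.2 k = A

/-- **M3**: everything is hit with `(T, B)`-component `0`. PROOF. By linearity `A` has one component `A k` only, and
(`S_PcS`) `A k = [X,Y]`, `X, Y ∈ Sp (f k)`. `C` from `S_M2` with `C.1 = 0`, `C.2 k = X`; `C'` with `C'.2 = Y` at `k` and `0`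
at the other places (`HiG`, `S_PjM`). `[C,C']`. -/
def S_M3 : Prop :=
  S_Bs → S_Ts → S_PcS → S_ClX → S_PjM →
  ∀ (q q' : ℕ) (T : Fin q → AV) (m : Fin q → ℕ) (D : ∀ i, Cyc (T i) (m i)) (B : AV) (ι : Type)
    (S : GC B ι) (G : Fin q' → AV) (E : ∀ k, (G k).V →ₗ[ℝ] (G k).V →ₗ[ℝ] ℝ)
    (f : ∀ k, Frm (G k) →ₗ[ℂ] Frm (G k) →ₗ[ℂ] ℂ) (h : Set (TM T B G)), TuD G E f →
    HLieM D S E h → HiG f (Prod.snd '' h) →
    (∀ k, ∀ A ∈ Sp (f k), ∃ C ∈ ggM h, C.1 = 0 ∧ C.2 k = A) →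
    ∀ A : ∀ k, Module.End ℂ (Frm (G k)), (∀ k, A k ∈ Sp (f k)) → ((0, A) : CM' T B G) ∈ ggM h

/-- The Lie algebra contains `0 × ∏ sp_k`. -/
def LM {q q' : ℕ} {T : Fin q → AV} {m : Fin q → ℕ} (D : ∀ i, Cyc (T i) (m i)) (B : AV)
    (G : Fin q' → AV) (E : ∀ k, (G k).V →ₗ[ℝ] (G k).V →ₗ[ℝ] ℝ) : Prop :=
  ∀ (ι : Type) (S : GC B ι) (h : Set (TM T B G)), HLieM D S E h →
    ∀ Y : Tup G, (∀ k, IsSk (E k) (Y k)) → ((0, Y) : TM T B G) ∈ Submodule.span ℝ (ComM h)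

/-- **M4**: REAL FORM. PROOF. As `S_ReG`; if `preR P + i preR Q = 0` then `P = 0` (real valued forms). -/
def S_M4 : Prop :=
  ∀ (q q' : ℕ) (T : Fin q → AV) (B : AV) (G : Fin q' → AV)
    (E : ∀ k, (G k).V →ₗ[ℝ] (G k).V →ₗ[ℝ] ℝ) (f : ∀ k, Frm (G k) →ₗ[ℂ] Frm (G k) →ₗ[ℂ] ℂ)
    (h : Set (TM T B G)), (∀ k, IsFs (E k) (f k)) →
    (∀ A : ∀ k, Module.End ℂ (Frm (G k)), (∀ k, A k ∈ Sp (f k)) →
      ((0, A) : CM' T B G) ∈ ggM h) →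
    ∀ Y : Tup G, (∀ k, IsSk (E k) (Y k)) → ((0, Y) : TM T B G) ∈ Submodule.span ℝ (ComM h)

/-- The mixed Lie algebra, assembly. -/
theorem lm_of (hBs : S_Bs) (hTs : S_Ts) (hSi : S_SiS) (hPc : S_PcS) (hNa : S_NaS) (hDi : S_DiS)
    (hCl : S_ClX) (hJ : S_JS) (hCm : S_Cmt) (hPj : S_PjM) (hNo : S_NoI) (hDim : S_Dim)
    (hAd : S_AdJ) (hSim : S_Sim) (hM1 : S_M1) (hM2 : S_M2) (hM3 : S_M3) (hM4 : S_M4)
    (q q' : ℕ) (T : Fin q → AV) (m r : Fin q → ℕ) (D : ∀ i, Cyc (T i) (m i)) (B : AV)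
    (G : Fin q' → AV) (E : ∀ k, (G k).V →ₗ[ℝ] (G k).V →ₗ[ℝ] ℝ)
    (f : ∀ k, Frm (G k) →ₗ[ℂ] Frm (G k) →ₗ[ℂ] ℂ) (hT : TuD G E f) (hm : ∀ i, 3 ≤ m i)
    (hd : ∀ i, 2 * finrank ℂ (T i).V = r i * Nat.totient (m i)) (hH : H0 D B)
    (hG : ∀ h, HLieG E h → HiG f h) : LM D B G E := by
  intro ι S h hh
  have h1 := hG _ (hPj q q' T m D B ι S G E h hh).2.1
  have h2 := hM2 hBs hTs hSi hCl hJ hPj hNo hDi hDim hAd hSim hM1 hNa hCm q q' T m r D B ι S G E f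
    h hT hm hd hH hh h1
  exact hM4 q q' T B G E f h hT.fs (hM3 hBs hTs hPc hCl hPj q q' T m D B ι S G E f h hT hh h1 h2)

end SES
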