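import Pool.Agent.Lib.SE.S.Spec2
import Pool.Agent.Lib.SE.R.Spec2
import Pool.Agent.Lib.SE.W.Spec
import Pool.Agent.Lib.HC.L.E.Top

/-!
# PROJECT SE-S, part 3: Hodge classes; the final theorem with `Sp` factors (helper59)

`T ~ T₁ × Y`, `Y = ∏_n G (κ n)`, `G k` with Hodge Lie algebra `sp(E k)` (`TuD`),
`T₁ ~ ((A × ∏ R_(k n)) × ∏ J_(j n)) × B₂` as in SE-R.
(1) every Hodge class on `Y` is killed by the skew tuples, so (first fundamental theorem for `Sp`) it is a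
combination of products of classes dual to the forms; (2) `(0, i_Y)` kills the Hodge classes of
`T₁ × Y` (`LM`), so they are sums of products.

Every module: file `SE/S/Xyz.lean`, `theorem tXyz : S_Xyz`, namespace `SES`, import
`Pool.Agent.Lib.SE.S.Spec3` (and proved modules of other projects which you want to use or copy from). The
hypotheses `S_A → S_B →` are part of the statement.
-/

set_option autoImplicit false

open Module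
open Pool.Agent.Lib.MP_640417_ag.Fg (Mono InL)

noncomputable section

namespace SES

open HC HC.E HC.SE SEB SEQ SER SE

/-! ## One copy of each -/

section Hdg

variable {q : ℕ} {G : Fin q → AV}

/-- `H¹` of one copy of each. -/
abbrev VS (G : Fin q → AV) : Type := ∀ k, Frm (G k)

/-- The sum of the forms. -/
def FRMs (f : ∀ k, Frm (G k) →ₗ[ℂ] Frm (G k) →ₗ[ℂ] ℂ) : LinearMap.BilinForm ℂ (VS G) :=
  ∑ k, (f k).compl₁₂ (LinearMap.proj k) (LinearMap.proj k)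

/-- The projection on the component `k`. -/
def eK (G : Fin q → AV) (k : Fin q) : Module.End ℂ (VS G) :=
  LinearMap.single ℂ (fun k => Frm (G k)) k ∘ₗ LinearMap.proj k

/-- The combinations of the projections. -/
def CK (G : Fin q → AV) : Set (Module.End ℂ (VS G)) :=
  {Y | ∃ c : Fin q → ℂ, Y = ∑ k, c k • eK G k}

/-- The ranges of the projections. -/
def StK (G : Fin q → AV) (W : Submodule ℂ (VS G)) : Prop := ∃ k, W = LinearMap.range (eK G k)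

/-- `F` is killed by the skew tuples. -/
def KdS (E : ∀ k, (G k).V →ₗ[ℝ] (G k).V →ₗ[ℝ] ℝ) {d : ℕ}
    (F : MultilinearMap ℂ (fun _ : Fin d => VS G) ℂ) : Prop :=
  ∀ U : Tup G, (∀ k, IsSk (E k) (U k)) → ∀ a : Fin d → VS G,
    ∑ p, F (Function.update a p fun k => a p k ∘ₗ U k) = 0

/-! ## Copies -/

variable {N : ℕ} {κ : Fin N → Fin q} (C : SE.Prd fun n => G (κ n))

/-- `G k → Y`, zero if `κ n ≠ k`, the inclusion of the copy `n` otherwise. -/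
def emS (n : Fin N) (k : Fin q) : (G k).V →ₗ[ℂ] C.Y.V :=
  C.ψ.symm.toLinearMap ∘ₗ LinearMap.single ℂ (fun n => (G (κ n)).V) n ∘ₗ
    (LinearMap.proj (κ n) : (∀ k, (G k).V) →ₗ[ℂ] _) ∘ₗ LinearMap.single ℂ (fun k => (G k).V) k

/-- The form on the copy `n`. -/
def inS (n : Fin N) : VS G →ₗ[ℂ] Frm C.Y :=
  pull ((LinearMap.proj n : (∀ n, (G (κ n)).V) →ₗ[ℂ] _) ∘ₗ C.ψ.toLinearMap) ∘ₗ
    LinearMap.proj (κ n)

/-- Restriction to the copy `n`. -/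
def quS (n : Fin N) : Frm C.Y →ₗ[ℂ] VS G := LinearMap.pi fun k => pull (emS C n k)

/-- The diagonal operators. -/
def dgS : Tup G →ₗ[ℝ] Module.End ℝ C.Y.V where
  toFun X := (C.ψ.symm.toLinearMap.restrictScalars ℝ) ∘ₗ
    (LinearMap.pi fun n => X (κ n) ∘ₗ LinearMap.proj n) ∘ₗ C.ψ.toLinearMap.restrictScalars ℝ
  map_add' X Y := by
    refine LinearMap.ext fun v => ?_
    change C.ψ.symm (fun n => X (κ n) (C.ψ v n) + Y (κ n) (C.ψ v n)) =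
      C.ψ.symm (fun n => X (κ n) (C.ψ v n)) + C.ψ.symm (fun n => Y (κ n) (C.ψ v n))
    rw [← map_add]
    rfl
  map_smul' r X := by
    refine LinearMap.ext fun v => ?_
    change C.ψ.symm (fun n => r • X (κ n) (C.ψ v n)) = r • C.ψ.symm (fun n => X (κ n) (C.ψ v n))
    have h : (fun n => r • X (κ n) (C.ψ v n)) =
        (r : ℂ) • (fun n => X (κ n) (C.ψ v n) : ∀ n, (G (κ n)).V) := by
      funext n
      exact (Complex.coe_smul r _).symm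
    rw [h, map_smul, Complex.coe_smul]

/-- The rational skew tuples. -/
def MS (E : ∀ k, (G k).V →ₗ[ℝ] (G k).V →ₗ[ℝ] ℝ) : Set (Tup G) :=
  {X | ∀ k, RatEnd (G k) (X k) ∧ IsSk (E k) (X k)}

/-- `c` is killed by the diagonal skew tuples. -/
def KlS (E : ∀ k, (G k).V →ₗ[ℝ] (G k).V →ₗ[ℝ] ℝ) {m : ℕ} (c : Hlg C.Y m) : Prop :=
  ∀ X : Tup G, (∀ k, IsSk (E k) (X k)) → ∀ a, lieAct (dgS C X) c a = 0

end Hdg

/-- **FfS**: FIRST FUNDAMENTAL THEOREM. PROOF. `Fg.fft_gen` (MP_640417_ag/Fg/FftM.lean), `Fg.gen_mono`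
(Fg/Eig.lean) for `V = VS G`, `form = FRMs f`, `e₀ = -1`, `St = StK G`, exactly as SE/W/FFT.lean (copy it):
`eK G k` are orthogonal idempotents with sum `1`, `CK G` is a subalgebra. `RegC`: invert the nonzero
coefficients; `AdjCl`: `FRMs f (eK k x) y = FRMs f x (eK k y)`; `InL`: `X` commutes with the `eK`, so it is block
diagonal, and its blocks `X_k` (`X_k a = X (single k a) k`) are in `Sp (f k)`. `hZ`: if `Z` commutes with all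
these, `Z_k` commutes with `Sp (f k)` (the `X` with one block), `S_PcS` (2): `Z = 0`. `hSt`: a minimal
idempotent is one `eK`. `Kd`: `X = P Q - Q P` has blocks `X_k ∈ Sp (f k)`, `X_k = pre A_k + i pre B_k` (`IsFs.real`),
`A`, `B` skew tuples: `KdS`, linearity. -/
def S_FfS : Prop :=
  S_Bs → S_Ts → S_PcS → S_JS →
  ∀ (q : ℕ) (G : Fin q → AV) (E : ∀ k, (G k).V →ₗ[ℝ] (G k).V →ₗ[ℝ] ℝ)
    (f : ∀ k, Frm (G k) →ₗ[ℂ] Frm (G k) →ₗ[ℂ] ℂ), (∀ k, IsFs (E k) (f k)) → ∀ (d : ℕ)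
    (F : MultilinearMap ℂ (fun _ : Fin d => VS G) ℂ), KdS E F →
    (F : (Fin d → VS G) → ℂ) ∈
      Submodule.span ℂ {M : (Fin d → VS G) → ℂ | Mono (FRMs f) (CK G) (StK G) d M}

/-- **ExK**: EXPANSION. PROOF. `∑_n inS n ∘ quS n = 1` (`emS n (κ n) = ψ⁻¹ ∘ single n`,
`a = ∑_n a ∘ ψ⁻¹ ∘ single n ∘ proj n ∘ ψ`), `MultilinearMap.map_sum` (as SE/W/Exd.lean).
`(inS n b) ∘ dgS X = inS n (k ↦ b k ∘ X k)`, so `KlS` gives `KdS` (as SE/W/Kil.lean). -/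
def S_ExK : Prop :=
  ∀ (q N : ℕ) (G : Fin q → AV) (κ : Fin N → Fin q) (E : ∀ k, (G k).V →ₗ[ℝ] (G k).V →ₗ[ℝ] ℝ)
    (C : SE.Prd fun n => G (κ n)) (m : ℕ) (c : Hlg C.Y m),
    (c.toMultilinearMap =
      ∑ u : Fin m → Fin N, c.toMultilinearMap.compLinearMap fun p => inS C (u p) ∘ₗ quS C (u p)) ∧
    (KlS C E c → ∀ u : Fin m → Fin N,
      KdS E (c.toMultilinearMap.compLinearMap fun p => inS C (u p)))

/-- **InS**: the class dual to the Riemann form is algebraic. PROOF. `SE.S_Inv`, SE/W/Inv.lean: the proof of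
`tInv` uses only `T`, `R = E` (`rat`, `alt`, `herm`, `pos`) and `val`, `alt`, `nd` of the form: copy it. -/
def S_InS : Prop :=
  ∀ (G : AV) (E : G.V →ₗ[ℝ] G.V →ₗ[ℝ] ℝ) (f : Frm G →ₗ[ℂ] Frm G →ₗ[ℂ] ℂ), IsRf G E → IsFs E f →
    ∀ F : ML G (Fin 2), (∀ a, F a = f (a 0) (a 1)) → QA Alg G (Fin 2) F

/-- **PrS**: A PAIR BLOCK. PROOF. `c = ∑ c_k eK k`; `F a = ∑_k c_k f_k (pull φ₀ a₀) (pull φ₁ a₁)`,
`φ_i = emS C (u i) k` (they preserve the lattices: `C.lat`); `S_Qal` (sums, multiples): one `k`. `F₀(x,y) = f_k x y`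
is in `QA Alg (G k)` (`S_InS`), so in `QA Q` (`Cl.base`); `pullML φ F₀ ∈ QA Q Y` for `φ = φ₀ + φ₁`, `φ₀`, `φ₁`
(`S_Qal`), the difference `f (pull φ₀ a₀) (pull φ₁ a₁) + f (pull φ₁ a₀) (pull φ₀ a₁)` is in `QA`; the two terms have
the same alternation (swap the variables, `alt`), and `QA` depends only on the alternation. (Compare
SE/W/Npr.lean.) -/
def S_PrS : Prop :=
  S_InS → SE.S_Qal → ∀ (Q : (T : AV) → (m : ℕ) → Hlg T m → Prop), SE.Cl Q →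
  ∀ (q N : ℕ) (G : Fin q → AV) (κ : Fin N → Fin q) (E : ∀ k, (G k).V →ₗ[ℝ] (G k).V →ₗ[ℝ] ℝ)
    (f : ∀ k, Frm (G k) →ₗ[ℂ] Frm (G k) →ₗ[ℂ] ℂ) (C : SE.Prd fun n => G (κ n)),
    (∀ k, IsRf (G k) (E k)) → (∀ k, IsFs (E k) (f k)) → ∀ c ∈ CK G, ∀ (u : Fin 2 → Fin N)
    (F : ML C.Y (Fin 2)), (∀ a, F a = FRMs f (c (quS C (u 0) (a 0))) (quS C (u 1) (a 1))) →
      QA Q C.Y (Fin 2) F

/-- **DtK**: A DETERMINANT BLOCK. PROOF. `W` = the range of `eK k`; `W.subtype ∘ p i = c_i eK k` (it is in `CK` and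
has values in `W`). `F a = const det (y l (pull φ_i (a i)))`, `φ_i = emS C (u i) k`, `y l` the coordinates of the
basis of `Frm (G k)` which corresponds to `b` (`d = 2 dim G k`). `SE.S_Pol`: up to alternation `F` is a
combination of the `prodML (y l ∘ pull φ)`, `φ = ∑_(i ∈ A) φ_i`, which is `pullML φ (prodML y)`; the alternation
of `prodML y` is a class of degree `2 dim (G k)`, algebraic (`HC.E.tTop`; `finrank_W` in HC/L/E/Top.lean).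
`S_Qal`. (Copy SE/W/Ndt.lean.) -/
def S_DtK : Prop :=
  SE.S_Pol → SE.S_Qal → ∀ (Q : (T : AV) → (m : ℕ) → Hlg T m → Prop), SE.Cl Q →
  ∀ (q N : ℕ) (G : Fin q → AV) (κ : Fin N → Fin q) (C : SE.Prd fun n => G (κ n)) (d : ℕ)
    (W : Submodule ℂ (VS G)), StK G W → ∀ (b : Module.Basis (Fin d) ℂ W)
    (p : Fin d → VS G →ₗ[ℂ] W), (∀ i, W.subtype ∘ₗ p i ∈ CK G) → ∀ (u : Fin d → Fin N)
    (F : ML C.Y (Fin d)), (∀ a, F a = b.det fun i => p i (quS C (u i) (a i))) → QA Q C.Y (Fin d) F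

/-- **MoS**: products of blocks. PROOF. Induction on `Mono`: constants (degree 0: `HC/B/Pt.lean`, or `HC.E.tTop`
if `dim = 0`; as in SE/W/Mon.lean), pairs `S_PrS` (the function of `a` is multilinear: it is
`(FRMs f).compl₁₂ ..` as a `MultilinearMap`), determinants `S_DtK`, products and reindexing `S_Qal`. (Compare
SE/W/Mon.lean.) -/
def S_MoS : Prop :=
  S_InS → S_PrS → S_DtK → SE.S_Pol → SE.S_Qal → ∀ (Q : (T : AV) → (m : ℕ) → Hlg T m → Prop),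
  SE.Cl Q → ∀ (q N : ℕ) (G : Fin q → AV) (κ : Fin N → Fin q)
    (E : ∀ k, (G k).V →ₗ[ℝ] (G k).V →ₗ[ℝ] ℝ) (f : ∀ k, Frm (G k) →ₗ[ℂ] Frm (G k) →ₗ[ℂ] ℂ)
    (C : SE.Prd fun n => G (κ n)), (∀ k, IsRf (G k) (E k)) → (∀ k, IsFs (E k) (f k)) → ∀ (d : ℕ)
    (M : (Fin d → VS G) → ℂ), Mono (FRMs f) (CK G) (StK G) d M → ∀ u : Fin d → Fin N,
    ∃ F : ML C.Y (Fin d), (∀ a, F a = M fun p => quS C (u p) (a p)) ∧ QA Q C.Y (Fin d) F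

/-- **HcS**: CLASSES KILLED BY THE SKEW TUPLES. PROOF. `c ∘ (inS quS)_u = (c ∘ inS_u) ∘ quS_u`; `c ∘ inS_u` is a
combination of `Mono`s (`S_ExK`, `S_FfS`), so this function is a combination of `F`s of `S_MoS`; `S_Qal` (sums, last
two statements). -/
def S_HcS : Prop :=
  S_FfS → S_ExK → S_MoS → S_Bs → S_Ts → S_PcS → S_JS → S_InS → S_PrS → S_DtK → SE.S_Pol → SE.S_Qal →
  ∀ (Q : (T : AV) → (m : ℕ) → Hlg T m → Prop), SE.Cl Q →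
  ∀ (q N : ℕ) (G : Fin q → AV) (κ : Fin N → Fin q) (E : ∀ k, (G k).V →ₗ[ℝ] (G k).V →ₗ[ℝ] ℝ)
    (f : ∀ k, Frm (G k) →ₗ[ℂ] Frm (G k) →ₗ[ℂ] ℂ) (C : SE.Prd fun n => G (κ n)),
    (∀ k, IsRf (G k) (E k)) → (∀ k, IsFs (E k) (f k)) → ∀ (m : ℕ) (c : Hlg C.Y m), KlS C E c →
    Q C.Y m c

/-! ## The Lie algebra step -/

/-- The hypotheses of `SER.S_LX`. -/
structure OpX {T : AV} {R : Type} [Ring R] [Algebra ℝ R] (Θ : R →ₗ[ℝ] Module.End ℝ T.V)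
    (M : Set R) (i₀ : R) : Prop where
  lie : ∀ x y, Θ (x * y - y * x) = Θ x * Θ y - Θ y * Θ x
  rat : ∀ x ∈ M, RatEnd T (Θ x)
  zero : (0 : R) ∈ M
  add : ∀ x ∈ M, ∀ y ∈ M, x + y ∈ M
  smul : ∀ z : ℚ, ∀ x ∈ M, (z : ℝ) • x ∈ M
  br : ∀ x ∈ M, ∀ y ∈ M, x * y - y * x ∈ M
  iM : i₀ ∈ Submodule.span ℝ M
  iT : Θ i₀ = mulI T
  ker : ∀ x ∈ Submodule.span ℝ M, Θ x = 0 → x ∈ Submodule.span ℝ {y | y ∈ M ∧ Θ y = 0}

/-- **HrS**: `i` is a real combination of rational skew elements. PROOF. Lattice basis `e_a` of `G`, Gram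
matrix `g_ab = E(e_a,e_b)` rational, invertible (`pos`: `E` is nondegenerate). For `X` let `X†` be the adjoint,
`E(X u,v) = E(u,X† v)` (matrix `g⁻¹ Xᵀ g` up to the convention): real linear in `X`, rational if `X` is.
`mulI = ∑ r_s X_s`, `X_s` rational (`S_Lc1`), `mulI† = -mulI` (`IsRf`: `E(i u,v) = -E(u,i v)`), so
`mulI = ∑ r_s (X_s - X_s†)/2`, and `X - X†` is skew (`X†† = X` by the antisymmetry of `E`). (Compare
SE/Big/Hl.lean.) -/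
def S_HrS : Prop :=
  S_Lc1 → ∀ (G : AV) (E : G.V →ₗ[ℝ] G.V →ₗ[ℝ] ℝ), IsRf G E →
    mulI G ∈ Submodule.span ℝ {X | RatEnd G X ∧ IsSk E X}

/-- **OgS**: the operators on `∏ G (κ n)`. PROOF. Directly, component by component; `iM`: `S_HrS`; `rat`: as `rat_EE`
in SE/W/Lie.lean (here the lattice of `C.Y` is the product: `C.lat`); `ker`: `dgS X = 0` means `X k = 0` for `k` in
the range of `κ` (`Pi.single` vectors); the other components are real combinations of rational skew elements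
(projection of the span of `MS`). (Compare SE/R/Op4.lean.) -/
def S_OgS : Prop :=
  S_HrS → S_Lc1 → ∀ (q N : ℕ) (G : Fin q → AV) (κ : Fin N → Fin q)
    (E : ∀ k, (G k).V →ₗ[ℝ] (G k).V →ₗ[ℝ] ℝ) (C : SE.Prd fun n => G (κ n)),
    (∀ k, IsRf (G k) (E k)) → OpX (dgS C) (MS E) (JT G)

/-- **OpP**: products. PROOF. `Θ x v = ψ⁻¹ (Θ₁ x₁ (ψ v)₁, Θ₂ x₂ (ψ v)₂)`. `rat`: `RatEnd` of both components and
`P.lat` (common multiples). `iM`: `(i₁, 0)` and `(0, i₂)` (`0 ∈ M_i`). `ker`: `Θ x = 0` gives `Θ₁ x₁ = 0`,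
`Θ₂ x₂ = 0`; `x₁ ∈ span M₁`, so `(x₁, 0)` is in the span of the `(y, 0)`, `y ∈ M₁`, `Θ₁ y = 0`. -/
def S_OpP : Prop :=
  ∀ (T₁ T₂ : AV) (P : Pd T₁ T₂) (R₁ R₂ : Type) [Ring R₁] [Algebra ℝ R₁] [Ring R₂] [Algebra ℝ R₂]
    (Θ₁ : R₁ →ₗ[ℝ] Module.End ℝ T₁.V) (Θ₂ : R₂ →ₗ[ℝ] Module.End ℝ T₂.V) (M₁ : Set R₁)
    (M₂ : Set R₂) (i₁ : R₁) (i₂ : R₂), OpX Θ₁ M₁ i₁ → OpX Θ₂ M₂ i₂ →
    ∃ Θ : R₁ × R₂ →ₗ[ℝ] Module.End ℝ P.T.V,
      (∀ x v, P.ψ (Θ x v) = (Θ₁ x.1 (P.ψ v).1, Θ₂ x.2 (P.ψ v).2)) ∧ OpX Θ (M₁ ×ˢ M₂) (i₁, i₂)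

/-- **KiS**: HODGE CLASSES ON `∏ G (κ n)` ARE KILLED. PROOF. `S_OgS`, `SER.S_LX`: `h ⊆ MS E`, an `HLieG E h`.
`S_TuS`: `HiG f h`; `S_ReG`: every skew tuple is in the real span of the commutators, these kill `c`. -/
def S_KiS : Prop :=
  S_OgS → S_HrS → S_Lc1 → S_LX → S_La → S_La' → S_Lb → S_ReG →
  ∀ (q N : ℕ) (G : Fin q → AV) (κ : Fin N → Fin q) (E : ∀ k, (G k).V →ₗ[ℝ] (G k).V →ₗ[ℝ] ℝ)
    (f : ∀ k, Frm (G k) →ₗ[ℂ] Frm (G k) →ₗ[ℂ] ℂ) (C : SE.Prd fun n => G (κ n)), TuD G E f →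
    (∀ h, HLieG E h → HiG f h) → ∀ (m : ℕ) (c : Hlg C.Y m), IsHodge C.Y m c → KlS C E c

/-- **LiM**: THE LIE ALGEBRA STEP. PROOF. `Θ₁`, `M₁` from `S_Op4` (`Op4` gives `OpX`), `Θ₂ = dgS C`, `M₂ = MS E`
(`S_OgS`), `Θ` from `S_OpP`; `SER.S_LX`: `h ⊆ M₁ ×ˢ M₂`. The image of `h` in `TM R B G`,
`(x, y) ↦ ((x.2.1, x.2.2.2), y)`, is an `HLieM D₁ S E`. `LM` for `Y = JT G` (`S_JS`: skew): there is `W` in the real
span of the commutators of `h` with `R`-component `0`, `B`-component `0`, `G`-component `JT G`; its `A`-component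
is `0` (`com`), its component at `J i` is in the real span of the commutators of elements of `Lef (J i)`
(`cJ`). `Θ W` kills `c`, `Θ ((0, 0, W.1.2.2.1, 0), 0)` kills `c` by the hypothesis, so `Θ (0, JT G)` does, and this
is `X` (`OpX.iT` for `dgS C`). (Copy SE/R/LiS.lean.) -/
def S_LiM : Prop :=
  S_OgS → S_HrS → S_Lc1 → S_OpP → S_JS → S_LX → S_Op4 → S_Hr → S_La → S_La' → S_Lb → S_Lc2 →
  E.S_IsoInv →
  ∀ (A T₁ B : AV) (q₁ N₁ q N : ℕ) (R : Fin q₁ → AV) (k : Fin N₁ → Fin q₁) (m₁ : Fin q₁ → ℕ)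
    (D₁ : ∀ i, Cyc (R i) (m₁ i)) (J : Fin q → AV) (j : Fin N → Fin q) (m : Fin q → ℕ)
    (D : ∀ i, Cyc (J i) (m i)) (ι : Type) (_ : GC B ι)
    (ψ : T₁.V ≃ₗ[ℂ] ((A.V × (∀ n, (R (k n)).V)) × (∀ n, (J (j n)).V)) × B.V) (q' N' : ℕ)
    (G : Fin q' → AV) (κ : Fin N' → Fin q') (E : ∀ k, (G k).V →ₗ[ℝ] (G k).V →ₗ[ℝ] ℝ)
    (C : SE.Prd fun n => G (κ n)) (P : Pd T₁ C.Y), IsCM A → (∀ k, IsRf (G k) (E k)) →
    LM D₁ B G E →
    (∀ v ∈ T₁.L, ∃ z : ℕ, z ≠ 0 ∧ ((z • (ψ v).1.1.1 ∈ A.L ∧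
      ∀ n, z • (ψ v).1.1.2 n ∈ (R (k n)).L) ∧
      ∀ n, z • (ψ v).1.2 n ∈ (J (j n)).L) ∧ z • (ψ v).2 ∈ B.L) →
    ∀ (d : ℕ) (c : Hlg P.T d), IsHodge P.T d c →
    (∀ P₀ Q₀ : ∀ i, Module.End ℝ (J i).V, (∀ i, P₀ i ∈ Lef (J i) (D i).Z (D i).ψ) →
      (∀ i, Q₀ i ∈ Lef (J i) (D i).Z (D i).ψ) → ∀ X : Module.End ℝ P.T.V,
      (∀ v, ψ (P.ψ (X v)).1 = ((0, fun n => (P₀ * Q₀ - Q₀ * P₀) (j n) ((ψ (P.ψ v).1).1.2 n)), 0) ∧
        (P.ψ (X v)).2 = 0) → ∀ a, lieAct X c a = 0) →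
    ∀ X : Module.End ℝ P.T.V, (∀ v, P.ψ (X v) = (0, Complex.I • (P.ψ v).2)) →
      ∀ a, lieAct X c a = 0

/-- **RepS**: REPRESENTATIVES of the isogeny classes. PROOF. As `SEQ.tRep` (SE/Q/Rep.lean), without the
CM factors: the quotient of `Fin N` by `Isg`. -/
def S_RepS : Prop :=
  E.S_IsoInv → ∀ (𝒞 : AV → Prop) (Y B : AV) (N : ℕ) (G : Fin N → AV), (∀ n, 𝒞 (G n)) →
    IsProdE B Y G → ∃ (q : ℕ) (R : Fin q → AV) (κ : Fin N → Fin q), (∀ i, 𝒞 (R i)) ∧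
      (∀ i i', i ≠ i' → ¬ Isg (R i) (R i')) ∧ IsProdE B Y fun n => R (κ n)

/-- **ThS**: THE THEOREM WITH `Sp` FACTORS. PROOF. `SER.S_Rg` for `A`, `Y`, `B₁`: `A'`, `Y'`, `B₂`,
`B₁ ~ Y' × B₂`. `C : SE.Prd (G (κ n))` (`SE.tPex`, SE/W/Pex.lean), `T₁` a copy of `B₁ × ∏ J_(j n)` (`prodE` in
SE/W/Lie.lean), `P : Pd T₁ C.Y` (`pL0`); `T ~ B × ∏ J ~ (B₁ × ∏ G) × ∏ J ~ T₁ × C.Y`. `SER.S_TrR`: a Hodge class `c'` of
`P.T`, killed by the commutators of the `Lef (J i)`, acting on `T₁` only. `S_LiM` with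
`T₁.V ≅ B₁.V × ∏ J ≅ (Y'.V × B₂.V) × ∏ J ≅ ((A'.V × ∏ R) × ∏ J) × B₂.V`: `(0, i)` kills `c'`, so `(i, 0)` does
(`HC.L.pLa`), `S_Ld` (HC/L/Ld.lean): both circles. `SER.S_KuR` with `𝒳` = the commutators of the families `Lef (J i)`
acting on `T₁`; for `T₁` the hypothesis, for `C.Y` the hypothesis. (Copy SE/R/ThR.lean.) -/
def S_ThS : Prop :=
  S_LiM → S_OgS → S_HrS → S_Lc1 → S_OpP → S_JS → S_LX → S_Op4 → S_Hr → S_KuR → S_TrR → S_Rg →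
  E.S_IsoInv →
  ∀ (A Y B₁ B T : AV) (q₁ N₁ N₂ q N : ℕ) (R : Fin q₁ → AV) (k : Fin N₁ → Fin q₁)
    (m₁ : Fin q₁ → ℕ) (D₁ : ∀ i, Cyc (R i) (m₁ i)) (E₂ : Fin N₂ → AV) (J : Fin q → AV)
    (j : Fin N → Fin q) (m : Fin q → ℕ) (D : ∀ i, Cyc (J i) (m i)) (q' N' : ℕ)
    (G : Fin q' → AV) (κ : Fin N' → Fin q') (E : ∀ k, (G k).V →ₗ[ℝ] (G k).V →ₗ[ℝ] ℝ)
    (ψ : T.V ≃ₗ[ℂ] B.V × (∀ n, (J (j n)).V)),
    IsCM A → (∀ k, IsRf (G k) (E k)) → (∀ B₂ : AV, LM D₁ B₂ G E) → (∀ n, IsRM (E₂ n)) →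
    IsProdE Y A (fun n => R (k n)) → IsProdE B₁ Y E₂ → IsProdE B B₁ (fun n => G (κ n)) →
    (∀ v ∈ T.L, ∃ k : ℕ, k ≠ 0 ∧ k • (ψ v).1 ∈ B.L ∧ ∀ n, k • (ψ v).2 n ∈ (J (j n)).L) →
    (∀ (T₁ : AV) (ψ₁ : T₁.V ≃ₗ[ℂ] B₁.V × (∀ n, (J (j n)).V)),
      (∀ v ∈ T₁.L, ∃ k : ℕ, k ≠ 0 ∧ k • (ψ₁ v).1 ∈ B₁.L ∧ ∀ n, k • (ψ₁ v).2 n ∈ (J (j n)).L) →
      ∀ (d : ℕ) (c : Hlg T₁ d), IsHodge T₁ d c →
      HC.SE.SUK (fun i => (D i).Z) (fun i => (D i).ψ) ψ₁ c → HC.SE.Alg2 T₁ d c) →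
    (∀ (C : SE.Prd fun n => G (κ n)) (d : ℕ) (c : Hlg C.Y d), IsHodge C.Y d c →
      HC.SE.Alg2 C.Y d c) →
    ∀ (d : ℕ) (c : Hlg T d), IsHodge T d c →
    HC.SE.SUK (fun i => (D i).Z) (fun i => (D i).ψ) ψ c → HC.SE.Alg2 T d c

end SES
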